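import Mathlib

set_option autoImplicit false

/-! The ascending HNN extension of the integral Heisenberg group by `x ↦ x^4, y ↦ y^4, z ↦ z`,
given by a finite presentation, and a faithful concrete model of it. -/

namespace Pool.Agent.H214Z.CG

/-- the concrete model: `ℚ² ⋊ (ℤ × ℤ)` -/
@[ext]
structure H where
  a : ℚ
  b : ℚ
  i : ℤ
  j : ℤ

instance : Mul H :=
  ⟨fun g h => ⟨g.a + 4 ^ g.j * (h.a + g.i * h.b), g.b + 4 ^ g.j * h.b, g.i + h.i, g.j + h.j⟩⟩
instance : One H := ⟨⟨0, 0, 0, 0⟩⟩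
instance : Inv H := ⟨fun g => ⟨-(4 ^ (-g.j) * (g.a - g.i * g.b)), -(4 ^ (-g.j) * g.b), -g.i, -g.j⟩⟩

@[simp] theorem mul_a (g h : H) : (g * h).a = g.a + 4 ^ g.j * (h.a + g.i * h.b) := rfl
@[simp] theorem mul_b (g h : H) : (g * h).b = g.b + 4 ^ g.j * h.b := rfl
@[simp] theorem mul_i (g h : H) : (g * h).i = g.i + h.i := rfl
@[simp] theorem mul_j (g h : H) : (g * h).j = g.j + h.j := rfl
@[simp] theorem one_a : (1 : H).a = 0 := rfl
@[simp] theorem one_b : (1 : H).b = 0 := rfl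
@[simp] theorem one_i : (1 : H).i = 0 := rfl
@[simp] theorem one_j : (1 : H).j = 0 := rfl
@[simp] theorem inv_a (g : H) : (g⁻¹).a = -(4 ^ (-g.j) * (g.a - g.i * g.b)) := rfl
@[simp] theorem inv_b (g : H) : (g⁻¹).b = -(4 ^ (-g.j) * g.b) := rfl
@[simp] theorem inv_i (g : H) : (g⁻¹).i = -g.i := rfl
@[simp] theorem inv_j (g : H) : (g⁻¹).j = -g.j := rfl

theorem four_ne : (4 : ℚ) ≠ 0 := by norm_num

instance : Group H := Group.ofLeftAxioms
  (fun g h k => by
    ext
    · simp only [mul_a, mul_b, mul_i, mul_j, zpow_add₀ four_ne]; push_cast; ring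
    · simp only [mul_b, mul_j, zpow_add₀ four_ne]; ring
    · simp only [mul_i]; ring
    · simp only [mul_j]; ring)
  (fun g => by ext <;> simp)
  (fun g => by
    ext
    · simp only [mul_a, inv_a, inv_i, inv_j, one_a]; push_cast; ring
    · simp only [mul_b, inv_b, inv_j, one_b]; ring
    · simp
    · simp)

/-- the four generators in the model -/
def gen : Fin 4 → H := ![⟨1, 0, 0, 0⟩, ⟨0, 1, 0, 0⟩, ⟨0, 0, 1, 0⟩, ⟨0, 0, 0, 1⟩]

/-- free generators -/
def fx : FreeGroup (Fin 4) := FreeGroup.of 0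
def fy : FreeGroup (Fin 4) := FreeGroup.of 1
def fz : FreeGroup (Fin 4) := FreeGroup.of 2
def ft : FreeGroup (Fin 4) := FreeGroup.of 3

/-- the six relators -/
def rels : Set (FreeGroup (Fin 4)) :=
  {fx * fy * (fy * fx)⁻¹, fx * fz * (fz * fx)⁻¹, ft * fz * (fz * ft)⁻¹,
    fz * fy * fz⁻¹ * (fx * fy)⁻¹, ft * fx * ft⁻¹ * (fx ^ 4)⁻¹, ft * fy * ft⁻¹ * (fy ^ 4)⁻¹}

theorem rels_finite : rels.Finite := by
  unfold rels
  exact Set.toFinite _

/-- the group -/
abbrev G : Type := PresentedGroup rels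

def x : G := PresentedGroup.of 0
def y : G := PresentedGroup.of 1
def z : G := PresentedGroup.of 2
def t : G := PresentedGroup.of 3

theorem hxy : Commute x y :=
  PresentedGroup.mk_eq_mk_of_mul_inv_mem (rels := rels) (x := fx * fy) (y := fy * fx)
    (by simp [rels])
theorem hxz : Commute x z :=
  PresentedGroup.mk_eq_mk_of_mul_inv_mem (rels := rels) (x := fx * fz) (y := fz * fx)
    (by simp [rels])
theorem htz : Commute t z :=
  PresentedGroup.mk_eq_mk_of_mul_inv_mem (rels := rels) (x := ft * fz) (y := fz * ft)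
    (by simp [rels])
theorem hzy : z * y * z⁻¹ = x * y :=
  PresentedGroup.mk_eq_mk_of_mul_inv_mem (rels := rels) (x := fz * fy * fz⁻¹) (y := fx * fy)
    (by simp only [rels, Set.mem_insert_iff, true_or, or_true])
theorem htx : t * x * t⁻¹ = x ^ 4 :=
  PresentedGroup.mk_eq_mk_of_mul_inv_mem (rels := rels) (x := ft * fx * ft⁻¹) (y := fx ^ 4)
    (by simp only [rels, Set.mem_insert_iff, true_or, or_true])
theorem hty : t * y * t⁻¹ = y ^ 4 :=
  PresentedGroup.mk_eq_mk_of_mul_inv_mem (rels := rels) (x := ft * fy * ft⁻¹) (y := fy ^ 4)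
    (by simp only [rels, Set.mem_insert_iff, Set.mem_singleton_iff, or_true])

theorem rels_ok : ∀ r ∈ rels, FreeGroup.lift gen r = 1 := by
  intro r hr
  simp only [rels, Set.mem_insert_iff, Set.mem_singleton_iff] at hr
  rcases hr with rfl | rfl | rfl | rfl | rfl | rfl <;>
    simp only [fx, fy, fz, ft, map_mul, map_inv, FreeGroup.lift_apply_of, pow_succ,
      pow_zero, map_one] <;>
    ext <;> simp [gen] <;> norm_num

/-- the homomorphism to the model -/
def pr : G →* H := PresentedGroup.toGroup rels_ok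

@[simp] theorem pr_x : pr x = ⟨1, 0, 0, 0⟩ := PresentedGroup.toGroup.of rels_ok
@[simp] theorem pr_y : pr y = ⟨0, 1, 0, 0⟩ := PresentedGroup.toGroup.of rels_ok
@[simp] theorem pr_z : pr z = ⟨0, 0, 1, 0⟩ := PresentedGroup.toGroup.of rels_ok
@[simp] theorem pr_t : pr t = ⟨0, 0, 0, 1⟩ := PresentedGroup.toGroup.of rels_ok

theorem zpow_of_hom (f : ℤ → H) (h0 : f 0 = 1) (h1 : ∀ n, f (n + 1) = f n * f 1) (n : ℤ) :
    f 1 ^ n = f n := by
  induction n using Int.induction_on with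
  | zero => simp [h0]
  | succ k ih => rw [zpow_add_one, ih, h1]
  | pred k ih =>
    rw [zpow_sub_one, ih]
    have := h1 (-(k : ℤ) - 1)
    rw [sub_add_cancel] at this
    rw [this, mul_inv_cancel_right]

theorem pr_xp (n : ℤ) : pr (x ^ n) = ⟨n, 0, 0, 0⟩ := by
  rw [map_zpow, pr_x]
  have := zpow_of_hom (fun n => ⟨n, 0, 0, 0⟩) (by ext <;> simp) (fun n => by ext <;> simp) n
  simpa using this
theorem pr_yp (n : ℤ) : pr (y ^ n) = ⟨0, n, 0, 0⟩ := by
  rw [map_zpow, pr_y]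
  have := zpow_of_hom (fun n => ⟨0, n, 0, 0⟩) (by ext <;> simp) (fun n => by ext <;> simp) n
  simpa using this
theorem pr_zp (n : ℤ) : pr (z ^ n) = ⟨0, 0, n, 0⟩ := by
  rw [map_zpow, pr_z]
  exact zpow_of_hom (fun n => ⟨0, 0, n, 0⟩) (by ext <;> simp) (fun n => by ext <;> simp) n
theorem pr_tp (n : ℤ) : pr (t ^ n) = ⟨0, 0, 0, n⟩ := by
  rw [map_zpow, pr_t]
  exact zpow_of_hom (fun n => ⟨0, 0, 0, n⟩) (by ext <;> simp) (fun n => by ext <;> simp) n

/-- words with integral coordinates -/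
def W (A B i j : ℤ) : G := x ^ A * y ^ B * z ^ i * t ^ j

theorem pr_W (A B i j : ℤ) : pr (W A B i j) = ⟨A, B, i, j⟩ := by
  simp only [W, map_mul, pr_xp, pr_yp, pr_zp, pr_tp]
  ext <;> simp

theorem W_x (e A B i j : ℤ) : x ^ e * W A B i j = W (e + A) B i j := by
  simp only [W, zpow_add, mul_assoc]

theorem W_y (e A B i j : ℤ) : y ^ e * W A B i j = W A (e + B) i j := by
  have h : y ^ e * x ^ A = x ^ A * y ^ e := ((hxy.zpow_zpow A e).symm).eq
  simp only [W, zpow_add, ← mul_assoc, h]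

theorem z_yp (B : ℤ) : z * y ^ B * z⁻¹ = x ^ B * y ^ B := by
  rw [← conj_zpow, hzy, hxy.mul_zpow]

theorem W_z (A B i j : ℤ) : z * W A B i j = W (A + B) B (1 + i) j := by
  have h : z * x ^ A = x ^ A * z := ((hxz.zpow_left A).symm).eq
  have h2 : z * y ^ B = x ^ B * y ^ B * z := by rw [← z_yp]; group
  simp only [W, zpow_add, zpow_one]
  calc z * (x ^ A * y ^ B * z ^ i * t ^ j) = (z * x ^ A) * y ^ B * z ^ i * t ^ j := by group
    _ = x ^ A * (z * y ^ B) * z ^ i * t ^ j := by rw [h]; group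
    _ = _ := by rw [h2]; simp only [mul_assoc]

theorem W_zi (A B i j : ℤ) : z⁻¹ * W A B i j = W (A - B) B (i - 1) j := by
  have := W_z (A - B) B (i - 1) j
  rw [show A - B + B = A by ring, show 1 + (i - 1) = i by ring] at this
  rw [← this, inv_mul_cancel_left]

theorem W_t (A B i j : ℤ) : t * W A B i j = W (4 * A) (4 * B) i (1 + j) := by
  have h1 : t * x ^ A = x ^ (4 * A) * t := by
    rw [zpow_mul, show (4 : ℤ) = ((4 : ℕ) : ℤ) from rfl, zpow_natCast, ← htx, conj_zpow]; group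
  have h2 : t * y ^ B = y ^ (4 * B) * t := by
    rw [zpow_mul, show (4 : ℤ) = ((4 : ℕ) : ℤ) from rfl, zpow_natCast, ← hty, conj_zpow]; group
  have h3 : t * z ^ i = z ^ i * t := (htz.zpow_right i).eq
  simp only [W, zpow_add, zpow_one]
  calc t * (x ^ A * y ^ B * z ^ i * t ^ j) = (t * x ^ A) * y ^ B * z ^ i * t ^ j := by
        simp only [mul_assoc]
    _ = x ^ (4 * A) * (t * y ^ B) * z ^ i * t ^ j := by rw [h1]; simp only [mul_assoc]
    _ = x ^ (4 * A) * y ^ (4 * B) * (t * z ^ i) * t ^ j := by rw [h2]; simp only [mul_assoc]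
    _ = _ := by rw [h3]; simp only [mul_assoc]

theorem tp_conj (w : G) (hw : t * w * t⁻¹ = w ^ 4) (m : ℕ) :
    t ^ m * w * (t ^ m)⁻¹ = w ^ (4 ^ m) := by
  induction m with
  | zero => simp
  | succ m ih =>
    calc t ^ (m + 1) * w * (t ^ (m + 1))⁻¹ = t ^ m * (t * w * t⁻¹) * (t ^ m)⁻¹ := by
          rw [pow_succ]; group
      _ = (t ^ m * w * (t ^ m)⁻¹) ^ 4 := by rw [hw, conj_pow]
      _ = _ := by rw [ih, ← pow_mul, pow_succ]

theorem tp_conj' (w : G) (hw : t * w * t⁻¹ = w ^ 4) (m : ℕ) (e : ℤ) :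
    w ^ e * (t ^ m)⁻¹ = (t ^ m)⁻¹ * w ^ ((4 ^ m : ℕ) * e) := by
  rw [zpow_mul, zpow_natCast, ← tp_conj w hw, conj_zpow]; group

/-- normal form -/
def NF (g : G) : Prop := ∃ (m : ℕ) (A B i k : ℤ), g = (t ^ m)⁻¹ * W A B i k

theorem NF_x (e : ℤ) {g : G} (h : NF g) : NF (x ^ e * g) := by
  obtain ⟨m, A, B, i, k, rfl⟩ := h
  exact ⟨m, _, B, i, k, by rw [← mul_assoc, tp_conj' x htx, mul_assoc, W_x]⟩

theorem NF_y (e : ℤ) {g : G} (h : NF g) : NF (y ^ e * g) := by
  obtain ⟨m, A, B, i, k, rfl⟩ := h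
  exact ⟨m, A, _, i, k, by rw [← mul_assoc, tp_conj' y hty, mul_assoc, W_y]⟩

theorem NF_z {g : G} (h : NF g) : NF (z * g) := by
  obtain ⟨m, A, B, i, k, rfl⟩ := h
  have h1 : z * (t ^ m)⁻¹ = (t ^ m)⁻¹ * z := ((htz.pow_left m).inv_left.symm).eq
  exact ⟨m, _, _, _, _, by rw [← mul_assoc, h1, mul_assoc, W_z]⟩

theorem NF_zi {g : G} (h : NF g) : NF (z⁻¹ * g) := by
  obtain ⟨m, A, B, i, k, rfl⟩ := h
  have h1 : z⁻¹ * (t ^ m)⁻¹ = (t ^ m)⁻¹ * z⁻¹ := ((htz.pow_left m).inv_inv.symm).eq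
  exact ⟨m, _, _, _, _, by rw [← mul_assoc, h1, mul_assoc, W_zi]⟩

theorem NF_t {g : G} (h : NF g) : NF (t * g) := by
  obtain ⟨m, A, B, i, k, rfl⟩ := h
  have h1 : t * (t ^ m)⁻¹ = (t ^ m)⁻¹ * t := by group
  exact ⟨m, _, _, _, _, by rw [← mul_assoc, h1, mul_assoc, W_t]⟩

theorem NF_ti {g : G} (h : NF g) : NF (t⁻¹ * g) := by
  obtain ⟨m, A, B, i, k, rfl⟩ := h
  exact ⟨m + 1, A, B, i, k, by rw [pow_succ, mul_inv_rev, mul_assoc]⟩

theorem NF_all (g : G) : NF g := by
  have hg : g ∈ Subgroup.closure (Set.range (PresentedGroup.of : Fin 4 → G)) := by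
    rw [PresentedGroup.closure_range_of]; trivial
  induction hg using Subgroup.closure_induction_left with
  | one => exact ⟨0, 0, 0, 0, 0, by simp [W]⟩
  | mul_left s hs g _ ih =>
    obtain ⟨k, rfl⟩ := hs
    fin_cases k
    · have := NF_x 1 ih
      rw [zpow_one] at this
      exact this
    · have := NF_y 1 ih
      rw [zpow_one] at this
      exact this
    · exact NF_z ih
    · exact NF_t ih
  | inv_mul_cancel s hs g _ ih =>
    obtain ⟨k, rfl⟩ := hs
    fin_cases k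
    · have := NF_x (-1) ih
      rw [zpow_neg_one] at this
      exact this
    · have := NF_y (-1) ih
      rw [zpow_neg_one] at this
      exact this
    · exact NF_zi ih
    · exact NF_ti ih

theorem pr_inj : Function.Injective pr := by
  rw [injective_iff_map_eq_one]
  intro g hg
  obtain ⟨m, A, B, i, k, rfl⟩ := NF_all g
  rw [map_mul, map_inv, inv_mul_eq_one, pr_W, ← zpow_natCast, pr_tp] at hg
  have h1 := congrArg H.a hg
  have h2 := congrArg H.b hg
  have h3 := congrArg H.i hg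
  have h4 := congrArg H.j hg
  simp only at h1 h2 h3 h4
  have h1' : A = 0 := by exact_mod_cast h1.symm
  have h2' : B = 0 := by exact_mod_cast h2.symm
  subst h1' h2' h3 h4
  simp [W]

theorem isConj_of (u g g' : G) (h : pr u * pr g = pr g' * pr u) : IsConj g g' := by
  rw [← map_mul, ← map_mul] at h
  have := pr_inj h
  rw [isConj_iff]
  exact ⟨u, by rw [this, mul_inv_cancel_right]⟩

end Pool.Agent.H214Z.CG
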