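import Pool.Agent.H214Z.CGBase

set_option autoImplicit false

/-! Counting elements and conjugacy classes in balls. -/

namespace Pool.Agent.H214Z.CG

open scoped Pointwise

/-- the generating set -/
def S : Set G := {z} ∪ Set.range (fun p : Fin 4 × Fin 4 => W (p.1 : ℕ) (p.2 : ℕ) 0 1)

theorem S_finite : S.Finite := (Set.finite_singleton _).union (Set.finite_range _)

theorem W_mem (c d : Fin 4) : W (c : ℕ) (d : ℕ) 0 1 ∈ S := Or.inr ⟨(c, d), rfl⟩

theorem closure_S : Subgroup.closure S = ⊤ := by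
  rw [eq_top_iff, ← PresentedGroup.closure_range_of, Subgroup.closure_le]
  have ht : t ∈ Subgroup.closure S := by
    have := Subgroup.subset_closure (W_mem 0 0)
    simpa [W] using this
  rintro _ ⟨k, rfl⟩
  fin_cases k
  · have := mul_mem (Subgroup.subset_closure (W_mem 1 0)) (inv_mem ht)
    have h2 : x ∈ Subgroup.closure S := by simpa [W] using this
    exact h2
  · have := mul_mem (Subgroup.subset_closure (W_mem 0 1)) (inv_mem ht)
    have h2 : y ∈ Subgroup.closure S := by simpa [W] using this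
    exact h2
  · exact Subgroup.subset_closure (Or.inl rfl)
  · exact ht

/-- the ball of radius one -/
def B1 : Set G := {1} ∪ S ∪ S⁻¹

theorem B1_finite : B1.Finite := ((Set.finite_singleton _).union S_finite).union S_finite.inv

theorem W_mem_ball (n : ℕ) : ∀ A B : ℕ, A < 4 ^ n → B < 4 ^ n → W A B 0 n ∈ B1 ^ n := by
  induction n with
  | zero =>
    intro A B hA hB
    have h1 : A = 0 := by omega
    have h2 : B = 0 := by omega
    subst h1 h2
    simp [W]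
  | succ n ih =>
    intro A B hA hB
    rw [pow_succ']
    have h1 := ih (A / 4) (B / 4) (by rw [pow_succ] at hA; omega) (by rw [pow_succ] at hB; omega)
    have h2 : W (A % 4 : ℕ) (B % 4 : ℕ) 0 1 ∈ B1 :=
      Or.inl (Or.inr (W_mem ⟨A % 4, Nat.mod_lt _ (by norm_num)⟩ ⟨B % 4, Nat.mod_lt _ (by norm_num)⟩))
    have h3 : W A B 0 (n + 1 : ℕ) =
        W (A % 4 : ℕ) (B % 4 : ℕ) 0 1 * W (A / 4 : ℕ) (B / 4 : ℕ) 0 n := by
      apply pr_inj
      rw [map_mul, pr_W, pr_W, pr_W]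
      have hA' : (A : ℚ) = (A % 4 : ℕ) + 4 * (A / 4 : ℕ) := by
        exact_mod_cast (Nat.mod_add_div A 4).symm
      have hB' : (B : ℚ) = (B % 4 : ℕ) + 4 * (B / 4 : ℕ) := by
        exact_mod_cast (Nat.mod_add_div B 4).symm
      ext
      · simp only [mul_a, Int.cast_natCast, zpow_one, Int.cast_zero, zero_mul, add_zero]
        exact hA'
      · simp only [mul_b, Int.cast_natCast, zpow_one]
        exact hB'
      · simp
      · simp only [mul_j]; push_cast; ring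
    rw [h3]
    exact Set.mul_mem_mul h2 h1

theorem ball_finite (n : ℕ) : (B1 ^ n).Finite := by
  induction n with
  | zero => rw [pow_zero]; exact Set.finite_one
  | succ n ih => rw [pow_succ]; exact ih.mul B1_finite

theorem ball_lower (n : ℕ) : 16 ^ n ≤ (B1 ^ n).ncard := by
  classical
  let f : ℕ × ℕ → G := fun p => W p.1 p.2 0 n
  have hf : Function.Injective f := by
    intro p q h
    have h1 := congrArg pr h
    simp only [f, pr_W, H.mk.injEq, Int.cast_natCast, Nat.cast_inj] at h1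
    exact Prod.ext h1.1 h1.2.1
  have hsub : ((Finset.range (4 ^ n) ×ˢ Finset.range (4 ^ n)).image f : Set G) ⊆ B1 ^ n := by
    intro g hg
    simp only [Finset.coe_image, Set.mem_image, Finset.mem_coe, Finset.mem_product,
      Finset.mem_range] at hg
    obtain ⟨p, ⟨h1, h2⟩, rfl⟩ := hg
    exact W_mem_ball n _ _ h1 h2
  have := Set.ncard_le_ncard hsub (ball_finite n)
  rw [Set.ncard_coe_finset, Finset.card_image_of_injective _ hf, Finset.card_product,
    Finset.card_range, ← mul_pow] at this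
  exact this

theorem ball_upper (n : ℕ) : (B1 ^ n).ncard ≤ B1.ncard ^ n := by
  classical
  have h1 : B1 = (B1_finite.toFinset : Set G) := by simp
  have h2 : B1 ^ n = ((B1_finite.toFinset ^ n : Finset G) : Set G) := by
    rw [Finset.coe_pow, ← h1]
  rw [h2, Set.ncard_coe_finset, Set.ncard_eq_toFinset_card _ B1_finite]
  exact Finset.card_pow_le

/-- `a ∈ 4 ^ lo ℤ` -/
def D (lo : ℤ) (a : ℚ) : Prop := ∃ A : ℤ, a = 4 ^ lo * A

theorem D_pow {lo k : ℤ} (h : lo ≤ k) (m : ℤ) : D lo (4 ^ k * m) := by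
  refine ⟨4 ^ (k - lo).toNat * m, ?_⟩
  push_cast
  rw [← mul_assoc, ← zpow_natCast, ← zpow_add₀ four_ne, Int.toNat_of_nonneg (by omega)]
  congr 2; ring

theorem D.mono {lo lo' : ℤ} {a : ℚ} (h : D lo a) (h' : lo' ≤ lo) : D lo' a := by
  obtain ⟨A, rfl⟩ := h
  exact D_pow h' A

theorem D.add {lo : ℤ} {a b : ℚ} (h : D lo a) (h' : D lo b) : D lo (a + b) := by
  obtain ⟨A, rfl⟩ := h
  obtain ⟨B, rfl⟩ := h'
  exact ⟨A + B, by push_cast; ring⟩

/-- the invariant of elements of length at most `n` -/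
def Inv (n : ℕ) (g : H) : Prop :=
  ∃ lo hi : ℤ, lo ≤ 0 ∧ 0 ≤ hi ∧ lo ≤ g.j ∧ g.j ≤ hi ∧ 2 * (hi - lo) - |g.j| ≤ n ∧ |g.i| ≤ n ∧
    D lo g.a ∧ D lo g.b ∧ |g.a| ≤ 3 * n * (n + 1) * 4 ^ hi ∧ |g.b| ≤ 3 * n * 4 ^ hi

theorem Inv_step {n : ℕ} {g g' : H} (h : Inv n g) (k u v : ℤ) (hk : k = min g.j g'.j)
    (hj : |g'.j - g.j| ≤ 1) (hi : |g'.i - g.i| ≤ 1) (hu : |u| ≤ 3 * (|g.i| + 1)) (hv : |v| ≤ 3)
    (ha : g'.a = g.a + 4 ^ k * u) (hb : g'.b = g.b + 4 ^ k * v) : Inv (n + 1) g' := by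
  obtain ⟨lo, hi, h1, h2, h3, h4, h5, h6, h7, h8, h9, h10⟩ := h
  have hpow : (4 : ℚ) ^ hi ≤ 4 ^ (max hi g'.j) :=
    zpow_le_zpow_right₀ (by norm_num) (le_max_left _ _)
  have hpk : (4 : ℚ) ^ k ≤ 4 ^ (max hi g'.j) :=
    zpow_le_zpow_right₀ (by norm_num) (by omega)
  have hk0 : (0 : ℚ) < 4 ^ k := by positivity
  have hn : (0 : ℚ) ≤ n := by positivity
  have hP : (0 : ℚ) < 4 ^ (max hi g'.j) := by positivity
  refine ⟨min lo g'.j, max hi g'.j, by omega, by omega, by omega, by omega, ?_, ?_, ?_, ?_, ?_, ?_⟩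
  · push_cast
    rw [abs_le] at hj
    rcases abs_cases g.j with h | h <;> rcases abs_cases g'.j with h' | h' <;> omega
  · push_cast
    rw [abs_le] at *
    omega
  · rw [ha]; exact (h7.mono (by omega)).add (D_pow (by omega) _)
  · rw [hb]; exact (h8.mono (by omega)).add (D_pow (by omega) _)
  · rw [ha]
    have hu' : |(u : ℚ)| ≤ 3 * (n + 1) := by
      have : |u| ≤ 3 * (n + 1) := by omega
      exact_mod_cast this
    have e1 : |(4 : ℚ) ^ k * u| ≤ 4 ^ (max hi g'.j) * (3 * (n + 1)) := by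
      rw [abs_mul, abs_of_pos hk0]
      exact mul_le_mul hpk hu' (abs_nonneg _) hP.le
    have e2 : (3 : ℚ) * n * (n + 1) * 4 ^ hi ≤ 3 * n * (n + 1) * 4 ^ (max hi g'.j) :=
      mul_le_mul_of_nonneg_left hpow (by positivity)
    have e3 := abs_add_le g.a ((4 : ℚ) ^ k * u)
    push_cast
    have e4 : (0 : ℚ) ≤ (n + 1) * 4 ^ (max hi g'.j) := by positivity
    nlinarith
  · rw [hb]
    have hv' : |(v : ℚ)| ≤ 3 := by exact_mod_cast hv
    have e1 : |(4 : ℚ) ^ k * v| ≤ 4 ^ (max hi g'.j) * 3 := by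
      rw [abs_mul, abs_of_pos hk0]
      exact mul_le_mul hpk hv' (abs_nonneg _) hP.le
    have e2 : (3 : ℚ) * n * 4 ^ hi ≤ 3 * n * 4 ^ (max hi g'.j) :=
      mul_le_mul_of_nonneg_left hpow (by positivity)
    have e3 := abs_add_le g.b ((4 : ℚ) ^ k * v)
    push_cast
    nlinarith

theorem abs_cd (c d : Fin 4) (i : ℤ) : |((c : ℕ) : ℤ) + i * (d : ℕ)| ≤ 3 * (|i| + 1) := by
  have hc : ((c : ℕ) : ℤ) ≤ 3 := by have := c.2; omega
  have hd : ((d : ℕ) : ℤ) ≤ 3 := by have := d.2; omega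
  have h1 := abs_add_le ((c : ℕ) : ℤ) (i * (d : ℕ))
  rw [abs_mul, Nat.abs_cast, Nat.abs_cast] at h1
  have h2 : |i| * ((d : ℕ) : ℤ) ≤ |i| * 3 := mul_le_mul_of_nonneg_left hd (abs_nonneg _)
  linarith

theorem Inv_mul {n : ℕ} {g : H} (h : Inv n g) {s : G} (hs : s ∈ B1) : Inv (n + 1) (g * pr s) := by
  have h0 : (0 : ℤ) ≤ 3 * (|g.i| + 1) := by positivity
  rcases hs with (rfl | hs) | hs
  · rw [map_one, mul_one]
    exact Inv_step h g.j 0 0 (by simp) (by simp) (by simp) (by simpa using h0) (by simp) (by simp)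
      (by simp)
  · rcases hs with rfl | ⟨⟨c, d⟩, rfl⟩
    · exact Inv_step h g.j 0 0 (by simp) (by simp) (by simp) (by simpa using h0) (by simp) (by simp)
        (by simp)
    · refine Inv_step h g.j ((c : ℕ) + g.i * (d : ℕ)) (d : ℕ) (by simp [pr_W]) (by simp [pr_W])
        (by simp [pr_W]) (abs_cd c d g.i) ?_ (by simp [pr_W]) (by simp [pr_W])
      have := d.2
      rw [Nat.abs_cast]; omega
  · rw [Set.mem_inv] at hs
    have hs' : pr s = (pr s⁻¹)⁻¹ := by simp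
    rw [hs']
    rcases hs with h1 | ⟨⟨c, d⟩, h1⟩
    · rw [Set.mem_singleton_iff] at h1
      rw [h1]
      exact Inv_step h g.j 0 0 (by simp) (by simp) (by simp) (by simpa using h0) (by simp) (by simp)
        (by simp)
    · rw [← h1]
      refine Inv_step h (g.j - 1) (-((c : ℕ) + g.i * (d : ℕ))) (-(d : ℕ)) ?_ (by simp [pr_W])
        (by simp [pr_W]) (by rw [abs_neg]; exact abs_cd c d g.i) ?_ ?_ ?_
      · simp only [pr_W, mul_j, inv_j]; omega
      · have := d.2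
        rw [abs_neg, Nat.abs_cast]; omega
      · simp only [pr_W, mul_a, inv_a, inv_b, zpow_sub₀ four_ne]
        push_cast
        norm_num
        ring
      · simp only [pr_W, mul_b, inv_b, zpow_sub₀ four_ne]
        push_cast
        norm_num
        ring

theorem Inv_ball (n : ℕ) : ∀ g ∈ B1 ^ n, Inv n (pr g) := by
  induction n with
  | zero =>
    intro g hg
    rw [pow_zero, Set.mem_one] at hg
    subst hg
    exact ⟨0, 0, by simp, by simp, by simp, by simp, by simp, by simp, ⟨0, by simp⟩, ⟨0, by simp⟩,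
      by simp, by simp⟩
  | succ n ih =>
    intro g hg
    rw [pow_succ] at hg
    obtain ⟨g, hg, s, hs, rfl⟩ := hg
    simp only [map_mul]
    exact Inv_mul (ih g hg) hs

theorem conj_scale (g : G) (lo A B : ℤ) (ha : (pr g).a = 4 ^ lo * A) (hb : (pr g).b = 4 ^ lo * B) :
    IsConj g (W A B (pr g).i (pr g).j) := by
  apply isConj_of (t ^ (-lo))
  rw [pr_tp, pr_W]
  have h4 : (4 : ℚ) ^ lo ≠ 0 := by positivity
  ext
  · simp [ha]; field_simp
  · simp [hb]; field_simp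
  · simp
  · simp [add_comm]

theorem conj_shear (A B i j m : ℤ) : IsConj (W A B i j) (W (A + m * B) B i j) := by
  apply isConj_of (z ^ m)
  rw [pr_zp, pr_W, pr_W]
  ext <;> simp [add_comm]

theorem conj_mod (i j : ℤ) (hj : j ≠ 0) : ∃ κ : ℤ, ∀ A B α β : ℤ,
    IsConj (W A B i j)
      (W (A + (4 ^ j.natAbs - 1 : ℕ) * α + κ * β) (B + (4 ^ j.natAbs - 1 : ℕ) * β) i j) := by
  have h1 : 1 ≤ 4 ^ j.natAbs := Nat.one_le_pow _ _ (by norm_num)
  rcases lt_or_gt_of_ne hj with h | h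
  · obtain ⟨k, rfl⟩ : ∃ k : ℕ, j = -k := ⟨j.natAbs, by omega⟩
    refine ⟨-i, fun A B α β => ?_⟩
    apply isConj_of (W (4 ^ k * α) (4 ^ k * β) 0 0)
    rw [pr_W, pr_W, pr_W]
    have h4 : (4 : ℚ) ^ k ≠ 0 := by positivity
    simp only [Int.natAbs_neg, Int.natAbs_natCast] at h1 ⊢
    ext
    · simp [Nat.cast_sub h1]; field_simp; ring
    · simp [Nat.cast_sub h1]; field_simp; ring
    · simp
    · simp
  · obtain ⟨k, rfl⟩ : ∃ k : ℕ, j = k := ⟨j.natAbs, by omega⟩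
    refine ⟨4 ^ k * i, fun A B α β => ?_⟩
    apply isConj_of (W (-α) (-β) 0 0)
    rw [pr_W, pr_W, pr_W]
    simp only [Int.natAbs_natCast] at h1 ⊢
    ext
    · simp [Nat.cast_sub h1]; ring
    · simp [Nat.cast_sub h1]; ring
    · simp
    · simp

theorem conj_reduce (A B i j : ℤ) (hj : j ≠ 0) : ∃ A' B' : ℕ, B' < 4 ^ j.natAbs - 1 ∧
    A' < Nat.gcd B' (4 ^ j.natAbs - 1) ∧ IsConj (W A B i j) (W A' B' i j) := by
  obtain ⟨κ, hκ⟩ := conj_mod i j hj
  have h1 : 1 < 4 ^ j.natAbs := Nat.one_lt_pow (by omega) (by norm_num)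
  set M : ℕ := 4 ^ j.natAbs - 1 with hM
  have hM0 : 0 < M := by omega
  have hM1 : (0 : ℤ) < M := by exact_mod_cast hM0
  obtain ⟨B', hB'⟩ : ∃ B' : ℕ, (B' : ℤ) = B % M :=
    ⟨(B % M).toNat, Int.toNat_of_nonneg (Int.emod_nonneg _ hM1.ne')⟩
  have hB'lt : B' < M := by
    have := Int.emod_lt_of_pos B hM1
    omega
  set g : ℕ := Nat.gcd B' M with hg
  have hg0 : 0 < g := Nat.gcd_pos_of_pos_right _ hM0
  have hg1 : (0 : ℤ) < g := by exact_mod_cast hg0
  set A1 : ℤ := A + κ * (-(B / M)) with hA1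
  obtain ⟨A', hA'⟩ : ∃ A' : ℕ, (A' : ℤ) = A1 % g :=
    ⟨(A1 % g).toNat, Int.toNat_of_nonneg (Int.emod_nonneg _ hg1.ne')⟩
  have hA'lt : A' < g := by
    have := Int.emod_lt_of_pos A1 hg1
    omega
  refine ⟨A', B', hB'lt, hA'lt, ?_⟩
  have hbez : (g : ℤ) = B' * Nat.gcdA B' M + M * Nat.gcdB B' M := Nat.gcd_eq_gcd_ab B' M
  have c1 := hκ A B (-(A1 / g) * Nat.gcdB B' M) (-(B / M))
  have e1 : B + (M : ℤ) * (-(B / M)) = B' := by rw [hB', Int.emod_def]; ring
  rw [e1] at c1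
  have c2 := conj_shear (A + M * (-(A1 / g) * Nat.gcdB B' M) + κ * (-(B / M))) B' i j
    (-(A1 / g) * Nat.gcdA B' M)
  have e2 : A + M * (-(A1 / g) * Nat.gcdB B' M) + κ * (-(B / M)) +
      (-(A1 / g) * Nat.gcdA B' M) * B' = A' := by
    rw [hA', Int.emod_def]
    have : (g : ℤ) * (A1 / g) = (B' * Nat.gcdA B' M + M * Nat.gcdB B' M) * (A1 / g) := by
      rw [← hbez]
    rw [this]
    conv_rhs => rw [hA1]
    ring
  rw [e2] at c2
  exact c1.trans c2

/-- the divisor encoded by `e` and `f` -/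
def dv (j : ℤ) (e : ℕ) (f : Bool) : ℕ := if f then e else (4 ^ j.natAbs - 1) / e

/-- representatives of the classes of nonzero height -/
def rep (p : (ℤ × ℤ) × (ℕ × Bool) × ℕ) : G :=
  W (p.2.2 % dv p.1.2 p.2.1.1 p.2.1.2 : ℕ) (p.2.2 - p.2.2 % dv p.1.2 p.2.1.1 p.2.1.2 : ℕ) p.1.1 p.1.2

theorem exists_dv (j : ℤ) (hj : j ≠ 0) (g : ℕ) (hg : g ∣ 4 ^ j.natAbs - 1) :
    ∃ e f, e < 2 ^ j.natAbs ∧ dv j e f = g := by
  have h1 : 1 < 4 ^ j.natAbs := Nat.one_lt_pow (by omega) (by norm_num)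
  obtain ⟨h, hh⟩ := hg
  have h2 : 4 ^ j.natAbs = 2 ^ j.natAbs * 2 ^ j.natAbs := by rw [← mul_pow]; rfl
  by_cases hc : g < 2 ^ j.natAbs
  · exact ⟨g, true, hc, rfl⟩
  · refine ⟨h, false, ?_, ?_⟩
    · by_contra hc2
      have := Nat.mul_le_mul (not_lt.1 hc) (not_lt.1 hc2)
      omega
    · have h0 : 0 < h := by
        rcases Nat.eq_zero_or_pos h with rfl | h0
        · omega
        · exact h0
      simp only [dv, hh]
      exact Nat.mul_div_cancel _ h0

/-- parameter boxes -/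
noncomputable def box0 (n : ℕ) : Finset (ℤ × ℤ × ℤ) :=
  Finset.Icc (-n : ℤ) n ×ˢ Finset.Icc (-(3 * n * (n + 1) * 2 ^ n) : ℤ) (3 * n * (n + 1) * 2 ^ n) ×ˢ
    Finset.Icc (-(3 * n * (n + 1) * 2 ^ n) : ℤ) (3 * n * (n + 1) * 2 ^ n)

noncomputable def box1 (n : ℕ) : Finset ((ℤ × ℤ) × (ℕ × Bool) × ℕ) :=
  (Finset.Icc (-n : ℤ) n ×ˢ Finset.Icc (-n : ℤ) n) ×ˢ
    (Finset.range (2 ^ n) ×ˢ Finset.univ) ×ˢ Finset.range (4 ^ n)

theorem int_bound {lo hi A : ℤ} {n : ℕ} {c : ℚ} (hc : 0 ≤ c) (h : 2 * (hi - lo) ≤ n)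
    (hA : |(4 : ℚ) ^ lo * A| ≤ c * 4 ^ hi) : |(A : ℚ)| ≤ c * 2 ^ n := by
  have h0 : (0 : ℚ) < 4 ^ lo := by positivity
  rw [abs_mul, abs_of_pos h0] at hA
  have h1 : (4 : ℚ) ^ hi = 4 ^ lo * 2 ^ (2 * (hi - lo)) := by
    rw [zpow_mul, show (2 : ℚ) ^ (2 : ℤ) = 4 by norm_num, ← zpow_add₀ four_ne]
    congr 1; ring
  have h2 : (2 : ℚ) ^ (2 * (hi - lo)) ≤ 2 ^ n := by
    rw [← zpow_natCast]
    exact zpow_le_zpow_right₀ (by norm_num) h
  rw [h1, mul_left_comm] at hA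
  exact (le_of_mul_le_mul_left hA h0).trans (mul_le_mul_of_nonneg_left h2 hc)

theorem cover (n : ℕ) (g : G) (hg : g ∈ B1 ^ n) :
    (∃ p ∈ box0 n, IsConj g (W p.2.1 p.2.2 p.1 0)) ∨ (∃ p ∈ box1 n, IsConj g (rep p)) := by
  obtain ⟨lo, hi, h1, h2, h3, h4, h5, h6, ⟨A, hA⟩, ⟨B, hB⟩, h9, h10⟩ := Inv_ball n g hg
  have hc := conj_scale g lo A B hA hB
  by_cases hj : (pr g).j = 0
  · left
    rw [hj] at hc h5
    refine ⟨((pr g).i, A, B), ?_, hc⟩
    have hn : (0 : ℚ) ≤ n := by positivity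
    rw [hA] at h9
    rw [hB] at h10
    have e1 := int_bound (by positivity) (by simpa using h5) h9
    have e2 := int_bound (by positivity) (by simpa using h5) h10
    have e3 : |(B : ℚ)| ≤ 3 * n * (n + 1) * 2 ^ n := by
      refine e2.trans (mul_le_mul_of_nonneg_right ?_ (by positivity))
      nlinarith
    have e1' : |A| ≤ 3 * n * (n + 1) * 2 ^ n := by exact_mod_cast e1
    have e3' : |B| ≤ 3 * n * (n + 1) * 2 ^ n := by exact_mod_cast e3
    simp only [box0, Finset.mem_product, Finset.mem_Icc]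
    exact ⟨abs_le.1 h6, abs_le.1 e1', abs_le.1 e3'⟩
  · right
    obtain ⟨A', B', hB', hA', hc2⟩ := conj_reduce A B (pr g).i (pr g).j hj
    obtain ⟨e, f, he, hef⟩ := exists_dv (pr g).j hj _ (Nat.gcd_dvd_right B' _)
    have hjn : (pr g).j.natAbs ≤ n := by
      rcases abs_cases (pr g).j with h | h <;> omega
    have hmod : (B' + A') % Nat.gcd B' (4 ^ (pr g).j.natAbs - 1) = A' := by
      rw [Nat.add_mod, Nat.mod_eq_zero_of_dvd (Nat.gcd_dvd_left _ _), zero_add, Nat.mod_mod,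
        Nat.mod_eq_of_lt hA']
    refine ⟨(((pr g).i, (pr g).j), (e, f), B' + A'), ?_, ?_⟩
    · simp only [box1, Finset.mem_product, Finset.mem_Icc, Finset.mem_range, Finset.mem_univ,
        and_true]
      refine ⟨⟨abs_le.1 h6, by omega, by omega⟩,
        he.trans_le (Nat.pow_le_pow_right (by norm_num) hjn), ?_⟩
      have hle : Nat.gcd B' (4 ^ (pr g).j.natAbs - 1) ≤ 4 ^ (pr g).j.natAbs - 1 - B' :=
        Nat.le_of_dvd (by omega) (Nat.dvd_sub (Nat.gcd_dvd_right _ _) (Nat.gcd_dvd_left _ _))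
      have := Nat.pow_le_pow_right (show 0 < 4 by norm_num) hjn
      omega
    · simp only [rep, hef, hmod, Nat.add_sub_cancel]
      exact hc.trans hc2

theorem conj_upper (n : ℕ) :
    (ConjClasses.mk '' (B1 ^ n)).ncard ≤ (box0 n).card + (box1 n).card := by
  classical
  have hsub : ConjClasses.mk '' (B1 ^ n) ⊆
      (((box0 n).image (fun p => ConjClasses.mk (W p.2.1 p.2.2 p.1 0)) ∪
        (box1 n).image (fun p => ConjClasses.mk (rep p)) : Finset (ConjClasses G)) : Set _) := by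
    rintro _ ⟨g, hg, rfl⟩
    simp only [Finset.coe_union, Finset.coe_image, Set.mem_union, Set.mem_image, Finset.mem_coe]
    rcases cover n g hg with ⟨p, hp, h⟩ | ⟨p, hp, h⟩
    · exact Or.inl ⟨p, hp, (ConjClasses.mk_eq_mk_iff_isConj.2 h).symm⟩
    · exact Or.inr ⟨p, hp, (ConjClasses.mk_eq_mk_iff_isConj.2 h).symm⟩
  refine (Set.ncard_le_ncard hsub (Finset.finite_toSet _)).trans ?_
  rw [Set.ncard_coe_finset]
  exact (Finset.card_union_le _ _).trans (add_le_add Finset.card_image_le Finset.card_image_le)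

theorem card_Icc_symm (m : ℕ) : (Finset.Icc (-(m : ℤ)) m).card = 2 * m + 1 := by
  rw [Int.card_Icc]; omega

theorem box_bound (n : ℕ) : (box0 n).card + (box1 n).card ≤ 106 * (n + 1) ^ 5 * 8 ^ n := by
  have e0 : ((3 * n * (n + 1) * 2 ^ n : ℕ) : ℤ) = 3 * n * (n + 1) * 2 ^ n := by push_cast; rfl
  have h0 : (box0 n).card =
      (2 * n + 1) * ((2 * (3 * n * (n + 1) * 2 ^ n) + 1) * (2 * (3 * n * (n + 1) * 2 ^ n) + 1)) := by
    simp only [box0, Finset.card_product, ← e0, card_Icc_symm]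
  have h1 : (box1 n).card = (2 * n + 1) * (2 * n + 1) * (2 ^ n * 2 * 4 ^ n) := by
    simp only [box1, Finset.card_product, card_Icc_symm, Finset.card_range, Finset.card_univ,
      Fintype.card_bool]
  rw [h0, h1]
  have p2 : 1 ≤ 2 ^ n := Nat.one_le_pow _ _ (by norm_num)
  have e4 : 4 ^ n = 2 ^ n * 2 ^ n := by rw [← mul_pow]; rfl
  have e8 : 8 ^ n = 2 ^ n * 2 ^ n * 2 ^ n := by rw [← mul_pow, ← mul_pow]; rfl
  rw [e4, e8]
  generalize 2 ^ n = P at *
  have a1 : 2 * n + 1 ≤ 2 * (n + 1) := by omega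
  have a2 : 2 * (3 * n * (n + 1) * P) + 1 ≤ 7 * (n + 1) ^ 2 * P := by nlinarith
  have a3 : (2 * n + 1) * ((2 * (3 * n * (n + 1) * P) + 1) * (2 * (3 * n * (n + 1) * P) + 1)) ≤
      2 * (n + 1) * ((7 * (n + 1) ^ 2 * P) * (7 * (n + 1) ^ 2 * P)) * P := by
    calc _ ≤ 2 * (n + 1) * ((7 * (n + 1) ^ 2 * P) * (7 * (n + 1) ^ 2 * P)) := by gcongr
      _ ≤ _ := Nat.le_mul_of_pos_right _ p2
  have a4 : (2 * n + 1) * (2 * n + 1) * (P * 2 * (P * P)) ≤
      (2 * (n + 1)) * (2 * (n + 1)) * (P * 2 * (P * P)) * (n + 1) ^ 3 := by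
    calc _ ≤ (2 * (n + 1)) * (2 * (n + 1)) * (P * 2 * (P * P)) := by gcongr
      _ ≤ _ := Nat.le_mul_of_pos_right _ (by positivity)
  calc _ ≤ _ := add_le_add a3 a4
    _ = _ := by ring

theorem conj_eventually : ∀ᶠ n : ℕ in Filter.atTop,
    ((ConjClasses.mk '' (B1 ^ n)).ncard : ℝ) ≤ 12 ^ n := by
  have h := tendsto_pow_const_div_const_pow_of_one_lt 5 (show (1 : ℝ) < 3 / 2 by norm_num)
  have h2 := h.eventually (gt_mem_nhds (show (0 : ℝ) < 1 / (106 * 32) by norm_num))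
  filter_upwards [h2, Filter.eventually_ge_atTop 1] with n hn hn1
  have e1 : ((ConjClasses.mk '' (B1 ^ n)).ncard : ℝ) ≤ 106 * (n + 1) ^ 5 * 8 ^ n := by
    exact_mod_cast (conj_upper n).trans (box_bound n)
  have hn1' : (1 : ℝ) ≤ n := by exact_mod_cast hn1
  have e2 : ((n : ℝ) + 1) ^ 5 ≤ (2 * n) ^ 5 := by gcongr; linarith
  rw [div_lt_iff₀ (by positivity)] at hn
  have e3 : (12 : ℝ) ^ n = (3 / 2) ^ n * 8 ^ n := by rw [← mul_pow]; norm_num
  rw [e3]
  refine e1.trans (mul_le_mul_of_nonneg_right ?_ (by positivity))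
  rw [mul_pow] at e2
  linarith

theorem root_pow (c : ℝ) (hc : 0 ≤ c) (n : ℕ) (hn : 1 ≤ n) : (c ^ n) ^ ((1 : ℝ) / n) = c := by
  rw [one_div]
  exact Real.pow_rpow_inv_natCast hc (by omega)

theorem limsup_conj : Filter.limsup
    (fun n : ℕ => ((ConjClasses.mk '' (B1 ^ n)).ncard : ℝ) ^ ((1 : ℝ) / n)) Filter.atTop ≤ 12 := by
  refine Filter.limsup_le_of_le
    (Filter.isCoboundedUnder_le_of_le _ (x := 0) (fun n => by positivity)) ?_
  filter_upwards [conj_eventually, Filter.eventually_ge_atTop 1] with n hn hn1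
  rw [← root_pow 12 (by norm_num) n hn1]
  exact Real.rpow_le_rpow (by positivity) hn (by positivity)

theorem limsup_ball : 16 ≤ Filter.limsup
    (fun n : ℕ => ((B1 ^ n).ncard : ℝ) ^ ((1 : ℝ) / n)) Filter.atTop := by
  refine Filter.le_limsup_of_frequently_le (Filter.Eventually.frequently ?_) ?_
  · filter_upwards [Filter.eventually_ge_atTop 1] with n hn1
    rw [← root_pow 16 (by norm_num) n hn1]
    exact Real.rpow_le_rpow (by positivity) (by exact_mod_cast ball_lower n) (by positivity)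
  · refine Filter.isBoundedUnder_of_eventually_le (a := (B1.ncard : ℝ)) ?_
    filter_upwards [Filter.eventually_ge_atTop 1] with n hn1
    rw [← root_pow (B1.ncard : ℝ) (by positivity) n hn1]
    exact Real.rpow_le_rpow (by positivity) (by exact_mod_cast ball_upper n) (by positivity)

end Pool.Agent.H214Z.CG
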