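import Mathlib

set_option autoImplicit false

/-! Abstract lemmas: regular sequences on quotients which are built from lines. -/

namespace Pool.Agent.H214Z.CM

open RingTheory.Sequence

section basic

variable {R B : Type} [CommRing R] [CommRing B]

/-- sequences `(f)` and `(f, g)` of `B` are regular on `R / I` -/
def Phi (ι : B →+* R) (I : Ideal R) : Prop :=
  (∀ f : B, f ≠ 0 → ∀ r, ι f * r ∈ I → r ∈ I) ∧
  (∀ f g : B, Prime f → ¬ f ∣ g → ∀ r c, ι g * r - ι f * c ∈ I → ∃ c', r - ι f * c' ∈ I)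

/-- `R / P` is isomorphic to `B` -/
def IsLine (ι : B →+* R) (P : Ideal R) : Prop :=
  ∃ φ : R →+* B, (∀ b, φ (ι b) = b) ∧ ∀ r, r ∈ P ↔ φ r = 0

theorem phi_top (ι : B →+* R) : Phi ι ⊤ :=
  ⟨fun _ _ _ _ => trivial, fun _ _ _ _ _ _ _ => ⟨0, trivial⟩⟩

theorem IsLine.isPrime [IsDomain B] {ι : B →+* R} {P : Ideal R} (h : IsLine ι P) : P.IsPrime := by
  obtain ⟨φ, -, h2⟩ := h
  have : P = RingHom.ker φ := by
    ext r; rw [h2, RingHom.mem_ker]
  rw [this]
  exact RingHom.ker_isPrime φ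

theorem IsLine.phi [IsDomain B] {ι : B →+* R} {P : Ideal R} (h : IsLine ι P) : Phi ι P := by
  obtain ⟨φ, h1, h2⟩ := h
  constructor
  · intro f hf r hr
    rw [h2] at hr ⊢
    rw [map_mul, h1] at hr
    exact (mul_eq_zero.1 hr).resolve_left hf
  · intro f g hf hfg r c hr
    rw [h2, map_sub, map_mul, map_mul, h1, h1, sub_eq_zero] at hr
    have h3 : f ∣ g * φ r := ⟨φ c, hr⟩
    obtain ⟨t, ht⟩ := (hf.dvd_or_dvd h3).resolve_left hfg
    refine ⟨ι t, ?_⟩
    rw [h2, map_sub, map_mul, h1, h1, ht, sub_self]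

theorem phi_ext {ι : B →+* R} {I I' I'' : Ideal R} {G : R}
    (h' : ∀ r, r ∈ I' ↔ G * r ∈ I) (h'' : ∀ r, r ∈ I'' ↔ ∃ c, r - G * c ∈ I)
    (p' : Phi ι I') (p'' : Phi ι I'') : Phi ι I := by
  have hle : ∀ r ∈ I, r ∈ I'' := fun r hr => (h'' r).2 ⟨0, by simpa using hr⟩
  constructor
  · intro f hf r hr
    obtain ⟨c, hc⟩ := (h'' r).1 (p''.1 f hf r (hle _ hr))
    have h1 : G * (ι f * c) ∈ I := by
      have := I.sub_mem hr (I.mul_mem_left (ι f) hc)
      convert this using 1; ring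
    have h2 := (h' c).1 (p'.1 f hf c ((h' _).2 h1))
    have := I.add_mem hc h2
    simpa using this
  · intro f g hf hfg r c hr
    obtain ⟨c1, hc1⟩ := p''.2 f g hf hfg r c (hle _ hr)
    obtain ⟨c2, hc2⟩ := (h'' _).1 hc1
    have h1 : ι g * (G * c2) - ι f * (c - ι g * c1) ∈ I := by
      have := I.sub_mem hr (I.mul_mem_left (ι g) hc2)
      convert this using 1; ring
    have h2 : ι f * (c - ι g * c1) ∈ I'' := by
      refine (h'' _).2 ⟨ι g * c2, ?_⟩
      have := I.neg_mem h1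
      convert this using 1; ring
    obtain ⟨c3, hc3⟩ := (h'' _).1 (p''.1 f hf.ne_zero _ h2)
    have h3 : G * (ι g * c2 - ι f * c3) ∈ I := by
      have := I.add_mem h1 (I.mul_mem_left (ι f) hc3)
      convert this using 1; ring
    obtain ⟨c4, hc4⟩ := p'.2 f g hf hfg c2 c3 ((h' _).2 h3)
    refine ⟨c1 + G * c4, ?_⟩
    have := I.add_mem hc2 ((h' _).1 hc4)
    convert this using 1; ring

theorem phi_add_line [IsDomain B] {ι : B →+* R} {I' P : Ideal R} {G : R} (hP : IsLine ι P)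
    (hG : G ∈ I') (hGP : G ∉ P) (h : ∀ H ∈ I', ∃ c, H - G * c ∈ P) (p' : Phi ι I') :
    Phi ι (I' ⊓ P) := by
  refine phi_ext (I' := P) (I'' := I') (G := G) ?_ ?_ hP.phi p'
  · intro r
    constructor
    · intro hr
      exact ⟨I'.mul_mem_right r hG, P.mul_mem_left G hr⟩
    · intro hr
      exact (hP.isPrime.mem_or_mem hr.2).resolve_left hGP
  · intro r
    constructor
    · intro hr
      obtain ⟨c, hc⟩ := h r hr
      exact ⟨c, I'.sub_mem hr (I'.mul_mem_right c hG), hc⟩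
    · rintro ⟨c, hc, -⟩
      have := I'.add_mem hc (I'.mul_mem_right c hG)
      simpa using this

/-- a certificate for depth at most one -/
def Psi (θ : R) (M I : Ideal R) : Prop :=
  ∃ z, (∀ a ∈ M, ∃ c, a * z - θ * c ∈ I) ∧ ∀ y, z - θ * y ∉ I

theorem psi_ext {θ : R} {M I I' I'' : Ideal R} {G : R}
    (h' : ∀ r, r ∈ I' ↔ G * r ∈ I) (h'' : ∀ r, r ∈ I'' ↔ ∃ c, r - G * c ∈ I)
    (p' : Psi θ M I') (p'' : ∀ r, θ * r ∈ I'' → r ∈ I'') : Psi θ M I := by
  obtain ⟨z, hz1, hz2⟩ := p'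
  refine ⟨G * z, ?_, ?_⟩
  · intro a ha
    obtain ⟨c, hc⟩ := hz1 a ha
    refine ⟨G * c, ?_⟩
    have := (h' _).1 hc
    convert this using 1; ring
  · intro y hy
    have h1 : θ * y ∈ I'' := by
      refine (h'' _).2 ⟨z, ?_⟩
      have := I.neg_mem hy
      convert this using 1; ring
    obtain ⟨c, hc⟩ := (h'' _).1 (p'' y h1)
    apply hz2 c
    rw [h']
    have := I.add_mem hy (I.mul_mem_left θ hc)
    convert this using 1; ring

theorem prod_lemma {κ : Type} [DecidableEq κ] (u : R) (e : κ → R) (S : Finset κ)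
    (hp : ∀ j ∈ S, (Ideal.span {u, e j}).IsPrime)
    (hne : ∀ j ∈ S, ∀ j' ∈ S, j ≠ j' → e j ∉ Ideal.span {u, e j'})
    (r : R) (hr : ∀ j ∈ S, r ∈ Ideal.span {u, e j}) :
    ∃ a b, r = u * a + (∏ j ∈ S, e j) * b := by
  induction S using Finset.induction_on generalizing r with
  | empty => exact ⟨0, r, by simp⟩
  | insert i S hi ih =>
    obtain ⟨a, b, hab⟩ := ih (fun j hj => hp j (Finset.mem_insert_of_mem hj))
      (fun j hj j' hj' => hne j (Finset.mem_insert_of_mem hj) j' (Finset.mem_insert_of_mem hj'))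
      r (fun j hj => hr j (Finset.mem_insert_of_mem hj))
    have hpi := hp i (Finset.mem_insert_self i S)
    have hu : u ∈ Ideal.span {u, e i} := Ideal.subset_span (by simp)
    have h1 : (∏ j ∈ S, e j) * b ∈ Ideal.span {u, e i} := by
      have := Ideal.sub_mem _ (hr i (Finset.mem_insert_self i S)) (Ideal.mul_mem_right a _ hu)
      rw [hab] at this
      simpa using this
    have h2 : (∏ j ∈ S, e j) ∉ Ideal.span {u, e i} := by
      intro h
      obtain ⟨j, hj, hj'⟩ := Ideal.IsPrime.prod_mem_iff.1 h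
      refine hne j (Finset.mem_insert_of_mem hj) i (Finset.mem_insert_self i S) ?_ hj'
      rintro rfl
      exact hi hj
    obtain ⟨s, t, hst⟩ := Ideal.mem_span_pair.1 ((hpi.mem_or_mem h1).resolve_left h2)
    refine ⟨a + (∏ j ∈ S, e j) * s, t, ?_⟩
    rw [hab, ← hst, Finset.prod_insert hi]
    ring

theorem phi_plane [IsDomain B] {ι : B →+* R} {κ : Type} [DecidableEq κ] (u : R) (e : κ → R)
    (S : Finset κ) (hp : ∀ j ∈ S, IsLine ι (Ideal.span {u, e j}))
    (hne : ∀ j ∈ S, ∀ j' ∈ S, j ≠ j' → e j ∉ Ideal.span {u, e j'}) :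
    Phi ι (⨅ j ∈ S, Ideal.span {u, e j}) := by
  induction S using Finset.induction_on with
  | empty => simpa using phi_top ι
  | insert i S hi ih =>
    have ih' := ih (fun j hj => hp j (Finset.mem_insert_of_mem hj))
      (fun j hj j' hj' => hne j (Finset.mem_insert_of_mem hj) j' (Finset.mem_insert_of_mem hj'))
    refine phi_ext (G := e i) ?_ ?_ ih' (hp i (Finset.mem_insert_self i S)).phi
    · intro r
      simp only [Submodule.mem_iInf, Finset.mem_insert, forall_eq_or_imp]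
      constructor
      · intro hr
        exact ⟨Ideal.mul_mem_right _ _ (Ideal.subset_span (by simp)),
          fun j hj => Ideal.mul_mem_left _ _ (hr j hj)⟩
      · intro hr j hj
        refine ((hp j (Finset.mem_insert_of_mem hj)).isPrime.mem_or_mem (hr.2 j hj)).resolve_left ?_
        refine hne i (Finset.mem_insert_self i S) j (Finset.mem_insert_of_mem hj) ?_
        rintro rfl
        exact hi hj
    · intro r
      simp only [Submodule.mem_iInf, Finset.mem_insert, forall_eq_or_imp]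
      constructor
      · intro hr
        obtain ⟨s, t, hst⟩ := Ideal.mem_span_pair.1 hr
        have h1 : r - e i * t = s * u := by rw [← hst]; ring
        refine ⟨t, ?_⟩
        rw [h1]
        exact ⟨Ideal.mul_mem_left _ _ (Ideal.subset_span (by simp)),
          fun j _ => Ideal.mul_mem_left _ _ (Ideal.subset_span (by simp))⟩
      · rintro ⟨c, hc, -⟩
        have := Ideal.add_mem _ hc (Ideal.mul_mem_right c _
          (Ideal.subset_span (by simp) : e i ∈ Ideal.span {u, e i}))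
        simpa using this

/-- removing a plane -/
theorem peel {σ κ : Type} [DecidableEq κ] (P : σ → Ideal R) (T T' : σ → Prop) (u : R) (e : κ → R)
    (S : Finset κ) (hP : ∀ s, T s → (P s).IsPrime)
    (h1 : ∀ s, T' s → T s ∧ u ∉ P s) (h2 : ∀ s, T s → T' s ∨ u ∈ P s)
    (h3 : ∀ s, T s → ∃ j ∈ S, e j ∈ P s)
    (h4 : ∀ j ∈ S, ∃ s, T s ∧ P s = Ideal.span {u, e j})
    (h5 : ∀ j ∈ S, ∀ j' ∈ S, j ≠ j' → e j ∉ Ideal.span {u, e j'}) :
    (∀ r, r ∈ (⨅ s, ⨅ (_ : T' s), P s) ↔ u * r ∈ (⨅ s, ⨅ (_ : T s), P s)) ∧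
    (∀ r, r ∈ (⨅ j ∈ S, Ideal.span {u, e j}) ↔ ∃ c, r - u * c ∈ (⨅ s, ⨅ (_ : T s), P s)) := by
  constructor
  · intro r
    simp only [Submodule.mem_iInf]
    constructor
    · intro hr s hs
      rcases h2 s hs with h | h
      · exact Ideal.mul_mem_left _ _ (hr s h)
      · exact Ideal.mul_mem_right _ _ h
    · intro hr s hs
      obtain ⟨h6, h7⟩ := h1 s hs
      exact ((hP s h6).mem_or_mem (hr s h6)).resolve_left h7
  · intro r
    simp only [Submodule.mem_iInf]
    constructor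
    · intro hr
      obtain ⟨a, b, hab⟩ := prod_lemma u e S (fun j hj => by
        obtain ⟨s, hs, h⟩ := h4 j hj
        rw [← h]; exact hP s hs) h5 r hr
      refine ⟨a, fun s hs => ?_⟩
      obtain ⟨j, hj, hj'⟩ := h3 s hs
      have h6 : r - u * a = (∏ j ∈ S, e j) * b := by rw [hab]; ring
      rw [h6]
      exact Ideal.mul_mem_right _ _ (Ideal.prod_mem _ hj hj')
    · rintro ⟨c, hc⟩ j hj
      obtain ⟨s, hs, h⟩ := h4 j hj
      have h6 := hc s hs
      rw [h] at h6
      have := Ideal.add_mem _ h6 (Ideal.mul_mem_right c _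
          (Ideal.subset_span (by simp) : u ∈ Ideal.span {u, e j}))
      simpa using this

end basic

section reg

variable {A : Type} [CommRing A]

theorem weak_one {a : A} (h : ∀ r, a * r = 0 → r = 0) : IsWeaklyRegular A [a] := by
  rw [isWeaklyRegular_singleton_iff, isSMulRegular_iff_right_eq_zero_of_smul]
  exact h

theorem weak_two_iff {a b : A} (rs : List A) (h : IsWeaklyRegular A (a :: b :: rs)) :
    (∀ r, a * r = 0 → r = 0) ∧ ∀ r c, b * r = a * c → ∃ c', r = a * c' := by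
  rw [isWeaklyRegular_cons_iff, isWeaklyRegular_cons_iff] at h
  obtain ⟨h1, h2, -⟩ := h
  refine ⟨isSMulRegular_iff_right_eq_zero_of_smul.1 h1, ?_⟩
  intro r c hrc
  have h3 := (isSMulRegular_quotient_iff_mem_of_smul_mem _ _).1 h2 r (by
    rw [smul_eq_mul, hrc]
    exact Submodule.smul_mem_pointwise_smul c a ⊤ trivial)
  obtain ⟨c', -, hc'⟩ := (Submodule.mem_smul_pointwise_iff_exists _ _ _).1 h3
  exact ⟨c', hc'.symm⟩

theorem weak_two {a b : A} (h : ∀ r, a * r = 0 → r = 0)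
    (h' : ∀ r c, b * r = a * c → ∃ c', r = a * c') : IsWeaklyRegular A [a, b] := by
  rw [isWeaklyRegular_cons_iff, isWeaklyRegular_singleton_iff]
  refine ⟨isSMulRegular_iff_right_eq_zero_of_smul.2 h, ?_⟩
  rw [isSMulRegular_quotient_iff_mem_of_smul_mem]
  intro x hx
  obtain ⟨c, -, hc⟩ := (Submodule.mem_smul_pointwise_iff_exists _ _ _).1 hx
  obtain ⟨c', hc'⟩ := h' x c hc.symm
  rw [hc']
  exact Submodule.smul_mem_pointwise_smul c' a ⊤ trivial

theorem length_le_dim [IsNoetherianRing A] [IsLocalRing A] (rs : List A) (h : IsRegular A rs) :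
    (rs.length : WithBot ℕ∞) ≤ ringKrullDim A := by
  have h1 := ringKrullDim_add_length_eq_ringKrullDim_of_isRegular rs h
  have h2 : Ideal.ofList rs ≠ ⊤ := by
    intro h3
    apply h.2
    rw [h3]; simp
  have : Nontrivial (A ⧸ Ideal.ofList rs) := Ideal.Quotient.nontrivial_iff.2 h2
  have h3 : 0 ≤ ringKrullDim (A ⧸ Ideal.ofList rs) := ringKrullDim_nonneg_of_nontrivial
  rw [← h1]
  exact le_add_of_nonneg_left h3

/-- the Cohen-Macaulay condition at a prime -/
def CMAt (p : Ideal A) [p.IsPrime] : Prop :=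
  ∃ rs : List (Localization.AtPrime p),
    (∀ r ∈ rs, r ∈ IsLocalRing.maximalIdeal (Localization.AtPrime p)) ∧
    IsRegular (Localization.AtPrime p) rs ∧
    (rs.length : WithBot ℕ∞) = ringKrullDim (Localization.AtPrime p)

theorem cmAt_of [IsNoetherianRing A] (p : Ideal A) [p.IsPrime] (rs : List A)
    (h1 : IsWeaklyRegular A rs) (h2 : ∀ r ∈ rs, r ∈ p) (h3 : p.height ≤ rs.length) : CMAt p := by
  have hreg := h1.isRegular_of_isLocalization_of_mem (Localization.AtPrime p) p h2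
  refine ⟨rs.map (algebraMap A _), ?_, hreg, ?_⟩
  · intro r hr
    obtain ⟨a, ha, rfl⟩ := List.mem_map.1 hr
    exact (IsLocalization.AtPrime.to_map_mem_maximal_iff _ p a).2 (h2 a ha)
  · apply le_antisymm (length_le_dim _ hreg)
    rw [IsLocalization.AtPrime.ringKrullDim_eq_height p, List.length_map]
    exact_mod_cast h3

theorem not_cmAt (p : Ideal A) [p.IsPrime] (θ z : A) (hθ : ∀ r, θ * r = 0 → r = 0)
    (hz : ∀ a ∈ p, ∃ c, a * z = θ * c) (hz' : ∀ s, s ∉ p → ∀ y, s * z ≠ θ * y)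
    (hh : 2 ≤ p.height) : ¬ CMAt p := by
  rintro ⟨rs, h1, h2, h3⟩
  rw [IsLocalization.AtPrime.ringKrullDim_eq_height p] at h3
  have h4 : (2 : ℕ∞) ≤ rs.length := by
    have : (rs.length : ℕ∞) = p.height := by exact_mod_cast h3
    rw [this]; exact hh
  have h5 : 2 ≤ rs.length := by exact_mod_cast h4
  obtain ⟨a, b, rs', rfl⟩ : ∃ a b rs', rs = a :: b :: rs' := by
    rcases rs with _ | ⟨a, _ | ⟨b, rs'⟩⟩
    · simp at h5
    · simp at h5
    · exact ⟨a, b, rs', rfl⟩
  let L := Localization.AtPrime p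
  obtain ⟨ha, hb⟩ := weak_two_iff rs' h2.1
  have hθ' : ∀ r : L, algebraMap A L θ * r = 0 → r = 0 := by
    have h6 := (weak_one hθ).of_isLocalization L p.primeCompl
    simp only [List.map_cons, List.map_nil] at h6
    rw [isWeaklyRegular_singleton_iff, isSMulRegular_iff_right_eq_zero_of_smul] at h6
    exact h6
  have hm : ∀ u ∈ IsLocalRing.maximalIdeal L, ∃ c, u * algebraMap A L z = algebraMap A L θ * c := by
    intro u hu
    obtain ⟨⟨x, s⟩, rfl⟩ := IsLocalization.mk'_surjective p.primeCompl u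
    have hx : x ∈ p := (IsLocalization.AtPrime.mk'_mem_maximal_iff L p x s).1 hu
    obtain ⟨c, hc⟩ := hz x hx
    refine ⟨IsLocalization.mk' L c s, ?_⟩
    rw [IsLocalization.mul_mk'_eq_mk'_of_mul, mul_comm, IsLocalization.mul_mk'_eq_mk'_of_mul,
      mul_comm z x, hc]
  obtain ⟨u, hu⟩ := hm a (h1 a (by simp))
  obtain ⟨v, hv⟩ := hm b (h1 b (by simp))
  have h6 : b * u = a * v := by
    have := hθ' (b * u - a * v) (by linear_combination a * hv - b * hu)
    exact sub_eq_zero.1 this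
  obtain ⟨w, hw⟩ := hb u v h6
  have h7 : algebraMap A L z = algebraMap A L θ * w := by
    have := ha (algebraMap A L z - algebraMap A L θ * w) (by rw [hw] at hu; linear_combination hu)
    exact sub_eq_zero.1 this
  obtain ⟨⟨y, s⟩, rfl⟩ := IsLocalization.mk'_surjective p.primeCompl w
  rw [IsLocalization.mul_mk'_eq_mk'_of_mul, IsLocalization.eq_mk'_iff_mul_eq, ← map_mul] at h7
  obtain ⟨t, ht⟩ := (IsLocalization.eq_iff_exists p.primeCompl L).1 h7
  refine hz' (t * s) (t * s : p.primeCompl).2 (t * y) ?_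
  linear_combination ht

end reg

section main

variable {R B : Type} [CommRing R] [CommRing B]

theorem cm_of_phi [IsNoetherianRing R] [IsDomain B] [IsNoetherianRing B]
    [UniqueFactorizationMonoid B] (hB : ringKrullDim B ≤ 2) (ι : B →+* R) (I : Ideal R)
    (hI : Phi ι I) (hc : ∀ Q : Ideal R, Q.IsPrime → I ≤ Q → ∃ P, IsLine ι P ∧ P ≤ Q)
    (p : Ideal (R ⧸ I)) [hp : p.IsPrime] : CMAt p := by
  let ψ : B →+* R ⧸ I := (Ideal.Quotient.mk I).comp ι
  have hmono : StrictMono (PrimeSpectrum.comap ψ) := by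
    intro p1 p2 h12
    have hle : p1.asIdeal ≤ p2.asIdeal := h12.le
    refine lt_of_le_of_ne (Ideal.comap_mono hle) ?_
    intro heq
    apply h12.ne
    apply PrimeSpectrum.ext
    apply le_antisymm hle
    intro x hx
    obtain ⟨r, rfl⟩ := Ideal.Quotient.mk_surjective x
    obtain ⟨P, ⟨φ, h1, h2⟩, h3⟩ := hc (p1.asIdeal.comap (Ideal.Quotient.mk I)) inferInstance
      (fun y hy => by
        rw [Ideal.mem_comap, Ideal.Quotient.eq_zero_iff_mem.2 hy]; exact Ideal.zero_mem _)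
    have h4 : r - ι (φ r) ∈ P := by rw [h2, map_sub, h1, sub_self]
    have h5 : Ideal.Quotient.mk I r - ψ (φ r) ∈ p1.asIdeal := by
      have := h3 h4
      rwa [Ideal.mem_comap, map_sub] at this
    have h6 : φ r ∈ (PrimeSpectrum.comap ψ p2).asIdeal := by
      change ψ (φ r) ∈ p2.asIdeal
      have := p2.asIdeal.sub_mem hx (hle h5)
      simpa using this
    rw [← heq] at h6
    have := p1.asIdeal.add_mem h5 h6
    simpa using this
  have hh : p.height ≤ (p.comap ψ).height := by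
    have h1 := Order.height_le_height_apply_of_strictMono _ hmono ⟨p, hp⟩
    rw [← PrimeSpectrum.height_eq_orderHeight, ← PrimeSpectrum.height_eq_orderHeight] at h1
    exact h1
  have r1 : ∀ f : B, f ≠ 0 → ∀ r, ψ f * r = 0 → r = 0 := by
    intro f hf x hx
    obtain ⟨r, rfl⟩ := Ideal.Quotient.mk_surjective x
    rw [Ideal.Quotient.eq_zero_iff_mem]
    apply hI.1 f hf
    rw [← Ideal.Quotient.eq_zero_iff_mem, map_mul]
    exact hx
  have r2 : ∀ f g : B, Prime f → ¬ f ∣ g → ∀ r c, ψ g * r = ψ f * c → ∃ c', r = ψ f * c' := by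
    intro f g hf hfg x y hxy
    obtain ⟨r, rfl⟩ := Ideal.Quotient.mk_surjective x
    obtain ⟨c, rfl⟩ := Ideal.Quotient.mk_surjective y
    obtain ⟨c', hc'⟩ := hI.2 f g hf hfg r c (by
      rw [← Ideal.Quotient.eq_zero_iff_mem, map_sub, map_mul, map_mul]
      exact sub_eq_zero.2 hxy)
    refine ⟨Ideal.Quotient.mk I c', ?_⟩
    rw [← Ideal.Quotient.eq_zero_iff_mem, map_sub, map_mul] at hc'
    exact sub_eq_zero.1 hc'
  have hq : (p.comap ψ).IsPrime := inferInstance
  by_cases h0 : p.comap ψ = ⊥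
  · refine cmAt_of p [] (IsWeaklyRegular.nil _ _) (by simp) ?_
    rw [h0, Ideal.height_bot] at hh
    simpa using hh
  · obtain ⟨f, hfq, hf⟩ := hq.exists_mem_prime_of_ne_bot h0
    by_cases h1 : ∀ g ∈ p.comap ψ, f ∣ g
    · refine cmAt_of p [ψ f] (weak_one (r1 f hf.ne_zero)) (by simpa using hfq) ?_
      have h2 : p.comap ψ = Ideal.span {f} := by
        apply le_antisymm
        · intro g hg
          exact Ideal.mem_span_singleton.2 (h1 g hg)
        · exact (Ideal.span_singleton_le_iff_mem _).2 hfq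
      rw [h2] at hh
      exact hh.trans (Ideal.height_span_singleton_le_one hf.not_isUnit)
    · push Not at h1
      obtain ⟨g, hg, hfg⟩ := h1
      refine cmAt_of p [ψ f, ψ g] (weak_two (r1 f hf.ne_zero) (r2 f g hf hfg)) ?_ ?_
      · intro r hr
        simp only [List.mem_cons, List.not_mem_nil, or_false] at hr
        rcases hr with rfl | rfl
        · exact hfq
        · exact hg
      · have h2 := (Ideal.height_le_ringKrullDim_of_isPrime (I := p.comap ψ)).trans hB
        have h3 : (p.comap ψ).height ≤ 2 := WithBot.coe_le_coe.1 h2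
        exact hh.trans h3

theorem not_cm_of_psi (I M : Ideal R) (θ : R) (hθ : ∀ r, θ * r ∈ I → r ∈ I) (hψ : Psi θ M I)
    (hM : ∀ s, s ∉ M → ∃ c a, IsUnit c ∧ a ∈ M ∧ s = c + a)
    (p0 p1 : Ideal R) (h0 : p0.IsPrime) (h1 : p1.IsPrime) (h2 : M.IsPrime)
    (hI : I ≤ p0) (h01 : p0 < p1) (h12 : p1 < M) :
    ∃ (p : Ideal (R ⧸ I)) (_ : p.IsPrime), ¬ CMAt p := by
  have hs : Function.Surjective (Ideal.Quotient.mk I) := Ideal.Quotient.mk_surjective
  have hpr : ∀ Q : Ideal R, Q.IsPrime → I ≤ Q → (Q.map (Ideal.Quotient.mk I)).IsPrime :=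
    fun Q hQ hIQ => Ideal.map_isPrime_of_surjective hs (by rwa [Ideal.mk_ker])
  have hmem : ∀ Q : Ideal R, I ≤ Q → ∀ r, Ideal.Quotient.mk I r ∈ Q.map (Ideal.Quotient.mk I) ↔
      r ∈ Q := by
    intro Q hQ r
    rw [← Ideal.mem_comap, Ideal.comap_map_of_surjective _ hs, ← RingHom.ker_eq_comap_bot,
      Ideal.mk_ker, sup_eq_left.2 hQ]
  have hlt : ∀ Q Q' : Ideal R, I ≤ Q → Q < Q' →
      Q.map (Ideal.Quotient.mk I) < Q'.map (Ideal.Quotient.mk I) := by
    intro Q Q' hQ h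
    refine lt_of_le_of_ne (Ideal.map_mono h.le) ?_
    intro heq
    apply h.ne
    apply le_antisymm h.le
    intro r hr
    rw [← hmem Q hQ, heq]
    exact Ideal.mem_map_of_mem _ hr
  have hI1 : I ≤ p1 := hI.trans h01.le
  have hIM : I ≤ M := hI1.trans h12.le
  have i0 := hpr p0 h0 hI
  have i1 := hpr p1 h1 hI1
  have i2 := hpr M h2 hIM
  obtain ⟨z, hz1, hz2⟩ := hψ
  refine ⟨M.map (Ideal.Quotient.mk I), i2, ?_⟩
  refine not_cmAt _ (Ideal.Quotient.mk I θ) (Ideal.Quotient.mk I z) ?_ ?_ ?_ ?_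
  · intro x hx
    obtain ⟨r, rfl⟩ := hs x
    rw [← map_mul, Ideal.Quotient.eq_zero_iff_mem] at hx
    exact Ideal.Quotient.eq_zero_iff_mem.2 (hθ r hx)
  · intro x hx
    obtain ⟨a, rfl⟩ := hs x
    obtain ⟨c, hc⟩ := hz1 a ((hmem M hIM a).1 hx)
    refine ⟨Ideal.Quotient.mk I c, ?_⟩
    rw [← Ideal.Quotient.eq_zero_iff_mem, map_sub, map_mul, map_mul] at hc
    exact sub_eq_zero.1 hc
  · intro x hx y' hxy
    obtain ⟨s, rfl⟩ := hs x
    obtain ⟨y, rfl⟩ := hs y'
    rw [hmem M hIM] at hx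
    obtain ⟨c, a, ⟨c0, rfl⟩, ha, rfl⟩ := hM s hx
    obtain ⟨d, hd⟩ := hz1 a ha
    have h3 : (c0 + a) * z - θ * y ∈ I := by
      rw [← Ideal.Quotient.eq_zero_iff_mem, map_sub, map_mul, map_mul]
      exact sub_eq_zero.2 hxy
    apply hz2 ((c0⁻¹ : Rˣ) * (y - d))
    have h4 := I.mul_mem_left (c0⁻¹ : Rˣ) (I.sub_mem h3 hd)
    convert h4 using 1
    have h5 : ((c0⁻¹ : Rˣ) : R) * c0 = 1 := Units.inv_mul c0
    linear_combination (-z) * h5
  · have a1 := Ideal.height_add_one_le_of_lt_of_isPrime (hlt p0 p1 hI h01)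
    have a2 := Ideal.height_add_one_le_of_lt_of_isPrime (hlt p1 M hI1 h12)
    calc (2 : ℕ∞) = 0 + 1 + 1 := by norm_num
      _ ≤ (p0.map (Ideal.Quotient.mk I)).height + 1 + 1 := by gcongr; exact zero_le
      _ ≤ (p1.map (Ideal.Quotient.mk I)).height + 1 := by gcongr
      _ ≤ _ := a2

end main

end Pool.Agent.H214Z.CM
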