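import Mathlib
import Pool.Agent.H214Z.CMAbs

set_option autoImplicit false

/-! Linear forms in four variables, lines, and the radical of the Jacobian ideal. -/

namespace Pool.Agent.H214Z.CM

open MvPolynomial

/-- the determinant of four vectors -/
def det4 {K : Type} [CommRing K] (a b c d : Fin 4 → K) : K :=
  (a 0 * b 1 - a 1 * b 0) * (c 2 * d 3 - c 3 * d 2) -
  (a 0 * b 2 - a 2 * b 0) * (c 1 * d 3 - c 3 * d 1) +
  (a 0 * b 3 - a 3 * b 0) * (c 1 * d 2 - c 2 * d 1) +
  (a 1 * b 2 - a 2 * b 1) * (c 0 * d 3 - c 3 * d 0) -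
  (a 1 * b 3 - a 3 * b 1) * (c 0 * d 2 - c 2 * d 0) +
  (a 2 * b 3 - a 3 * b 2) * (c 0 * d 1 - c 1 * d 0)

variable {k : Type} [Field k]

/-- the linear form with given coefficients -/
noncomputable def lin (v : Fin 4 → k) : MvPolynomial (Fin 4) k := ∑ j : Fin 4, C (v j) * X j

/-- the ideal of a line -/
noncomputable def PP (v w : Fin 4 → k) : Ideal (MvPolynomial (Fin 4) k) :=
  Ideal.span {lin v, lin w}

/-- the polynomial ring in two linear forms -/
noncomputable def iota (a b : Fin 4 → k) : MvPolynomial (Fin 2) k →+* MvPolynomial (Fin 4) k :=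
  (aeval ![lin a, lin b] : MvPolynomial (Fin 2) k →ₐ[k] MvPolynomial (Fin 4) k).toRingHom

theorem lin_eq (v : Fin 4 → k) :
    lin v = C (v 0) * X 0 + C (v 1) * X 1 + C (v 2) * X 2 + C (v 3) * X 3 := by
  simp [lin, Fin.sum_univ_four]

theorem lin_left (v w : Fin 4 → k) : lin v ∈ PP v w := Ideal.subset_span (by simp)

theorem lin_right (v w : Fin 4 → k) : lin w ∈ PP v w := Ideal.subset_span (by simp)

theorem lin_single (c : Fin 4) : lin (Pi.single c (1 : k)) = X c := by
  fin_cases c <;> simp [lin_eq]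

theorem cramer (v w a b u : Fin 4 → k) (h : det4 v w a b ≠ 0) :
    lin u = C (det4 u w a b / det4 v w a b) * lin v + C (det4 v u a b / det4 v w a b) * lin w +
      C (det4 v w u b / det4 v w a b) * lin a + C (det4 v w a u / det4 v w a b) * lin b := by
  have key : ∀ j, u j = det4 u w a b / det4 v w a b * v j + det4 v u a b / det4 v w a b * w j +
      det4 v w u b / det4 v w a b * a j + det4 v w a u / det4 v w a b * b j := by
    intro j
    field_simp
    fin_cases j <;> simp only [det4, Fin.zero_eta, Fin.mk_one, Fin.reduceFinMk] <;> ring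
  simp only [lin, Finset.mul_sum, ← Finset.sum_add_distrib]
  apply Finset.sum_congr rfl
  intro j _
  rw [key j]
  simp only [map_add, map_mul]
  ring

theorem line_data (v w a b : Fin 4 → k) (h : det4 v w a b ≠ 0) :
    ∃ φ : MvPolynomial (Fin 4) k →+* MvPolynomial (Fin 2) k, (∀ t, φ (iota a b t) = t) ∧
      (∀ r, r ∈ PP v w ↔ φ r = 0) ∧
      ∀ u, φ (lin u) = C (det4 v w u b / det4 v w a b) * X 0 +
        C (det4 v w a u / det4 v w a b) * X 1 := by
  let φ : MvPolynomial (Fin 4) k →ₐ[k] MvPolynomial (Fin 2) k := aeval (fun c =>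
    C (det4 v w (Pi.single c 1) b / det4 v w a b) * X 0 +
      C (det4 v w a (Pi.single c 1) / det4 v w a b) * X 1)
  have h1 : ∀ u, φ (lin u) = C (det4 v w u b / det4 v w a b) * X 0 +
        C (det4 v w a u / det4 v w a b) * X 1 := by
    intro u
    have e1 : det4 v w u b / det4 v w a b =
        u 0 * (det4 v w (Pi.single 0 1) b / det4 v w a b) +
        u 1 * (det4 v w (Pi.single 1 1) b / det4 v w a b) +
        u 2 * (det4 v w (Pi.single 2 1) b / det4 v w a b) +
        u 3 * (det4 v w (Pi.single 3 1) b / det4 v w a b) := by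
      field_simp
      simp [det4]
      ring
    have e2 : det4 v w a u / det4 v w a b =
        u 0 * (det4 v w a (Pi.single 0 1) / det4 v w a b) +
        u 1 * (det4 v w a (Pi.single 1 1) / det4 v w a b) +
        u 2 * (det4 v w a (Pi.single 2 1) / det4 v w a b) +
        u 3 * (det4 v w a (Pi.single 3 1) / det4 v w a b) := by
      field_simp
      simp [det4]
      ring
    rw [lin_eq, e1, e2]
    simp only [φ, map_add, map_mul, aeval_X, aeval_C, algebraMap_eq]
    ring
  have z1 : det4 v w v b = 0 := by simp only [det4]; ring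
  have z2 : det4 v w a v = 0 := by simp only [det4]; ring
  have z3 : det4 v w w b = 0 := by simp only [det4]; ring
  have z4 : det4 v w a w = 0 := by simp only [det4]; ring
  have z5 : det4 v w a a = 0 := by simp only [det4]; ring
  have z6 : det4 v w b b = 0 := by simp only [det4]; ring
  let ι : MvPolynomial (Fin 2) k →ₐ[k] MvPolynomial (Fin 4) k := aeval ![lin a, lin b]
  have h2 : φ.comp ι = AlgHom.id k _ := by
    apply MvPolynomial.algHom_ext
    intro i
    fin_cases i
    · simp [ι, h1, z5, div_self h]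
    · simp [ι, h1, z6, div_self h]
  have h3 : ∀ r, r - ι (φ r) ∈ PP v w := by
    have h4 : (Ideal.Quotient.mkₐ k (PP v w)) =
        ((Ideal.Quotient.mkₐ k (PP v w)).comp ι).comp φ := by
      apply MvPolynomial.algHom_ext
      intro c
      simp only [AlgHom.comp_apply, Ideal.Quotient.mkₐ_eq_mk]
      rw [Ideal.Quotient.eq, ← lin_single, h1]
      have h5 := cramer v w a b (Pi.single c 1) h
      have h6 : ι (C (det4 v w (Pi.single c 1) b / det4 v w a b) * X 0 +
          C (det4 v w a (Pi.single c 1) / det4 v w a b) * X 1) =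
          C (det4 v w (Pi.single c 1) b / det4 v w a b) * lin a +
          C (det4 v w a (Pi.single c 1) / det4 v w a b) * lin b := by
        simp [ι]
      rw [h6]
      refine Ideal.mem_span_pair.2 ⟨C (det4 (Pi.single c 1) w a b / det4 v w a b),
        C (det4 v (Pi.single c 1) a b / det4 v w a b), ?_⟩
      linear_combination -h5
    intro r
    rw [← Ideal.Quotient.eq]
    exact DFunLike.congr_fun h4 r
  refine ⟨φ.toRingHom, fun t => DFunLike.congr_fun h2 t, fun r => ⟨?_, ?_⟩, h1⟩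
  · intro hr
    obtain ⟨s, t, rfl⟩ := Ideal.mem_span_pair.1 hr
    change φ _ = 0
    rw [map_add, map_mul, map_mul, h1, h1, z1, z2, z3, z4]
    simp
  · intro hr
    have h4 := h3 r
    have h5 : φ r = 0 := hr
    rw [h5, map_zero, sub_zero] at h4
    exact h4

theorem isLine (v w a b : Fin 4 → k) (h : det4 v w a b ≠ 0) : IsLine (iota a b) (PP v w) := by
  obtain ⟨φ, h1, h2, -⟩ := line_data v w a b h
  exact ⟨φ, h1, h2⟩

theorem PP_prime (v w a b : Fin 4 → k) (h : det4 v w a b ≠ 0) : (PP v w).IsPrime :=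
  (isLine v w a b h).isPrime

theorem mem_PP (v w a b u : Fin 4 → k) (h : det4 v w a b ≠ 0) :
    lin u ∈ PP v w ↔ det4 v w u b = 0 ∧ det4 v w a u = 0 := by
  obtain ⟨φ, -, h2, h3⟩ := line_data v w a b h
  rw [h2, h3]
  constructor
  · intro h4
    have e1 := congrArg (eval ![1, 0]) h4
    have e2 := congrArg (eval ![0, 1]) h4
    simp [h] at e1 e2
    exact ⟨e1, e2⟩
  · rintro ⟨h4, h5⟩
    simp [h4, h5]

theorem two_pt (v w a b : Fin 4 → k) (h : det4 v w a b ≠ 0) (H h1 h2 : MvPolynomial (Fin 4) k)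
    (e1 : H - lin a * h1 ∈ PP v w) (e2 : H - lin b * h2 ∈ PP v w) :
    ∃ g, H - lin a * lin b * g ∈ PP v w := by
  obtain ⟨φ, p1, p2, p3⟩ := line_data v w a b h
  have z5 : det4 v w a a = 0 := by simp only [det4]; ring
  have z6 : det4 v w b b = 0 := by simp only [det4]; ring
  have ha : φ (lin a) = X 0 := by simp [p3, z5, div_self h]
  have hb : φ (lin b) = X 1 := by simp [p3, z6, div_self h]
  rw [p2, map_sub, map_mul, sub_eq_zero] at e1 e2
  rw [ha] at e1
  rw [hb] at e2
  have h3 : (X 1 : MvPolynomial (Fin 2) k) ∣ X 0 * φ h1 := ⟨φ h2, e1.symm.trans e2⟩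
  have h4 : ¬ (X 1 : MvPolynomial (Fin 2) k) ∣ X 0 := by
    rw [X_dvd_X]; decide
  obtain ⟨g, hg⟩ := (X_prime.dvd_or_dvd h3).resolve_left h4
  refine ⟨iota a b g, ?_⟩
  rw [p2, map_sub, map_mul, map_mul, ha, hb, p1, e1, hg]
  ring

theorem pderiv_lin (v : Fin 4 → k) (c : Fin 4) : pderiv c (lin v) = C (v c) := by
  fin_cases c <;> simp [lin_eq, pderiv_X]

theorem lin_homog (v : Fin 4 → k) : (lin v).IsHomogeneous 1 := by
  apply IsHomogeneous.sum
  intro j _
  exact (isHomogeneous_X k j).C_mul _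

theorem radical_jac [CharZero k] {d : ℕ} (hd : d ≠ 0) (l : Fin d → Fin 4 → k)
    (h0 : ∀ i, l i ≠ 0) (hp : ∀ i j, i ≠ j → (PP (l i) (l j)).IsPrime) :
    (Ideal.span (Set.range fun c : Fin 4 => pderiv (R := k) c (∏ a : Fin d, lin (l a)))).radical =
      ⨅ s : Fin d × Fin d, ⨅ (_ : s.1 ≠ s.2), PP (l s.1) (l s.2) := by
  classical
  have hder : ∀ (i : Fin d) (c : Fin 4), pderiv (R := k) c (∏ a : Fin d, lin (l a)) =
      C (l i c) * (∏ a ∈ Finset.univ.erase i, lin (l a)) +
        lin (l i) * pderiv c (∏ a ∈ Finset.univ.erase i, lin (l a)) := by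
    intro i c
    rw [← Finset.mul_prod_erase Finset.univ _ (Finset.mem_univ i), Derivation.leibniz,
      pderiv_lin]
    simp only [smul_eq_mul]
    ring
  apply le_antisymm
  · refine le_iInf fun s => le_iInf fun hs => ?_
    rw [(hp s.1 s.2 hs).radical_le_iff, Ideal.span_le]
    rintro _ ⟨c, rfl⟩
    simp only [SetLike.mem_coe]
    rw [hder s.1 c]
    refine Ideal.add_mem _ (Ideal.mul_mem_left _ _ ?_) (Ideal.mul_mem_right _ _ (lin_left _ _))
    exact Ideal.prod_mem _ (Finset.mem_erase.2 ⟨Ne.symm hs, Finset.mem_univ _⟩) (lin_right _ _)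
  · rw [Ideal.radical_eq_sInf]
    refine le_sInf ?_
    rintro Q ⟨hQ1, hQ2⟩
    have hJ : ∀ c, pderiv (R := k) c (∏ a : Fin d, lin (l a)) ∈ Q :=
      fun c => hQ1 (Ideal.subset_span ⟨c, rfl⟩)
    have hF : (∏ a : Fin d, lin (l a)) ∈ Q := by
      have h1 : (∏ a : Fin d, lin (l a)).IsHomogeneous (∑ _a : Fin d, 1) :=
        IsHomogeneous.prod _ _ _ (fun a _ => lin_homog (l a))
      have h2 := h1.sum_X_mul_pderiv
      have h3 : ∑ i : Fin 4, X i * pderiv (R := k) i (∏ a : Fin d, lin (l a)) ∈ Q :=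
        Ideal.sum_mem _ (fun c _ => Ideal.mul_mem_left _ _ (hJ c))
      rw [h2] at h3
      simp only [Finset.sum_const, Finset.card_univ, Fintype.card_fin, smul_eq_mul, mul_one,
        nsmul_eq_mul] at h3
      have h4 : (C ((d : k)⁻¹) : MvPolynomial (Fin 4) k) * (d : MvPolynomial (Fin 4) k) = 1 := by
        rw [← map_natCast (C : k →+* MvPolynomial (Fin 4) k), ← map_mul,
          inv_mul_cancel₀ (Nat.cast_ne_zero.2 hd), map_one]
      have h5 := Q.mul_mem_left (C ((d : k)⁻¹)) h3
      rwa [← mul_assoc, h4, one_mul] at h5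
    obtain ⟨i, -, hi⟩ := Ideal.IsPrime.prod_mem_iff.1 hF
    obtain ⟨c, hc⟩ := Function.ne_iff.1 (h0 i)
    have hG : (∏ a ∈ Finset.univ.erase i, lin (l a)) ∈ Q := by
      have h1 := Q.sub_mem (hJ c) (Q.mul_mem_right
        (pderiv c (∏ a ∈ Finset.univ.erase i, lin (l a))) hi)
      rw [hder i c, add_sub_cancel_right] at h1
      have h2 := Q.mul_mem_left (C ((l i c)⁻¹)) h1
      rwa [← mul_assoc, ← map_mul, inv_mul_cancel₀ hc, map_one, one_mul] at h2
    obtain ⟨j, hj, hj'⟩ := Ideal.IsPrime.prod_mem_iff.1 hG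
    have hij : i ≠ j := (Finset.mem_erase.1 hj).1.symm
    refine le_trans (iInf_le_of_le (i, j) (iInf_le _ hij)) ?_
    rw [PP, Ideal.span_le]
    rintro x (rfl | rfl)
    · exact hi
    · exact hj'

end Pool.Agent.H214Z.CM
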