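import Mathlib
import Pool.Agent.H214Z.CMArr

set_option autoImplicit false

/-! The two arrangements of twenty planes, and the finite checks. -/

namespace Pool.Agent.H214Z.CM

/-- the planes -/
def vec (q : ℤ) : Fin 20 → Fin 4 → ℤ :=
  ![![1, 0, 0, 0], ![0, 1, 0, 0], ![1, 1, 0, 0], ![1, 2, 0, 0],
    ![0, 0, 1, 0], ![0, 0, 0, 1], ![0, 0, 1, 1], ![0, 0, 1, q],
    ![1, 0, 0, -14], ![1, 0, -19, -19], ![1, 0, 15, 15 * q],
    ![0, 1, -18, 0], ![0, 1, 22, 22], ![0, 1, 15, 15 * q],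
    ![1, 1, 12, 0], ![1, 1, 0, -5], ![1, 1, 16, 16 * q],
    ![1, 2, 6, 0], ![1, 2, 0, -4], ![1, 2, -13, -13]]

/-- two general linear forms -/
def th1 : Fin 4 → ℤ := ![-1, 2, -2, 0]

/-- two general linear forms -/
def th2 : Fin 4 → ℤ := ![-2, 1, 1, 1]

/-- first plane through the triple line -/
def aa : Fin 20 → Fin 20 := ![0, 0, 0, 0, 0, 0, 0, 0, 0, 0, 0, 1, 1, 1, 2, 2, 2, 3, 3, 3]

/-- second plane through the triple line -/
def bb : Fin 20 → Fin 20 := ![0, 0, 0, 0, 0, 0, 0, 0, 5, 6, 7, 4, 6, 7, 4, 5, 7, 4, 5, 6]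

/-- plane `t` contains the line of the planes `i` and `j` -/
def mem (q : ℤ) (i j t : Fin 20) : Prop :=
  det4 (vec q i) (vec q j) (vec q t) th2 = 0 ∧ det4 (vec q i) (vec q j) th1 (vec q t) = 0

instance (q : ℤ) (i j t : Fin 20) : Decidable (mem q i j t) := by
  unfold mem; infer_instance

/-- the finite checks -/
structure Good (q : ℤ) : Prop where
  gen : ∀ i j : Fin 20, i ≠ j → det4 (vec q i) (vec q j) th1 th2 ≠ 0
  h3 : ∀ n : Fin 20, 8 ≤ n.val → (aa n < n ∧ aa n ≠ bb n) ∧ mem q n (bb n) (aa n) ∧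
    mem q (bb n) n (aa n)
  h4 : ∀ n : Fin 20, 8 ≤ n.val → ∀ j : Fin 20, j < n → j ≠ bb n → ∀ t : Fin 20, n < t →
    ¬ mem q n j t
  h5 : ∀ n : Fin 20, 8 ≤ n.val → ∀ j : Fin 20, j < n → j ≠ bb n → ∀ j' : Fin 20, j' < n →
    j' ≠ bb n → j ≠ j' → ¬ mem q n j' j
  h6 : ∀ i j : Fin 20, i.val < 8 → j.val < 8 → i ≠ j → (∀ t : Fin 20, 8 ≤ t.val → ¬ mem q i j t) →
    (mem q i j 0 ∧ mem q i j 4) ∨ (mem q i j 4 ∧ mem q i j 5) ∨ (mem q i j 0 ∧ mem q i j 1) ∨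
    (mem q i j 1 ∧ mem q i j 5) ∨ (mem q i j 2 ∧ mem q i j 6) ∨ (mem q i j 3 ∧ mem q i j 7)
  h7 : ∀ t : Fin 20, 8 ≤ t.val → ¬ mem q 0 4 t ∧ ¬ mem q 4 5 t ∧ ¬ mem q 0 1 t ∧ ¬ mem q 1 5 t ∧
    ¬ mem q 2 6 t ∧ ¬ mem q 3 7 t

theorem good2 : Good 2 :=
  ⟨by decide +kernel, by decide +kernel, by decide +kernel, by decide +kernel,
    by decide +kernel, by decide +kernel⟩

theorem good3 : Good 3 :=
  ⟨by decide +kernel, by decide +kernel, by decide +kernel, by decide +kernel,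
    by decide +kernel, by decide +kernel⟩

theorem same : ∀ a b : Fin 20, a < b → ∀ c : Fin 20, b < c → ∀ e : Fin 20, c < e →
    (det4 (vec 2 a) (vec 2 b) (vec 2 c) (vec 2 e) = 0 ↔
      det4 (vec 3 a) (vec 3 b) (vec 3 c) (vec 3 e) = 0) := by
  decide +kernel

end Pool.Agent.H214Z.CM
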