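import Mathlib
import Pool.Agent.H214Z.CMArr

set_option autoImplicit false

/-! Two arrangements with the same vanishing determinants have isomorphic intersection lattices. -/

namespace Pool.Agent.H214Z.CM

open Submodule

variable {k : Type} [Field k]

theorem det_eq_det4 (v : Fin 4 → Fin 4 → k) :
    (Matrix.of v).det = det4 (v 0) (v 1) (v 2) (v 3) := by
  rw [Matrix.det_succ_row_zero, Fin.sum_univ_four]
  simp only [Matrix.det_fin_three, Matrix.submatrix_apply, Matrix.of_apply, det4]
  simp [Fin.succAbove]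
  ring

theorem indep4 (v : Fin 4 → Fin 4 → k) :
    LinearIndependent k v ↔ det4 (v 0) (v 1) (v 2) (v 3) ≠ 0 := by
  rw [← det_eq_det4, ← isUnit_iff_ne_zero, ← Matrix.isUnit_iff_isUnit_det,
    ← Matrix.linearIndependent_rows_iff_isUnit]
  rfl

theorem indep_transfer {d : ℕ} (l m : Fin d → Fin 4 → k)
    (H : ∀ a b c e : Fin d, a < b → b < c → c < e →
      det4 (m a) (m b) (m c) (m e) = 0 → det4 (l a) (l b) (l c) (l e) = 0)
    (hs : span k (Set.range l) = ⊤) (J : Set (Fin d)) (hJ : LinearIndepOn k l J) :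
    LinearIndepOn k m J := by
  classical
  obtain ⟨b, -, hJb, hsp, hb⟩ := exists_linearIndepOn_extension hJ (Set.subset_univ J)
  have htop : ⊤ ≤ span k (Set.range (fun x : b => l x)) := by
    rw [← hs, span_le]
    have h1 : Set.range (fun x : b => l x) = l '' b := (Set.image_eq_range l b).symm
    rw [h1, ← Set.image_univ]
    exact hsp
  have hcard : b.toFinset.card = 4 := by
    have h1 := Module.finrank_eq_card_basis (Module.Basis.mk hb htop)
    rw [Module.finrank_fintype_fun_eq_card, Fintype.card_fin] at h1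
    rw [Set.toFinset_card, ← h1]
  let f := b.toFinset.orderEmbOfFin hcard
  have hf : Set.range f = b := by
    rw [Finset.range_orderEmbOfFin]; simp
  refine LinearIndepOn.mono ?_ hJb
  rw [← hf] at hb ⊢
  rw [linearIndepOn_range_iff f.injective] at hb ⊢
  rw [indep4] at hb ⊢
  intro h
  exact hb (H _ _ _ _ (f.strictMono (by decide)) (f.strictMono (by decide))
    (f.strictMono (by decide)) h)

theorem span_transfer {ι : Type} (l m : ι → Fin 4 → k)
    (H : ∀ J : Set ι, LinearIndepOn k l J ↔ LinearIndepOn k m J) (S : Set ι) (i : ι)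
    (hi : l i ∈ span k (l '' S)) : m i ∈ span k (m '' S) := by
  by_contra hm
  obtain ⟨J, hJS, -, hsp, hJ⟩ := exists_linearIndepOn_extension (linearIndepOn_empty k m)
    (Set.empty_subset S)
  have hle : span k (m '' J) ≤ span k (m '' S) := span_mono (Set.image_mono hJS)
  have h1 : m i ∉ span k (m '' J) := fun h => hm (hle h)
  have hiJ : i ∉ J := fun h => h1 (subset_span ⟨i, h, rfl⟩)
  have h2 : LinearIndepOn k l (insert i J) := (H _).2 (hJ.insert h1)
  have h3 : l i ∉ span k (l '' J) := ((linearIndepOn_insert hiJ).1 h2).2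
  apply h3
  refine (span_le.2 ?_ : span k (l '' S) ≤ span k (l '' J)) hi
  rintro _ ⟨s, hs, rfl⟩
  by_contra h4
  have hsJ : s ∉ J := fun h => h4 (subset_span ⟨s, h, rfl⟩)
  have h5 : LinearIndepOn k m (insert s J) := (H _).1 (((H _).2 hJ).insert h4)
  exact ((linearIndepOn_insert hsJ).1 h5).2 (hsp ⟨s, hs, rfl⟩)

theorem flat_subset {ι : Type} (l : ι → Fin 4 → k) (S T : Finset ι) :
    {x : Fin 4 → k | ∀ i ∈ S, ∑ j : Fin 4, l i j * x j = 0} ⊆
      {x : Fin 4 → k | ∀ i ∈ T, ∑ j : Fin 4, l i j * x j = 0} ↔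
    ∀ i ∈ T, l i ∈ span k (l '' S) := by
  constructor
  · intro h i hi
    by_contra hn
    obtain ⟨f, hf1, hf2⟩ := Submodule.exists_dual_map_eq_bot_of_notMem hn inferInstance
    have hf : ∀ v : Fin 4 → k, f v = ∑ j, v j * f (Pi.single j 1) := by
      intro v
      rw [LinearMap.pi_apply_eq_sum_univ f v]
      apply Finset.sum_congr rfl
      intro j _
      rw [smul_eq_mul]
      congr 2
      ext t
      simp [Pi.single_apply, eq_comm]
    apply hf1
    rw [hf]
    refine h (a := fun j => f (Pi.single j 1)) ?_ i hi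
    intro s hs
    rw [← hf, ← Submodule.mem_bot k, ← hf2]
    exact Submodule.mem_map_of_mem (subset_span ⟨s, hs, rfl⟩)
  · intro h x hx i hi
    refine Submodule.span_induction (p := fun v _ => ∑ j : Fin 4, v j * x j = 0) ?_ ?_ ?_ ?_
      (h i hi)
    · rintro _ ⟨s, hs, rfl⟩
      exact hx s hs
    · simp
    · intro u v _ _ hu hv
      simp only [Pi.add_apply, add_mul, Finset.sum_add_distrib, hu, hv, add_zero]
    · intro a u _ hu
      simp only [Pi.smul_apply, smul_eq_mul, mul_assoc, ← Finset.mul_sum, hu, mul_zero]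

theorem orderIso_of {σ α β : Type} [PartialOrder α] [PartialOrder β] (F : σ → α) (G : σ → β)
    (h : ∀ s t, F s ≤ F t ↔ G s ≤ G t) :
    Nonempty (↥{W : α | ∃ s, W = F s} ≃o ↥{W : β | ∃ s, W = G s}) := by
  have heq : ∀ s t, F s = F t → G s = G t := fun s t e =>
    le_antisymm ((h s t).1 e.le) ((h t s).1 e.ge)
  let f : ↥{W : α | ∃ s, W = F s} → ↥{W : β | ∃ s, W = G s} :=
    fun W => ⟨G W.2.choose, W.2.choose, rfl⟩
  have hf : ∀ W W', f W ≤ f W' ↔ W ≤ W' := by
    intro W W'
    change G W.2.choose ≤ G W'.2.choose ↔ W.1 ≤ W'.1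
    rw [← h, ← W.2.choose_spec, ← W'.2.choose_spec]
  have hsurj : Function.Surjective f := by
    rintro ⟨_, s, rfl⟩
    refine ⟨⟨F s, s, rfl⟩, Subtype.ext ?_⟩
    exact heq _ _ (Exists.choose_spec (⟨s, rfl⟩ : ∃ t, F s = F t)).symm
  exact ⟨RelIso.ofSurjective (OrderEmbedding.ofMapLEIff f hf) hsurj⟩

theorem lattice_iso {d : ℕ} (l m : Fin d → Fin 4 → k)
    (H : ∀ a b c e : Fin d, a < b → b < c → c < e →
      (det4 (l a) (l b) (l c) (l e) = 0 ↔ det4 (m a) (m b) (m c) (m e) = 0))
    (hl : span k (Set.range l) = ⊤) (hm : span k (Set.range m) = ⊤) :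
    Nonempty (↥{W : Set (Fin 4 → k) | ∃ S : Finset (Fin d),
                  W = {x : Fin 4 → k | ∀ i ∈ S, ∑ j : Fin 4, l i j * x j = 0}} ≃o
                ↥{W : Set (Fin 4 → k) | ∃ S : Finset (Fin d),
                  W = {x : Fin 4 → k | ∀ i ∈ S, ∑ j : Fin 4, m i j * x j = 0}}) := by
  have hI : ∀ J : Set (Fin d), LinearIndepOn k l J ↔ LinearIndepOn k m J := fun J =>
    ⟨indep_transfer l m (fun a b c e h1 h2 h3 => (H a b c e h1 h2 h3).2) hl J,
      indep_transfer m l (fun a b c e h1 h2 h3 => (H a b c e h1 h2 h3).1) hm J⟩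
  apply orderIso_of
  intro S T
  rw [Set.le_iff_subset, Set.le_iff_subset, flat_subset, flat_subset]
  exact ⟨fun h i hi => span_transfer l m hI _ i (h i hi),
    fun h i hi => span_transfer m l (fun J => (hI J).symm) _ i (h i hi)⟩

end Pool.Agent.H214Z.CM
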