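import Mathlib
import Pool.Agent.H214Z.CMData
import Pool.Agent.H214Z.CMLat

set_option autoImplicit false

/-! The counterexample: removing the twelve planes through triple lines (basic double links)
leaves six lines, two skew lines and four transversals, which lie on a quadric or not. -/

namespace Pool.Agent.H214Z.CM

open MvPolynomial

/-- rational vectors -/
def cq (v : Fin 4 → ℤ) : Fin 4 → ℚ := fun j => (v j : ℚ)

theorem det4_cq (a b c d : Fin 4 → ℤ) :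
    det4 (cq a) (cq b) (cq c) (cq d) = ((det4 a b c d : ℤ) : ℚ) := by
  simp only [det4, cq]
  push_cast
  ring

/-- the planes over the rationals -/
def pl (q : ℤ) (i : Fin 20) : Fin 4 → ℚ := cq (vec q i)

/-- the ideal of the line of two planes -/
noncomputable def LP (q : ℤ) (i j : Fin 20) : Ideal (MvPolynomial (Fin 4) ℚ) :=
  PP (pl q i) (pl q j)

/-- the lines which lie in none of the planes with number at least `n` -/
def TT (q : ℤ) (n : ℕ) (s : Fin 20 × Fin 20) : Prop :=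
  s.1 ≠ s.2 ∧ ∀ t : Fin 20, n ≤ t.val → lin (pl q t) ∉ LP q s.1 s.2

/-- the ideal of these lines -/
noncomputable def II (q : ℤ) (n : ℕ) : Ideal (MvPolynomial (Fin 4) ℚ) :=
  ⨅ s : Fin 20 × Fin 20, ⨅ (_ : TT q n s), LP q s.1 s.2

/-- the other planes -/
def SS (n : Fin 20) : Finset (Fin 20) := Finset.univ.filter (fun j => j < n ∧ j ≠ bb n)

variable {q : ℤ}

theorem gen' (h : Good q) {i j : Fin 20} (hij : i ≠ j) :
    det4 (pl q i) (pl q j) (cq th1) (cq th2) ≠ 0 := by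
  rw [pl, pl, det4_cq]
  exact_mod_cast h.gen i j hij

theorem mem_iff (h : Good q) {i j : Fin 20} (hij : i ≠ j) (t : Fin 20) :
    lin (pl q t) ∈ LP q i j ↔ mem q i j t := by
  rw [LP, mem_PP _ _ _ _ _ (gen' h hij), pl, pl, pl, det4_cq, det4_cq, mem]
  simp only [Int.cast_eq_zero]

theorem line' (h : Good q) {i j : Fin 20} (hij : i ≠ j) :
    IsLine (iota (cq th1) (cq th2)) (LP q i j) := isLine _ _ _ _ (gen' h hij)

theorem th_not_mem (h : Good q) {i j : Fin 20} (hij : i ≠ j) : lin (cq th1) ∉ LP q i j := by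
  rw [LP, mem_PP _ _ _ _ _ (gen' h hij)]
  exact fun h' => gen' h hij h'.1

theorem ss5 (h : Good q) (n : Fin 20) (hn : 8 ≤ n.val) :
    ∀ j ∈ SS n, ∀ j' ∈ SS n, j ≠ j' → lin (pl q j) ∉ LP q n j' := by
  intro j hj j' hj' hne
  obtain ⟨h1, h2⟩ := (Finset.mem_filter.1 hj).2
  obtain ⟨h3, h4⟩ := (Finset.mem_filter.1 hj').2
  rw [mem_iff h (ne_of_gt h3)]
  exact h.h5 n hn j h1 h2 j' h3 h4 hne

theorem step (h : Good q) (n : Fin 20) (hn : 8 ≤ n.val) :
    (∀ r, r ∈ II q n ↔ lin (pl q n) * r ∈ II q (n + 1)) ∧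
    (∀ r, r ∈ (⨅ j ∈ SS n, LP q n j) ↔ ∃ c, r - lin (pl q n) * c ∈ II q (n + 1)) := by
  refine peel (fun s : Fin 20 × Fin 20 => LP q s.1 s.2) (TT q (n + 1)) (TT q n) (lin (pl q n))
    (fun j => lin (pl q j)) (SS n) (fun s hs => (line' h hs.1).isPrime) ?_ ?_ ?_ ?_ (ss5 h n hn)
  · intro s hs
    exact ⟨⟨hs.1, fun t ht => hs.2 t (by omega)⟩, hs.2 n le_rfl⟩
  · intro s hs
    by_cases hm : lin (pl q n) ∈ LP q s.1 s.2
    · exact Or.inr hm
    · refine Or.inl ⟨hs.1, fun t ht => ?_⟩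
      rcases Nat.eq_or_lt_of_le ht with e | e
      · rw [← Fin.ext e]; exact hm
      · exact hs.2 t e
  · rintro ⟨i, j⟩ ⟨hij, hs⟩
    have hi : i.val ≤ n.val := by
      by_contra hc
      exact hs i (by omega) (lin_left _ _)
    have hj : j.val ≤ n.val := by
      by_contra hc
      exact hs j (by omega) (lin_right _ _)
    obtain ⟨ha, hb, hc⟩ := h.h3 n hn
    have haS : aa n ∈ SS n := Finset.mem_filter.2 ⟨Finset.mem_univ _, ha⟩
    by_cases h1 : i < n ∧ i ≠ bb n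
    · exact ⟨i, Finset.mem_filter.2 ⟨Finset.mem_univ _, h1⟩, lin_left _ _⟩
    by_cases h2 : j < n ∧ j ≠ bb n
    · exact ⟨j, Finset.mem_filter.2 ⟨Finset.mem_univ _, h2⟩, lin_right _ _⟩
    have e1 : i = n ∨ i = bb n := by
      by_contra hc
      push Not at hc
      exact h1 ⟨lt_of_le_of_ne hi hc.1, hc.2⟩
    have e2 : j = n ∨ j = bb n := by
      by_contra hc
      push Not at hc
      exact h2 ⟨lt_of_le_of_ne hj hc.1, hc.2⟩
    refine ⟨aa n, haS, (mem_iff h hij _).2 ?_⟩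
    rcases e1 with e1 | e1 <;> rcases e2 with e2 | e2
    · exact absurd (e1.trans e2.symm) hij
    · simp only [e1, e2]; exact hb
    · simp only [e1, e2]; exact hc
    · exact absurd (e1.trans e2.symm) hij
  · intro j hj
    obtain ⟨h1, h2⟩ := (Finset.mem_filter.1 hj).2
    refine ⟨(n, j), ⟨ne_of_gt h1, fun t ht => ?_⟩, rfl⟩
    rw [mem_iff h (ne_of_gt h1)]
    exact h.h4 n hn j h1 h2 t ht

theorem phi_up (h : Good q) (h8 : Phi (iota (cq th1) (cq th2)) (II q 8)) :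
    ∀ m, m ≤ 12 → Phi (iota (cq th1) (cq th2)) (II q (8 + m)) := by
  intro m
  induction m with
  | zero => exact fun _ => h8
  | succ m ih =>
    intro hm
    let n : Fin 20 := ⟨8 + m, by omega⟩
    have hn : 8 ≤ n.val := Nat.le_add_right 8 m
    obtain ⟨h1, h2⟩ := step h n hn
    refine phi_ext h1 h2 (ih (by omega)) ?_
    exact phi_plane _ (fun j => lin (pl q j)) (SS n)
      (fun j hj => line' h (ne_of_gt (Finset.mem_filter.1 hj).2.1)) (ss5 h n hn)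

theorem psi_up (h : Good q) (M : Ideal (MvPolynomial (Fin 4) ℚ))
    (h8 : Psi (lin (cq th1)) M (II q 8)) :
    ∀ m, m ≤ 12 → Psi (lin (cq th1)) M (II q (8 + m)) := by
  intro m
  induction m with
  | zero => exact fun _ => h8
  | succ m ih =>
    intro hm
    let n : Fin 20 := ⟨8 + m, by omega⟩
    have hn : 8 ≤ n.val := Nat.le_add_right 8 m
    obtain ⟨h1, h2⟩ := step h n hn
    refine psi_ext h1 h2 (ih (by omega)) ?_
    intro r hr
    simp only [Submodule.mem_iInf] at hr ⊢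
    intro j hj
    have hne : n ≠ j := ne_of_gt (Finset.mem_filter.1 hj).2.1
    exact ((line' h hne).isPrime.mem_or_mem (hr j hj)).resolve_left (th_not_mem h hne)

theorem LP_le (h : Good q) {i j a b : Fin 20} (hij : i ≠ j) (hm : mem q i j a ∧ mem q i j b) :
    LP q a b ≤ LP q i j := by
  rw [LP, PP, Ideal.span_le]
  rintro x (rfl | rfl)
  · exact (mem_iff h hij a).2 hm.1
  · exact (mem_iff h hij b).2 hm.2

theorem II_eight (h : Good q) :
    II q 8 = LP q 0 4 ⊓ LP q 4 5 ⊓ LP q 0 1 ⊓ LP q 1 5 ⊓ LP q 2 6 ⊓ LP q 3 7 := by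
  apply le_antisymm
  · have key : ∀ i j : Fin 20, i ≠ j → (∀ t : Fin 20, 8 ≤ t.val → ¬ mem q i j t) →
        II q 8 ≤ LP q i j := by
      intro i j hij ht
      refine iInf_le_of_le (i, j) (iInf_le _ (⟨hij, fun t h8 => ?_⟩ : TT q 8 (i, j)))
      rw [mem_iff h hij]
      exact ht t h8
    refine le_inf (le_inf (le_inf (le_inf (le_inf ?_ ?_) ?_) ?_) ?_) ?_
    · exact key 0 4 (by decide) fun t ht => (h.h7 t ht).1
    · exact key 4 5 (by decide) fun t ht => (h.h7 t ht).2.1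
    · exact key 0 1 (by decide) fun t ht => (h.h7 t ht).2.2.1
    · exact key 1 5 (by decide) fun t ht => (h.h7 t ht).2.2.2.1
    · exact key 2 6 (by decide) fun t ht => (h.h7 t ht).2.2.2.2.1
    · exact key 3 7 (by decide) fun t ht => (h.h7 t ht).2.2.2.2.2
  · refine le_iInf fun s => le_iInf fun hs => ?_
    obtain ⟨i, j⟩ := s
    obtain ⟨hij, hs⟩ := hs
    have hi : i.val < 8 := by
      by_contra hc
      exact hs i (by omega) (lin_left _ _)
    have hj : j.val < 8 := by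
      by_contra hc
      exact hs j (by omega) (lin_right _ _)
    intro r hr
    obtain ⟨⟨⟨⟨⟨r1, r2⟩, r3⟩, r4⟩, r5⟩, r6⟩ := hr
    rcases h.h6 i j hi hj hij (fun t ht hm => hs t ht ((mem_iff h hij t).2 hm)) with
      e | e | e | e | e | e
    · exact LP_le h hij e r1
    · exact LP_le h hij e r2
    · exact LP_le h hij e r3
    · exact LP_le h hij e r4
    · exact LP_le h hij e r5
    · exact LP_le h hij e r6

theorem II_twenty : II q (8 + 12) =
    ⨅ s : Fin 20 × Fin 20, ⨅ (_ : s.1 ≠ s.2), PP (pl q s.1) (pl q s.2) := by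
  unfold II
  congr 1
  funext s
  have : TT q (8 + 12) s ↔ s.1 ≠ s.2 :=
    ⟨fun h => h.1, fun h => ⟨h, fun t ht => absurd t.2 (by omega)⟩⟩
  simp only [this]
  rfl

theorem l0 : lin (pl q 0) = X 0 := by simp [lin_eq, pl, cq, vec]
theorem l1 : lin (pl q 1) = X 1 := by simp [lin_eq, pl, cq, vec]
theorem l2 : lin (pl q 2) = X 0 + X 1 := by simp [lin_eq, pl, cq, vec]
theorem l3 : lin (pl q 3) = X 0 + 2 * X 1 := by
  simp [lin_eq, pl, cq, vec]; rfl
theorem l4 : lin (pl q 4) = X 2 := by simp [lin_eq, pl, cq, vec]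
theorem l5 : lin (pl q 5) = X 3 := by simp [lin_eq, pl, cq, vec]
theorem l6 : lin (pl q 6) = X 2 + X 3 := by simp [lin_eq, pl, cq, vec]
theorem l7 : lin (pl q 7) = X 2 + (q : MvPolynomial (Fin 4) ℚ) * X 3 := by
  simp [lin_eq, pl, cq, vec]

theorem mem_LP {i j : Fin 20} {r : MvPolynomial (Fin 4) ℚ} :
    r ∈ LP q i j ↔ ∃ s t, s * lin (pl q i) + t * lin (pl q j) = r := Ideal.mem_span_pair

theorem m04 {r : MvPolynomial (Fin 4) ℚ} : r ∈ LP q 0 4 ↔ ∃ s t, s * X 0 + t * X 2 = r := by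
  rw [mem_LP, l0, l4]
theorem m45 {r : MvPolynomial (Fin 4) ℚ} : r ∈ LP q 4 5 ↔ ∃ s t, s * X 2 + t * X 3 = r := by
  rw [mem_LP, l4, l5]
theorem m01 {r : MvPolynomial (Fin 4) ℚ} : r ∈ LP q 0 1 ↔ ∃ s t, s * X 0 + t * X 1 = r := by
  rw [mem_LP, l0, l1]
theorem m15 {r : MvPolynomial (Fin 4) ℚ} : r ∈ LP q 1 5 ↔ ∃ s t, s * X 1 + t * X 3 = r := by
  rw [mem_LP, l1, l5]
theorem m26 {r : MvPolynomial (Fin 4) ℚ} :
    r ∈ LP q 2 6 ↔ ∃ s t, s * (X 0 + X 1) + t * (X 2 + X 3) = r := by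
  rw [mem_LP, l2, l6]
theorem m37 {r : MvPolynomial (Fin 4) ℚ} :
    r ∈ LP q 3 7 ↔ ∃ s t, s * (X 0 + 2 * X 1) +
      t * (X 2 + (q : MvPolynomial (Fin 4) ℚ) * X 3) = r := by
  rw [mem_LP, l3, l7]

theorem two_pt' {i j a b : Fin 20} (hd : det4 (vec q i) (vec q j) (vec q a) (vec q b) ≠ 0)
    (H h1 h2 : MvPolynomial (Fin 4) ℚ)
    (e1 : H - lin (pl q a) * h1 ∈ LP q i j) (e2 : H - lin (pl q b) * h2 ∈ LP q i j) :
    ∃ g, H - lin (pl q a) * lin (pl q b) * g ∈ LP q i j :=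
  two_pt _ _ _ _ (by rw [pl, pl, pl, pl, det4_cq]; exact_mod_cast hd) H h1 h2 e1 e2

theorem phi_eight : Phi (iota (cq th1) (cq th2)) (II 3 8) := by
  have h := good3
  have nm : ∀ i j t : Fin 20, i ≠ j → ¬ mem 3 i j t → lin (pl 3 t) ∉ LP 3 i j :=
    fun i j t hij hm hc => hm ((mem_iff h hij t).1 hc)
  have nm2 : ∀ i j t t' : Fin 20, i ≠ j → ¬ mem 3 i j t → ¬ mem 3 i j t' →
      lin (pl 3 t) * lin (pl 3 t') ∉ LP 3 i j := fun i j t t' hij hm hm' hc =>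
    ((line' h hij).isPrime.mem_or_mem hc).elim (nm i j t hij hm) (nm i j t' hij hm')
  rw [II_eight h]
  have p1 : Phi (iota (cq th1) (cq th2)) (LP 3 0 4) := (line' h (by decide)).phi
  have p2 : Phi (iota (cq th1) (cq th2)) (LP 3 0 4 ⊓ LP 3 4 5) := by
    refine phi_add_line (G := X 0) (line' h (by decide)) (m04.2 ⟨1, 0, by ring⟩) ?_ ?_ p1
    · rw [← l0 (q := 3)]; exact nm 4 5 0 (by decide) (by decide +kernel)
    · intro H hH
      obtain ⟨s, t, rfl⟩ := m04.1 hH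
      exact ⟨s, m45.2 ⟨t, 0, by ring⟩⟩
  have p3 : Phi (iota (cq th1) (cq th2)) (LP 3 0 4 ⊓ LP 3 4 5 ⊓ LP 3 0 1) := by
    refine phi_add_line (G := X 2) (line' h (by decide))
      ⟨m04.2 ⟨0, 1, by ring⟩, m45.2 ⟨1, 0, by ring⟩⟩ ?_ ?_ p2
    · rw [← l4 (q := 3)]; exact nm 0 1 4 (by decide) (by decide +kernel)
    · intro H hH
      obtain ⟨s, t, rfl⟩ := m04.1 hH.1
      exact ⟨t, m01.2 ⟨s, 0, by ring⟩⟩
  have p4 : Phi (iota (cq th1) (cq th2)) (LP 3 0 4 ⊓ LP 3 4 5 ⊓ LP 3 0 1 ⊓ LP 3 1 5) := by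
    refine phi_add_line (G := X 0 * X 2) (line' h (by decide))
      ⟨⟨m04.2 ⟨X 2, 0, by ring⟩, m45.2 ⟨X 0, 0, by ring⟩⟩, m01.2 ⟨X 2, 0, by ring⟩⟩ ?_ ?_ p3
    · rw [← l0 (q := 3), ← l4 (q := 3)]
      exact nm2 1 5 0 4 (by decide) (by decide +kernel) (by decide +kernel)
    · intro H hH
      obtain ⟨s, t, e⟩ := m01.1 hH.2
      obtain ⟨s', t', e'⟩ := m45.1 hH.1.2
      have := two_pt' (q := 3) (i := 1) (j := 5) (a := 0) (b := 4) (by decide +kernel) H s s'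
        (m15.2 ⟨t, 0, by rw [l0, ← e]; ring⟩) (m15.2 ⟨0, t', by rw [l4, ← e']; ring⟩)
      rwa [l0, l4] at this
  have p5 : Phi (iota (cq th1) (cq th2))
      (LP 3 0 4 ⊓ LP 3 4 5 ⊓ LP 3 0 1 ⊓ LP 3 1 5 ⊓ LP 3 2 6) := by
    refine phi_add_line (G := X 0 * X 3) (line' h (by decide))
      ⟨⟨⟨m04.2 ⟨X 3, 0, by ring⟩, m45.2 ⟨0, X 0, by ring⟩⟩, m01.2 ⟨X 3, 0, by ring⟩⟩,
        m15.2 ⟨0, X 0, by ring⟩⟩ ?_ ?_ p4
    · rw [← l0 (q := 3), ← l5 (q := 3)]
      exact nm2 2 6 0 5 (by decide) (by decide +kernel) (by decide +kernel)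
    · intro H hH
      obtain ⟨s, t, e⟩ := m01.1 hH.1.2
      obtain ⟨s', t', e'⟩ := m45.1 hH.1.1.2
      have := two_pt' (q := 3) (i := 2) (j := 6) (a := 0) (b := 5) (by decide +kernel) H (s - t)
        (t' - s') (m26.2 ⟨t, 0, by rw [l0, ← e]; ring⟩) (m26.2 ⟨0, s', by rw [l5, ← e']; ring⟩)
      rwa [l0, l5] at this
  have hQ : (X 0 * X 3 - X 1 * X 2 - X 1 * X 3 : MvPolynomial (Fin 4) ℚ) ∈ LP 3 3 7 :=
    m37.2 ⟨X 3, -X 1, by push_cast; ring⟩
  refine phi_add_line (G := X 0 * X 3 - X 1 * X 2) (line' h (by decide))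
    ⟨⟨⟨⟨m04.2 ⟨X 3, -X 1, by ring⟩, m45.2 ⟨-X 1, X 0, by ring⟩⟩, m01.2 ⟨X 3, -X 2, by ring⟩⟩,
      m15.2 ⟨-X 2, X 0, by ring⟩⟩, m26.2 ⟨X 3, -X 1, by ring⟩⟩ ?_ ?_ p5
  · intro hc
    apply nm2 3 7 1 5 (by decide) (by decide +kernel) (by decide +kernel)
    rw [l1, l5]
    have := Ideal.sub_mem _ hc hQ
    simpa using this
  · intro H hH
    obtain ⟨s, t, e⟩ := m01.1 hH.1.1.2
    obtain ⟨s', t', e'⟩ := m45.1 hH.1.1.1.2
    obtain ⟨g, hg⟩ := two_pt' (q := 3) (i := 3) (j := 7) (a := 1) (b := 5) (by decide +kernel) H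
      (t - 2 * s) (t' - 3 * s') (m37.2 ⟨s, 0, by rw [l1, ← e]; ring⟩)
      (m37.2 ⟨0, s', by rw [l5, ← e']; push_cast; ring⟩)
    rw [l1, l5] at hg
    refine ⟨g, ?_⟩
    have := Ideal.sub_mem _ hg (Ideal.mul_mem_right g _ hQ)
    convert this using 1
    ring

/-- the irrelevant ideal -/
noncomputable def MM : Ideal (MvPolynomial (Fin 4) ℚ) := Ideal.span (Set.range X)

theorem sub_C_mem (r : MvPolynomial (Fin 4) ℚ) : r - C (constantCoeff r) ∈ MM := by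
  induction r using MvPolynomial.induction_on with
  | C a => simp
  | add p p' hp hp' =>
    have := MM.add_mem hp hp'
    convert this using 1
    simp only [map_add]; ring
  | mul_X p n _ =>
    simp only [map_mul, constantCoeff_X, mul_zero, map_zero, sub_zero]
    exact MM.mul_mem_left _ (Ideal.subset_span ⟨n, rfl⟩)

theorem MM_eq : MM = RingHom.ker (constantCoeff : MvPolynomial (Fin 4) ℚ →+* ℚ) := by
  apply le_antisymm
  · rw [MM, Ideal.span_le]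
    rintro _ ⟨i, rfl⟩
    simp
  · intro r hr
    have := sub_C_mem r
    rw [RingHom.mem_ker.1 hr] at this
    simpa using this

/-- second order coefficients -/
noncomputable def cc (a b : Fin 4) (r : MvPolynomial (Fin 4) ℚ) : ℚ :=
  constantCoeff (pderiv a (pderiv b r))

theorem psi_eight : Psi (lin (cq th1)) MM (II 2 8) := by
  have h := good2
  rw [II_eight h]
  set J := LP 2 0 4 ⊓ LP 2 4 5 ⊓ LP 2 0 1 ⊓ LP 2 1 5 ⊓ LP 2 2 6 with hJ
  have hy : (X 0 * X 1 * (X 2 + X 3) : MvPolynomial (Fin 4) ℚ) ∈ J :=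
    ⟨⟨⟨⟨m04.2 ⟨X 1 * (X 2 + X 3), 0, by ring⟩, m45.2 ⟨X 0 * X 1, X 0 * X 1, by ring⟩⟩,
      m01.2 ⟨X 1 * (X 2 + X 3), 0, by ring⟩⟩, m15.2 ⟨X 0 * (X 2 + X 3), 0, by ring⟩⟩,
      m26.2 ⟨0, X 0 * X 1, by ring⟩⟩
  have hw : ((X 0 + X 1) * X 2 * X 3 : MvPolynomial (Fin 4) ℚ) ∈ J :=
    ⟨⟨⟨⟨m04.2 ⟨0, (X 0 + X 1) * X 3, by ring⟩, m45.2 ⟨(X 0 + X 1) * X 3, 0, by ring⟩⟩,
      m01.2 ⟨X 2 * X 3, X 2 * X 3, by ring⟩⟩, m15.2 ⟨0, (X 0 + X 1) * X 2, by ring⟩⟩,
      m26.2 ⟨X 2 * X 3, 0, by ring⟩⟩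
  have key : ∀ a ∈ MM, ∃ Z ∈ J, Z - a * (2 * X 1 * X 3) ∈ LP 2 3 7 := by
    intro a ha
    refine Submodule.span_induction
      (p := fun a _ => ∃ Z ∈ J, Z - a * (2 * X 1 * X 3) ∈ LP 2 3 7) ?_ ?_ ?_ ?_ ha
    · rintro _ ⟨i, rfl⟩
      fin_cases i
      · exact ⟨(-2) * (X 0 * X 1 * (X 2 + X 3)), J.mul_mem_left _ hy,
          m37.2 ⟨-2 * X 1 * (X 2 + X 3) - 2 * X 1 * X 3, 4 * X 1 * X 1, by
            simp only [Fin.zero_eta]; push_cast; ring⟩⟩
      · exact ⟨_, hy, m37.2 ⟨X 1 * (X 2 + X 3), -2 * X 1 * X 1, by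
            simp only [Fin.mk_one]; push_cast; ring⟩⟩
      · exact ⟨(-2) * ((X 0 + X 1) * X 2 * X 3), J.mul_mem_left _ hw,
          m37.2 ⟨-2 * X 2 * X 3, 0, by
            simp only [Fin.reduceFinMk]; push_cast; ring⟩⟩
      · exact ⟨_, hw, m37.2 ⟨X 2 * X 3, -X 1 * X 3, by
            simp only [Fin.reduceFinMk]; push_cast; ring⟩⟩
    · exact ⟨0, J.zero_mem, by simp⟩
    · rintro x y _ _ ⟨Z, h1, h2⟩ ⟨Z', h1', h2'⟩
      refine ⟨Z + Z', J.add_mem h1 h1', ?_⟩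
      have := Ideal.add_mem _ h2 h2'
      convert this using 1
      ring
    · rintro c x _ ⟨Z, h1, h2⟩
      refine ⟨c * Z, J.mul_mem_left c h1, ?_⟩
      have := Ideal.mul_mem_left _ c h2
      convert this using 1
      rw [smul_eq_mul]; ring
  have hθ : lin (cq th1) ∈ MM :=
    Ideal.sum_mem _ fun j _ => Ideal.mul_mem_left _ _ (Ideal.subset_span ⟨j, rfl⟩)
  obtain ⟨Z, hZ1, hZ2⟩ := key _ hθ
  refine ⟨Z, ?_, ?_⟩
  · intro a ha
    obtain ⟨Za, h1, h2⟩ := key a ha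
    refine ⟨Za, J.sub_mem (J.mul_mem_left _ hZ1) (J.mul_mem_left _ h1), ?_⟩
    have := Ideal.sub_mem _ (Ideal.mul_mem_left _ a hZ2) (Ideal.mul_mem_left _ (lin (cq th1)) h2)
    have e : a * Z - lin (cq th1) * Za = a * (Z - lin (cq th1) * (2 * X 1 * X 3)) -
      lin (cq th1) * (Za - a * (2 * X 1 * X 3)) := by ring
    rw [SetLike.mem_coe, e]
    exact this
  · rintro y ⟨h1, h2⟩
    have h3 : lin (cq th1) * y ∈ J := by
      have := J.sub_mem hZ1 h1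
      simpa using this
    have nz : ∀ i j : Fin 20, i ≠ j → ∀ r, lin (cq th1) * r ∈ LP 2 i j → r ∈ LP 2 i j :=
      fun i j hij r hr => ((line' h hij).isPrime.mem_or_mem hr).resolve_left (th_not_mem h hij)
    obtain ⟨s0, t0, e0⟩ := m04.1 (nz 0 4 (by decide) y h3.1.1.1.1)
    obtain ⟨s1, t1, e1⟩ := m15.1 (nz 1 5 (by decide) y h3.1.2)
    obtain ⟨s2, t2, e2⟩ := m26.1 (nz 2 6 (by decide) y h3.2)
    obtain ⟨s3, t3, e3⟩ := m37.1 (nz 3 7 (by decide) (2 * X 1 * X 3 - y) (by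
      have := Ideal.sub_mem _ h2 hZ2
      convert this using 1
      ring))
    have c0 : cc 1 3 y = 0 := by
      rw [← e0]; simp [cc, Derivation.leibniz, pderiv_X]
    have c1 : cc 0 2 y = 0 := by
      rw [← e1]; simp [cc, Derivation.leibniz, pderiv_X]
    have c2 : cc 0 2 y - cc 0 3 y - cc 1 2 y + cc 1 3 y = 0 := by
      rw [← e2]; simp [cc, Derivation.leibniz, pderiv_X]; ring
    have e4 : y = X 1 * X 3 + X 1 * X 3 - (s3 * (X 0 + X 1 + X 1) + t3 * (X 2 + X 3 + X 3)) := by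
      push_cast at e3
      linear_combination e3
    have c3 : 4 * cc 0 2 y - 2 * cc 0 3 y - 2 * cc 1 2 y + cc 1 3 y = 2 := by
      rw [e4]; simp [cc, Derivation.leibniz, pderiv_X]; ring
    linarith

theorem pl_ne (h : Good q) (i : Fin 20) : pl q i ≠ 0 := by
  intro h0
  obtain ⟨j, hj⟩ := exists_ne i
  apply gen' h hj.symm
  rw [h0]
  simp [det4]

theorem pl_indep (h : Good q) (i j : Fin 20) (hij : i ≠ j) :
    LinearIndependent ℚ ![pl q i, pl q j] := by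
  have h1 : LinearIndependent ℚ ![pl q i, pl q j, cq th1, cq th2] :=
    (indep4 _).2 (gen' h hij)
  have h2 := h1.comp (Fin.castLE (by decide : 2 ≤ 4)) (Fin.castLE_injective _)
  convert h2 using 1
  funext t
  fin_cases t <;> rfl

theorem pl_span : Submodule.span ℚ (Set.range (pl q)) = ⊤ := by
  have h1 : LinearIndependent ℚ ![pl q 0, pl q 1, pl q 4, pl q 5] :=
    (indep4 _).2 (by simp [det4, pl, cq, vec])
  have h2 := h1.span_eq_top_of_card_eq_finrank (by simp)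
  rw [eq_top_iff, ← h2]
  apply Submodule.span_mono
  rintro _ ⟨t, rfl⟩
  fin_cases t
  · exact ⟨0, rfl⟩
  · exact ⟨1, rfl⟩
  · exact ⟨4, rfl⟩
  · exact ⟨5, rfl⟩

theorem rad_eq (h : Good q) :
    (Ideal.span (Set.range fun c : Fin 4 => pderiv (R := ℚ) c
      (∏ a : Fin 20, lin (pl q a)))).radical = II q (8 + 12) := by
  rw [II_twenty]
  exact radical_jac (by decide) _ (pl_ne h) (fun i j hij => (line' h hij).isPrime)

theorem prime_cover {R σ : Type} [CommRing R] [Fintype σ] {Q : Ideal R} (hQ : Q.IsPrime)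
    (T : σ → Prop) (P : σ → Ideal R) (h : (⨅ s, ⨅ (_ : T s), P s) ≤ Q) :
    ∃ s, T s ∧ P s ≤ Q := by
  classical
  have h1 : (Finset.univ.filter T).inf P ≤ Q := by
    refine le_trans ?_ h
    refine le_iInf fun s => le_iInf fun hs => Finset.inf_le ?_
    exact Finset.mem_filter.2 ⟨Finset.mem_univ _, hs⟩
  obtain ⟨s, hs, hs'⟩ := (Ideal.IsPrime.inf_le' hQ).1 h1
  exact ⟨s, (Finset.mem_filter.1 hs).2, hs'⟩

theorem cm_three (p : Ideal (MvPolynomial (Fin 4) ℚ ⧸ II 3 (8 + 12))) [p.IsPrime] : CMAt p := by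
  refine cm_of_phi ?_ (iota (cq th1) (cq th2)) _ (phi_up good3 phi_eight 12 le_rfl) ?_ p
  · rw [MvPolynomial.ringKrullDim_of_isNoetherianRing, ringKrullDim_eq_zero_of_field]
    simp
  · intro Q hQ hle
    obtain ⟨s, hs, hs'⟩ := prime_cover hQ _ _ hle
    exact ⟨_, line' good3 hs.1, hs'⟩

theorem not_cm_two :
    ∃ (p : Ideal (MvPolynomial (Fin 4) ℚ ⧸ II 2 (8 + 12))) (_ : p.IsPrime), ¬ CMAt p := by
  let f0 : MvPolynomial (Fin 4) ℚ →ₐ[ℚ] MvPolynomial (Fin 4) ℚ := aeval ![0, 0, X 2, X 3]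
  let f1 : MvPolynomial (Fin 4) ℚ →ₐ[ℚ] MvPolynomial (Fin 4) ℚ := aeval ![0, 0, 0, X 3]
  have h01 : f1.comp f0 = f1 := by
    apply MvPolynomial.algHom_ext
    intro i
    fin_cases i <;> simp [f0, f1]
  have h12 : ∀ r, constantCoeff (f1 r) = constantCoeff r := by
    intro r
    induction r using MvPolynomial.induction_on with
    | C a => simp [f1]
    | add p p' hp hp' => simp only [map_add, hp, hp']
    | mul_X p n _ => fin_cases n <;> simp [f1]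
  refine not_cm_of_psi _ MM (lin (cq th1)) ?_ (psi_up good2 MM psi_eight 12 le_rfl) ?_
    (RingHom.ker f0) (RingHom.ker f1) (RingHom.ker_isPrime _) (RingHom.ker_isPrime _) ?_ ?_ ?_ ?_
  · intro r hr
    simp only [II, Submodule.mem_iInf] at hr ⊢
    intro s hs
    exact ((line' good2 hs.1).isPrime.mem_or_mem (hr s hs)).resolve_left (th_not_mem good2 hs.1)
  · intro s hs
    refine ⟨C (constantCoeff s), _, ?_, sub_C_mem s, by ring⟩
    rw [MM_eq, RingHom.mem_ker] at hs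
    exact (isUnit_iff_ne_zero.2 hs).map C
  · rw [MM_eq]; exact RingHom.ker_isPrime _
  · rw [II_twenty]
    refine le_trans (iInf_le_of_le ((0 : Fin 20), (1 : Fin 20)) (iInf_le _ (by decide))) ?_
    intro r hr
    obtain ⟨s, t, rfl⟩ := (m01 (q := 2)).1 hr
    simp [RingHom.mem_ker, f0]
  · refine lt_of_le_of_ne ?_ ?_
    · intro r hr
      rw [RingHom.mem_ker] at hr ⊢
      rw [← h01, AlgHom.comp_apply, hr, map_zero]
    · intro h
      have h1 : (X 2 : MvPolynomial (Fin 4) ℚ) ∈ RingHom.ker f1 := by simp [RingHom.mem_ker, f1]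
      rw [← h] at h1
      simp [RingHom.mem_ker, f0] at h1
  · refine lt_of_le_of_ne ?_ ?_
    · intro r hr
      rw [MM_eq, RingHom.mem_ker, ← h12, RingHom.mem_ker.1 hr, map_zero]
    · intro h
      have h1 : (X 3 : MvPolynomial (Fin 4) ℚ) ∈ MM := Ideal.subset_span ⟨3, rfl⟩
      rw [← h] at h1
      simp [RingHom.mem_ker, f1] at h1

theorem lat : Nonempty (↥{W : Set (Fin 4 → ℚ) | ∃ S : Finset (Fin 20),
      W = {x : Fin 4 → ℚ | ∀ i ∈ S, ∑ j : Fin 4, pl 3 i j * x j = 0}} ≃o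
    ↥{W : Set (Fin 4 → ℚ) | ∃ S : Finset (Fin 20),
      W = {x : Fin 4 → ℚ | ∀ i ∈ S, ∑ j : Fin 4, pl 2 i j * x j = 0}}) := by
  refine lattice_iso _ _ ?_ pl_span pl_span
  intro a b c e h1 h2 h3
  simp only [pl, det4_cq, Int.cast_eq_zero]
  exact (same a b h1 c h2 e h3).symm

end Pool.Agent.H214Z.CM
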