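import Pool.Agent.H214Z.ELBase

set_option autoImplicit false

/-! Arithmetic of the automaton for the equal-length conjugacy language of `D∞ × ℤ`. -/

namespace Pool.Agent.H214Z.EL

/-- explicit descents -/
def Desc (n : ℕ) (p q : ℤ) (s : Bool) : Prop :=
  match n, s with
  | 0, false => (0 ≤ p ∧ p < q) ∨ (p < 0 ∧ -p < q) ∨ (p < 0 ∧ 0 < q ∧ q ≤ 2)
  | 1, false => (p ≤ 0 ∧ q < p) ∨ (0 < p ∧ q < -p) ∨ (0 < p ∧ q < 0 ∧ -2 ≤ q)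
  | 2, false => (0 < p ∧ 0 < q) ∨ (q ≤ -2 ∧ -q + 2 ≤ p) ∨ (p ≤ -2 ∧ -p + 2 ≤ q)
  | 3, false => (p < 0 ∧ q < 0) ∨ (2 ≤ q ∧ p ≤ -q - 2) ∨ (2 ≤ p ∧ q ≤ -p - 2)
  | 4, false => (0 ≤ q ∧ q < p) ∨ (q < 0 ∧ -q < p) ∨ (q < 0 ∧ 0 < p ∧ p ≤ 2)
  | 5, false => (q ≤ 0 ∧ p < q) ∨ (0 < q ∧ p < -q) ∨ (0 < q ∧ p < 0 ∧ -2 ≤ p)
  | _, false => (2 ≤ p ∧ q ≤ -2) ∨ (p ≤ -2 ∧ 2 ≤ q)
  | 0, true => p < q ∧ -p < q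
  | 1, true => q < p ∧ q < -p
  | 2, true => (0 < p ∧ 0 < q) ∨ 2 ≤ p + q
  | 3, true => (p < 0 ∧ q < 0) ∨ p + q ≤ -2
  | 4, true => q < p ∧ -q < p
  | 5, true => p < q ∧ p < -q
  | _, true => (0 ≤ p ∧ q ≤ 0) ∨ (p ≤ 0 ∧ 0 ≤ q)

/-- explicit least descents of elements of least length in their class -/
def LDE (n : ℕ) (p q : ℤ) (s : Bool) : Prop :=
  match n, s with
  | 0, false => 0 ≤ p ∧ p < q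
  | 1, false => q < p ∧ p ≤ 0
  | 2, false => 0 < q ∧ q ≤ p
  | 3, false => p ≤ q ∧ q < 0
  | 4, false => q = 0 ∧ 0 < p
  | 5, false => q = 0 ∧ p < 0
  | _, false => p < p
  | 0, true => p < q ∧ -p < q
  | 1, true => q < p ∧ q < -p
  | 2, true => 0 < p ∧ p = q
  | 3, true => p < 0 ∧ p = q
  | 4, true => q = 0 ∧ p = 1
  | 5, true => q = 0 ∧ p = -1
  | _, true => p = -q

/-- elements of least length in their conjugacy class -/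
def Eset (p q : ℤ) (s : Bool) : Prop :=
  match s with
  | false => (0 ≤ p ∧ 0 ≤ q) ∨ (p ≤ 0 ∧ q ≤ 0)
  | true => (p ≤ q ∧ -p ≤ q) ∨ (q ≤ p ∧ q ≤ -p) ∨ (q = 0 ∧ (p = 1 ∨ p = -1))

/-- states -/
inductive St
  | st | d | D | c0 | C0 | c1 | C1 | e0 | E0 | e1 | E1 | t0 | tc | tC | fin | dead
deriving DecidableEq, Fintype

/-- transitions -/
def stepN : St → ℕ → St
  | .st, 0 => .d
  | .st, 1 => .D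
  | .st, 2 => .c0
  | .st, 3 => .C0
  | .st, 4 => .e0
  | .st, 5 => .E0
  | .st, 6 => .t0
  | .d, 0 => .d
  | .d, 2 => .c1
  | .d, 6 => .tc
  | .D, 1 => .D
  | .D, 3 => .C1
  | .D, 6 => .tC
  | .c0, 2 => .c0
  | .c0, 4 => .e1
  | .c0, 6 => .fin
  | .C0, 3 => .C0
  | .C0, 5 => .E1
  | .C0, 6 => .fin
  | .c1, 2 => .c1
  | .c1, 6 => .fin
  | .C1, 3 => .C1
  | .C1, 6 => .fin
  | .e0, 4 => .e1
  | .e0, 6 => .fin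
  | .E0, 5 => .E1
  | .E0, 6 => .fin
  | .e1, 4 => .e1
  | .E1, 5 => .E1
  | .t0, 2 => .tc
  | .t0, 3 => .tC
  | .tc, 2 => .tc
  | .tC, 3 => .tC
  | _, _ => .dead

/-- the elements whose normal forms are accepted from a state -/
def Reg : St → ℤ → ℤ → Bool → Prop
  | .st, p, q, false => (0 ≤ p ∧ 0 ≤ q) ∨ (p ≤ 0 ∧ q ≤ 0)
  | .st, p, q, true => (p ≤ q ∧ -p ≤ q) ∨ (q ≤ p ∧ q ≤ -p) ∨ (q = 0 ∧ (p = 1 ∨ p = -1))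
  | .d, p, q, false => 0 ≤ p ∧ p ≤ q
  | .d, p, q, true => p ≤ q ∧ -p ≤ q
  | .D, p, q, false => q ≤ p ∧ p ≤ 0
  | .D, p, q, true => q ≤ p ∧ q ≤ -p
  | .c0, p, q, false => 0 ≤ q ∧ q ≤ p
  | .c0, p, q, true => 0 ≤ q ∧ q = p
  | .C0, p, q, false => p ≤ q ∧ q ≤ 0
  | .C0, p, q, true => q ≤ 0 ∧ q = p
  | .c1, p, q, false => 0 ≤ q ∧ q = p
  | .c1, p, q, true => 0 ≤ q ∧ q = p
  | .C1, p, q, false => q ≤ 0 ∧ q = p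
  | .C1, p, q, true => q ≤ 0 ∧ q = p
  | .e0, p, q, false => q = 0 ∧ 0 ≤ p
  | .e0, p, q, true => q = 0 ∧ p = 0
  | .E0, p, q, false => q = 0 ∧ p ≤ 0
  | .E0, p, q, true => q = 0 ∧ p = 0
  | .e1, p, q, false => q = 0 ∧ 0 ≤ p
  | .e1, p, _, true => p < p
  | .E1, p, q, false => q = 0 ∧ p ≤ 0
  | .E1, p, _, true => p < p
  | .t0, p, q, false => p = q
  | .t0, p, _, true => p < p
  | .tc, p, q, false => 0 ≤ q ∧ p = q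
  | .tc, p, _, true => p < p
  | .tC, p, q, false => q ≤ 0 ∧ p = q
  | .tC, p, _, true => p < p
  | .fin, p, q, false => p = 0 ∧ q = 0
  | .fin, p, _, true => p < p
  | .dead, p, _, false => p < p
  | .dead, p, _, true => p < p

theorem ld0f0 (p q : ℤ) (h : LDE 0 p q false) : Desc 0 p q false := by
  change 0 ≤ p ∧ p < q at h
  change ((0 ≤ p ∧ p < q) ∨ (p < 0 ∧ -p < q) ∨ (p < 0 ∧ 0 < q ∧ q ≤ 2))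
  omega
theorem ld0t0 (p q : ℤ) (h : LDE 0 p q true) : Desc 0 p q true := by
  change p < q ∧ -p < q at h
  change (p < q ∧ -p < q)
  omega
theorem ld1f0 (p q : ℤ) (h : LDE 1 p q false) : ¬ Desc 0 p q false := by
  change q < p ∧ p ≤ 0 at h
  change ¬ ((0 ≤ p ∧ p < q) ∨ (p < 0 ∧ -p < q) ∨ (p < 0 ∧ 0 < q ∧ q ≤ 2))
  omega
theorem ld1f1 (p q : ℤ) (h : LDE 1 p q false) : Desc 1 p q false := by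
  change q < p ∧ p ≤ 0 at h
  change ((p ≤ 0 ∧ q < p) ∨ (0 < p ∧ q < -p) ∨ (0 < p ∧ q < 0 ∧ -2 ≤ q))
  omega
theorem ld1t0 (p q : ℤ) (h : LDE 1 p q true) : ¬ Desc 0 p q true := by
  change q < p ∧ q < -p at h
  change ¬ (p < q ∧ -p < q)
  omega
theorem ld1t1 (p q : ℤ) (h : LDE 1 p q true) : Desc 1 p q true := by
  change q < p ∧ q < -p at h
  change (q < p ∧ q < -p)
  omega
theorem ld2f0 (p q : ℤ) (h : LDE 2 p q false) : ¬ Desc 0 p q false := by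
  change 0 < q ∧ q ≤ p at h
  change ¬ ((0 ≤ p ∧ p < q) ∨ (p < 0 ∧ -p < q) ∨ (p < 0 ∧ 0 < q ∧ q ≤ 2))
  omega
theorem ld2f1 (p q : ℤ) (h : LDE 2 p q false) : ¬ Desc 1 p q false := by
  change 0 < q ∧ q ≤ p at h
  change ¬ ((p ≤ 0 ∧ q < p) ∨ (0 < p ∧ q < -p) ∨ (0 < p ∧ q < 0 ∧ -2 ≤ q))
  omega
theorem ld2f2 (p q : ℤ) (h : LDE 2 p q false) : Desc 2 p q false := by
  change 0 < q ∧ q ≤ p at h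
  change ((0 < p ∧ 0 < q) ∨ (q ≤ -2 ∧ -q + 2 ≤ p) ∨ (p ≤ -2 ∧ -p + 2 ≤ q))
  omega
theorem ld2t0 (p q : ℤ) (h : LDE 2 p q true) : ¬ Desc 0 p q true := by
  change 0 < p ∧ p = q at h
  change ¬ (p < q ∧ -p < q)
  omega
theorem ld2t1 (p q : ℤ) (h : LDE 2 p q true) : ¬ Desc 1 p q true := by
  change 0 < p ∧ p = q at h
  change ¬ (q < p ∧ q < -p)
  omega
theorem ld2t2 (p q : ℤ) (h : LDE 2 p q true) : Desc 2 p q true := by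
  change 0 < p ∧ p = q at h
  change ((0 < p ∧ 0 < q) ∨ 2 ≤ p + q)
  omega
theorem ld3f0 (p q : ℤ) (h : LDE 3 p q false) : ¬ Desc 0 p q false := by
  change p ≤ q ∧ q < 0 at h
  change ¬ ((0 ≤ p ∧ p < q) ∨ (p < 0 ∧ -p < q) ∨ (p < 0 ∧ 0 < q ∧ q ≤ 2))
  omega
theorem ld3f1 (p q : ℤ) (h : LDE 3 p q false) : ¬ Desc 1 p q false := by
  change p ≤ q ∧ q < 0 at h
  change ¬ ((p ≤ 0 ∧ q < p) ∨ (0 < p ∧ q < -p) ∨ (0 < p ∧ q < 0 ∧ -2 ≤ q))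
  omega
theorem ld3f2 (p q : ℤ) (h : LDE 3 p q false) : ¬ Desc 2 p q false := by
  change p ≤ q ∧ q < 0 at h
  change ¬ ((0 < p ∧ 0 < q) ∨ (q ≤ -2 ∧ -q + 2 ≤ p) ∨ (p ≤ -2 ∧ -p + 2 ≤ q))
  omega
theorem ld3f3 (p q : ℤ) (h : LDE 3 p q false) : Desc 3 p q false := by
  change p ≤ q ∧ q < 0 at h
  change ((p < 0 ∧ q < 0) ∨ (2 ≤ q ∧ p ≤ -q - 2) ∨ (2 ≤ p ∧ q ≤ -p - 2))
  omega
theorem ld3t0 (p q : ℤ) (h : LDE 3 p q true) : ¬ Desc 0 p q true := by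
  change p < 0 ∧ p = q at h
  change ¬ (p < q ∧ -p < q)
  omega
theorem ld3t1 (p q : ℤ) (h : LDE 3 p q true) : ¬ Desc 1 p q true := by
  change p < 0 ∧ p = q at h
  change ¬ (q < p ∧ q < -p)
  omega
theorem ld3t2 (p q : ℤ) (h : LDE 3 p q true) : ¬ Desc 2 p q true := by
  change p < 0 ∧ p = q at h
  change ¬ ((0 < p ∧ 0 < q) ∨ 2 ≤ p + q)
  omega
theorem ld3t3 (p q : ℤ) (h : LDE 3 p q true) : Desc 3 p q true := by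
  change p < 0 ∧ p = q at h
  change ((p < 0 ∧ q < 0) ∨ p + q ≤ -2)
  omega
theorem ld4f0 (p q : ℤ) (h : LDE 4 p q false) : ¬ Desc 0 p q false := by
  change q = 0 ∧ 0 < p at h
  change ¬ ((0 ≤ p ∧ p < q) ∨ (p < 0 ∧ -p < q) ∨ (p < 0 ∧ 0 < q ∧ q ≤ 2))
  omega
theorem ld4f1 (p q : ℤ) (h : LDE 4 p q false) : ¬ Desc 1 p q false := by
  change q = 0 ∧ 0 < p at h
  change ¬ ((p ≤ 0 ∧ q < p) ∨ (0 < p ∧ q < -p) ∨ (0 < p ∧ q < 0 ∧ -2 ≤ q))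
  omega
theorem ld4f2 (p q : ℤ) (h : LDE 4 p q false) : ¬ Desc 2 p q false := by
  change q = 0 ∧ 0 < p at h
  change ¬ ((0 < p ∧ 0 < q) ∨ (q ≤ -2 ∧ -q + 2 ≤ p) ∨ (p ≤ -2 ∧ -p + 2 ≤ q))
  omega
theorem ld4f3 (p q : ℤ) (h : LDE 4 p q false) : ¬ Desc 3 p q false := by
  change q = 0 ∧ 0 < p at h
  change ¬ ((p < 0 ∧ q < 0) ∨ (2 ≤ q ∧ p ≤ -q - 2) ∨ (2 ≤ p ∧ q ≤ -p - 2))
  omega
theorem ld4f4 (p q : ℤ) (h : LDE 4 p q false) : Desc 4 p q false := by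
  change q = 0 ∧ 0 < p at h
  change ((0 ≤ q ∧ q < p) ∨ (q < 0 ∧ -q < p) ∨ (q < 0 ∧ 0 < p ∧ p ≤ 2))
  omega
theorem ld4t0 (p q : ℤ) (h : LDE 4 p q true) : ¬ Desc 0 p q true := by
  change q = 0 ∧ p = 1 at h
  change ¬ (p < q ∧ -p < q)
  omega
theorem ld4t1 (p q : ℤ) (h : LDE 4 p q true) : ¬ Desc 1 p q true := by
  change q = 0 ∧ p = 1 at h
  change ¬ (q < p ∧ q < -p)
  omega
theorem ld4t2 (p q : ℤ) (h : LDE 4 p q true) : ¬ Desc 2 p q true := by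
  change q = 0 ∧ p = 1 at h
  change ¬ ((0 < p ∧ 0 < q) ∨ 2 ≤ p + q)
  omega
theorem ld4t3 (p q : ℤ) (h : LDE 4 p q true) : ¬ Desc 3 p q true := by
  change q = 0 ∧ p = 1 at h
  change ¬ ((p < 0 ∧ q < 0) ∨ p + q ≤ -2)
  omega
theorem ld4t4 (p q : ℤ) (h : LDE 4 p q true) : Desc 4 p q true := by
  change q = 0 ∧ p = 1 at h
  change (q < p ∧ -q < p)
  omega
theorem ld5f0 (p q : ℤ) (h : LDE 5 p q false) : ¬ Desc 0 p q false := by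
  change q = 0 ∧ p < 0 at h
  change ¬ ((0 ≤ p ∧ p < q) ∨ (p < 0 ∧ -p < q) ∨ (p < 0 ∧ 0 < q ∧ q ≤ 2))
  omega
theorem ld5f1 (p q : ℤ) (h : LDE 5 p q false) : ¬ Desc 1 p q false := by
  change q = 0 ∧ p < 0 at h
  change ¬ ((p ≤ 0 ∧ q < p) ∨ (0 < p ∧ q < -p) ∨ (0 < p ∧ q < 0 ∧ -2 ≤ q))
  omega
theorem ld5f2 (p q : ℤ) (h : LDE 5 p q false) : ¬ Desc 2 p q false := by
  change q = 0 ∧ p < 0 at h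
  change ¬ ((0 < p ∧ 0 < q) ∨ (q ≤ -2 ∧ -q + 2 ≤ p) ∨ (p ≤ -2 ∧ -p + 2 ≤ q))
  omega
theorem ld5f3 (p q : ℤ) (h : LDE 5 p q false) : ¬ Desc 3 p q false := by
  change q = 0 ∧ p < 0 at h
  change ¬ ((p < 0 ∧ q < 0) ∨ (2 ≤ q ∧ p ≤ -q - 2) ∨ (2 ≤ p ∧ q ≤ -p - 2))
  omega
theorem ld5f4 (p q : ℤ) (h : LDE 5 p q false) : ¬ Desc 4 p q false := by
  change q = 0 ∧ p < 0 at h
  change ¬ ((0 ≤ q ∧ q < p) ∨ (q < 0 ∧ -q < p) ∨ (q < 0 ∧ 0 < p ∧ p ≤ 2))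
  omega
theorem ld5f5 (p q : ℤ) (h : LDE 5 p q false) : Desc 5 p q false := by
  change q = 0 ∧ p < 0 at h
  change ((q ≤ 0 ∧ p < q) ∨ (0 < q ∧ p < -q) ∨ (0 < q ∧ p < 0 ∧ -2 ≤ p))
  omega
theorem ld5t0 (p q : ℤ) (h : LDE 5 p q true) : ¬ Desc 0 p q true := by
  change q = 0 ∧ p = -1 at h
  change ¬ (p < q ∧ -p < q)
  omega
theorem ld5t1 (p q : ℤ) (h : LDE 5 p q true) : ¬ Desc 1 p q true := by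
  change q = 0 ∧ p = -1 at h
  change ¬ (q < p ∧ q < -p)
  omega
theorem ld5t2 (p q : ℤ) (h : LDE 5 p q true) : ¬ Desc 2 p q true := by
  change q = 0 ∧ p = -1 at h
  change ¬ ((0 < p ∧ 0 < q) ∨ 2 ≤ p + q)
  omega
theorem ld5t3 (p q : ℤ) (h : LDE 5 p q true) : ¬ Desc 3 p q true := by
  change q = 0 ∧ p = -1 at h
  change ¬ ((p < 0 ∧ q < 0) ∨ p + q ≤ -2)
  omega
theorem ld5t4 (p q : ℤ) (h : LDE 5 p q true) : ¬ Desc 4 p q true := by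
  change q = 0 ∧ p = -1 at h
  change ¬ (q < p ∧ -q < p)
  omega
theorem ld5t5 (p q : ℤ) (h : LDE 5 p q true) : Desc 5 p q true := by
  change q = 0 ∧ p = -1 at h
  change (p < q ∧ p < -q)
  omega
theorem ld6f0 (p q : ℤ) (h : LDE 6 p q false) : ¬ Desc 0 p q false := by
  change p < p at h
  change ¬ ((0 ≤ p ∧ p < q) ∨ (p < 0 ∧ -p < q) ∨ (p < 0 ∧ 0 < q ∧ q ≤ 2))
  omega
theorem ld6f1 (p q : ℤ) (h : LDE 6 p q false) : ¬ Desc 1 p q false := by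
  change p < p at h
  change ¬ ((p ≤ 0 ∧ q < p) ∨ (0 < p ∧ q < -p) ∨ (0 < p ∧ q < 0 ∧ -2 ≤ q))
  omega
theorem ld6f2 (p q : ℤ) (h : LDE 6 p q false) : ¬ Desc 2 p q false := by
  change p < p at h
  change ¬ ((0 < p ∧ 0 < q) ∨ (q ≤ -2 ∧ -q + 2 ≤ p) ∨ (p ≤ -2 ∧ -p + 2 ≤ q))
  omega
theorem ld6f3 (p q : ℤ) (h : LDE 6 p q false) : ¬ Desc 3 p q false := by
  change p < p at h
  change ¬ ((p < 0 ∧ q < 0) ∨ (2 ≤ q ∧ p ≤ -q - 2) ∨ (2 ≤ p ∧ q ≤ -p - 2))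
  omega
theorem ld6f4 (p q : ℤ) (h : LDE 6 p q false) : ¬ Desc 4 p q false := by
  change p < p at h
  change ¬ ((0 ≤ q ∧ q < p) ∨ (q < 0 ∧ -q < p) ∨ (q < 0 ∧ 0 < p ∧ p ≤ 2))
  omega
theorem ld6f5 (p q : ℤ) (h : LDE 6 p q false) : ¬ Desc 5 p q false := by
  change p < p at h
  change ¬ ((q ≤ 0 ∧ p < q) ∨ (0 < q ∧ p < -q) ∨ (0 < q ∧ p < 0 ∧ -2 ≤ p))
  omega
theorem ld6f6 (p q : ℤ) (h : LDE 6 p q false) : Desc 6 p q false := by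
  change p < p at h
  change ((2 ≤ p ∧ q ≤ -2) ∨ (p ≤ -2 ∧ 2 ≤ q))
  omega
theorem ld6t0 (p q : ℤ) (h : LDE 6 p q true) : ¬ Desc 0 p q true := by
  change p = -q at h
  change ¬ (p < q ∧ -p < q)
  omega
theorem ld6t1 (p q : ℤ) (h : LDE 6 p q true) : ¬ Desc 1 p q true := by
  change p = -q at h
  change ¬ (q < p ∧ q < -p)
  omega
theorem ld6t2 (p q : ℤ) (h : LDE 6 p q true) : ¬ Desc 2 p q true := by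
  change p = -q at h
  change ¬ ((0 < p ∧ 0 < q) ∨ 2 ≤ p + q)
  omega
theorem ld6t3 (p q : ℤ) (h : LDE 6 p q true) : ¬ Desc 3 p q true := by
  change p = -q at h
  change ¬ ((p < 0 ∧ q < 0) ∨ p + q ≤ -2)
  omega
theorem ld6t4 (p q : ℤ) (h : LDE 6 p q true) : ¬ Desc 4 p q true := by
  change p = -q at h
  change ¬ (q < p ∧ -q < p)
  omega
theorem ld6t5 (p q : ℤ) (h : LDE 6 p q true) : ¬ Desc 5 p q true := by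
  change p = -q at h
  change ¬ (p < q ∧ p < -q)
  omega
theorem ld6t6 (p q : ℤ) (h : LDE 6 p q true) : Desc 6 p q true := by
  change p = -q at h
  change ((0 ≤ p ∧ q ≤ 0) ∨ (p ≤ 0 ∧ 0 ≤ q))
  omega

theorem ld_desc (n : ℕ) (hn : n < 7) (p q : ℤ) (s : Bool) (h : LDE n p q s) :
    Desc n p q s ∧ ∀ m < n, ¬ Desc m p q s := by
  interval_cases n <;> cases s
  · exact ⟨ld0f0 p q h, fun m hm => absurd hm (by omega)⟩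
  · exact ⟨ld0t0 p q h, fun m hm => absurd hm (by omega)⟩
  · refine ⟨ld1f1 p q h, fun m hm => ?_⟩
    interval_cases m
    · exact ld1f0 p q h
  · refine ⟨ld1t1 p q h, fun m hm => ?_⟩
    interval_cases m
    · exact ld1t0 p q h
  · refine ⟨ld2f2 p q h, fun m hm => ?_⟩
    interval_cases m
    · exact ld2f0 p q h
    · exact ld2f1 p q h
  · refine ⟨ld2t2 p q h, fun m hm => ?_⟩
    interval_cases m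
    · exact ld2t0 p q h
    · exact ld2t1 p q h
  · refine ⟨ld3f3 p q h, fun m hm => ?_⟩
    interval_cases m
    · exact ld3f0 p q h
    · exact ld3f1 p q h
    · exact ld3f2 p q h
  · refine ⟨ld3t3 p q h, fun m hm => ?_⟩
    interval_cases m
    · exact ld3t0 p q h
    · exact ld3t1 p q h
    · exact ld3t2 p q h
  · refine ⟨ld4f4 p q h, fun m hm => ?_⟩
    interval_cases m
    · exact ld4f0 p q h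
    · exact ld4f1 p q h
    · exact ld4f2 p q h
    · exact ld4f3 p q h
  · refine ⟨ld4t4 p q h, fun m hm => ?_⟩
    interval_cases m
    · exact ld4t0 p q h
    · exact ld4t1 p q h
    · exact ld4t2 p q h
    · exact ld4t3 p q h
  · refine ⟨ld5f5 p q h, fun m hm => ?_⟩
    interval_cases m
    · exact ld5f0 p q h
    · exact ld5f1 p q h
    · exact ld5f2 p q h
    · exact ld5f3 p q h
    · exact ld5f4 p q h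
  · refine ⟨ld5t5 p q h, fun m hm => ?_⟩
    interval_cases m
    · exact ld5t0 p q h
    · exact ld5t1 p q h
    · exact ld5t2 p q h
    · exact ld5t3 p q h
    · exact ld5t4 p q h
  · refine ⟨ld6f6 p q h, fun m hm => ?_⟩
    interval_cases m
    · exact ld6f0 p q h
    · exact ld6f1 p q h
    · exact ld6f2 p q h
    · exact ld6f3 p q h
    · exact ld6f4 p q h
    · exact ld6f5 p q h
  · refine ⟨ld6t6 p q h, fun m hm => ?_⟩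
    interval_cases m
    · exact ld6t0 p q h
    · exact ld6t1 p q h
    · exact ld6t2 p q h
    · exact ld6t3 p q h
    · exact ld6t4 p q h
    · exact ld6t5 p q h

theorem ld_cover (p q : ℤ) (s : Bool) (h : Eset p q s) :
    (p = 0 ∧ q = 0 ∧ s = false) ∨ ∃ n < 7, LDE n p q s := by
  cases s
  · change (0 ≤ p ∧ 0 ≤ q) ∨ (p ≤ 0 ∧ q ≤ 0) at h
    have : (p = 0 ∧ q = 0) ∨ (0 ≤ p ∧ p < q) ∨ (q < p ∧ p ≤ 0) ∨ (0 < q ∧ q ≤ p) ∨ (p ≤ q ∧ q < 0) ∨ (q = 0 ∧ 0 < p) ∨ (q = 0 ∧ p < 0) ∨ (p < p) := by omega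
    rcases this with h | h | h | h | h | h | h | h
    · exact Or.inl ⟨h.1, h.2, rfl⟩
    · exact Or.inr ⟨0, by omega, h⟩
    · exact Or.inr ⟨1, by omega, h⟩
    · exact Or.inr ⟨2, by omega, h⟩
    · exact Or.inr ⟨3, by omega, h⟩
    · exact Or.inr ⟨4, by omega, h⟩
    · exact Or.inr ⟨5, by omega, h⟩
    · exact Or.inr ⟨6, by omega, h⟩
  · change (p ≤ q ∧ -p ≤ q) ∨ (q ≤ p ∧ q ≤ -p) ∨ (q = 0 ∧ (p = 1 ∨ p = -1)) at h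
    have : (p = 0 ∧ q = 0 ∧ p < p) ∨ (p < q ∧ -p < q) ∨ (q < p ∧ q < -p) ∨ (0 < p ∧ p = q) ∨ (p < 0 ∧ p = q) ∨ (q = 0 ∧ p = 1) ∨ (q = 0 ∧ p = -1) ∨ (p = -q) := by omega
    rcases this with h | h | h | h | h | h | h | h
    · omega
    · exact Or.inr ⟨0, by omega, h⟩
    · exact Or.inr ⟨1, by omega, h⟩
    · exact Or.inr ⟨2, by omega, h⟩
    · exact Or.inr ⟨3, by omega, h⟩
    · exact Or.inr ⟨4, by omega, h⟩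
    · exact Or.inr ⟨5, by omega, h⟩
    · exact Or.inr ⟨6, by omega, h⟩

theorem not_desc_one (n : ℕ) (hn : n < 7) : ¬ Desc n 0 0 false := by
  interval_cases n
  · change ¬ ((0 ≤ (0 : ℤ) ∧ (0 : ℤ) < (0 : ℤ)) ∨ ((0 : ℤ) < 0 ∧ -(0 : ℤ) < (0 : ℤ)) ∨ ((0 : ℤ) < 0 ∧ 0 < (0 : ℤ) ∧ (0 : ℤ) ≤ 2))
    omega
  · change ¬ (((0 : ℤ) ≤ 0 ∧ (0 : ℤ) < (0 : ℤ)) ∨ (0 < (0 : ℤ) ∧ (0 : ℤ) < -(0 : ℤ)) ∨ (0 < (0 : ℤ) ∧ (0 : ℤ) < 0 ∧ -2 ≤ (0 : ℤ)))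
    omega
  · change ¬ ((0 < (0 : ℤ) ∧ 0 < (0 : ℤ)) ∨ ((0 : ℤ) ≤ -2 ∧ -(0 : ℤ) + 2 ≤ (0 : ℤ)) ∨ ((0 : ℤ) ≤ -2 ∧ -(0 : ℤ) + 2 ≤ (0 : ℤ)))
    omega
  · change ¬ (((0 : ℤ) < 0 ∧ (0 : ℤ) < 0) ∨ (2 ≤ (0 : ℤ) ∧ (0 : ℤ) ≤ -(0 : ℤ) - 2) ∨ (2 ≤ (0 : ℤ) ∧ (0 : ℤ) ≤ -(0 : ℤ) - 2))
    omega
  · change ¬ ((0 ≤ (0 : ℤ) ∧ (0 : ℤ) < (0 : ℤ)) ∨ ((0 : ℤ) < 0 ∧ -(0 : ℤ) < (0 : ℤ)) ∨ ((0 : ℤ) < 0 ∧ 0 < (0 : ℤ) ∧ (0 : ℤ) ≤ 2))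
    omega
  · change ¬ (((0 : ℤ) ≤ 0 ∧ (0 : ℤ) < (0 : ℤ)) ∨ (0 < (0 : ℤ) ∧ (0 : ℤ) < -(0 : ℤ)) ∨ (0 < (0 : ℤ) ∧ (0 : ℤ) < 0 ∧ -2 ≤ (0 : ℤ)))
    omega
  · change ¬ ((2 ≤ (0 : ℤ) ∧ (0 : ℤ) ≤ -2) ∨ ((0 : ℤ) ≤ -2 ∧ 2 ≤ (0 : ℤ)))
    omega

theorem reg_E (s : St) (p q : ℤ) (u : Bool) (h : Reg s p q u) : Eset p q u := by
  cases s <;> cases u
  · change (0 ≤ p ∧ 0 ≤ q) ∨ (p ≤ 0 ∧ q ≤ 0) at h
    change (0 ≤ p ∧ 0 ≤ q) ∨ (p ≤ 0 ∧ q ≤ 0)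
    omega
  · change (p ≤ q ∧ -p ≤ q) ∨ (q ≤ p ∧ q ≤ -p) ∨ (q = 0 ∧ (p = 1 ∨ p = -1)) at h
    change (p ≤ q ∧ -p ≤ q) ∨ (q ≤ p ∧ q ≤ -p) ∨ (q = 0 ∧ (p = 1 ∨ p = -1))
    omega
  · change 0 ≤ p ∧ p ≤ q at h
    change (0 ≤ p ∧ 0 ≤ q) ∨ (p ≤ 0 ∧ q ≤ 0)
    omega
  · change p ≤ q ∧ -p ≤ q at h
    change (p ≤ q ∧ -p ≤ q) ∨ (q ≤ p ∧ q ≤ -p) ∨ (q = 0 ∧ (p = 1 ∨ p = -1))
    omega
  · change q ≤ p ∧ p ≤ 0 at h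
    change (0 ≤ p ∧ 0 ≤ q) ∨ (p ≤ 0 ∧ q ≤ 0)
    omega
  · change q ≤ p ∧ q ≤ -p at h
    change (p ≤ q ∧ -p ≤ q) ∨ (q ≤ p ∧ q ≤ -p) ∨ (q = 0 ∧ (p = 1 ∨ p = -1))
    omega
  · change 0 ≤ q ∧ q ≤ p at h
    change (0 ≤ p ∧ 0 ≤ q) ∨ (p ≤ 0 ∧ q ≤ 0)
    omega
  · change 0 ≤ q ∧ q = p at h
    change (p ≤ q ∧ -p ≤ q) ∨ (q ≤ p ∧ q ≤ -p) ∨ (q = 0 ∧ (p = 1 ∨ p = -1))
    omega
  · change p ≤ q ∧ q ≤ 0 at h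
    change (0 ≤ p ∧ 0 ≤ q) ∨ (p ≤ 0 ∧ q ≤ 0)
    omega
  · change q ≤ 0 ∧ q = p at h
    change (p ≤ q ∧ -p ≤ q) ∨ (q ≤ p ∧ q ≤ -p) ∨ (q = 0 ∧ (p = 1 ∨ p = -1))
    omega
  · change 0 ≤ q ∧ q = p at h
    change (0 ≤ p ∧ 0 ≤ q) ∨ (p ≤ 0 ∧ q ≤ 0)
    omega
  · change 0 ≤ q ∧ q = p at h
    change (p ≤ q ∧ -p ≤ q) ∨ (q ≤ p ∧ q ≤ -p) ∨ (q = 0 ∧ (p = 1 ∨ p = -1))
    omega
  · change q ≤ 0 ∧ q = p at h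
    change (0 ≤ p ∧ 0 ≤ q) ∨ (p ≤ 0 ∧ q ≤ 0)
    omega
  · change q ≤ 0 ∧ q = p at h
    change (p ≤ q ∧ -p ≤ q) ∨ (q ≤ p ∧ q ≤ -p) ∨ (q = 0 ∧ (p = 1 ∨ p = -1))
    omega
  · change q = 0 ∧ 0 ≤ p at h
    change (0 ≤ p ∧ 0 ≤ q) ∨ (p ≤ 0 ∧ q ≤ 0)
    omega
  · change q = 0 ∧ p = 0 at h
    change (p ≤ q ∧ -p ≤ q) ∨ (q ≤ p ∧ q ≤ -p) ∨ (q = 0 ∧ (p = 1 ∨ p = -1))
    omega
  · change q = 0 ∧ p ≤ 0 at h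
    change (0 ≤ p ∧ 0 ≤ q) ∨ (p ≤ 0 ∧ q ≤ 0)
    omega
  · change q = 0 ∧ p = 0 at h
    change (p ≤ q ∧ -p ≤ q) ∨ (q ≤ p ∧ q ≤ -p) ∨ (q = 0 ∧ (p = 1 ∨ p = -1))
    omega
  · change q = 0 ∧ 0 ≤ p at h
    change (0 ≤ p ∧ 0 ≤ q) ∨ (p ≤ 0 ∧ q ≤ 0)
    omega
  · change p < p at h
    change (p ≤ q ∧ -p ≤ q) ∨ (q ≤ p ∧ q ≤ -p) ∨ (q = 0 ∧ (p = 1 ∨ p = -1))
    omega
  · change q = 0 ∧ p ≤ 0 at h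
    change (0 ≤ p ∧ 0 ≤ q) ∨ (p ≤ 0 ∧ q ≤ 0)
    omega
  · change p < p at h
    change (p ≤ q ∧ -p ≤ q) ∨ (q ≤ p ∧ q ≤ -p) ∨ (q = 0 ∧ (p = 1 ∨ p = -1))
    omega
  · change p = q at h
    change (0 ≤ p ∧ 0 ≤ q) ∨ (p ≤ 0 ∧ q ≤ 0)
    omega
  · change p < p at h
    change (p ≤ q ∧ -p ≤ q) ∨ (q ≤ p ∧ q ≤ -p) ∨ (q = 0 ∧ (p = 1 ∨ p = -1))
    omega
  · change 0 ≤ q ∧ p = q at h
    change (0 ≤ p ∧ 0 ≤ q) ∨ (p ≤ 0 ∧ q ≤ 0)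
    omega
  · change p < p at h
    change (p ≤ q ∧ -p ≤ q) ∨ (q ≤ p ∧ q ≤ -p) ∨ (q = 0 ∧ (p = 1 ∨ p = -1))
    omega
  · change q ≤ 0 ∧ p = q at h
    change (0 ≤ p ∧ 0 ≤ q) ∨ (p ≤ 0 ∧ q ≤ 0)
    omega
  · change p < p at h
    change (p ≤ q ∧ -p ≤ q) ∨ (q ≤ p ∧ q ≤ -p) ∨ (q = 0 ∧ (p = 1 ∨ p = -1))
    omega
  · change p = 0 ∧ q = 0 at h
    change (0 ≤ p ∧ 0 ≤ q) ∨ (p ≤ 0 ∧ q ≤ 0)
    omega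
  · change p < p at h
    change (p ≤ q ∧ -p ≤ q) ∨ (q ≤ p ∧ q ≤ -p) ∨ (q = 0 ∧ (p = 1 ∨ p = -1))
    omega
  · change p < p at h
    change (0 ≤ p ∧ 0 ≤ q) ∨ (p ≤ 0 ∧ q ≤ 0)
    omega
  · change p < p at h
    change (p ≤ q ∧ -p ≤ q) ∨ (q ≤ p ∧ q ≤ -p) ∨ (q = 0 ∧ (p = 1 ∨ p = -1))
    omega

theorem st0 (s : St) (p q : ℤ) (u : Bool) :
    (LDE 0 (0 + p) (1 + q) (xor false u) ∧ Reg s (0 + p) (1 + q) (xor false u)) ↔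
      Reg (stepN s 0) p q u := by
  cases s <;> cases u
  · change ((0 ≤ (0 + p) ∧ (0 + p) < (1 + q)) ∧ ((0 ≤ (0 + p) ∧ 0 ≤ (1 + q)) ∨ ((0 + p) ≤ 0 ∧ (1 + q) ≤ 0))) ↔
      (0 ≤ p ∧ p ≤ q)
    omega
  · change (((0 + p) < (1 + q) ∧ -(0 + p) < (1 + q)) ∧ (((0 + p) ≤ (1 + q) ∧ -(0 + p) ≤ (1 + q)) ∨ ((1 + q) ≤ (0 + p) ∧ (1 + q) ≤ -(0 + p)) ∨ ((1 + q) = 0 ∧ ((0 + p) = 1 ∨ (0 + p) = -1)))) ↔
      (p ≤ q ∧ -p ≤ q)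
    omega
  · change ((0 ≤ (0 + p) ∧ (0 + p) < (1 + q)) ∧ (0 ≤ (0 + p) ∧ (0 + p) ≤ (1 + q))) ↔
      (0 ≤ p ∧ p ≤ q)
    omega
  · change (((0 + p) < (1 + q) ∧ -(0 + p) < (1 + q)) ∧ ((0 + p) ≤ (1 + q) ∧ -(0 + p) ≤ (1 + q))) ↔
      (p ≤ q ∧ -p ≤ q)
    omega
  · change ((0 ≤ (0 + p) ∧ (0 + p) < (1 + q)) ∧ ((1 + q) ≤ (0 + p) ∧ (0 + p) ≤ 0)) ↔
      (p < p)
    omega
  · change (((0 + p) < (1 + q) ∧ -(0 + p) < (1 + q)) ∧ ((1 + q) ≤ (0 + p) ∧ (1 + q) ≤ -(0 + p))) ↔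
      (p < p)
    omega
  · change ((0 ≤ (0 + p) ∧ (0 + p) < (1 + q)) ∧ (0 ≤ (1 + q) ∧ (1 + q) ≤ (0 + p))) ↔
      (p < p)
    omega
  · change (((0 + p) < (1 + q) ∧ -(0 + p) < (1 + q)) ∧ (0 ≤ (1 + q) ∧ (1 + q) = (0 + p))) ↔
      (p < p)
    omega
  · change ((0 ≤ (0 + p) ∧ (0 + p) < (1 + q)) ∧ ((0 + p) ≤ (1 + q) ∧ (1 + q) ≤ 0)) ↔
      (p < p)
    omega
  · change (((0 + p) < (1 + q) ∧ -(0 + p) < (1 + q)) ∧ ((1 + q) ≤ 0 ∧ (1 + q) = (0 + p))) ↔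
      (p < p)
    omega
  · change ((0 ≤ (0 + p) ∧ (0 + p) < (1 + q)) ∧ (0 ≤ (1 + q) ∧ (1 + q) = (0 + p))) ↔
      (p < p)
    omega
  · change (((0 + p) < (1 + q) ∧ -(0 + p) < (1 + q)) ∧ (0 ≤ (1 + q) ∧ (1 + q) = (0 + p))) ↔
      (p < p)
    omega
  · change ((0 ≤ (0 + p) ∧ (0 + p) < (1 + q)) ∧ ((1 + q) ≤ 0 ∧ (1 + q) = (0 + p))) ↔
      (p < p)
    omega
  · change (((0 + p) < (1 + q) ∧ -(0 + p) < (1 + q)) ∧ ((1 + q) ≤ 0 ∧ (1 + q) = (0 + p))) ↔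
      (p < p)
    omega
  · change ((0 ≤ (0 + p) ∧ (0 + p) < (1 + q)) ∧ ((1 + q) = 0 ∧ 0 ≤ (0 + p))) ↔
      (p < p)
    omega
  · change (((0 + p) < (1 + q) ∧ -(0 + p) < (1 + q)) ∧ ((1 + q) = 0 ∧ (0 + p) = 0)) ↔
      (p < p)
    omega
  · change ((0 ≤ (0 + p) ∧ (0 + p) < (1 + q)) ∧ ((1 + q) = 0 ∧ (0 + p) ≤ 0)) ↔
      (p < p)
    omega
  · change (((0 + p) < (1 + q) ∧ -(0 + p) < (1 + q)) ∧ ((1 + q) = 0 ∧ (0 + p) = 0)) ↔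
      (p < p)
    omega
  · change ((0 ≤ (0 + p) ∧ (0 + p) < (1 + q)) ∧ ((1 + q) = 0 ∧ 0 ≤ (0 + p))) ↔
      (p < p)
    omega
  · change (((0 + p) < (1 + q) ∧ -(0 + p) < (1 + q)) ∧ ((0 + p) < (0 + p))) ↔
      (p < p)
    omega
  · change ((0 ≤ (0 + p) ∧ (0 + p) < (1 + q)) ∧ ((1 + q) = 0 ∧ (0 + p) ≤ 0)) ↔
      (p < p)
    omega
  · change (((0 + p) < (1 + q) ∧ -(0 + p) < (1 + q)) ∧ ((0 + p) < (0 + p))) ↔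
      (p < p)
    omega
  · change ((0 ≤ (0 + p) ∧ (0 + p) < (1 + q)) ∧ ((0 + p) = (1 + q))) ↔
      (p < p)
    omega
  · change (((0 + p) < (1 + q) ∧ -(0 + p) < (1 + q)) ∧ ((0 + p) < (0 + p))) ↔
      (p < p)
    omega
  · change ((0 ≤ (0 + p) ∧ (0 + p) < (1 + q)) ∧ (0 ≤ (1 + q) ∧ (0 + p) = (1 + q))) ↔
      (p < p)
    omega
  · change (((0 + p) < (1 + q) ∧ -(0 + p) < (1 + q)) ∧ ((0 + p) < (0 + p))) ↔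
      (p < p)
    omega
  · change ((0 ≤ (0 + p) ∧ (0 + p) < (1 + q)) ∧ ((1 + q) ≤ 0 ∧ (0 + p) = (1 + q))) ↔
      (p < p)
    omega
  · change (((0 + p) < (1 + q) ∧ -(0 + p) < (1 + q)) ∧ ((0 + p) < (0 + p))) ↔
      (p < p)
    omega
  · change ((0 ≤ (0 + p) ∧ (0 + p) < (1 + q)) ∧ ((0 + p) = 0 ∧ (1 + q) = 0)) ↔
      (p < p)
    omega
  · change (((0 + p) < (1 + q) ∧ -(0 + p) < (1 + q)) ∧ ((0 + p) < (0 + p))) ↔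
      (p < p)
    omega
  · change ((0 ≤ (0 + p) ∧ (0 + p) < (1 + q)) ∧ ((0 + p) < (0 + p))) ↔
      (p < p)
    omega
  · change (((0 + p) < (1 + q) ∧ -(0 + p) < (1 + q)) ∧ ((0 + p) < (0 + p))) ↔
      (p < p)
    omega

theorem st1 (s : St) (p q : ℤ) (u : Bool) :
    (LDE 1 (0 + p) (-1 + q) (xor false u) ∧ Reg s (0 + p) (-1 + q) (xor false u)) ↔
      Reg (stepN s 1) p q u := by
  cases s <;> cases u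
  · change (((-1 + q) < (0 + p) ∧ (0 + p) ≤ 0) ∧ ((0 ≤ (0 + p) ∧ 0 ≤ (-1 + q)) ∨ ((0 + p) ≤ 0 ∧ (-1 + q) ≤ 0))) ↔
      (q ≤ p ∧ p ≤ 0)
    omega
  · change (((-1 + q) < (0 + p) ∧ (-1 + q) < -(0 + p)) ∧ (((0 + p) ≤ (-1 + q) ∧ -(0 + p) ≤ (-1 + q)) ∨ ((-1 + q) ≤ (0 + p) ∧ (-1 + q) ≤ -(0 + p)) ∨ ((-1 + q) = 0 ∧ ((0 + p) = 1 ∨ (0 + p) = -1)))) ↔
      (q ≤ p ∧ q ≤ -p)
    omega
  · change (((-1 + q) < (0 + p) ∧ (0 + p) ≤ 0) ∧ (0 ≤ (0 + p) ∧ (0 + p) ≤ (-1 + q))) ↔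
      (p < p)
    omega
  · change (((-1 + q) < (0 + p) ∧ (-1 + q) < -(0 + p)) ∧ ((0 + p) ≤ (-1 + q) ∧ -(0 + p) ≤ (-1 + q))) ↔
      (p < p)
    omega
  · change (((-1 + q) < (0 + p) ∧ (0 + p) ≤ 0) ∧ ((-1 + q) ≤ (0 + p) ∧ (0 + p) ≤ 0)) ↔
      (q ≤ p ∧ p ≤ 0)
    omega
  · change (((-1 + q) < (0 + p) ∧ (-1 + q) < -(0 + p)) ∧ ((-1 + q) ≤ (0 + p) ∧ (-1 + q) ≤ -(0 + p))) ↔
      (q ≤ p ∧ q ≤ -p)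
    omega
  · change (((-1 + q) < (0 + p) ∧ (0 + p) ≤ 0) ∧ (0 ≤ (-1 + q) ∧ (-1 + q) ≤ (0 + p))) ↔
      (p < p)
    omega
  · change (((-1 + q) < (0 + p) ∧ (-1 + q) < -(0 + p)) ∧ (0 ≤ (-1 + q) ∧ (-1 + q) = (0 + p))) ↔
      (p < p)
    omega
  · change (((-1 + q) < (0 + p) ∧ (0 + p) ≤ 0) ∧ ((0 + p) ≤ (-1 + q) ∧ (-1 + q) ≤ 0)) ↔
      (p < p)
    omega
  · change (((-1 + q) < (0 + p) ∧ (-1 + q) < -(0 + p)) ∧ ((-1 + q) ≤ 0 ∧ (-1 + q) = (0 + p))) ↔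
      (p < p)
    omega
  · change (((-1 + q) < (0 + p) ∧ (0 + p) ≤ 0) ∧ (0 ≤ (-1 + q) ∧ (-1 + q) = (0 + p))) ↔
      (p < p)
    omega
  · change (((-1 + q) < (0 + p) ∧ (-1 + q) < -(0 + p)) ∧ (0 ≤ (-1 + q) ∧ (-1 + q) = (0 + p))) ↔
      (p < p)
    omega
  · change (((-1 + q) < (0 + p) ∧ (0 + p) ≤ 0) ∧ ((-1 + q) ≤ 0 ∧ (-1 + q) = (0 + p))) ↔
      (p < p)
    omega
  · change (((-1 + q) < (0 + p) ∧ (-1 + q) < -(0 + p)) ∧ ((-1 + q) ≤ 0 ∧ (-1 + q) = (0 + p))) ↔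
      (p < p)
    omega
  · change (((-1 + q) < (0 + p) ∧ (0 + p) ≤ 0) ∧ ((-1 + q) = 0 ∧ 0 ≤ (0 + p))) ↔
      (p < p)
    omega
  · change (((-1 + q) < (0 + p) ∧ (-1 + q) < -(0 + p)) ∧ ((-1 + q) = 0 ∧ (0 + p) = 0)) ↔
      (p < p)
    omega
  · change (((-1 + q) < (0 + p) ∧ (0 + p) ≤ 0) ∧ ((-1 + q) = 0 ∧ (0 + p) ≤ 0)) ↔
      (p < p)
    omega
  · change (((-1 + q) < (0 + p) ∧ (-1 + q) < -(0 + p)) ∧ ((-1 + q) = 0 ∧ (0 + p) = 0)) ↔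
      (p < p)
    omega
  · change (((-1 + q) < (0 + p) ∧ (0 + p) ≤ 0) ∧ ((-1 + q) = 0 ∧ 0 ≤ (0 + p))) ↔
      (p < p)
    omega
  · change (((-1 + q) < (0 + p) ∧ (-1 + q) < -(0 + p)) ∧ ((0 + p) < (0 + p))) ↔
      (p < p)
    omega
  · change (((-1 + q) < (0 + p) ∧ (0 + p) ≤ 0) ∧ ((-1 + q) = 0 ∧ (0 + p) ≤ 0)) ↔
      (p < p)
    omega
  · change (((-1 + q) < (0 + p) ∧ (-1 + q) < -(0 + p)) ∧ ((0 + p) < (0 + p))) ↔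
      (p < p)
    omega
  · change (((-1 + q) < (0 + p) ∧ (0 + p) ≤ 0) ∧ ((0 + p) = (-1 + q))) ↔
      (p < p)
    omega
  · change (((-1 + q) < (0 + p) ∧ (-1 + q) < -(0 + p)) ∧ ((0 + p) < (0 + p))) ↔
      (p < p)
    omega
  · change (((-1 + q) < (0 + p) ∧ (0 + p) ≤ 0) ∧ (0 ≤ (-1 + q) ∧ (0 + p) = (-1 + q))) ↔
      (p < p)
    omega
  · change (((-1 + q) < (0 + p) ∧ (-1 + q) < -(0 + p)) ∧ ((0 + p) < (0 + p))) ↔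
      (p < p)
    omega
  · change (((-1 + q) < (0 + p) ∧ (0 + p) ≤ 0) ∧ ((-1 + q) ≤ 0 ∧ (0 + p) = (-1 + q))) ↔
      (p < p)
    omega
  · change (((-1 + q) < (0 + p) ∧ (-1 + q) < -(0 + p)) ∧ ((0 + p) < (0 + p))) ↔
      (p < p)
    omega
  · change (((-1 + q) < (0 + p) ∧ (0 + p) ≤ 0) ∧ ((0 + p) = 0 ∧ (-1 + q) = 0)) ↔
      (p < p)
    omega
  · change (((-1 + q) < (0 + p) ∧ (-1 + q) < -(0 + p)) ∧ ((0 + p) < (0 + p))) ↔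
      (p < p)
    omega
  · change (((-1 + q) < (0 + p) ∧ (0 + p) ≤ 0) ∧ ((0 + p) < (0 + p))) ↔
      (p < p)
    omega
  · change (((-1 + q) < (0 + p) ∧ (-1 + q) < -(0 + p)) ∧ ((0 + p) < (0 + p))) ↔
      (p < p)
    omega

theorem st2 (s : St) (p q : ℤ) (u : Bool) :
    (LDE 2 (1 + p) (1 + q) (xor false u) ∧ Reg s (1 + p) (1 + q) (xor false u)) ↔
      Reg (stepN s 2) p q u := by
  cases s <;> cases u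
  · change ((0 < (1 + q) ∧ (1 + q) ≤ (1 + p)) ∧ ((0 ≤ (1 + p) ∧ 0 ≤ (1 + q)) ∨ ((1 + p) ≤ 0 ∧ (1 + q) ≤ 0))) ↔
      (0 ≤ q ∧ q ≤ p)
    omega
  · change ((0 < (1 + p) ∧ (1 + p) = (1 + q)) ∧ (((1 + p) ≤ (1 + q) ∧ -(1 + p) ≤ (1 + q)) ∨ ((1 + q) ≤ (1 + p) ∧ (1 + q) ≤ -(1 + p)) ∨ ((1 + q) = 0 ∧ ((1 + p) = 1 ∨ (1 + p) = -1)))) ↔
      (0 ≤ q ∧ q = p)
    omega
  · change ((0 < (1 + q) ∧ (1 + q) ≤ (1 + p)) ∧ (0 ≤ (1 + p) ∧ (1 + p) ≤ (1 + q))) ↔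
      (0 ≤ q ∧ q = p)
    omega
  · change ((0 < (1 + p) ∧ (1 + p) = (1 + q)) ∧ ((1 + p) ≤ (1 + q) ∧ -(1 + p) ≤ (1 + q))) ↔
      (0 ≤ q ∧ q = p)
    omega
  · change ((0 < (1 + q) ∧ (1 + q) ≤ (1 + p)) ∧ ((1 + q) ≤ (1 + p) ∧ (1 + p) ≤ 0)) ↔
      (p < p)
    omega
  · change ((0 < (1 + p) ∧ (1 + p) = (1 + q)) ∧ ((1 + q) ≤ (1 + p) ∧ (1 + q) ≤ -(1 + p))) ↔
      (p < p)
    omega
  · change ((0 < (1 + q) ∧ (1 + q) ≤ (1 + p)) ∧ (0 ≤ (1 + q) ∧ (1 + q) ≤ (1 + p))) ↔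
      (0 ≤ q ∧ q ≤ p)
    omega
  · change ((0 < (1 + p) ∧ (1 + p) = (1 + q)) ∧ (0 ≤ (1 + q) ∧ (1 + q) = (1 + p))) ↔
      (0 ≤ q ∧ q = p)
    omega
  · change ((0 < (1 + q) ∧ (1 + q) ≤ (1 + p)) ∧ ((1 + p) ≤ (1 + q) ∧ (1 + q) ≤ 0)) ↔
      (p < p)
    omega
  · change ((0 < (1 + p) ∧ (1 + p) = (1 + q)) ∧ ((1 + q) ≤ 0 ∧ (1 + q) = (1 + p))) ↔
      (p < p)
    omega
  · change ((0 < (1 + q) ∧ (1 + q) ≤ (1 + p)) ∧ (0 ≤ (1 + q) ∧ (1 + q) = (1 + p))) ↔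
      (0 ≤ q ∧ q = p)
    omega
  · change ((0 < (1 + p) ∧ (1 + p) = (1 + q)) ∧ (0 ≤ (1 + q) ∧ (1 + q) = (1 + p))) ↔
      (0 ≤ q ∧ q = p)
    omega
  · change ((0 < (1 + q) ∧ (1 + q) ≤ (1 + p)) ∧ ((1 + q) ≤ 0 ∧ (1 + q) = (1 + p))) ↔
      (p < p)
    omega
  · change ((0 < (1 + p) ∧ (1 + p) = (1 + q)) ∧ ((1 + q) ≤ 0 ∧ (1 + q) = (1 + p))) ↔
      (p < p)
    omega
  · change ((0 < (1 + q) ∧ (1 + q) ≤ (1 + p)) ∧ ((1 + q) = 0 ∧ 0 ≤ (1 + p))) ↔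
      (p < p)
    omega
  · change ((0 < (1 + p) ∧ (1 + p) = (1 + q)) ∧ ((1 + q) = 0 ∧ (1 + p) = 0)) ↔
      (p < p)
    omega
  · change ((0 < (1 + q) ∧ (1 + q) ≤ (1 + p)) ∧ ((1 + q) = 0 ∧ (1 + p) ≤ 0)) ↔
      (p < p)
    omega
  · change ((0 < (1 + p) ∧ (1 + p) = (1 + q)) ∧ ((1 + q) = 0 ∧ (1 + p) = 0)) ↔
      (p < p)
    omega
  · change ((0 < (1 + q) ∧ (1 + q) ≤ (1 + p)) ∧ ((1 + q) = 0 ∧ 0 ≤ (1 + p))) ↔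
      (p < p)
    omega
  · change ((0 < (1 + p) ∧ (1 + p) = (1 + q)) ∧ ((1 + p) < (1 + p))) ↔
      (p < p)
    omega
  · change ((0 < (1 + q) ∧ (1 + q) ≤ (1 + p)) ∧ ((1 + q) = 0 ∧ (1 + p) ≤ 0)) ↔
      (p < p)
    omega
  · change ((0 < (1 + p) ∧ (1 + p) = (1 + q)) ∧ ((1 + p) < (1 + p))) ↔
      (p < p)
    omega
  · change ((0 < (1 + q) ∧ (1 + q) ≤ (1 + p)) ∧ ((1 + p) = (1 + q))) ↔
      (0 ≤ q ∧ p = q)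
    omega
  · change ((0 < (1 + p) ∧ (1 + p) = (1 + q)) ∧ ((1 + p) < (1 + p))) ↔
      (p < p)
    omega
  · change ((0 < (1 + q) ∧ (1 + q) ≤ (1 + p)) ∧ (0 ≤ (1 + q) ∧ (1 + p) = (1 + q))) ↔
      (0 ≤ q ∧ p = q)
    omega
  · change ((0 < (1 + p) ∧ (1 + p) = (1 + q)) ∧ ((1 + p) < (1 + p))) ↔
      (p < p)
    omega
  · change ((0 < (1 + q) ∧ (1 + q) ≤ (1 + p)) ∧ ((1 + q) ≤ 0 ∧ (1 + p) = (1 + q))) ↔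
      (p < p)
    omega
  · change ((0 < (1 + p) ∧ (1 + p) = (1 + q)) ∧ ((1 + p) < (1 + p))) ↔
      (p < p)
    omega
  · change ((0 < (1 + q) ∧ (1 + q) ≤ (1 + p)) ∧ ((1 + p) = 0 ∧ (1 + q) = 0)) ↔
      (p < p)
    omega
  · change ((0 < (1 + p) ∧ (1 + p) = (1 + q)) ∧ ((1 + p) < (1 + p))) ↔
      (p < p)
    omega
  · change ((0 < (1 + q) ∧ (1 + q) ≤ (1 + p)) ∧ ((1 + p) < (1 + p))) ↔
      (p < p)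
    omega
  · change ((0 < (1 + p) ∧ (1 + p) = (1 + q)) ∧ ((1 + p) < (1 + p))) ↔
      (p < p)
    omega

theorem st3 (s : St) (p q : ℤ) (u : Bool) :
    (LDE 3 (-1 + p) (-1 + q) (xor false u) ∧ Reg s (-1 + p) (-1 + q) (xor false u)) ↔
      Reg (stepN s 3) p q u := by
  cases s <;> cases u
  · change (((-1 + p) ≤ (-1 + q) ∧ (-1 + q) < 0) ∧ ((0 ≤ (-1 + p) ∧ 0 ≤ (-1 + q)) ∨ ((-1 + p) ≤ 0 ∧ (-1 + q) ≤ 0))) ↔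
      (p ≤ q ∧ q ≤ 0)
    omega
  · change (((-1 + p) < 0 ∧ (-1 + p) = (-1 + q)) ∧ (((-1 + p) ≤ (-1 + q) ∧ -(-1 + p) ≤ (-1 + q)) ∨ ((-1 + q) ≤ (-1 + p) ∧ (-1 + q) ≤ -(-1 + p)) ∨ ((-1 + q) = 0 ∧ ((-1 + p) = 1 ∨ (-1 + p) = -1)))) ↔
      (q ≤ 0 ∧ q = p)
    omega
  · change (((-1 + p) ≤ (-1 + q) ∧ (-1 + q) < 0) ∧ (0 ≤ (-1 + p) ∧ (-1 + p) ≤ (-1 + q))) ↔
      (p < p)
    omega
  · change (((-1 + p) < 0 ∧ (-1 + p) = (-1 + q)) ∧ ((-1 + p) ≤ (-1 + q) ∧ -(-1 + p) ≤ (-1 + q))) ↔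
      (p < p)
    omega
  · change (((-1 + p) ≤ (-1 + q) ∧ (-1 + q) < 0) ∧ ((-1 + q) ≤ (-1 + p) ∧ (-1 + p) ≤ 0)) ↔
      (q ≤ 0 ∧ q = p)
    omega
  · change (((-1 + p) < 0 ∧ (-1 + p) = (-1 + q)) ∧ ((-1 + q) ≤ (-1 + p) ∧ (-1 + q) ≤ -(-1 + p))) ↔
      (q ≤ 0 ∧ q = p)
    omega
  · change (((-1 + p) ≤ (-1 + q) ∧ (-1 + q) < 0) ∧ (0 ≤ (-1 + q) ∧ (-1 + q) ≤ (-1 + p))) ↔
      (p < p)
    omega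
  · change (((-1 + p) < 0 ∧ (-1 + p) = (-1 + q)) ∧ (0 ≤ (-1 + q) ∧ (-1 + q) = (-1 + p))) ↔
      (p < p)
    omega
  · change (((-1 + p) ≤ (-1 + q) ∧ (-1 + q) < 0) ∧ ((-1 + p) ≤ (-1 + q) ∧ (-1 + q) ≤ 0)) ↔
      (p ≤ q ∧ q ≤ 0)
    omega
  · change (((-1 + p) < 0 ∧ (-1 + p) = (-1 + q)) ∧ ((-1 + q) ≤ 0 ∧ (-1 + q) = (-1 + p))) ↔
      (q ≤ 0 ∧ q = p)
    omega
  · change (((-1 + p) ≤ (-1 + q) ∧ (-1 + q) < 0) ∧ (0 ≤ (-1 + q) ∧ (-1 + q) = (-1 + p))) ↔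
      (p < p)
    omega
  · change (((-1 + p) < 0 ∧ (-1 + p) = (-1 + q)) ∧ (0 ≤ (-1 + q) ∧ (-1 + q) = (-1 + p))) ↔
      (p < p)
    omega
  · change (((-1 + p) ≤ (-1 + q) ∧ (-1 + q) < 0) ∧ ((-1 + q) ≤ 0 ∧ (-1 + q) = (-1 + p))) ↔
      (q ≤ 0 ∧ q = p)
    omega
  · change (((-1 + p) < 0 ∧ (-1 + p) = (-1 + q)) ∧ ((-1 + q) ≤ 0 ∧ (-1 + q) = (-1 + p))) ↔
      (q ≤ 0 ∧ q = p)
    omega
  · change (((-1 + p) ≤ (-1 + q) ∧ (-1 + q) < 0) ∧ ((-1 + q) = 0 ∧ 0 ≤ (-1 + p))) ↔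
      (p < p)
    omega
  · change (((-1 + p) < 0 ∧ (-1 + p) = (-1 + q)) ∧ ((-1 + q) = 0 ∧ (-1 + p) = 0)) ↔
      (p < p)
    omega
  · change (((-1 + p) ≤ (-1 + q) ∧ (-1 + q) < 0) ∧ ((-1 + q) = 0 ∧ (-1 + p) ≤ 0)) ↔
      (p < p)
    omega
  · change (((-1 + p) < 0 ∧ (-1 + p) = (-1 + q)) ∧ ((-1 + q) = 0 ∧ (-1 + p) = 0)) ↔
      (p < p)
    omega
  · change (((-1 + p) ≤ (-1 + q) ∧ (-1 + q) < 0) ∧ ((-1 + q) = 0 ∧ 0 ≤ (-1 + p))) ↔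
      (p < p)
    omega
  · change (((-1 + p) < 0 ∧ (-1 + p) = (-1 + q)) ∧ ((-1 + p) < (-1 + p))) ↔
      (p < p)
    omega
  · change (((-1 + p) ≤ (-1 + q) ∧ (-1 + q) < 0) ∧ ((-1 + q) = 0 ∧ (-1 + p) ≤ 0)) ↔
      (p < p)
    omega
  · change (((-1 + p) < 0 ∧ (-1 + p) = (-1 + q)) ∧ ((-1 + p) < (-1 + p))) ↔
      (p < p)
    omega
  · change (((-1 + p) ≤ (-1 + q) ∧ (-1 + q) < 0) ∧ ((-1 + p) = (-1 + q))) ↔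
      (q ≤ 0 ∧ p = q)
    omega
  · change (((-1 + p) < 0 ∧ (-1 + p) = (-1 + q)) ∧ ((-1 + p) < (-1 + p))) ↔
      (p < p)
    omega
  · change (((-1 + p) ≤ (-1 + q) ∧ (-1 + q) < 0) ∧ (0 ≤ (-1 + q) ∧ (-1 + p) = (-1 + q))) ↔
      (p < p)
    omega
  · change (((-1 + p) < 0 ∧ (-1 + p) = (-1 + q)) ∧ ((-1 + p) < (-1 + p))) ↔
      (p < p)
    omega
  · change (((-1 + p) ≤ (-1 + q) ∧ (-1 + q) < 0) ∧ ((-1 + q) ≤ 0 ∧ (-1 + p) = (-1 + q))) ↔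
      (q ≤ 0 ∧ p = q)
    omega
  · change (((-1 + p) < 0 ∧ (-1 + p) = (-1 + q)) ∧ ((-1 + p) < (-1 + p))) ↔
      (p < p)
    omega
  · change (((-1 + p) ≤ (-1 + q) ∧ (-1 + q) < 0) ∧ ((-1 + p) = 0 ∧ (-1 + q) = 0)) ↔
      (p < p)
    omega
  · change (((-1 + p) < 0 ∧ (-1 + p) = (-1 + q)) ∧ ((-1 + p) < (-1 + p))) ↔
      (p < p)
    omega
  · change (((-1 + p) ≤ (-1 + q) ∧ (-1 + q) < 0) ∧ ((-1 + p) < (-1 + p))) ↔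
      (p < p)
    omega
  · change (((-1 + p) < 0 ∧ (-1 + p) = (-1 + q)) ∧ ((-1 + p) < (-1 + p))) ↔
      (p < p)
    omega

theorem st4 (s : St) (p q : ℤ) (u : Bool) :
    (LDE 4 (1 + p) (0 + q) (xor false u) ∧ Reg s (1 + p) (0 + q) (xor false u)) ↔
      Reg (stepN s 4) p q u := by
  cases s <;> cases u
  · change (((0 + q) = 0 ∧ 0 < (1 + p)) ∧ ((0 ≤ (1 + p) ∧ 0 ≤ (0 + q)) ∨ ((1 + p) ≤ 0 ∧ (0 + q) ≤ 0))) ↔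
      (q = 0 ∧ 0 ≤ p)
    omega
  · change (((0 + q) = 0 ∧ (1 + p) = 1) ∧ (((1 + p) ≤ (0 + q) ∧ -(1 + p) ≤ (0 + q)) ∨ ((0 + q) ≤ (1 + p) ∧ (0 + q) ≤ -(1 + p)) ∨ ((0 + q) = 0 ∧ ((1 + p) = 1 ∨ (1 + p) = -1)))) ↔
      (q = 0 ∧ p = 0)
    omega
  · change (((0 + q) = 0 ∧ 0 < (1 + p)) ∧ (0 ≤ (1 + p) ∧ (1 + p) ≤ (0 + q))) ↔
      (p < p)
    omega
  · change (((0 + q) = 0 ∧ (1 + p) = 1) ∧ ((1 + p) ≤ (0 + q) ∧ -(1 + p) ≤ (0 + q))) ↔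
      (p < p)
    omega
  · change (((0 + q) = 0 ∧ 0 < (1 + p)) ∧ ((0 + q) ≤ (1 + p) ∧ (1 + p) ≤ 0)) ↔
      (p < p)
    omega
  · change (((0 + q) = 0 ∧ (1 + p) = 1) ∧ ((0 + q) ≤ (1 + p) ∧ (0 + q) ≤ -(1 + p))) ↔
      (p < p)
    omega
  · change (((0 + q) = 0 ∧ 0 < (1 + p)) ∧ (0 ≤ (0 + q) ∧ (0 + q) ≤ (1 + p))) ↔
      (q = 0 ∧ 0 ≤ p)
    omega
  · change (((0 + q) = 0 ∧ (1 + p) = 1) ∧ (0 ≤ (0 + q) ∧ (0 + q) = (1 + p))) ↔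
      (p < p)
    omega
  · change (((0 + q) = 0 ∧ 0 < (1 + p)) ∧ ((1 + p) ≤ (0 + q) ∧ (0 + q) ≤ 0)) ↔
      (p < p)
    omega
  · change (((0 + q) = 0 ∧ (1 + p) = 1) ∧ ((0 + q) ≤ 0 ∧ (0 + q) = (1 + p))) ↔
      (p < p)
    omega
  · change (((0 + q) = 0 ∧ 0 < (1 + p)) ∧ (0 ≤ (0 + q) ∧ (0 + q) = (1 + p))) ↔
      (p < p)
    omega
  · change (((0 + q) = 0 ∧ (1 + p) = 1) ∧ (0 ≤ (0 + q) ∧ (0 + q) = (1 + p))) ↔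
      (p < p)
    omega
  · change (((0 + q) = 0 ∧ 0 < (1 + p)) ∧ ((0 + q) ≤ 0 ∧ (0 + q) = (1 + p))) ↔
      (p < p)
    omega
  · change (((0 + q) = 0 ∧ (1 + p) = 1) ∧ ((0 + q) ≤ 0 ∧ (0 + q) = (1 + p))) ↔
      (p < p)
    omega
  · change (((0 + q) = 0 ∧ 0 < (1 + p)) ∧ ((0 + q) = 0 ∧ 0 ≤ (1 + p))) ↔
      (q = 0 ∧ 0 ≤ p)
    omega
  · change (((0 + q) = 0 ∧ (1 + p) = 1) ∧ ((0 + q) = 0 ∧ (1 + p) = 0)) ↔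
      (p < p)
    omega
  · change (((0 + q) = 0 ∧ 0 < (1 + p)) ∧ ((0 + q) = 0 ∧ (1 + p) ≤ 0)) ↔
      (p < p)
    omega
  · change (((0 + q) = 0 ∧ (1 + p) = 1) ∧ ((0 + q) = 0 ∧ (1 + p) = 0)) ↔
      (p < p)
    omega
  · change (((0 + q) = 0 ∧ 0 < (1 + p)) ∧ ((0 + q) = 0 ∧ 0 ≤ (1 + p))) ↔
      (q = 0 ∧ 0 ≤ p)
    omega
  · change (((0 + q) = 0 ∧ (1 + p) = 1) ∧ ((1 + p) < (1 + p))) ↔
      (p < p)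
    omega
  · change (((0 + q) = 0 ∧ 0 < (1 + p)) ∧ ((0 + q) = 0 ∧ (1 + p) ≤ 0)) ↔
      (p < p)
    omega
  · change (((0 + q) = 0 ∧ (1 + p) = 1) ∧ ((1 + p) < (1 + p))) ↔
      (p < p)
    omega
  · change (((0 + q) = 0 ∧ 0 < (1 + p)) ∧ ((1 + p) = (0 + q))) ↔
      (p < p)
    omega
  · change (((0 + q) = 0 ∧ (1 + p) = 1) ∧ ((1 + p) < (1 + p))) ↔
      (p < p)
    omega
  · change (((0 + q) = 0 ∧ 0 < (1 + p)) ∧ (0 ≤ (0 + q) ∧ (1 + p) = (0 + q))) ↔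
      (p < p)
    omega
  · change (((0 + q) = 0 ∧ (1 + p) = 1) ∧ ((1 + p) < (1 + p))) ↔
      (p < p)
    omega
  · change (((0 + q) = 0 ∧ 0 < (1 + p)) ∧ ((0 + q) ≤ 0 ∧ (1 + p) = (0 + q))) ↔
      (p < p)
    omega
  · change (((0 + q) = 0 ∧ (1 + p) = 1) ∧ ((1 + p) < (1 + p))) ↔
      (p < p)
    omega
  · change (((0 + q) = 0 ∧ 0 < (1 + p)) ∧ ((1 + p) = 0 ∧ (0 + q) = 0)) ↔
      (p < p)
    omega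
  · change (((0 + q) = 0 ∧ (1 + p) = 1) ∧ ((1 + p) < (1 + p))) ↔
      (p < p)
    omega
  · change (((0 + q) = 0 ∧ 0 < (1 + p)) ∧ ((1 + p) < (1 + p))) ↔
      (p < p)
    omega
  · change (((0 + q) = 0 ∧ (1 + p) = 1) ∧ ((1 + p) < (1 + p))) ↔
      (p < p)
    omega

theorem st5 (s : St) (p q : ℤ) (u : Bool) :
    (LDE 5 (-1 + p) (0 + q) (xor false u) ∧ Reg s (-1 + p) (0 + q) (xor false u)) ↔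
      Reg (stepN s 5) p q u := by
  cases s <;> cases u
  · change (((0 + q) = 0 ∧ (-1 + p) < 0) ∧ ((0 ≤ (-1 + p) ∧ 0 ≤ (0 + q)) ∨ ((-1 + p) ≤ 0 ∧ (0 + q) ≤ 0))) ↔
      (q = 0 ∧ p ≤ 0)
    omega
  · change (((0 + q) = 0 ∧ (-1 + p) = -1) ∧ (((-1 + p) ≤ (0 + q) ∧ -(-1 + p) ≤ (0 + q)) ∨ ((0 + q) ≤ (-1 + p) ∧ (0 + q) ≤ -(-1 + p)) ∨ ((0 + q) = 0 ∧ ((-1 + p) = 1 ∨ (-1 + p) = -1)))) ↔
      (q = 0 ∧ p = 0)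
    omega
  · change (((0 + q) = 0 ∧ (-1 + p) < 0) ∧ (0 ≤ (-1 + p) ∧ (-1 + p) ≤ (0 + q))) ↔
      (p < p)
    omega
  · change (((0 + q) = 0 ∧ (-1 + p) = -1) ∧ ((-1 + p) ≤ (0 + q) ∧ -(-1 + p) ≤ (0 + q))) ↔
      (p < p)
    omega
  · change (((0 + q) = 0 ∧ (-1 + p) < 0) ∧ ((0 + q) ≤ (-1 + p) ∧ (-1 + p) ≤ 0)) ↔
      (p < p)
    omega
  · change (((0 + q) = 0 ∧ (-1 + p) = -1) ∧ ((0 + q) ≤ (-1 + p) ∧ (0 + q) ≤ -(-1 + p))) ↔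
      (p < p)
    omega
  · change (((0 + q) = 0 ∧ (-1 + p) < 0) ∧ (0 ≤ (0 + q) ∧ (0 + q) ≤ (-1 + p))) ↔
      (p < p)
    omega
  · change (((0 + q) = 0 ∧ (-1 + p) = -1) ∧ (0 ≤ (0 + q) ∧ (0 + q) = (-1 + p))) ↔
      (p < p)
    omega
  · change (((0 + q) = 0 ∧ (-1 + p) < 0) ∧ ((-1 + p) ≤ (0 + q) ∧ (0 + q) ≤ 0)) ↔
      (q = 0 ∧ p ≤ 0)
    omega
  · change (((0 + q) = 0 ∧ (-1 + p) = -1) ∧ ((0 + q) ≤ 0 ∧ (0 + q) = (-1 + p))) ↔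
      (p < p)
    omega
  · change (((0 + q) = 0 ∧ (-1 + p) < 0) ∧ (0 ≤ (0 + q) ∧ (0 + q) = (-1 + p))) ↔
      (p < p)
    omega
  · change (((0 + q) = 0 ∧ (-1 + p) = -1) ∧ (0 ≤ (0 + q) ∧ (0 + q) = (-1 + p))) ↔
      (p < p)
    omega
  · change (((0 + q) = 0 ∧ (-1 + p) < 0) ∧ ((0 + q) ≤ 0 ∧ (0 + q) = (-1 + p))) ↔
      (p < p)
    omega
  · change (((0 + q) = 0 ∧ (-1 + p) = -1) ∧ ((0 + q) ≤ 0 ∧ (0 + q) = (-1 + p))) ↔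
      (p < p)
    omega
  · change (((0 + q) = 0 ∧ (-1 + p) < 0) ∧ ((0 + q) = 0 ∧ 0 ≤ (-1 + p))) ↔
      (p < p)
    omega
  · change (((0 + q) = 0 ∧ (-1 + p) = -1) ∧ ((0 + q) = 0 ∧ (-1 + p) = 0)) ↔
      (p < p)
    omega
  · change (((0 + q) = 0 ∧ (-1 + p) < 0) ∧ ((0 + q) = 0 ∧ (-1 + p) ≤ 0)) ↔
      (q = 0 ∧ p ≤ 0)
    omega
  · change (((0 + q) = 0 ∧ (-1 + p) = -1) ∧ ((0 + q) = 0 ∧ (-1 + p) = 0)) ↔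
      (p < p)
    omega
  · change (((0 + q) = 0 ∧ (-1 + p) < 0) ∧ ((0 + q) = 0 ∧ 0 ≤ (-1 + p))) ↔
      (p < p)
    omega
  · change (((0 + q) = 0 ∧ (-1 + p) = -1) ∧ ((-1 + p) < (-1 + p))) ↔
      (p < p)
    omega
  · change (((0 + q) = 0 ∧ (-1 + p) < 0) ∧ ((0 + q) = 0 ∧ (-1 + p) ≤ 0)) ↔
      (q = 0 ∧ p ≤ 0)
    omega
  · change (((0 + q) = 0 ∧ (-1 + p) = -1) ∧ ((-1 + p) < (-1 + p))) ↔
      (p < p)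
    omega
  · change (((0 + q) = 0 ∧ (-1 + p) < 0) ∧ ((-1 + p) = (0 + q))) ↔
      (p < p)
    omega
  · change (((0 + q) = 0 ∧ (-1 + p) = -1) ∧ ((-1 + p) < (-1 + p))) ↔
      (p < p)
    omega
  · change (((0 + q) = 0 ∧ (-1 + p) < 0) ∧ (0 ≤ (0 + q) ∧ (-1 + p) = (0 + q))) ↔
      (p < p)
    omega
  · change (((0 + q) = 0 ∧ (-1 + p) = -1) ∧ ((-1 + p) < (-1 + p))) ↔
      (p < p)
    omega
  · change (((0 + q) = 0 ∧ (-1 + p) < 0) ∧ ((0 + q) ≤ 0 ∧ (-1 + p) = (0 + q))) ↔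
      (p < p)
    omega
  · change (((0 + q) = 0 ∧ (-1 + p) = -1) ∧ ((-1 + p) < (-1 + p))) ↔
      (p < p)
    omega
  · change (((0 + q) = 0 ∧ (-1 + p) < 0) ∧ ((-1 + p) = 0 ∧ (0 + q) = 0)) ↔
      (p < p)
    omega
  · change (((0 + q) = 0 ∧ (-1 + p) = -1) ∧ ((-1 + p) < (-1 + p))) ↔
      (p < p)
    omega
  · change (((0 + q) = 0 ∧ (-1 + p) < 0) ∧ ((-1 + p) < (-1 + p))) ↔
      (p < p)
    omega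
  · change (((0 + q) = 0 ∧ (-1 + p) = -1) ∧ ((-1 + p) < (-1 + p))) ↔
      (p < p)
    omega

theorem st6 (s : St) (p q : ℤ) (u : Bool) :
    (LDE 6 (0 + -p) (0 + q) (xor true u) ∧ Reg s (0 + -p) (0 + q) (xor true u)) ↔
      Reg (stepN s 6) p q u := by
  cases s <;> cases u
  · change (((0 + -p) = -(0 + q)) ∧ (((0 + -p) ≤ (0 + q) ∧ -(0 + -p) ≤ (0 + q)) ∨ ((0 + q) ≤ (0 + -p) ∧ (0 + q) ≤ -(0 + -p)) ∨ ((0 + q) = 0 ∧ ((0 + -p) = 1 ∨ (0 + -p) = -1)))) ↔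
      (p = q)
    omega
  · change (((0 + -p) < (0 + -p)) ∧ ((0 ≤ (0 + -p) ∧ 0 ≤ (0 + q)) ∨ ((0 + -p) ≤ 0 ∧ (0 + q) ≤ 0))) ↔
      (p < p)
    omega
  · change (((0 + -p) = -(0 + q)) ∧ ((0 + -p) ≤ (0 + q) ∧ -(0 + -p) ≤ (0 + q))) ↔
      (0 ≤ q ∧ p = q)
    omega
  · change (((0 + -p) < (0 + -p)) ∧ (0 ≤ (0 + -p) ∧ (0 + -p) ≤ (0 + q))) ↔
      (p < p)
    omega
  · change (((0 + -p) = -(0 + q)) ∧ ((0 + q) ≤ (0 + -p) ∧ (0 + q) ≤ -(0 + -p))) ↔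
      (q ≤ 0 ∧ p = q)
    omega
  · change (((0 + -p) < (0 + -p)) ∧ ((0 + q) ≤ (0 + -p) ∧ (0 + -p) ≤ 0)) ↔
      (p < p)
    omega
  · change (((0 + -p) = -(0 + q)) ∧ (0 ≤ (0 + q) ∧ (0 + q) = (0 + -p))) ↔
      (p = 0 ∧ q = 0)
    omega
  · change (((0 + -p) < (0 + -p)) ∧ (0 ≤ (0 + q) ∧ (0 + q) ≤ (0 + -p))) ↔
      (p < p)
    omega
  · change (((0 + -p) = -(0 + q)) ∧ ((0 + q) ≤ 0 ∧ (0 + q) = (0 + -p))) ↔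
      (p = 0 ∧ q = 0)
    omega
  · change (((0 + -p) < (0 + -p)) ∧ ((0 + -p) ≤ (0 + q) ∧ (0 + q) ≤ 0)) ↔
      (p < p)
    omega
  · change (((0 + -p) = -(0 + q)) ∧ (0 ≤ (0 + q) ∧ (0 + q) = (0 + -p))) ↔
      (p = 0 ∧ q = 0)
    omega
  · change (((0 + -p) < (0 + -p)) ∧ (0 ≤ (0 + q) ∧ (0 + q) = (0 + -p))) ↔
      (p < p)
    omega
  · change (((0 + -p) = -(0 + q)) ∧ ((0 + q) ≤ 0 ∧ (0 + q) = (0 + -p))) ↔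
      (p = 0 ∧ q = 0)
    omega
  · change (((0 + -p) < (0 + -p)) ∧ ((0 + q) ≤ 0 ∧ (0 + q) = (0 + -p))) ↔
      (p < p)
    omega
  · change (((0 + -p) = -(0 + q)) ∧ ((0 + q) = 0 ∧ (0 + -p) = 0)) ↔
      (p = 0 ∧ q = 0)
    omega
  · change (((0 + -p) < (0 + -p)) ∧ ((0 + q) = 0 ∧ 0 ≤ (0 + -p))) ↔
      (p < p)
    omega
  · change (((0 + -p) = -(0 + q)) ∧ ((0 + q) = 0 ∧ (0 + -p) = 0)) ↔
      (p = 0 ∧ q = 0)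
    omega
  · change (((0 + -p) < (0 + -p)) ∧ ((0 + q) = 0 ∧ (0 + -p) ≤ 0)) ↔
      (p < p)
    omega
  · change (((0 + -p) = -(0 + q)) ∧ ((0 + -p) < (0 + -p))) ↔
      (p < p)
    omega
  · change (((0 + -p) < (0 + -p)) ∧ ((0 + q) = 0 ∧ 0 ≤ (0 + -p))) ↔
      (p < p)
    omega
  · change (((0 + -p) = -(0 + q)) ∧ ((0 + -p) < (0 + -p))) ↔
      (p < p)
    omega
  · change (((0 + -p) < (0 + -p)) ∧ ((0 + q) = 0 ∧ (0 + -p) ≤ 0)) ↔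
      (p < p)
    omega
  · change (((0 + -p) = -(0 + q)) ∧ ((0 + -p) < (0 + -p))) ↔
      (p < p)
    omega
  · change (((0 + -p) < (0 + -p)) ∧ ((0 + -p) = (0 + q))) ↔
      (p < p)
    omega
  · change (((0 + -p) = -(0 + q)) ∧ ((0 + -p) < (0 + -p))) ↔
      (p < p)
    omega
  · change (((0 + -p) < (0 + -p)) ∧ (0 ≤ (0 + q) ∧ (0 + -p) = (0 + q))) ↔
      (p < p)
    omega
  · change (((0 + -p) = -(0 + q)) ∧ ((0 + -p) < (0 + -p))) ↔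
      (p < p)
    omega
  · change (((0 + -p) < (0 + -p)) ∧ ((0 + q) ≤ 0 ∧ (0 + -p) = (0 + q))) ↔
      (p < p)
    omega
  · change (((0 + -p) = -(0 + q)) ∧ ((0 + -p) < (0 + -p))) ↔
      (p < p)
    omega
  · change (((0 + -p) < (0 + -p)) ∧ ((0 + -p) = 0 ∧ (0 + q) = 0)) ↔
      (p < p)
    omega
  · change (((0 + -p) = -(0 + q)) ∧ ((0 + -p) < (0 + -p))) ↔
      (p < p)
    omega
  · change (((0 + -p) < (0 + -p)) ∧ ((0 + -p) < (0 + -p))) ↔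
      (p < p)
    omega

end Pool.Agent.H214Z.EL
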