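import Mathlib

set_option autoImplicit false

/-! Shortlex normal forms from an explicit length function; the group `D∞ × ℤ`. -/

namespace Pool.Agent.H214Z.EL

section generic

variable {G A : Type} [Group G] (val : A → G) (r : A → A → Prop) (len : G → ℕ)

/-- `a` is the least letter which starts a geodesic word for `g` -/
def IsLD (a : A) (g : G) : Prop :=
  len ((val a)⁻¹ * g) < len g ∧ ∀ b, r b a → ¬ len ((val b)⁻¹ * g) < len g

/-- greedy words -/
def SL : List A → Prop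
  | [] => True
  | a :: w => SL w ∧ IsLD val r len a (val a * (w.map val).prod)

/-- shortlex least words -/
def IsMin (w : List A) : Prop :=
  ∀ w' : List A, (w'.map val).prod = (w.map val).prod →
    w.length < w'.length ∨ (w.length = w'.length ∧ (w = w' ∨ List.Lex r w w'))

/-- `len` is the word length -/
structure IsLen : Prop where
  one : len 1 = 0
  step : ∀ a g, len (val a * g) ≤ len g + 1
  down : ∀ g, g ≠ 1 → ∃ a, len ((val a)⁻¹ * g) < len g

variable {val r len}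

theorem IsLen.le (h : IsLen val len) (w : List A) : len (w.map val).prod ≤ w.length := by
  induction w with
  | nil => simp [h.one]
  | cons a w ih =>
    have := h.step a (w.map val).prod
    simp only [List.map_cons, List.prod_cons, List.length_cons]
    omega

theorem IsLen.sl_len (h : IsLen val len) {w : List A} (hw : SL val r len w) :
    w.length = len (w.map val).prod := by
  induction w with
  | nil => simp [h.one]
  | cons a w ih =>
    obtain ⟨h1, h2, -⟩ := hw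
    have := h.step a (w.map val).prod
    rw [inv_mul_cancel_left] at h2
    have := ih h1
    simp only [List.map_cons, List.prod_cons, List.length_cons]
    omega

theorem IsLen.exists_sl [Finite A] [IsStrictTotalOrder A r] (h : IsLen val len) (g : G) :
    ∃ w, SL val r len w ∧ (w.map val).prod = g := by
  induction hn : len g using Nat.strong_induction_on generalizing g with
  | _ n ih =>
    by_cases hg : g = 1
    · exact ⟨[], trivial, by simp [hg]⟩
    · have hwf : WellFounded r := (Finite.wellFounded_of_trans_of_irrefl r)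
      obtain ⟨a, ha, hmin⟩ := hwf.has_min {a | len ((val a)⁻¹ * g) < len g} (h.down g hg)
      obtain ⟨w, hw, hw2⟩ := ih _ (hn ▸ ha) _ rfl
      have e : val a * (w.map val).prod = g := by rw [hw2, mul_inv_cancel_left]
      refine ⟨a :: w, ⟨hw, ?_⟩, by simpa using e⟩
      rw [e]
      exact ⟨ha, fun b hb hb2 => hmin b hb2 hb⟩

theorem IsLen.min_of_sl [IsStrictTotalOrder A r] (h : IsLen val len) {w : List A}
    (hw : SL val r len w) : IsMin val r w := by
  induction w with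
  | nil =>
    intro w' _
    cases w' with
    | nil => exact Or.inr ⟨rfl, Or.inl rfl⟩
    | cons b u => exact Or.inl (by simp)
  | cons a u ih =>
    intro w' hw'
    have e1 := h.sl_len hw
    have e2 := h.le w'
    rw [hw', ← e1] at e2
    rcases e2.lt_or_eq with e2 | e2
    · exact Or.inl e2
    refine Or.inr ⟨e2, ?_⟩
    cases w' with
    | nil => simp at e2
    | cons b u' =>
      simp only [List.map_cons, List.prod_cons, List.length_cons] at hw' e1 e2
      obtain ⟨h1, h2, h3⟩ := hw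
      have e3 : len ((val b)⁻¹ * (val a * (u.map val).prod)) < len (val a * (u.map val).prod) := by
        have := h.le u'
        rw [← hw', inv_mul_cancel_left, hw']
        omega
      rcases trichotomous_of r a b with hab | rfl | hab
      · exact Or.inr (List.Lex.rel hab)
      · rcases ih h1 u' (mul_left_cancel hw') with h4 | ⟨-, rfl | h4⟩
        · omega
        · exact Or.inl rfl
        · exact Or.inr (List.Lex.cons h4)
      · exact absurd e3 (h3 b hab)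

theorem IsLen.min_iff [Finite A] [IsStrictTotalOrder A r] (h : IsLen val len) (w : List A) :
    IsMin val r w ↔ SL val r len w := by
  refine ⟨fun hw => ?_, h.min_of_sl⟩
  obtain ⟨w0, h0, e⟩ := h.exists_sl (r := r) (w.map val).prod
  have h1 := hw w0 e
  have h2 := h.min_of_sl h0 w e.symm
  rcases h1 with h1 | ⟨h1, rfl | h1'⟩
  · rcases h2 with h2 | ⟨h2, -⟩ <;> omega
  · exact h0
  · rcases h2 with h2 | ⟨-, rfl | h2⟩
    · omega
    · exact h0
    · exact absurd h2 (asymm h1')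

theorem IsLen.conj_iff [Finite A] [IsStrictTotalOrder A r] (h : IsLen val len) {w : List A}
    (hw : SL val r len w) :
    (∀ w' : List A, IsConj (w.map val).prod (w'.map val).prod → w.length ≤ w'.length) ↔
      ∀ k : G, len (w.map val).prod ≤ len (k * (w.map val).prod * k⁻¹) := by
  rw [h.sl_len hw]
  constructor
  · intro H k
    obtain ⟨w', h1, h2⟩ := h.exists_sl (r := r) (k * (w.map val).prod * k⁻¹)
    have := H w' (isConj_iff.2 ⟨k, h2.symm⟩)
    rwa [h.sl_len h1, h2] at this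
  · intro H w' hc
    obtain ⟨k, hk⟩ := isConj_iff.1 hc
    have := H k
    rw [hk] at this
    exact this.trans (h.le w')

end generic

/-- the group `D∞ × ℤ` -/
@[ext]
structure K where
  p : ℤ
  q : ℤ
  s : Bool
deriving DecidableEq

instance : Mul K := ⟨fun g h => ⟨g.p + (if g.s then -h.p else h.p), g.q + h.q, xor g.s h.s⟩⟩
instance : One K := ⟨⟨0, 0, false⟩⟩
instance : Inv K := ⟨fun g => ⟨if g.s then g.p else -g.p, -g.q, g.s⟩⟩

theorem mul_def (p q p' q' : ℤ) (s s' : Bool) : (⟨p, q, s⟩ * ⟨p', q', s'⟩ : K) =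
    ⟨p + (if s then -p' else p'), q + q', xor s s'⟩ := rfl
theorem one_def : (1 : K) = ⟨0, 0, false⟩ := rfl
theorem inv_def (p q : ℤ) (s : Bool) : (⟨p, q, s⟩ : K)⁻¹ = ⟨if s then p else -p, -q, s⟩ := rfl

instance : Group K := Group.ofLeftAxioms
  (by
    rintro ⟨p, q, s⟩ ⟨p', q', s'⟩ ⟨p'', q'', s''⟩
    cases s <;> cases s' <;> cases s'' <;> simp [mul_def] <;> constructor <;> ring)
  (by rintro ⟨p, q, s⟩; simp [mul_def, one_def])
  (by rintro ⟨p, q, s⟩; cases s <;> simp [mul_def, one_def, inv_def])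

/-- the generating set -/
def X : Finset K :=
  {⟨0, 1, false⟩, ⟨0, -1, false⟩, ⟨1, 1, false⟩, ⟨-1, -1, false⟩, ⟨1, 0, false⟩, ⟨-1, 0, false⟩,
    ⟨0, 0, true⟩}

/-- position in the order -/
def rank (g : K) : ℕ :=
  if g.s then 6 else if g.p = 0 then (if g.q = 1 then 0 else 1)
    else if g.q = 0 then (if g.p = 1 then 4 else 5) else (if g.p = 1 then 2 else 3)

/-- the alphabet -/
abbrev A : Type := {x // x ∈ X}

/-- the order -/
def rr (a b : A) : Prop := rank a.1 < rank b.1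

theorem rank_inj : ∀ a b : A, rank a.1 = rank b.1 → a = b := by decide

instance : IsStrictTotalOrder A rr where
  trichotomous a b h1 h2 := rank_inj a b (by unfold rr at h1 h2; omega)
  irrefl a := lt_irrefl _
  trans a b c := lt_trans

theorem X_inv : ∀ x ∈ X, x⁻¹ ∈ X := by decide

/-- the word length -/
def len (g : K) : ℕ :=
  if g.s then max g.p.natAbs g.q.natAbs + 1
  else min (max (max g.p.natAbs g.q.natAbs) (g.p - g.q).natAbs) (max g.p.natAbs g.q.natAbs + 2)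

theorem len_t (p q : ℤ) : len ⟨p, q, true⟩ = max p.natAbs q.natAbs + 1 := rfl
theorem len_f (p q : ℤ) : len ⟨p, q, false⟩ =
    min (max (max p.natAbs q.natAbs) (p - q).natAbs) (max p.natAbs q.natAbs + 2) := rfl

theorem A_cases (a : A) : a = ⟨⟨0, 1, false⟩, by decide⟩ ∨ a = ⟨⟨0, -1, false⟩, by decide⟩ ∨
    a = ⟨⟨1, 1, false⟩, by decide⟩ ∨ a = ⟨⟨-1, -1, false⟩, by decide⟩ ∨
    a = ⟨⟨1, 0, false⟩, by decide⟩ ∨ a = ⟨⟨-1, 0, false⟩, by decide⟩ ∨
    a = ⟨⟨0, 0, true⟩, by decide⟩ := by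
  revert a; decide

theorem forall_A (P : A → Prop) : (∀ a, P a) ↔ P ⟨⟨0, 1, false⟩, by decide⟩ ∧
    P ⟨⟨0, -1, false⟩, by decide⟩ ∧
    P ⟨⟨1, 1, false⟩, by decide⟩ ∧ P ⟨⟨-1, -1, false⟩, by decide⟩ ∧
    P ⟨⟨1, 0, false⟩, by decide⟩ ∧ P ⟨⟨-1, 0, false⟩, by decide⟩ ∧
    P ⟨⟨0, 0, true⟩, by decide⟩ := by
  refine ⟨fun h => ⟨h _, h _, h _, h _, h _, h _, h _⟩, ?_⟩
  rintro ⟨h0, h1, h2, h3, h4, h5, h6⟩ a
  rcases A_cases a with rfl | rfl | rfl | rfl | rfl | rfl | rfl <;> assumption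

/-! descents -/

theorem d0f (p q : ℤ) : len ⟨p, q - 1, false⟩ < len ⟨p, q, false⟩ ↔
    (0 ≤ p ∧ p < q) ∨ (p < 0 ∧ -p < q) ∨ (p < 0 ∧ 0 < q ∧ q ≤ 2) := by
  rw [len_f, len_f]; omega
theorem d1f (p q : ℤ) : len ⟨p, q + 1, false⟩ < len ⟨p, q, false⟩ ↔
    (p ≤ 0 ∧ q < p) ∨ (0 < p ∧ q < -p) ∨ (0 < p ∧ q < 0 ∧ -2 ≤ q) := by
  rw [len_f, len_f]; omega
theorem d2f (p q : ℤ) : len ⟨p - 1, q - 1, false⟩ < len ⟨p, q, false⟩ ↔
    (0 < p ∧ 0 < q) ∨ (q ≤ -2 ∧ -q + 2 ≤ p) ∨ (p ≤ -2 ∧ -p + 2 ≤ q) := by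
  rw [len_f, len_f]; omega
theorem d3f (p q : ℤ) : len ⟨p + 1, q + 1, false⟩ < len ⟨p, q, false⟩ ↔
    (p < 0 ∧ q < 0) ∨ (2 ≤ q ∧ p ≤ -q - 2) ∨ (2 ≤ p ∧ q ≤ -p - 2) := by
  rw [len_f, len_f]; omega
theorem d4f (p q : ℤ) : len ⟨p - 1, q, false⟩ < len ⟨p, q, false⟩ ↔
    (0 ≤ q ∧ q < p) ∨ (q < 0 ∧ -q < p) ∨ (q < 0 ∧ 0 < p ∧ p ≤ 2) := by
  rw [len_f, len_f]; omega
theorem d5f (p q : ℤ) : len ⟨p + 1, q, false⟩ < len ⟨p, q, false⟩ ↔
    (q ≤ 0 ∧ p < q) ∨ (0 < q ∧ p < -q) ∨ (0 < q ∧ p < 0 ∧ -2 ≤ p) := by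
  rw [len_f, len_f]; omega
theorem d6f (p q : ℤ) : len ⟨-p, q, true⟩ < len ⟨p, q, false⟩ ↔
    (2 ≤ p ∧ q ≤ -2) ∨ (p ≤ -2 ∧ 2 ≤ q) := by
  rw [len_f, len_t]; omega
theorem d0t (p q : ℤ) : len ⟨p, q - 1, true⟩ < len ⟨p, q, true⟩ ↔ p < q ∧ -p < q := by
  rw [len_t, len_t]; omega
theorem d1t (p q : ℤ) : len ⟨p, q + 1, true⟩ < len ⟨p, q, true⟩ ↔ q < p ∧ q < -p := by
  rw [len_t, len_t]; omega
theorem d2t (p q : ℤ) : len ⟨p - 1, q - 1, true⟩ < len ⟨p, q, true⟩ ↔
    (0 < p ∧ 0 < q) ∨ 2 ≤ p + q := by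
  rw [len_t, len_t]; omega
theorem d3t (p q : ℤ) : len ⟨p + 1, q + 1, true⟩ < len ⟨p, q, true⟩ ↔
    (p < 0 ∧ q < 0) ∨ p + q ≤ -2 := by
  rw [len_t, len_t]; omega
theorem d4t (p q : ℤ) : len ⟨p - 1, q, true⟩ < len ⟨p, q, true⟩ ↔ q < p ∧ -q < p := by
  rw [len_t, len_t]; omega
theorem d5t (p q : ℤ) : len ⟨p + 1, q, true⟩ < len ⟨p, q, true⟩ ↔ p < q ∧ p < -q := by
  rw [len_t, len_t]; omega
theorem d6t (p q : ℤ) : len ⟨-p, q, false⟩ < len ⟨p, q, true⟩ ↔
    (0 ≤ p ∧ q ≤ 0) ∨ (p ≤ 0 ∧ 0 ≤ q) := by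
  rw [len_f, len_t]; omega

end Pool.Agent.H214Z.EL
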