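import Pool.Agent.H214Z.ELReg

set_option autoImplicit false

/-! The free product of two copies of `D∞ × ℤ`. -/

namespace Pool.Agent.H214Z.EL

/-- the wreath product of `ℤ / 2` with `K`, as a monoid -/
@[ext]
structure Wr where
  f : K →₀ ZMod 2
  g : K

noncomputable instance : Mul Wr := ⟨fun a b => ⟨a.f + b.f.mapDomain (a.g * ·), a.g * b.g⟩⟩
noncomputable instance : One Wr := ⟨⟨0, 1⟩⟩

@[simp] theorem wmul_f (a b : Wr) : (a * b).f = a.f + b.f.mapDomain (a.g * ·) := rfl
@[simp] theorem wmul_g (a b : Wr) : (a * b).g = a.g * b.g := rfl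
@[simp] theorem wone_f : (1 : Wr).f = 0 := rfl
@[simp] theorem wone_g : (1 : Wr).g = 1 := rfl

theorem md_one (f : K →₀ ZMod 2) : f.mapDomain ((1 : K) * ·) = f := by
  have : ((1 : K) * ·) = id := by funext x; simp
  rw [this, Finsupp.mapDomain_id]

noncomputable instance : Monoid Wr where
  mul_assoc a b c := by
    apply Wr.ext
    · simp only [wmul_f, wmul_g, Finsupp.mapDomain_add, ← Finsupp.mapDomain_comp, add_assoc]
      congr 3
      funext x
      simp [mul_assoc]
    · simp [mul_assoc]
  one_mul a := by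
    apply Wr.ext
    · simp only [wmul_f, wone_f, wone_g, md_one, zero_add]
    · simp
  mul_one a := by
    apply Wr.ext <;> simp

/-- moving the cursor -/
noncomputable def cur : K →* Wr where
  toFun k := ⟨0, k⟩
  map_one' := rfl
  map_mul' a b := by apply Wr.ext <;> simp

/-- switching the lamp -/
noncomputable def lamp : K →* Wr where
  toFun k := ⟨Finsupp.single 1 (if k.s then 1 else 0), 1⟩
  map_one' := by apply Wr.ext <;> simp [one_def]
  map_mul' := by
    rintro ⟨p, q, s⟩ ⟨p', q', s'⟩
    apply Wr.ext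
    · simp only [wmul_f, md_one, ← Finsupp.single_add, mul_def]
      congr 1
      cases s <;> cases s' <;> rfl
    · simp

/-- the free product -/
abbrev H : Type := Monoid.CoprodI (fun _ : Fin 2 => K)

/-- its alphabet -/
abbrev B : Type := Σ _ : Fin 2, A

/-- the two inclusions -/
def of0 : K →* H := Monoid.CoprodI.of (M := fun _ : Fin 2 => K) (i := 0)
def of1 : K →* H := Monoid.CoprodI.of (M := fun _ : Fin 2 => K) (i := 1)

/-- evaluation of letters -/
def ev (s : B) : H := Monoid.CoprodI.of (M := fun _ : Fin 2 => K) (i := s.1) s.2.1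

/-- the map to the wreath product -/
noncomputable def Psi : H →* Wr := Monoid.CoprodI.lift (fun i : Fin 2 => ![cur, lamp] i)

theorem Psi_of0 (k : K) : Psi (of0 k) = ⟨0, k⟩ := Monoid.CoprodI.lift_of _ _
theorem Psi_of1 (k : K) : Psi (of1 k) = ⟨Finsupp.single 1 (if k.s then 1 else 0), 1⟩ :=
  Monoid.CoprodI.lift_of _ _

/-- the image of a word -/
noncomputable def P (w : List B) : Wr := Psi (w.map ev).prod

theorem P_nil : P [] = 1 := by simp [P]
theorem P_cons (a : B) (w : List B) : P (a :: w) = Psi (ev a) * P w := by simp [P]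
theorem P_append (w w' : List B) : P (w ++ w') = P w * P w' := by simp [P]

theorem B_cases (a : B) : (∃ b : A, a = ⟨0, b⟩) ∨ ∃ b : A, a = ⟨1, b⟩ := by
  obtain ⟨i, b⟩ := a
  fin_cases i
  · exact Or.inl ⟨b, rfl⟩
  · exact Or.inr ⟨b, rfl⟩

theorem P_cons0 (b : A) (w : List B) : (P (⟨0, b⟩ :: w)).g = b.1 * (P w).g := by
  rw [P_cons, show ev ⟨0, b⟩ = of0 b.1 from rfl, Psi_of0]; rfl
theorem P_cons1 (b : A) (w : List B) : (P (⟨1, b⟩ :: w)).g = (P w).g := by
  rw [P_cons, show ev ⟨1, b⟩ = of1 b.1 from rfl, Psi_of1, wmul_g, one_mul]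

theorem len_P (w : List B) : len (P w).g ≤ w.length := by
  induction w with
  | nil => rw [P_nil]; exact le_rfl
  | cons a w ih =>
    rcases B_cases a with ⟨b, rfl⟩ | ⟨b, rfl⟩
    · have := isLen.step b (P w).g
      rw [P_cons0, List.length_cons]; omega
    · rw [P_cons1, List.length_cons]; omega

/-- letters -/
def cA : A := ⟨⟨1, 1, false⟩, by decide⟩
def tA : A := ⟨⟨0, 0, true⟩, by decide⟩
def c0 : B := ⟨0, cA⟩
def t0 : B := ⟨0, tA⟩
def x1 : B := ⟨1, tA⟩

theorem split (w : List B) : ∀ s, (P w).f s ≠ 0 →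
    ∃ w1 w2, w = w1 ++ x1 :: w2 ∧ (P w1).g = s := by
  induction w with
  | nil => intro s hs; rw [P_nil] at hs; simp at hs
  | cons a w ih =>
    intro s hs
    rw [P_cons, wmul_f, Finsupp.add_apply] at hs
    by_cases h1 : (Psi (ev a)).f s = 0
    · rw [h1, zero_add] at hs
      have e : s = (Psi (ev a)).g * ((Psi (ev a)).g⁻¹ * s) := by simp
      rw [e, Finsupp.mapDomain_apply (mul_right_injective _)] at hs
      obtain ⟨w1, w2, rfl, h2⟩ := ih _ hs
      refine ⟨a :: w1, w2, rfl, ?_⟩
      rw [P_cons, wmul_g, h2, ← e]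
    · rcases B_cases a with ⟨b, rfl⟩ | ⟨b, rfl⟩
      · rw [show ev ⟨0, b⟩ = of0 b.1 from rfl, Psi_of0] at h1
        simp at h1
      · rw [show ev ⟨1, b⟩ = of1 b.1 from rfl, Psi_of1] at h1
        have h2 := Finsupp.single_apply_ne_zero.1 h1
        have h3 : ∀ b : A, (if b.1.s then (1 : ZMod 2) else 0) ≠ 0 → b = tA := by decide
        refine ⟨[], w, by rw [h3 b h2.2]; rfl, ?_⟩
        rw [P_nil, h2.1]; rfl

theorem head (a : B) (w : List B) (g : K) (h : (P (a :: w)).g = g)
    (hl : (a :: w).length ≤ len g) :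
    ∃ b : A, a = ⟨0, b⟩ ∧ Desc (rank b.1) g.p g.q g.s ∧ (P w).g = b.1⁻¹ * g := by
  have := len_P w
  rw [List.length_cons] at hl
  rcases B_cases a with ⟨b, rfl⟩ | ⟨b, rfl⟩
  · rw [P_cons0] at h
    have e : (P w).g = b.1⁻¹ * g := by rw [← h, inv_mul_cancel_left]
    refine ⟨b, rfl, (desc_iff b g).1 ?_, e⟩
    rw [← e]; omega
  · rw [P_cons1] at h
    rw [h] at this; omega

theorem desc_only (n : ℕ) (p q : ℤ) (s : Bool) (h : ∀ m < 7, m ≠ n → ¬ Desc m p q s) (a b : A)
    (ha : rank a.1 = n) (hb : Desc (rank b.1) p q s) : b = a := by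
  apply rank_inj
  by_contra hc
  exact h _ (rank_lt b) (ha ▸ hc) hb

theorem U1 (k : ℕ) : ∀ w : List B, (P w).g = ⟨k, k, false⟩ → w.length ≤ k →
    w = List.replicate k c0 := by
  induction k with
  | zero => intro w _ hl; simpa using hl
  | succ k ih =>
    intro w hw hl
    cases w with
    | nil =>
      rw [P_nil] at hw
      have := congrArg K.p hw
      simp [one_def] at this
      omega
    | cons a w =>
      obtain ⟨b, rfl, h1, h2⟩ := head a w _ hw (by rw [len_f]; omega)
      have hb : b = cA := by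
        refine desc_only 2 _ _ _ ?_ cA b rfl h1
        intro m hm hne
        interval_cases m <;> simp only [Desc] <;> omega
      subst hb
      rw [List.replicate_succ, ← ih w ?_ (by simpa using hl)]
      · rfl
      · rw [h2]; ext <;> simp [cA, mul_def, inv_def]

theorem U2 (k : ℕ) : ∀ w : List B, (P w).g = ⟨k, k, true⟩ → w.length ≤ k + 1 →
    w = List.replicate k c0 ++ [t0] := by
  induction k with
  | zero =>
    intro w hw hl
    cases w with
    | nil =>
      rw [P_nil] at hw
      have := congrArg K.s hw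
      simp [one_def] at this
    | cons a w =>
      obtain ⟨b, rfl, h1, h2⟩ := head a w _ hw (by rw [len_t]; omega)
      have hb : b = tA := by
        refine desc_only 6 _ _ _ ?_ tA b rfl h1
        intro m hm hne
        interval_cases m <;> simp only [Desc] <;> omega
      subst hb
      have : w = [] := by simpa using hl
      subst this
      rfl
  | succ k ih =>
    intro w hw hl
    cases w with
    | nil =>
      rw [P_nil] at hw
      have := congrArg K.s hw
      simp [one_def] at this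
    | cons a w =>
      obtain ⟨b, rfl, h1, h2⟩ := head a w _ hw (by rw [len_t]; omega)
      have hb : b = cA := by
        refine desc_only 2 _ _ _ ?_ cA b rfl h1
        intro m hm hne
        interval_cases m <;> simp only [Desc] <;> omega
      subst hb
      rw [List.replicate_succ, List.cons_append, ← ih w ?_ (by simpa using hl)]
      · rfl
      · rw [h2]; ext <;> simp [cA, mul_def, inv_def]

theorem U3 (n : ℕ) (hn : 3 ≤ n) (w : List B) (hw : (P w).g = ⟨-n, n, false⟩)
    (hl : w.length ≤ n + 2) : w = t0 :: (List.replicate n c0 ++ [t0]) := by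
  cases w with
  | nil =>
    rw [P_nil] at hw
    have := congrArg K.q hw
    simp [one_def] at this
    omega
  | cons a w =>
    obtain ⟨b, rfl, h1, h2⟩ := head a w _ hw (by rw [len_f]; omega)
    have hb : b = tA := by
      refine desc_only 6 _ _ _ ?_ tA b rfl h1
      intro m hm hne
      interval_cases m <;> simp only [Desc] <;> omega
    subst hb
    rw [← U2 n w ?_ (by simpa using hl)]
    · rfl
    · rw [h2]; ext <;> simp [tA, mul_def, inv_def]

/-- the class function -/
noncomputable def T (a : Wr) : K →₀ ZMod 2 := a.f.mapDomain (fun s => s⁻¹ * a.g * s)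

theorem T_comm (a b : Wr) : T (a * b) = T (b * a) := by
  simp only [T, wmul_f, wmul_g, Finsupp.mapDomain_add, ← Finsupp.mapDomain_comp]
  rw [add_comm]
  congr 2 <;> (funext s; simp [mul_assoc])

theorem T_conj {u v : H} (h : IsConj u v) : T (Psi u) = T (Psi v) := by
  obtain ⟨k, rfl⟩ := isConj_iff.1 h
  rw [mul_assoc, map_mul, T_comm, ← map_mul, inv_mul_cancel_right]

/-- the test words -/
def word (m n : ℕ) : List B := List.replicate m c0 ++ x1 :: t0 :: (List.replicate n c0 ++ [t0])

theorem c_pow (m : ℕ) : (⟨1, 1, false⟩ : K) ^ m = ⟨m, m, false⟩ := by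
  induction m with
  | zero => rfl
  | succ m ih => rw [pow_succ, ih]; simp [mul_def]

theorem word_len (m n : ℕ) : (word m n).length = m + n + 3 := by
  simp [word]; omega

theorem word_ev (m n : ℕ) : ((word m n).map ev).prod =
    of0 ⟨m, m, false⟩ * (of1 ⟨0, 0, true⟩ * of0 ⟨-n, n, false⟩) := by
  have e1 : ev c0 = of0 ⟨1, 1, false⟩ := rfl
  have e2 : ev t0 = of0 ⟨0, 0, true⟩ := rfl
  have e3 : ev x1 = of1 ⟨0, 0, true⟩ := rfl
  have e4 : (⟨-n, n, false⟩ : K) = ⟨0, 0, true⟩ * (⟨n, n, false⟩ * ⟨0, 0, true⟩) := by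
    simp [mul_def]
  simp only [word, List.map_append, List.map_cons, List.map_replicate, List.prod_append,
    List.prod_cons, List.prod_replicate, List.map_nil, List.prod_nil, mul_one, e1, e2, e3,
    ← map_pow, c_pow, e4, map_mul]

theorem P_word (m n : ℕ) : P (word m n) =
    ⟨Finsupp.single ⟨m, m, false⟩ 1, ⟨m, m, false⟩ * ⟨-n, n, false⟩⟩ := by
  rw [P, word_ev, map_mul, map_mul, Psi_of0, Psi_of0, Psi_of1]
  apply Wr.ext <;> simp [Finsupp.mapDomain_single]

theorem word_unique (m n : ℕ) (hn : 3 ≤ n) (w : List B)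
    (h : (w.map ev).prod = ((word m n).map ev).prod) (hl : w.length ≤ (word m n).length) :
    w = word m n := by
  have hP : P w = P (word m n) := by rw [P, P, h]
  rw [P_word] at hP
  obtain ⟨w1, w2, rfl, h1⟩ := split w ⟨m, m, false⟩ (by rw [hP]; simp)
  have h2 := congrArg Wr.g hP
  rw [P_append, wmul_g, h1, x1, P_cons1] at h2
  have h3 := mul_left_cancel h2
  have l1 := len_P w1
  have l2 := len_P w2
  rw [h1, len_f] at l1
  rw [h3, len_f] at l2
  rw [word_len, List.length_append, List.length_cons] at hl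
  rw [U1 m w1 h1 (by omega), U3 n hn w2 h3 (by omega)]
  rfl

theorem word_conj_min (m n : ℕ) (hn : m + 2 ≤ n) (w : List B)
    (h : IsConj ((word m n).map ev).prod (w.map ev).prod) : (word m n).length ≤ w.length := by
  classical
  have hT : T (P (word m n)) = T (P w) := T_conj h
  rw [P_word, T, Finsupp.mapDomain_single] at hT
  have e : (⟨m, m, false⟩ : K)⁻¹ * (⟨m, m, false⟩ * ⟨-n, n, false⟩) * ⟨m, m, false⟩ =
      ⟨-n + m, n + m, false⟩ := by
    rw [inv_mul_cancel_left]; simp [mul_def]
  dsimp only at hT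
  rw [e] at hT
  have h1 : (⟨-n + m, n + m, false⟩ : K) ∈ (T (P w)).support := by
    rw [← hT]; simp
  obtain ⟨s, hs, h2⟩ := Finset.mem_image.1 (Finsupp.mapDomain_support h1)
  obtain ⟨w1, w2, rfl, h3⟩ := split w s (Finsupp.mem_support_iff.1 hs)
  rw [P_append, wmul_g, h3, x1, P_cons1, inv_mul_cancel_left, ← h3, ← wmul_g, ← P_append] at h2
  have l := len_P (w2 ++ w1)
  rw [h2, len_f, List.length_append] at l
  rw [word_len, List.length_append, List.length_cons]
  omega

theorem word_not_min (m n : ℕ) (hn : n ≤ m + 1) : ∃ w : List B,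
    IsConj ((word m n).map ev).prod (w.map ev).prod ∧ w.length < (word m n).length := by
  obtain ⟨w0, h0, h1⟩ := isLen.exists_sl (r := rr) ⟨-n + m, n + m, false⟩
  have l := isLen.sl_len h0
  rw [h1, len_f] at l
  refine ⟨x1 :: w0.map (fun b => ⟨0, b⟩), ?_, ?_⟩
  · have e3 : ev x1 = of1 ⟨0, 0, true⟩ := rfl
    have e4 : ((w0.map (fun b => (⟨0, b⟩ : B))).map ev).prod = of0 (w0.map Subtype.val).prod := by
      rw [map_list_prod, List.map_map, List.map_map]; rfl
    have e5 : (⟨-n + m, n + m, false⟩ : K) = ⟨-n, n, false⟩ * ⟨m, m, false⟩ := by simp [mul_def]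
    rw [word_ev, List.map_cons, List.prod_cons, e3, e4, h1, e5, map_mul, isConj_iff]
    exact ⟨(of0 ⟨m, m, false⟩)⁻¹, by group⟩
  · rw [word_len, List.length_cons, List.length_map]
    omega

theorem not_regular (R : B → B → Prop) (σ : Type) [Finite σ] (N : DFA B σ)
    (h : ∀ w : List B, w ∈ N.accepts ↔ IsMin ev R w ∧
      ∀ w' : List B, IsConj (w.map ev).prod (w'.map ev).prod → w.length ≤ w'.length) : False := by
  have key : ∀ m m' : ℕ, m < m' →
      N.eval (List.replicate (m + 1) c0) ≠ N.eval (List.replicate (m' + 1) c0) := by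
    intro m m' hlt he
    have h1 : word (m + 1) (m + 3) ∈ N.accepts := by
      refine (h _).2 ⟨fun w hw => ?_, word_conj_min _ _ le_rfl⟩
      rcases lt_or_ge (word (m + 1) (m + 3)).length w.length with h2 | h2
      · exact Or.inl h2
      · rw [word_unique _ _ (by omega) w hw h2]
        exact Or.inr ⟨rfl, Or.inl rfl⟩
    have h2 : word (m' + 1) (m + 3) ∈ N.accepts := by
      rw [DFA.mem_accepts, word, DFA.eval, DFA.evalFrom_of_append] at h1 ⊢
      rw [DFA.eval] at he
      rwa [← he]
    obtain ⟨w, h3, h4⟩ := word_not_min (m' + 1) (m + 3) (by omega)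
    exact absurd (((h _).1 h2).2 w h3) (not_le.2 h4)
  obtain ⟨m, m', hne, he⟩ :=
    Finite.exists_ne_map_eq_of_infinite (fun m : ℕ => N.eval (List.replicate (m + 1) c0))
  rcases lt_or_gt_of_ne hne with h1 | h1
  · exact key m m' h1 he
  · exact key m' m h1 he.symm

end Pool.Agent.H214Z.EL
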