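import Pool.Agent.H214Z.ELArith

set_option autoImplicit false

/-! The automaton for the equal-length conjugacy language of `D∞ × ℤ`. -/

namespace Pool.Agent.H214Z.EL

theorem desc_iff (a : A) (g : K) : len (a.1⁻¹ * g) < len g ↔ Desc (rank a.1) g.p g.q g.s := by
  obtain ⟨p, q, s⟩ := g
  rcases A_cases a with rfl | rfl | rfl | rfl | rfl | rfl | rfl <;> cases s
  · have e : (⟨0, 1, false⟩ : K)⁻¹ * ⟨p, q, false⟩ = ⟨p, q - 1, false⟩ := by
      ext <;> simp [mul_def, inv_def] <;> ring
    dsimp only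
    rw [e]
    exact d0f p q
  · have e : (⟨0, 1, false⟩ : K)⁻¹ * ⟨p, q, true⟩ = ⟨p, q - 1, true⟩ := by
      ext <;> simp [mul_def, inv_def] <;> ring
    dsimp only
    rw [e]
    exact d0t p q
  · have e : (⟨0, -1, false⟩ : K)⁻¹ * ⟨p, q, false⟩ = ⟨p, q + 1, false⟩ := by
      ext <;> simp [mul_def, inv_def] <;> ring
    dsimp only
    rw [e]
    exact d1f p q
  · have e : (⟨0, -1, false⟩ : K)⁻¹ * ⟨p, q, true⟩ = ⟨p, q + 1, true⟩ := by
      ext <;> simp [mul_def, inv_def] <;> ring
    dsimp only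
    rw [e]
    exact d1t p q
  · have e : (⟨1, 1, false⟩ : K)⁻¹ * ⟨p, q, false⟩ = ⟨p - 1, q - 1, false⟩ := by
      ext <;> simp [mul_def, inv_def] <;> ring
    dsimp only
    rw [e]
    exact d2f p q
  · have e : (⟨1, 1, false⟩ : K)⁻¹ * ⟨p, q, true⟩ = ⟨p - 1, q - 1, true⟩ := by
      ext <;> simp [mul_def, inv_def] <;> ring
    dsimp only
    rw [e]
    exact d2t p q
  · have e : (⟨-1, -1, false⟩ : K)⁻¹ * ⟨p, q, false⟩ = ⟨p + 1, q + 1, false⟩ := by
      ext <;> simp [mul_def, inv_def] <;> ring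
    dsimp only
    rw [e]
    exact d3f p q
  · have e : (⟨-1, -1, false⟩ : K)⁻¹ * ⟨p, q, true⟩ = ⟨p + 1, q + 1, true⟩ := by
      ext <;> simp [mul_def, inv_def] <;> ring
    dsimp only
    rw [e]
    exact d3t p q
  · have e : (⟨1, 0, false⟩ : K)⁻¹ * ⟨p, q, false⟩ = ⟨p - 1, q, false⟩ := by
      ext <;> simp [mul_def, inv_def] <;> ring
    dsimp only
    rw [e]
    exact d4f p q
  · have e : (⟨1, 0, false⟩ : K)⁻¹ * ⟨p, q, true⟩ = ⟨p - 1, q, true⟩ := by
      ext <;> simp [mul_def, inv_def] <;> ring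
    dsimp only
    rw [e]
    exact d4t p q
  · have e : (⟨-1, 0, false⟩ : K)⁻¹ * ⟨p, q, false⟩ = ⟨p + 1, q, false⟩ := by
      ext <;> simp [mul_def, inv_def] <;> ring
    dsimp only
    rw [e]
    exact d5f p q
  · have e : (⟨-1, 0, false⟩ : K)⁻¹ * ⟨p, q, true⟩ = ⟨p + 1, q, true⟩ := by
      ext <;> simp [mul_def, inv_def] <;> ring
    dsimp only
    rw [e]
    exact d5t p q
  · have e : (⟨0, 0, true⟩ : K)⁻¹ * ⟨p, q, false⟩ = ⟨-p, q, true⟩ := by
      ext <;> simp [mul_def, inv_def] <;> ring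
    dsimp only
    rw [e]
    exact d6f p q
  · have e : (⟨0, 0, true⟩ : K)⁻¹ * ⟨p, q, true⟩ = ⟨-p, q, false⟩ := by
      ext <;> simp [mul_def, inv_def] <;> ring
    dsimp only
    rw [e]
    exact d6t p q

theorem isLen : IsLen (Subtype.val : A → K) len where
  one := rfl
  step := by
    rintro a ⟨p, q, s⟩
    rcases A_cases a with rfl | rfl | rfl | rfl | rfl | rfl | rfl <;> cases s <;>
      simp only [mul_def, Bool.false_eq_true, if_false, if_true, Bool.false_xor, Bool.true_xor,
        Bool.not_false, Bool.not_true, len_f, len_t] <;> omega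
  down := by
    rintro ⟨p, q, s⟩ hg
    by_contra hc
    push Not at hc
    have hc' : ∀ a : A, ¬ Desc (rank a.1) p q s := fun a h =>
      absurd ((desc_iff a ⟨p, q, s⟩).2 h) (not_lt.2 (hc a))
    rw [forall_A] at hc'
    apply hg
    cases s <;> simp [rank, Desc] at hc'
    · rw [one_def]; congr 1 <;> omega
    · omega

theorem closure_X : Subgroup.closure (X : Set K) = ⊤ := by
  rw [eq_top_iff]
  intro g _
  obtain ⟨w, -, rfl⟩ := isLen.exists_sl (r := rr) g
  apply Subgroup.list_prod_mem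
  intro x hx
  obtain ⟨a, -, rfl⟩ := List.mem_map.1 hx
  exact Subgroup.subset_closure a.2

theorem isLD_iff (a : A) (g : K) : IsLD Subtype.val rr len a g ↔
    Desc (rank a.1) g.p g.q g.s ∧ ∀ n < rank a.1, ¬ Desc n g.p g.q g.s := by
  unfold IsLD
  simp only [desc_iff]
  refine and_congr_right fun _ => ⟨fun h n hn => ?_, fun h b hb => h _ hb⟩
  have : ∀ a : A, ∀ n < rank a.1, ∃ b : A, rank b.1 = n := by decide
  obtain ⟨b, rfl⟩ := this a n hn
  exact h b hn

theorem E_iff (g : K) : (∀ k : K, len g ≤ len (k * g * k⁻¹)) ↔ Eset g.p g.q g.s := by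
  obtain ⟨p, q, s⟩ := g
  constructor
  · intro h
    cases s
    · have := h ⟨0, 0, true⟩
      simp only [mul_def, inv_def, if_true, Bool.true_xor, Bool.not_false, Bool.not_true, len_f,
        neg_zero, zero_add, add_zero] at this
      simp only [Eset]
      omega
    · have := h ⟨-(p / 2), 0, false⟩
      simp only [mul_def, inv_def, Bool.false_eq_true, if_false, if_true, Bool.false_xor,
        Bool.true_xor, Bool.not_false, len_t, neg_zero, zero_add, add_zero] at this
      simp only [Eset]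
      omega
  · rintro h ⟨a, b, u⟩
    cases s <;> cases u <;>
      simp only [mul_def, inv_def, Bool.false_eq_true, if_false, if_true, Bool.false_xor,
        Bool.true_xor, Bool.not_false, Bool.not_true, len_t, len_f, Eset] at h ⊢ <;> omega

theorem rank_lt (a : A) : rank a.1 < 7 := by revert a; decide

theorem isLD_E (a : A) (g : K) (h : Eset g.p g.q g.s) :
    IsLD Subtype.val rr len a g ↔ LDE (rank a.1) g.p g.q g.s := by
  rw [isLD_iff]
  refine ⟨fun h1 => ?_, ld_desc _ (rank_lt a) _ _ _⟩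
  rcases ld_cover _ _ _ h with ⟨e1, e2, e3⟩ | ⟨n, hn, h2⟩
  · rw [e1, e2, e3] at h1
    exact absurd h1.1 (not_desc_one _ (rank_lt a))
  · have h3 := ld_desc n hn _ _ _ h2
    rcases lt_trichotomy n (rank a.1) with h4 | h4 | h4
    · exact absurd h3.1 (h1.2 n h4)
    · rwa [← h4]
    · exact absurd h1.1 (h3.2 _ h4)

theorem step_ok (s : St) (a : A) (g : K) :
    (IsLD Subtype.val rr len a (a.1 * g) ∧ Reg s (a.1 * g).p (a.1 * g).q (a.1 * g).s) ↔
      Reg (stepN s (rank a.1)) g.p g.q g.s := by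
  rw [and_congr_left (fun h => isLD_E a (a.1 * g) (reg_E _ _ _ _ h))]
  obtain ⟨p, q, u⟩ := g
  rcases A_cases a with rfl | rfl | rfl | rfl | rfl | rfl | rfl
  · exact st0 s p q u
  · exact st1 s p q u
  · exact st2 s p q u
  · exact st3 s p q u
  · exact st4 s p q u
  · exact st5 s p q u
  · exact st6 s p q u

/-- the automaton -/
def M : DFA A St where
  step s a := stepN s (rank a.1)
  start := .st
  accept := {s | s ≠ .dead}

theorem acc_iff (w : List A) : ∀ s, w ∈ M.acceptsFrom s ↔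
    SL Subtype.val rr len w ∧
      Reg s (w.map Subtype.val).prod.p (w.map Subtype.val).prod.q (w.map Subtype.val).prod.s := by
  induction w with
  | nil =>
    intro s
    rw [DFA.mem_acceptsFrom]
    have : ∀ s : St, s ≠ .dead ↔ Reg s 0 0 false := by
      intro s
      cases s <;> simp [Reg]
    exact (this s).trans (by simp [SL, one_def])
  | cons a w ih =>
    intro s
    have h1 : a :: w ∈ M.acceptsFrom s ↔ w ∈ M.acceptsFrom (stepN s (rank a.1)) := Iff.rfl
    rw [h1, ih, ← step_ok, SL, and_assoc]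
    rfl

theorem ecl_regular (w : List A) : w ∈ M.accepts ↔
    IsMin Subtype.val rr w ∧ ∀ w' : List A,
      IsConj (w.map Subtype.val).prod (w'.map Subtype.val).prod → w.length ≤ w'.length := by
  rw [isLen.min_iff]
  refine (acc_iff w .st).trans (and_congr_right fun h => ?_)
  rw [isLen.conj_iff h, E_iff]
  generalize (w.map Subtype.val).prod.s = u
  cases u <;> rfl

end Pool.Agent.H214Z.EL
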