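import Mathlib

set_option autoImplicit false

/-! Commutative algebra: a second order obstruction to regularity, and dimension bounds. -/

namespace Pool.Agent.H214Z.Fol

open IsLocalRing MvPolynomial

theorem dim_ne {A : Type} [CommRing A] [IsLocalRing A] [IsNoetherianRing A] (N : Ideal A)
    (hN : N ≤ maximalIdeal A) (hne : N ≠ maximalIdeal A)
    (h2 : maximalIdeal A * maximalIdeal A ≤ N * maximalIdeal A) :
    ringKrullDim A ≠
      ((Module.finrank (ResidueField A) (CotangentSpace A) : ℕ) : WithBot ℕ∞) := by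
  classical
  set m := maximalIdeal A with hm
  let s : Set m := {x | x.1 ∈ N}
  have hs : Submodule.span (ResidueField A) (m.toCotangent '' s) ≠ ⊤ := by
    intro h
    have h1 := CotangentSpace.span_image_eq_top_iff.1 h
    apply hne
    refine le_antisymm hN fun x hx => ?_
    have h3 : (⟨x, hx⟩ : m) ∈ Submodule.span A s := by rw [h1]; trivial
    have h4 : Submodule.span A s ≤ Submodule.comap m.subtype N := Submodule.span_le.2 fun y hy => hy
    exact h4 h3
  obtain ⟨b, hb1, hb2, hb3⟩ := exists_linearIndependent (ResidueField A) (m.toCotangent '' s)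
  have hbfin : b.Finite := LinearIndependent.set_finite_of_isNoetherian hb3
  haveI : Fintype b := hbfin.fintype
  have hcard : Fintype.card b < Module.finrank (ResidueField A) (CotangentSpace A) := by
    have e1 := finrank_span_eq_card hb3
    rw [Subtype.range_coe, hb2] at e1
    rw [← e1]
    exact Submodule.finrank_lt hs
  have hex : ∀ x : b, ∃ y : m, y.1 ∈ N ∧ m.toCotangent y = x.1 := fun x => hb1 x.2
  choose g hg1 hg2 using hex
  let Y : Finset A := Finset.univ.image (fun x : b => (g x).1)
  have hY : Y.card ≤ Fintype.card b := Finset.card_image_le.trans (by simp)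
  have hNY : N ≤ Ideal.span (Y : Set A) ⊔ m * m := by
    intro x hx
    have h1 : m.toCotangent ⟨x, hN hx⟩ ∈ Submodule.span (ResidueField A) b := by
      rw [hb2]; exact Submodule.subset_span ⟨_, hx, rfl⟩
    have h3 : ∀ z ∈ Submodule.span (ResidueField A) b,
        ∃ y : m, y.1 ∈ Ideal.span (Y : Set A) ∧ m.toCotangent y = z := by
      intro z hz
      induction hz using Submodule.span_induction with
      | mem z hz => exact ⟨g ⟨z, hz⟩, Ideal.subset_span (Finset.mem_coe.2 (Finset.mem_image_of_mem _ (Finset.mem_univ _))), hg2 _⟩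
      | zero => exact ⟨0, zero_mem _, map_zero _⟩
      | add z w _ _ h1 h2 =>
        obtain ⟨y, hy, rfl⟩ := h1
        obtain ⟨y', hy', rfl⟩ := h2
        exact ⟨y + y', add_mem hy hy', map_add _ _ _⟩
      | smul r z _ h1 =>
        obtain ⟨y, hy, rfl⟩ := h1
        obtain ⟨r, rfl⟩ := residue_surjective r
        exact ⟨r • y, Ideal.mul_mem_left _ r hy, by rw [map_smul]; rfl⟩
    obtain ⟨y, hy, hy2⟩ := h3 _ h1
    have h4 : y.1 - x ∈ m ^ 2 := m.toCotangent_eq.1 hy2
    rw [sq] at h4
    have : x = y.1 - (y.1 - x) := by ring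
    rw [this]
    exact sub_mem (Ideal.mem_sup_left hy) (Ideal.mem_sup_right h4)
  have hmm : m * m ≤ Ideal.span (Y : Set A) := by
    refine Submodule.le_of_le_smul_of_le_jacobson_bot (I := m) (IsNoetherian.noetherian _)
      (IsLocalRing.jacobson_eq_maximalIdeal ⊥ bot_ne_top).ge ?_
    refine h2.trans ((Ideal.mul_mono_left hNY).trans ?_)
    rw [Ideal.sup_mul]
    refine sup_le_sup Ideal.mul_le_left ?_
    rw [smul_eq_mul, mul_comm]
  have hYm : Ideal.span (Y : Set A) ≤ m := by
    rw [Ideal.span_le]
    intro y hy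
    simp only [Y, Finset.coe_image, Set.mem_image] at hy
    obtain ⟨x, -, rfl⟩ := hy
    exact (g x).2
  have hmin : m ∈ (Ideal.span (Y : Set A)).minimalPrimes := by
    refine ⟨⟨inferInstance, hYm⟩, fun q hq _ => ?_⟩
    rcases hq.1.mul_le.1 (hmm.trans hq.2) with h | h <;> exact h
  have hh := Ideal.height_le_card_of_mem_minimalPrimes_span_finset hmin
  rw [← maximalIdeal_height_eq_ringKrullDim]
  intro he
  have he' : m.height = (Module.finrank (ResidueField A) (CotangentSpace A) : ℕ) := by
    exact_mod_cast he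
  rw [he'] at hh
  have : Module.finrank (ResidueField A) (CotangentSpace A) ≤ Y.card := by exact_mod_cast hh
  omega

theorem dim_le_of_primes {S : Type} [CommRing S] (J : Ideal S) (k : WithBot ℕ∞)
    (h : ∀ p : Ideal S, p.IsPrime → J ≤ p → ringKrullDim (S ⧸ p) ≤ k) :
    ringKrullDim (S ⧸ J) ≤ k := by
  rw [ringKrullDim_quotient, Order.krullDim]
  refine iSup_le fun s => ?_
  have h1 := h s.head.1.asIdeal s.head.1.isPrime
    (fun x hx => (PrimeSpectrum.mem_zeroLocus _ _).1 s.head.2 hx)
  rw [ringKrullDim_quotient] at h1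
  refine le_trans ?_ h1
  let s' : LTSeries (PrimeSpectrum.zeroLocus (R := S) s.head.1.asIdeal) :=
    ⟨s.length, fun i => ⟨(s i).1, fun x hx => s.head_le i hx⟩, fun i => s.step i⟩
  exact Order.LTSeries.length_le_krullDim s'

theorem dim_le_of_pow {k : ℕ} (ι : Fin k → Fin 4) (p : Ideal (MvPolynomial (Fin 4) ℂ))
    (h : ∀ j, ∃ q : MvPolynomial (Fin k) ℂ, X j ^ 6 - rename ι q ∈ p) :
    ringKrullDim (MvPolynomial (Fin 4) ℂ ⧸ p) ≤ (k : WithBot ℕ∞) := by
  let f : MvPolynomial (Fin k) ℂ →+* MvPolynomial (Fin 4) ℂ ⧸ p :=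
    (Ideal.Quotient.mk p).comp (rename ι).toRingHom
  letI := f.toAlgebra
  haveI : Algebra.IsIntegral (MvPolynomial (Fin k) ℂ) (MvPolynomial (Fin 4) ℂ ⧸ p) := by
    constructor
    intro x
    obtain ⟨x, rfl⟩ := Ideal.Quotient.mk_surjective x
    induction x using MvPolynomial.induction_on with
    | C a =>
      have : Ideal.Quotient.mk p (C a) = algebraMap (MvPolynomial (Fin k) ℂ) _ (C a) := by
        change _ = Ideal.Quotient.mk p (rename ι (C a))
        rw [rename_C]
      rw [this]
      exact isIntegral_algebraMap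
    | add a b ha hb => rw [map_add]; exact ha.add hb
    | mul_X a j ha =>
      rw [map_mul]
      refine ha.mul (IsIntegral.of_pow (n := 6) (by norm_num) ?_)
      obtain ⟨q, hq⟩ := h j
      have : Ideal.Quotient.mk p (X j) ^ 6 = algebraMap (MvPolynomial (Fin k) ℂ) _ q := by
        change _ = Ideal.Quotient.mk p (rename ι q)
        rw [← map_pow, Ideal.Quotient.eq]
        exact hq
      rw [this]
      exact isIntegral_algebraMap
  have h1 : ringKrullDim (MvPolynomial (Fin 4) ℂ ⧸ p) ≤ ringKrullDim (MvPolynomial (Fin k) ℂ) :=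
    Order.krullDim_le_of_strictMono (PrimeSpectrum.comap f) fun a b hab =>
      Ideal.IsIntegral.comap_lt_comap (R := MvPolynomial (Fin k) ℂ) (I := a.asIdeal)
        (J := b.asIdeal) hab
  rw [MvPolynomial.ringKrullDim_of_isNoetherianRing, ringKrullDim_eq_zero_of_field] at h1
  simpa using h1

/-- all coefficients lie in `J` -/
def CI {R τ : Type} [CommRing R] (J : Ideal R) (p : MvPolynomial τ R) : Prop :=
  ∀ m, coeff m p ∈ J

section
variable {R τ : Type} [CommRing R] {J J' : Ideal R} {p q : MvPolynomial τ R}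

theorem CI.add (hp : CI J p) (hq : CI J q) : CI J (p + q) := fun m => by
  rw [coeff_add]; exact add_mem (hp m) (hq m)

theorem CI.sub (hp : CI J p) (hq : CI J q) : CI J (p - q) := fun m => by
  rw [coeff_sub]; exact sub_mem (hp m) (hq m)

theorem CI.mul (hp : CI J p) (hq : CI J' q) : CI (J * J') (p * q) := fun m => by
  classical
  rw [coeff_mul]
  exact Ideal.sum_mem _ fun x _ => Ideal.mul_mem_mul (hp _) (hq _)

theorem CI.pderiv (hp : CI J p) (i : τ) : CI J (pderiv i p) := fun m => by
  rw [coeff_pderiv]; exact Ideal.mul_mem_right _ _ (hp _)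

theorem CI.C_mul {r : R} (hr : r ∈ J) (p : MvPolynomial τ R) : CI J (C r * p) := fun m => by
  rw [coeff_C_mul]; exact Ideal.mul_mem_right _ _ hr

theorem CI.sum {ι : Type} (s : Finset ι) (f : ι → MvPolynomial τ R) (h : ∀ i ∈ s, CI J (f i)) :
    CI J (∑ i ∈ s, f i) := fun m => by
  rw [coeff_sum]; exact Ideal.sum_mem _ fun i hi => h i hi m

theorem coeff_X_mul_pderiv (m : τ →₀ ℕ) (j : τ) (p : MvPolynomial τ R) :
    coeff m (X j * MvPolynomial.pderiv j p) = m j * coeff m p := by
  classical
  induction p using MvPolynomial.induction_on' with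
  | monomial u a =>
    rw [X_mul_pderiv_monomial, coeff_smul, coeff_monomial]
    split_ifs with h
    · subst h; simp
    · simp
  | add p q hp hq => simp only [map_add, mul_add, coeff_add, hp, hq]

end

/-- the bilinear form `u ∧ dw` -/
noncomputable def Bf {R τ : Type} [CommRing R] (u w : τ → MvPolynomial τ R) (i j k : τ) :
    MvPolynomial τ R :=
  u i * (pderiv j (w k) - pderiv k (w j)) + u j * (pderiv k (w i) - pderiv i (w k))
    + u k * (pderiv i (w j) - pderiv j (w i))

theorem map_Bf {R S τ : Type} [CommRing R] [CommRing S] (f : R →+* S)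
    (u w : τ → MvPolynomial τ R) (i j k : τ) :
    map f (Bf u w i j k) = Bf (fun i => map f (u i)) (fun i => map f (w i)) i j k := by
  simp only [Bf, map_add, map_mul, map_sub, pderiv_map]

theorem CI.Bf {R τ : Type} [CommRing R] {J J' : Ideal R} {u w : τ → MvPolynomial τ R}
    (hu : ∀ i, CI J (u i)) (hw : ∀ i, CI J' (w i)) (i j k : τ) : CI (J * J') (Bf u w i j k) :=
  (((hu i).mul (((hw k).pderiv j).sub ((hw j).pderiv k))).add
    ((hu j).mul (((hw i).pderiv k).sub ((hw k).pderiv i)))).add
    ((hu k).mul (((hw j).pderiv i).sub ((hw i).pderiv j)))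

theorem Bf_expand {R τ : Type} [CommRing R] (a b : τ → MvPolynomial τ R) (e : R) (i j k : τ) :
    Bf (fun i => a i + C e * b i) (fun i => a i + C e * b i) i j k =
      Bf a a i j k + C e * (Bf a b i j k + Bf b a i j k) + C (e * e) * Bf b b i j k := by
  simp only [Bf, map_add, Derivation.leibniz, pderiv_C, smul_eq_mul, map_mul]
  ring

theorem sum_sym {S τ : Type} [CommRing S] [Fintype τ] [DecidableEq τ] {D : ℕ}
    (p : MvPolynomial τ S) (hp : p.IsHomogeneous D) :
    ∑ s : Sym τ D, C (coeff (Multiset.toFinsupp (s : Multiset τ)) p) *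
      ((s : Multiset τ).map (fun j => X j)).prod = p := by
  have h1 : ∀ s : Multiset τ, (s.map (fun j => (X j : MvPolynomial τ S))).prod =
      monomial (Multiset.toFinsupp s) 1 := by
    intro s
    induction s using Multiset.induction_on with
    | empty => simp
    | cons a s ih =>
      rw [Multiset.map_cons, Multiset.prod_cons, ih, ← Multiset.singleton_add, map_add,
        Multiset.toFinsupp_singleton, X, monomial_mul, one_mul]
  ext m
  simp only [h1, coeff_sum, coeff_C_mul, coeff_monomial, mul_ite, mul_one, mul_zero]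
  by_cases hm : m.degree = D
  · have hc : Multiset.card (Finsupp.toMultiset m) = D := by
      rw [Finsupp.card_toMultiset, ← hm]; rfl
    refine (Finset.sum_eq_single (Sym.mk (Finsupp.toMultiset m) hc) ?_ ?_).trans (by simp)
    · intro s _ hs
      rw [if_neg]
      intro h
      apply hs
      apply Sym.coe_injective
      simp [← h]
    · simp
  · rw [hp.coeff_eq_zero hm]
    refine Finset.sum_eq_zero fun s _ => ?_
    split_ifs with h
    · rw [h, hp.coeff_eq_zero hm]
    · rfl

end Pool.Agent.H214Z.Fol
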