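import Pool.Agent.H214Z.FolMain

set_option autoImplicit false

/-! The local ring of the space of foliations at the logarithmic form is not regular. -/

namespace Pool.Agent.H214Z.Fol

open MvPolynomial IsLocalRing

/-- coordinates of the space of forms -/
abbrev Ix : Type := Fin 4 × Sym (Fin 4) 8

/-- the monomial of a multiset -/
noncomputable def mo {S : Type} [CommRing S] (s : Sym (Fin 4) 8) : MvPolynomial (Fin 4) S :=
  ((s : Multiset (Fin 4)).map (fun j => X j)).prod

/-- the form with given coordinates -/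
noncomputable def Gf {S : Type} [CommRing S] (z : Ix → S) (i : Fin 4) : MvPolynomial (Fin 4) S :=
  ∑ s : Sym (Fin 4) 8, C (z (i, s)) * mo s

theorem map_Gf {S T : Type} [CommRing S] [CommRing T] (f : S →+* T) (z : Ix → S) (i : Fin 4) :
    map f (Gf z i) = Gf (fun t => f (z t)) i := by
  simp only [Gf, mo, map_sum, map_mul, map_C, map_multiset_prod, Multiset.map_map,
    Function.comp_def, map_X]

theorem Gf_add {S : Type} [CommRing S] (z w : Ix → S) (e : S) (i : Fin 4) :
    Gf (fun t => z t + e * w t) i = Gf z i + C e * Gf w i := by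
  simp only [Gf, map_add, map_mul, add_mul, Finset.sum_add_distrib, Finset.mul_sum, mul_assoc]

theorem Gf_CI {S : Type} [CommRing S] {J : Ideal S} {z : Ix → S} (h : ∀ t, z t ∈ J) (i : Fin 4) :
    CI J (Gf z i) := CI.sum _ _ fun _ _ => CI.C_mul (h _) _

/-- the point -/
noncomputable def cc (t : Ix) : ℂ := coeff (Multiset.toFinsupp (t.2 : Multiset (Fin 4))) (aa t.1)

/-- the tangent vector -/
noncomputable def vv (t : Ix) : ℂ := coeff (Multiset.toFinsupp (t.2 : Multiset (Fin 4))) (bb t.1)

theorem Gf_cc {S : Type} [CommRing S] (f : ℂ →+* S) : Gf (fun t => f (cc t)) = aa := by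
  funext i
  have : Gf cc i = aa i := sum_sym _ (hom_aa i)
  rw [← map_Gf, this, map_aa]

theorem Gf_vv {S : Type} [CommRing S] (f : ℂ →+* S) : Gf (fun t => f (vv t)) = bb := by
  funext i
  have : Gf vv i = bb i := sum_sym _ (hom_bb i)
  rw [← map_Gf, this, map_bb]

theorem Gf_zero {S : Type} [CommRing S] (i : Fin 4) : Gf (fun _ => (0 : S)) i = 0 := by
  simp [Gf]

theorem cc_ne : cc ≠ 0 := by
  intro h
  have h1 := congrFun (Gf_cc (RingHom.id ℂ)) 0
  simp only [h, Pi.zero_apply, map_zero, Gf_zero, aa_0] at h1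
  have h2 := congrArg (eval (fun _ => (1 : ℂ))) h1
  simp at h2

theorem vv_ne : ∃ t, vv t ≠ 0 := by
  by_contra h
  push Not at h
  have h1 := congrFun (Gf_vv (RingHom.id ℂ)) 1
  simp only [h, map_zero, Gf_zero, bb_1] at h1
  have h2 := congrArg (eval (fun _ => (1 : ℂ))) h1
  simp at h2
  norm_num at h2

/-- the universal form -/
noncomputable def GG : Fin 4 → MvPolynomial (Fin 4) (MvPolynomial Ix ℂ) := Gf X

/-- the ideal of the space of integrable forms -/
noncomputable def II : Ideal (MvPolynomial Ix ℂ) :=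
  Ideal.span {r | (∃ m, r = coeff m (∑ i, X i * GG i)) ∨ ∃ i j k m, r = coeff m (Bf GG GG i j k)}

theorem II_le {S : Type} [CommRing S] (g : MvPolynomial Ix ℂ →+* S) (f : ℂ →+* S) (e : S)
    (he : e * e = 0) (hg : ∀ t, g (X t) = f (cc t) + e * f (vv t)) : II ≤ RingHom.ker g := by
  have h1 : ∀ i, map g (GG i) = aa i + C e * bb i := by
    intro i
    rw [GG, map_Gf]
    simp only [hg]
    rw [Gf_add, Gf_cc, Gf_vv]
  rw [II, Ideal.span_le]
  rintro r (⟨m, rfl⟩ | ⟨i, j, k, m, rfl⟩)
  · rw [SetLike.mem_coe, RingHom.mem_ker, ← coeff_map]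
    simp only [map_sum, map_mul, map_X, h1, mul_add, Finset.sum_add_distrib, euler_a]
    have : ∑ i, X i * (C e * (bb i : MvPolynomial (Fin 4) S)) = C e * ∑ i, X i * bb i := by
      rw [Finset.mul_sum]
      exact Finset.sum_congr rfl fun i _ => by ring
    rw [this, euler_b]
    simp
  · rw [SetLike.mem_coe, RingHom.mem_ker, ← coeff_map, map_Bf]
    simp only [h1]
    rw [Bf_expand, Bf_aa, Bf_ab, he]
    simp

theorem II_le_eval : II ≤ RingHom.ker (eval cc) :=
  II_le (eval cc) (RingHom.id ℂ) 0 (by simp) (by simp)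

theorem map_GG (i : Fin 4) : map (eval cc) (GG i) = aa i := by
  rw [GG, map_Gf]
  simp only [eval_X]
  exact congrFun (Gf_cc (RingHom.id ℂ)) i

theorem ker_eval_le : RingHom.ker (eval cc) ≤
    Ideal.span (Set.range fun t : Ix => (X t - C (cc t) : MvPolynomial Ix ℂ)) := by
  have : ∀ r : MvPolynomial Ix ℂ, r - C (eval cc r) ∈
      Ideal.span (Set.range fun t : Ix => (X t - C (cc t) : MvPolynomial Ix ℂ)) := by
    intro r
    induction r using MvPolynomial.induction_on with
    | C a => simp
    | add p q hp hq =>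
      have := add_mem hp hq
      rw [map_add, map_add]
      convert this using 1
      ring
    | mul_X p t hp =>
      have := add_mem (Ideal.mul_mem_right (X t) _ hp)
        (Ideal.mul_mem_left _ (C (eval cc p)) (Ideal.subset_span ⟨t, rfl⟩))
      rw [map_mul, map_mul, eval_X]
      convert this using 1
      ring
  intro r hr
  have h := this r
  rwa [RingHom.mem_ker.1 hr, map_zero, sub_zero] at h

/-- the point of the space of integrable forms -/
noncomputable def PP : Ideal (MvPolynomial Ix ℂ ⧸ II) :=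
  Ideal.map (Ideal.Quotient.mk II) (RingHom.ker (eval cc))

instance PP_prime : PP.IsPrime := by
  haveI : (RingHom.ker (eval cc)).IsPrime := RingHom.ker_isPrime _
  exact Ideal.map_isPrime_of_surjective Ideal.Quotient.mk_surjective
    (by rw [Ideal.mk_ker]; exact II_le_eval)

theorem not_regular (A : Type) [CommRing A] [IsLocalRing A] [Algebra (MvPolynomial Ix ℂ ⧸ II) A]
    [IsLocalization.AtPrime A PP] : ringKrullDim A ≠
    ((Module.finrank (ResidueField A) (CotangentSpace A) : ℕ) : WithBot ℕ∞) := by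
  obtain ⟨t0, ht0⟩ := vv_ne
  haveI : IsNoetherianRing A := IsLocalization.isNoetherianRing PP.primeCompl A inferInstance
  let π : MvPolynomial Ix ℂ →+* A := (algebraMap (MvPolynomial Ix ℂ ⧸ II) A).comp
    (Ideal.Quotient.mk II)
  let κ : ℂ →+* A := π.comp C
  have hm : maximalIdeal A = Ideal.map π (RingHom.ker (eval cc)) := by
    rw [← IsLocalization.AtPrime.map_eq_maximalIdeal PP A]
    exact Ideal.map_map _ _
  let u : Ix → A := fun t => π (X t) - κ (cc t)
  have hu : ∀ t, u t ∈ maximalIdeal A := by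
    intro t
    rw [hm]
    have : u t = π (X t - C (cc t)) := by rw [map_sub]; rfl
    rw [this]
    exact Ideal.mem_map_of_mem _ (by simp [RingHom.mem_ker])
  let y : A := κ (vv t0)⁻¹ * u t0
  have hy : y ∈ maximalIdeal A := Ideal.mul_mem_left _ _ (hu t0)
  let n : Ix → A := fun t => u t - y * κ (vv t)
  let N : Ideal A := Ideal.span (Set.range n)
  have hn : ∀ t, n t ∈ N := fun t => Ideal.subset_span ⟨t, rfl⟩
  have hN : N ≤ maximalIdeal A := by
    rw [Ideal.span_le]
    rintro _ ⟨t, rfl⟩
    exact sub_mem (hu t) (Ideal.mul_mem_right _ _ hy)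
  have hmN : maximalIdeal A ≤ N ⊔ Ideal.span {y} := by
    rw [hm]
    refine (Ideal.map_mono ker_eval_le).trans ?_
    rw [Ideal.map_span, Ideal.span_le]
    rintro _ ⟨_, ⟨t, rfl⟩, rfl⟩
    have : π (X t - C (cc t)) = n t + y * κ (vv t) := by
      rw [map_sub]; simp only [n, u, κ, RingHom.comp_apply]; ring
    rw [SetLike.mem_coe, this]
    exact add_mem (Ideal.mem_sup_left (hn t))
      (Ideal.mem_sup_right (Ideal.mul_mem_right _ _ (Ideal.mem_span_singleton_self y)))
  -- the quadratic relation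
  have hyy : y * y ∈ N * maximalIdeal A := by
    have h0 : coeff (mon 6 2 3 4) (Bf (fun i => map π (GG i)) (fun i => map π (GG i)) 1 2 3) = 0 := by
      rw [← map_Bf, coeff_map]
      have : coeff (mon 6 2 3 4) (Bf GG GG 1 2 3) ∈ II :=
        Ideal.subset_span (Or.inr ⟨1, 2, 3, _, rfl⟩)
      simp only [π, RingHom.comp_apply, Ideal.Quotient.eq_zero_iff_mem.2 this, map_zero]
    have h1 : (fun i => map π (GG i)) = fun i => aa i + C 1 * Gf u i := by
      funext i
      rw [GG, map_Gf, ← Gf_cc κ, ← Gf_add]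
      congr 1
      funext t
      simp [u]
    have h2 : Gf u = fun i => Gf n i + C y * bb i := by
      funext i
      rw [← Gf_vv κ, ← Gf_add]
      congr 1
      funext t
      simp [n]
    rw [h1, Bf_expand, Bf_aa, zero_add, coeff_add, coeff_C_mul, phi_lin, mul_zero, zero_add,
      coeff_C_mul, one_mul, one_mul] at h0
    have h3 : Bf (Gf u) (Gf u) 1 2 3 = Bf (Gf n) (Gf u) 1 2 3 +
        Bf (fun i => C y * bb i) (Gf n) 1 2 3 + C (y * y) * Bf bb bb 1 2 3 := by
      rw [h2]
      simp only [Bf, map_add, Derivation.leibniz, pderiv_C, smul_eq_mul, map_mul]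
      ring
    rw [h3, coeff_add, coeff_add, coeff_C_mul, phi_bb] at h0
    have h4 := CI.Bf (Gf_CI hn) (Gf_CI hu) 1 2 3 (mon 6 2 3 4)
    have h5 := CI.Bf (fun i => CI.C_mul hy (bb i)) (Gf_CI hn) 1 2 3 (mon 6 2 3 4)
    rw [mul_comm] at h5
    have h6 : y * y * 6 ∈ N * maximalIdeal A := by
      have := add_mem h4 h5
      convert this using 1
      linear_combination -h0
    have h7 : y * y = y * y * 6 * κ 6⁻¹ := by
      rw [mul_assoc (y * y), ← map_ofNat κ 6, ← map_mul, mul_inv_cancel₀ (by norm_num), map_one, mul_one]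
    rw [h7]
    exact Ideal.mul_mem_right _ _ h6
  refine dim_ne N hN ?_ ?_
  · -- the tangent vector
    intro he
    let f : ℂ →+* DualNumber ℂ := algebraMap ℂ _
    let g : MvPolynomial Ix ℂ →+* DualNumber ℂ :=
      eval₂Hom f (fun t => f (cc t) + DualNumber.eps * f (vv t))
    have hg : II ≤ RingHom.ker g :=
      II_le g f DualNumber.eps DualNumber.eps_mul_eps (fun t => by simp [g])
    let g1 : MvPolynomial Ix ℂ ⧸ II →+* DualNumber ℂ :=
      Ideal.Quotient.lift II g (fun a ha => hg ha)
    have hfst : ∀ r, (g r).fst = eval cc r := by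
      intro r
      induction r using MvPolynomial.induction_on with
      | C a => simp [g, f, TrivSqZeroExt.algebraMap_eq_inl]
      | add p q hp hq => rw [map_add, map_add, TrivSqZeroExt.fst_add, hp, hq]
      | mul_X p t hp =>
        rw [map_mul, map_mul, TrivSqZeroExt.fst_mul, hp]
        simp [g, f, TrivSqZeroExt.algebraMap_eq_inl]
    have hunit : ∀ z : PP.primeCompl, IsUnit (g1 z) := by
      rintro ⟨z, hz⟩
      obtain ⟨r, rfl⟩ := Ideal.Quotient.mk_surjective z
      change IsUnit (g r)
      rw [TrivSqZeroExt.isUnit_iff_isUnit_fst, hfst, isUnit_iff_ne_zero]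
      intro h
      exact hz (Ideal.mem_map_of_mem _ h)
    let ψ : A →+* DualNumber ℂ := IsLocalization.lift hunit
    have hψ : ∀ r, ψ (π r) = g r := fun r => IsLocalization.lift_eq hunit _
    have hκ : ∀ a, ψ (κ a) = f a := fun a => by
      rw [show κ a = π (C a) from rfl, hψ]; simp [g]
    have hψu : ∀ t, ψ (u t) = DualNumber.eps * f (vv t) := by
      intro t
      simp only [u, map_sub, hψ, hκ]
      simp [g]
    have hψy : ψ y = DualNumber.eps := by
      simp only [y, map_mul, hκ, hψu]
      rw [mul_left_comm, ← map_mul, inv_mul_cancel₀ ht0, map_one, mul_one]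
    have hNk : N ≤ RingHom.ker ψ := by
      rw [Ideal.span_le]
      rintro _ ⟨t, rfl⟩
      rw [SetLike.mem_coe, RingHom.mem_ker]
      simp only [n, map_sub, map_mul, hψu, hψy, hκ, sub_self]
    have h1 : ψ y = 0 := hNk (he ▸ hy)
    rw [hψy] at h1
    have h2 := congrArg TrivSqZeroExt.snd h1
    simp at h2
  · refine (Ideal.mul_mono_left hmN).trans ?_
    rw [Ideal.sup_mul]
    refine sup_le le_rfl ((Ideal.mul_mono_right hmN).trans ?_)
    rw [Ideal.mul_sup]
    refine sup_le ?_ ?_
    · rw [mul_comm]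
      exact Ideal.mul_mono_right ((Ideal.span_singleton_le_iff_mem _).2 hy)
    · rw [Ideal.span_singleton_mul_span_singleton, Ideal.span_singleton_le_iff_mem]
      exact hyy

theorem sing_le : ringKrullDim (MvPolynomial (Fin 4) ℂ ⧸
    Ideal.span (Set.range (fun i => map (eval cc) (GG i)))) ≤ ((2 : ℕ) : WithBot ℕ∞) := by
  refine dim_le_of_primes _ _ fun p hp h => sing_dim hp fun i => ?_
  rw [← map_GG]
  exact h (Ideal.subset_span ⟨i, rfl⟩)

theorem nk_le : ringKrullDim (MvPolynomial (Fin 4) ℂ ⧸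
    Ideal.span (Set.range (fun i => map (eval cc) (GG i)) ∪
      Set.range (fun p : Fin 4 × Fin 4 =>
        map (eval cc) (pderiv p.1 (GG p.2) - pderiv p.2 (GG p.1))))) ≤ ((1 : ℕ) : WithBot ℕ∞) := by
  refine dim_le_of_primes _ _ fun p hp h => nk_dim hp (fun i => ?_) (fun i j => ?_)
  · rw [← map_GG]
    exact h (Ideal.subset_span (Or.inl ⟨i, rfl⟩))
  · rw [← map_GG, ← map_GG, pderiv_map, pderiv_map, ← map_sub]
    exact h (Ideal.subset_span (Or.inr ⟨(i, j), rfl⟩))

end Pool.Agent.H214Z.Fol
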