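import Pool.Agent.H214Z.FolAlg

set_option autoImplicit false
set_option linter.unusedTactic false
set_option linter.unreachableTactic false
set_option linter.unnecessarySeqFocus false
set_option linter.unusedSimpArgs false

/-! The logarithmic form with residues `1, -1, -2, -3` along the Fermat sextic and three
coordinate planes, and an obstructed tangent vector. -/

namespace Pool.Agent.H214Z.Fol

open MvPolynomial

variable {R : Type} [CommRing R]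

/-- the Fermat sextic -/
noncomputable def f0 : MvPolynomial (Fin 4) R := X 0 ^ 6 + X 1 ^ 6 + X 2 ^ 6 + X 3 ^ 6

/-- the coefficients of the form -/
noncomputable def aa : Fin 4 → MvPolynomial (Fin 4) R :=
  ![6 * X 0 ^ 5 * X 1 * X 2 * X 3, X 2 * X 3 * (6 * X 1 ^ 6 - f0),
    X 1 * X 3 * (6 * X 2 ^ 6 - 2 * f0), X 1 * X 2 * (6 * X 3 ^ 6 - 3 * f0)]

/-- the coefficients of the tangent vector -/
noncomputable def bb : Fin 4 → MvPolynomial (Fin 4) R :=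
  ![0, f0 * X 2 * X 3, (X 1 * X 2 ^ 2 * X 3 ^ 3 - f0) * X 1 * X 3,
    -(X 1 * X 2 ^ 2 * X 3 ^ 3 * X 1 * X 2)]

@[simp] theorem pd_nat (i : Fin 4) (n : ℕ) [n.AtLeastTwo] :
    pderiv i (ofNat(n) : MvPolynomial (Fin 4) R) = 0 := by
  rw [← map_ofNat (C : R →+* MvPolynomial (Fin 4) R) n, pderiv_C]

theorem four (i : Fin 4) : i = 0 ∨ i = 1 ∨ i = 2 ∨ i = 3 := by revert i; decide

theorem aa_0 : (aa 0 : MvPolynomial (Fin 4) R) =
    6 * X 0 ^ 5 * X 1 * X 2 * X 3 := by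
  simp only [aa, f0, Matrix.cons_val_zero, Matrix.cons_val_one, Matrix.cons_val]

theorem aa_1 : (aa 1 : MvPolynomial (Fin 4) R) =
    0 - X 0 ^ 6 * X 2 * X 3 + 5 * X 1 ^ 6 * X 2 * X 3 - X 2 ^ 7 * X 3 - X 2 * X 3 ^ 7 := by
  simp only [aa, f0, Matrix.cons_val_zero, Matrix.cons_val_one, Matrix.cons_val]
  ring

theorem aa_2 : (aa 2 : MvPolynomial (Fin 4) R) =
    0 - 2 * X 0 ^ 6 * X 1 * X 3 - 2 * X 1 ^ 7 * X 3 + 4 * X 1 * X 2 ^ 6 * X 3 - 2 * X 1 * X 3 ^ 7 := by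
  simp only [aa, f0, Matrix.cons_val_zero, Matrix.cons_val_one, Matrix.cons_val]
  ring

theorem aa_3 : (aa 3 : MvPolynomial (Fin 4) R) =
    0 - 3 * X 0 ^ 6 * X 1 * X 2 - 3 * X 1 ^ 7 * X 2 - 3 * X 1 * X 2 ^ 7 + 3 * X 1 * X 2 * X 3 ^ 6 := by
  simp only [aa, f0, Matrix.cons_val_zero, Matrix.cons_val_one, Matrix.cons_val]
  ring

theorem daa_00 : pderiv 0 (aa 0 : MvPolynomial (Fin 4) R) =
    30 * X 0 ^ 4 * X 1 * X 2 * X 3 := by
  rw [aa_0]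
  simp [Derivation.leibniz, Derivation.leibniz_pow, pderiv_X, pd_nat] <;> ring

theorem daa_10 : pderiv 1 (aa 0 : MvPolynomial (Fin 4) R) =
    6 * X 0 ^ 5 * X 2 * X 3 := by
  rw [aa_0]
  simp [Derivation.leibniz, Derivation.leibniz_pow, pderiv_X, pd_nat] <;> ring

theorem daa_20 : pderiv 2 (aa 0 : MvPolynomial (Fin 4) R) =
    6 * X 0 ^ 5 * X 1 * X 3 := by
  rw [aa_0]
  simp [Derivation.leibniz, Derivation.leibniz_pow, pderiv_X, pd_nat] <;> ring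

theorem daa_30 : pderiv 3 (aa 0 : MvPolynomial (Fin 4) R) =
    6 * X 0 ^ 5 * X 1 * X 2 := by
  rw [aa_0]
  simp [Derivation.leibniz, Derivation.leibniz_pow, pderiv_X, pd_nat] <;> ring

theorem daa_01 : pderiv 0 (aa 1 : MvPolynomial (Fin 4) R) =
    0 - 6 * X 0 ^ 5 * X 2 * X 3 := by
  rw [aa_1]
  simp [Derivation.leibniz, Derivation.leibniz_pow, pderiv_X, pd_nat] <;> ring

theorem daa_11 : pderiv 1 (aa 1 : MvPolynomial (Fin 4) R) =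
    30 * X 1 ^ 5 * X 2 * X 3 := by
  rw [aa_1]
  simp [Derivation.leibniz, Derivation.leibniz_pow, pderiv_X, pd_nat] <;> ring

theorem daa_21 : pderiv 2 (aa 1 : MvPolynomial (Fin 4) R) =
    0 - X 0 ^ 6 * X 3 + 5 * X 1 ^ 6 * X 3 - 7 * X 2 ^ 6 * X 3 - X 3 ^ 7 := by
  rw [aa_1]
  simp [Derivation.leibniz, Derivation.leibniz_pow, pderiv_X, pd_nat] <;> ring

theorem daa_31 : pderiv 3 (aa 1 : MvPolynomial (Fin 4) R) =
    0 - X 0 ^ 6 * X 2 + 5 * X 1 ^ 6 * X 2 - X 2 ^ 7 - 7 * X 2 * X 3 ^ 6 := by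
  rw [aa_1]
  simp [Derivation.leibniz, Derivation.leibniz_pow, pderiv_X, pd_nat] <;> ring

theorem daa_02 : pderiv 0 (aa 2 : MvPolynomial (Fin 4) R) =
    0 - 12 * X 0 ^ 5 * X 1 * X 3 := by
  rw [aa_2]
  simp [Derivation.leibniz, Derivation.leibniz_pow, pderiv_X, pd_nat] <;> ring

theorem daa_12 : pderiv 1 (aa 2 : MvPolynomial (Fin 4) R) =
    0 - 2 * X 0 ^ 6 * X 3 - 14 * X 1 ^ 6 * X 3 + 4 * X 2 ^ 6 * X 3 - 2 * X 3 ^ 7 := by
  rw [aa_2]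
  simp [Derivation.leibniz, Derivation.leibniz_pow, pderiv_X, pd_nat] <;> ring

theorem daa_22 : pderiv 2 (aa 2 : MvPolynomial (Fin 4) R) =
    24 * X 1 * X 2 ^ 5 * X 3 := by
  rw [aa_2]
  simp [Derivation.leibniz, Derivation.leibniz_pow, pderiv_X, pd_nat] <;> ring

theorem daa_32 : pderiv 3 (aa 2 : MvPolynomial (Fin 4) R) =
    0 - 2 * X 0 ^ 6 * X 1 - 2 * X 1 ^ 7 + 4 * X 1 * X 2 ^ 6 - 14 * X 1 * X 3 ^ 6 := by
  rw [aa_2]
  simp [Derivation.leibniz, Derivation.leibniz_pow, pderiv_X, pd_nat] <;> ring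

theorem daa_03 : pderiv 0 (aa 3 : MvPolynomial (Fin 4) R) =
    0 - 18 * X 0 ^ 5 * X 1 * X 2 := by
  rw [aa_3]
  simp [Derivation.leibniz, Derivation.leibniz_pow, pderiv_X, pd_nat] <;> ring

theorem daa_13 : pderiv 1 (aa 3 : MvPolynomial (Fin 4) R) =
    0 - 3 * X 0 ^ 6 * X 2 - 21 * X 1 ^ 6 * X 2 - 3 * X 2 ^ 7 + 3 * X 2 * X 3 ^ 6 := by
  rw [aa_3]
  simp [Derivation.leibniz, Derivation.leibniz_pow, pderiv_X, pd_nat] <;> ring

theorem daa_23 : pderiv 2 (aa 3 : MvPolynomial (Fin 4) R) =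
    0 - 3 * X 0 ^ 6 * X 1 - 3 * X 1 ^ 7 - 21 * X 1 * X 2 ^ 6 + 3 * X 1 * X 3 ^ 6 := by
  rw [aa_3]
  simp [Derivation.leibniz, Derivation.leibniz_pow, pderiv_X, pd_nat] <;> ring

theorem daa_33 : pderiv 3 (aa 3 : MvPolynomial (Fin 4) R) =
    18 * X 1 * X 2 * X 3 ^ 5 := by
  rw [aa_3]
  simp [Derivation.leibniz, Derivation.leibniz_pow, pderiv_X, pd_nat] <;> ring

theorem bb_0 : (bb 0 : MvPolynomial (Fin 4) R) =
    0 := by
  simp only [bb, f0, Matrix.cons_val_zero, Matrix.cons_val_one, Matrix.cons_val]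

theorem bb_1 : (bb 1 : MvPolynomial (Fin 4) R) =
    X 0 ^ 6 * X 2 * X 3 + X 1 ^ 6 * X 2 * X 3 + X 2 ^ 7 * X 3 + X 2 * X 3 ^ 7 := by
  simp only [bb, f0, Matrix.cons_val_zero, Matrix.cons_val_one, Matrix.cons_val]
  ring

theorem bb_2 : (bb 2 : MvPolynomial (Fin 4) R) =
    0 - X 0 ^ 6 * X 1 * X 3 - X 1 ^ 7 * X 3 + X 1 ^ 2 * X 2 ^ 2 * X 3 ^ 4 - X 1 * X 2 ^ 6 * X 3 - X 1 * X 3 ^ 7 := by
  simp only [bb, f0, Matrix.cons_val_zero, Matrix.cons_val_one, Matrix.cons_val]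
  ring

theorem bb_3 : (bb 3 : MvPolynomial (Fin 4) R) =
    0 - X 1 ^ 2 * X 2 ^ 3 * X 3 ^ 3 := by
  simp only [bb, f0, Matrix.cons_val_zero, Matrix.cons_val_one, Matrix.cons_val]
  ring

theorem dbb_00 : pderiv 0 (bb 0 : MvPolynomial (Fin 4) R) =
    0 := by
  rw [bb_0]
  simp [Derivation.leibniz, Derivation.leibniz_pow, pderiv_X, pd_nat] <;> ring

theorem dbb_10 : pderiv 1 (bb 0 : MvPolynomial (Fin 4) R) =
    0 := by
  rw [bb_0]
  simp [Derivation.leibniz, Derivation.leibniz_pow, pderiv_X, pd_nat] <;> ring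

theorem dbb_20 : pderiv 2 (bb 0 : MvPolynomial (Fin 4) R) =
    0 := by
  rw [bb_0]
  simp [Derivation.leibniz, Derivation.leibniz_pow, pderiv_X, pd_nat] <;> ring

theorem dbb_30 : pderiv 3 (bb 0 : MvPolynomial (Fin 4) R) =
    0 := by
  rw [bb_0]
  simp [Derivation.leibniz, Derivation.leibniz_pow, pderiv_X, pd_nat] <;> ring

theorem dbb_01 : pderiv 0 (bb 1 : MvPolynomial (Fin 4) R) =
    6 * X 0 ^ 5 * X 2 * X 3 := by
  rw [bb_1]
  simp [Derivation.leibniz, Derivation.leibniz_pow, pderiv_X, pd_nat] <;> ring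

theorem dbb_11 : pderiv 1 (bb 1 : MvPolynomial (Fin 4) R) =
    6 * X 1 ^ 5 * X 2 * X 3 := by
  rw [bb_1]
  simp [Derivation.leibniz, Derivation.leibniz_pow, pderiv_X, pd_nat] <;> ring

theorem dbb_21 : pderiv 2 (bb 1 : MvPolynomial (Fin 4) R) =
    X 0 ^ 6 * X 3 + X 1 ^ 6 * X 3 + 7 * X 2 ^ 6 * X 3 + X 3 ^ 7 := by
  rw [bb_1]
  simp [Derivation.leibniz, Derivation.leibniz_pow, pderiv_X, pd_nat] <;> ring

theorem dbb_31 : pderiv 3 (bb 1 : MvPolynomial (Fin 4) R) =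
    X 0 ^ 6 * X 2 + X 1 ^ 6 * X 2 + X 2 ^ 7 + 7 * X 2 * X 3 ^ 6 := by
  rw [bb_1]
  simp [Derivation.leibniz, Derivation.leibniz_pow, pderiv_X, pd_nat] <;> ring

theorem dbb_02 : pderiv 0 (bb 2 : MvPolynomial (Fin 4) R) =
    0 - 6 * X 0 ^ 5 * X 1 * X 3 := by
  rw [bb_2]
  simp [Derivation.leibniz, Derivation.leibniz_pow, pderiv_X, pd_nat] <;> ring

theorem dbb_12 : pderiv 1 (bb 2 : MvPolynomial (Fin 4) R) =
    0 - X 0 ^ 6 * X 3 - 7 * X 1 ^ 6 * X 3 + 2 * X 1 * X 2 ^ 2 * X 3 ^ 4 - X 2 ^ 6 * X 3 - X 3 ^ 7 := by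
  rw [bb_2]
  simp [Derivation.leibniz, Derivation.leibniz_pow, pderiv_X, pd_nat] <;> ring

theorem dbb_22 : pderiv 2 (bb 2 : MvPolynomial (Fin 4) R) =
    2 * X 1 ^ 2 * X 2 * X 3 ^ 4 - 6 * X 1 * X 2 ^ 5 * X 3 := by
  rw [bb_2]
  simp [Derivation.leibniz, Derivation.leibniz_pow, pderiv_X, pd_nat] <;> ring

theorem dbb_32 : pderiv 3 (bb 2 : MvPolynomial (Fin 4) R) =
    0 - X 0 ^ 6 * X 1 - X 1 ^ 7 + 4 * X 1 ^ 2 * X 2 ^ 2 * X 3 ^ 3 - X 1 * X 2 ^ 6 - 7 * X 1 * X 3 ^ 6 := by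
  rw [bb_2]
  simp [Derivation.leibniz, Derivation.leibniz_pow, pderiv_X, pd_nat] <;> ring

theorem dbb_03 : pderiv 0 (bb 3 : MvPolynomial (Fin 4) R) =
    0 := by
  rw [bb_3]
  simp [Derivation.leibniz, Derivation.leibniz_pow, pderiv_X, pd_nat] <;> ring

theorem dbb_13 : pderiv 1 (bb 3 : MvPolynomial (Fin 4) R) =
    0 - 2 * X 1 * X 2 ^ 3 * X 3 ^ 3 := by
  rw [bb_3]
  simp [Derivation.leibniz, Derivation.leibniz_pow, pderiv_X, pd_nat] <;> ring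

theorem dbb_23 : pderiv 2 (bb 3 : MvPolynomial (Fin 4) R) =
    0 - 3 * X 1 ^ 2 * X 2 ^ 2 * X 3 ^ 3 := by
  rw [bb_3]
  simp [Derivation.leibniz, Derivation.leibniz_pow, pderiv_X, pd_nat] <;> ring

theorem dbb_33 : pderiv 3 (bb 3 : MvPolynomial (Fin 4) R) =
    0 - 3 * X 1 ^ 2 * X 2 ^ 3 * X 3 ^ 2 := by
  rw [bb_3]
  simp [Derivation.leibniz, Derivation.leibniz_pow, pderiv_X, pd_nat] <;> ring

theorem Bf_aa (i j k : Fin 4) : Bf (aa : Fin 4 → MvPolynomial (Fin 4) R) aa i j k = 0 := by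
  rcases four i with rfl | rfl | rfl | rfl <;> rcases four j with rfl | rfl | rfl | rfl <;>
    rcases four k with rfl | rfl | rfl | rfl <;>
    simp only [Bf, daa_00, daa_10, daa_20, daa_30, daa_01, daa_11, daa_21, daa_31, daa_02, daa_12, daa_22, daa_32, daa_03, daa_13, daa_23, daa_33] <;> simp only [aa_0, aa_1, aa_2, aa_3] <;> ring

theorem Bf_ab (i j k : Fin 4) :
    Bf (aa : Fin 4 → MvPolynomial (Fin 4) R) bb i j k + Bf bb aa i j k = 0 := by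
  rcases four i with rfl | rfl | rfl | rfl <;> rcases four j with rfl | rfl | rfl | rfl <;>
    rcases four k with rfl | rfl | rfl | rfl <;>
    simp only [Bf, daa_00, daa_10, daa_20, daa_30, daa_01, daa_11, daa_21, daa_31, daa_02, daa_12, daa_22, daa_32, daa_03, daa_13, daa_23, daa_33,
      dbb_00, dbb_10, dbb_20, dbb_30, dbb_01, dbb_11, dbb_21, dbb_31, dbb_02, dbb_12, dbb_22, dbb_32, dbb_03, dbb_13, dbb_23, dbb_33] <;>
    simp only [aa_0, aa_1, aa_2, aa_3, bb_0, bb_1, bb_2, bb_3] <;> ring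

theorem Bf_bb : Bf (bb : Fin 4 → MvPolynomial (Fin 4) R) bb 1 2 3 =
    -6 * (X 0 ^ 6 * X 1 ^ 2 * X 2 ^ 3 * X 3 ^ 4) := by
  simp only [Bf, dbb_00, dbb_10, dbb_20, dbb_30, dbb_01, dbb_11, dbb_21, dbb_31, dbb_02, dbb_12, dbb_22, dbb_32, dbb_03, dbb_13, dbb_23, dbb_33]
  simp only [bb_0, bb_1, bb_2, bb_3]
  ring

theorem euler_a : ∑ i, X i * (aa i : MvPolynomial (Fin 4) R) = 0 := by
  simp only [Fin.sum_univ_four, aa_0, aa_1, aa_2, aa_3]; ring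

theorem euler_b : ∑ i, X i * (bb i : MvPolynomial (Fin 4) R) = 0 := by
  simp only [Fin.sum_univ_four, bb_0, bb_1, bb_2, bb_3]; ring

end Pool.Agent.H214Z.Fol
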