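import Pool.Agent.H214Z.FolForm

set_option autoImplicit false

/-! The obstruction functional and the singular sets. -/

namespace Pool.Agent.H214Z.Fol

open MvPolynomial

section
variable {R : Type} [CommRing R]

theorem map_aa {S : Type} [CommRing S] (f : R →+* S) (i : Fin 4) : map f (aa i) = aa i := by
  rcases four i with rfl | rfl | rfl | rfl
  · simp only [aa_0, map_mul, map_pow, map_X, map_ofNat]
  · simp only [aa_1, map_add, map_sub, map_mul, map_pow, map_X, map_ofNat, map_zero]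
  · simp only [aa_2, map_add, map_sub, map_mul, map_pow, map_X, map_ofNat, map_zero]
  · simp only [aa_3, map_add, map_sub, map_mul, map_pow, map_X, map_ofNat, map_zero]

theorem map_bb {S : Type} [CommRing S] (f : R →+* S) (i : Fin 4) : map f (bb i) = bb i := by
  rcases four i with rfl | rfl | rfl | rfl
  · simp only [bb_0, map_zero]
  · simp only [bb_1, map_add, map_mul, map_pow, map_X]
  · simp only [bb_2, map_add, map_sub, map_mul, map_pow, map_X, map_zero]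
  · simp only [bb_3, map_sub, map_mul, map_pow, map_X, map_zero]

theorem hX (i : Fin 4) : (X i : MvPolynomial (Fin 4) R).IsHomogeneous 1 := isHomogeneous_X _ _

theorem hN (n : ℕ) [n.AtLeastTwo] : (ofNat(n) : MvPolynomial (Fin 4) R).IsHomogeneous 0 := by
  rw [← map_ofNat (C : R →+* MvPolynomial (Fin 4) R) n]
  exact isHomogeneous_C _ _

theorem hf0 : (f0 : MvPolynomial (Fin 4) R).IsHomogeneous 6 :=
  ((((hX 0).pow 6).add ((hX 1).pow 6)).add ((hX 2).pow 6)).add ((hX 3).pow 6)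

theorem hom_aa (i : Fin 4) : (aa i : MvPolynomial (Fin 4) R).IsHomogeneous 8 := by
  rcases four i with rfl | rfl | rfl | rfl
  · exact ((((hN 6).mul ((hX 0).pow 5)).mul (hX 1)).mul (hX 2)).mul (hX 3)
  · exact ((hX 2).mul (hX 3)).mul (((hN 6).mul ((hX 1).pow 6)).sub hf0)
  · exact ((hX 1).mul (hX 3)).mul (((hN 6).mul ((hX 2).pow 6)).sub ((hN 2).mul hf0))
  · exact ((hX 1).mul (hX 2)).mul (((hN 6).mul ((hX 3).pow 6)).sub ((hN 3).mul hf0))

theorem hom_bb (i : Fin 4) : (bb i : MvPolynomial (Fin 4) R).IsHomogeneous 8 := by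
  have hG : (X 1 * X 2 ^ 2 * X 3 ^ 3 : MvPolynomial (Fin 4) R).IsHomogeneous 6 :=
    ((hX 1).mul ((hX 2).pow 2)).mul ((hX 3).pow 3)
  rcases four i with rfl | rfl | rfl | rfl
  · exact isHomogeneous_zero _ _ _
  · exact (hf0.mul (hX 2)).mul (hX 3)
  · exact ((hG.sub hf0).mul (hX 1)).mul (hX 3)
  · exact ((hG.mul (hX 1)).mul (hX 2)).neg

/-- exponent vectors -/
noncomputable def mon (a b c d : ℕ) : Fin 4 →₀ ℕ :=
  Finsupp.single 0 a + Finsupp.single 1 b + Finsupp.single 2 c + Finsupp.single 3 d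

theorem mon_0 (a b c d : ℕ) : mon a b c d 0 = a := by simp [mon]
theorem mon_1 (a b c d : ℕ) : mon a b c d 1 = b := by simp [mon]
theorem mon_2 (a b c d : ℕ) : mon a b c d 2 = c := by simp [mon]
theorem mon_3 (a b c d : ℕ) : mon a b c d 3 = d := by simp [mon]

theorem mono_mon (a b c d : ℕ) : (X 0 ^ a * X 1 ^ b * X 2 ^ c * X 3 ^ d : MvPolynomial (Fin 4) R) =
    monomial (mon a b c d) 1 := by
  simp only [X_pow_eq_monomial, monomial_mul, mul_one, mon]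

theorem coeff_mon (a b c d a' b' c' d' : ℕ) (p : MvPolynomial (Fin 4) R) :
    coeff (mon (a + a') (b + b') (c + c') (d + d')) (X 0 ^ a * X 1 ^ b * X 2 ^ c * X 3 ^ d * p) =
      coeff (mon a' b' c' d') p := by
  have : mon (a + a') (b + b') (c + c') (d + d') = mon a b c d + mon a' b' c' d' := by
    simp only [mon, Finsupp.single_add]; abel
  rw [this, mono_mon, coeff_monomial_mul, one_mul]

theorem coeff_big (m : Fin 4 →₀ ℕ) (j : Fin 4) (hj : m j < 5) (p : MvPolynomial (Fin 4) R) :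
    coeff m (X j ^ 5 * p) = 0 := by
  rw [X_pow_eq_monomial, coeff_monomial_mul', if_neg]
  rw [Finsupp.single_le_iff]
  omega

theorem coeff_nat (m : Fin 4 →₀ ℕ) (n : ℕ) [n.AtLeastTwo] (p : MvPolynomial (Fin 4) R) :
    coeff m (ofNat(n) * p) = ofNat(n) * coeff m p := by
  rw [← map_ofNat (C : R →+* MvPolynomial (Fin 4) R) n, coeff_C_mul]

theorem phi_lin (U : Fin 4 → MvPolynomial (Fin 4) R) :
    coeff (mon 6 2 3 4) (Bf aa U 1 2 3 + Bf U aa 1 2 3) = 0 := by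
  have e : Bf aa U 1 2 3 + Bf U aa 1 2 3 =
      X 0 ^ 6 * X 1 ^ 1 * X 2 ^ 0 * X 3 ^ 0 *
        (3 * (X 2 * pderiv 2 (U 1)) - 2 * (X 3 * pderiv 3 (U 1)) - U 1) +
      X 0 ^ 6 * X 1 ^ 0 * X 2 ^ 1 * X 3 ^ 0 *
        (X 3 * pderiv 3 (U 2) - 3 * (X 1 * pderiv 1 (U 2)) + 2 * U 2) +
      X 0 ^ 6 * X 1 ^ 0 * X 2 ^ 0 * X 3 ^ 1 *
        (2 * (X 1 * pderiv 1 (U 3)) - X 2 * pderiv 2 (U 3) - U 3) +
      X 1 ^ 5 * (X 1 * (5 * X 2 * X 3 * (pderiv 2 (U 3) - pderiv 3 (U 2))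
          - 2 * X 1 * X 3 * (pderiv 3 (U 1) - pderiv 1 (U 3))
          - 3 * X 1 * X 2 * (pderiv 1 (U 2) - pderiv 2 (U 1))
          - X 1 * U 1 + 26 * X 2 * U 2 - 19 * X 3 * U 3)) +
      X 2 ^ 5 * (X 2 * (- X 2 * X 3 * (pderiv 2 (U 3) - pderiv 3 (U 2))
          + 4 * X 1 * X 3 * (pderiv 3 (U 1) - pderiv 1 (U 3))
          - 3 * X 1 * X 2 * (pderiv 1 (U 2) - pderiv 2 (U 1))
          - 25 * X 1 * U 1 + 2 * X 2 * U 2 + 11 * X 3 * U 3)) +
      X 3 ^ 5 * (X 3 * (- X 2 * X 3 * (pderiv 2 (U 3) - pderiv 3 (U 2))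
          - 2 * X 1 * X 3 * (pderiv 3 (U 1) - pderiv 1 (U 3))
          + 3 * X 1 * X 2 * (pderiv 1 (U 2) - pderiv 2 (U 1))
          + 17 * X 1 * U 1 - 10 * X 2 * U 2 - X 3 * U 3)) := by
    simp only [Bf, daa_12, daa_21, daa_13, daa_31, daa_23, daa_32]
    simp only [aa_1, aa_2, aa_3]
    ring
  rw [e]
  simp only [coeff_add]
  rw [coeff_mon 6 1 0 0 0 1 3 4, coeff_mon 6 0 1 0 0 2 2 4, coeff_mon 6 0 0 1 0 2 3 3,
    coeff_big _ 1 (by rw [mon_1]; omega), coeff_big _ 2 (by rw [mon_2]; omega),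
    coeff_big _ 3 (by rw [mon_3]; omega)]
  simp only [coeff_add, coeff_sub, coeff_nat, coeff_X_mul_pderiv, mon_1, mon_2, mon_3]
  push_cast
  ring

theorem phi_bb : coeff (mon 6 2 3 4) (Bf (bb : Fin 4 → MvPolynomial (Fin 4) R) bb 1 2 3) = -6 := by
  rw [Bf_bb, neg_mul, coeff_neg, coeff_nat, mono_mon, coeff_monomial, if_pos rfl, mul_one]

end

section dims

variable {p : Ideal (MvPolynomial (Fin 4) ℂ)}

theorem of_nat (hp : p.IsPrime) (n : ℕ) [n.AtLeastTwo] {x : MvPolynomial (Fin 4) ℂ}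
    (h : ofNat(n) * x ∈ p) : x ∈ p := by
  rcases hp.mem_or_mem h with h | h
  · exfalso
    apply hp.ne_top
    refine p.eq_top_of_isUnit_mem h ?_
    rw [← map_ofNat (C : ℂ →+* MvPolynomial (Fin 4) ℂ) n]
    exact (IsUnit.mk0 _ (OfNat.ofNat_ne_zero n)).map C
  · exact h

theorem mem_comb {x y z w : MvPolynomial (Fin 4) ℂ} (a b c : MvPolynomial (Fin 4) ℂ) (hx : x ∈ p)
    (hy : y ∈ p) (hz : z ∈ p) (e : w = a * x + b * y + c * z) : w ∈ p := by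
  rw [e]
  exact add_mem (add_mem (p.mul_mem_left _ hx) (p.mul_mem_left _ hy)) (p.mul_mem_left _ hz)

theorem dim1 (i : Fin 4) (c : Fin 4 → ℂ) (h : ∀ j, X j ^ 6 - C (c j) * X i ^ 6 ∈ p) :
    ringKrullDim (MvPolynomial (Fin 4) ℂ ⧸ p) ≤ ((1 : ℕ) : WithBot ℕ∞) :=
  dim_le_of_pow ![i] p fun j => ⟨C (c j) * X 0 ^ 6, by simpa using h j⟩

theorem dim2 (i i' : Fin 4) (c c' : Fin 4 → ℂ)
    (h : ∀ j, X j ^ 6 - (C (c j) * X i ^ 6 + C (c' j) * X i' ^ 6) ∈ p) :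
    ringKrullDim (MvPolynomial (Fin 4) ℂ ⧸ p) ≤ ((2 : ℕ) : WithBot ℕ∞) :=
  dim_le_of_pow ![i, i'] p fun j =>
    ⟨C (c j) * X 0 ^ 6 + C (c' j) * X 1 ^ 6, by simpa using h j⟩

theorem off_div (hp : p.IsPrime) (h : ∀ i, aa i ∈ p) (h1 : X 1 ∉ p) (h2 : X 2 ∉ p) (h3 : X 3 ∉ p) :
    ringKrullDim (MvPolynomial (Fin 4) ℂ ⧸ p) ≤ ((1 : ℕ) : WithBot ℕ∞) := by
  have a0 : 6 * X 0 ^ 5 * X 1 * X 2 * X 3 ∈ p := h 0
  have a1 : X 2 * X 3 * (6 * X 1 ^ 6 - f0) ∈ p := h 1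
  have a2 : X 1 * X 3 * (6 * X 2 ^ 6 - 2 * f0) ∈ p := h 2
  have a3 : X 1 * X 2 * (6 * X 3 ^ 6 - 3 * f0) ∈ p := h 3
  have b0 : X 0 ∈ p := hp.mem_of_pow_mem 5 (of_nat hp 6 (((hp.mem_or_mem (((hp.mem_or_mem
    ((hp.mem_or_mem a0).resolve_right h3)).resolve_right h2))).resolve_right h1)))
  have b1 := (hp.mem_or_mem a1).resolve_left (fun h => (hp.mem_or_mem h).elim h2 h3)
  have b2 := (hp.mem_or_mem a2).resolve_left (fun h => (hp.mem_or_mem h).elim h1 h3)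
  have b3 := (hp.mem_or_mem a3).resolve_left (fun h => (hp.mem_or_mem h).elim h1 h2)
  refine dim1 1 ![0, 1, 2, 3] fun j => ?_
  rcases four j with rfl | rfl | rfl | rfl
  · exact mem_comb (X 0 ^ 5) 0 0 b0 b0 b0 (by simp; ring)
  · simp
  · exact of_nat hp 6 (mem_comb (-2) 1 0 b1 b2 b3 (by simp [map_ofNat]; ring))
  · exact of_nat hp 6 (mem_comb (-3) 0 1 b1 b2 b3 (by simp [map_ofNat]; ring))

theorem sing_dim (hp : p.IsPrime) (h : ∀ i, aa i ∈ p) :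
    ringKrullDim (MvPolynomial (Fin 4) ℂ ⧸ p) ≤ ((2 : ℕ) : WithBot ℕ∞) := by
  have a1 : X 2 * X 3 * (6 * X 1 ^ 6 - f0) ∈ p := h 1
  have a2 : X 1 * X 3 * (6 * X 2 ^ 6 - 2 * f0) ∈ p := h 2
  have a3 : X 1 * X 2 * (6 * X 3 ^ 6 - 3 * f0) ∈ p := h 3
  by_cases h1 : X 1 ∈ p <;> by_cases h2 : X 2 ∈ p
  · refine dim2 0 3 ![1, 0, 0, 0] ![0, 0, 0, 1] fun j => ?_
    rcases four j with rfl | rfl | rfl | rfl <;> simp [p.pow_mem_of_mem, h1, h2]
  · by_cases h3 : X 3 ∈ p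
    · refine dim2 0 2 ![1, 0, 0, 0] ![0, 0, 1, 0] fun j => ?_
      rcases four j with rfl | rfl | rfl | rfl <;> simp [p.pow_mem_of_mem, h1, h3]
    · have b1 := (hp.mem_or_mem a1).resolve_left (fun h => (hp.mem_or_mem h).elim h2 h3)
      refine dim2 2 3 ![-1, 0, 1, 0] ![-1, 0, 0, 1] fun j => ?_
      rcases four j with rfl | rfl | rfl | rfl
      · exact mem_comb (-1) (5 * X 1 ^ 5) 0 b1 h1 h1 (by simp [f0]; ring)
      all_goals simp [p.pow_mem_of_mem, h1]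
  · by_cases h3 : X 3 ∈ p
    · refine dim2 0 1 ![1, 0, 0, 0] ![0, 1, 0, 0] fun j => ?_
      rcases four j with rfl | rfl | rfl | rfl <;> simp [p.pow_mem_of_mem, h2, h3]
    · have b2 := (hp.mem_or_mem a2).resolve_left (fun h => (hp.mem_or_mem h).elim h1 h3)
      refine dim2 1 3 ![-1, 1, 0, 0] ![-1, 0, 0, 1] fun j => ?_
      rcases four j with rfl | rfl | rfl | rfl
      · exact of_nat hp 2 (mem_comb (-1) (4 * X 2 ^ 5) 0 b2 h2 h2 (by simp [f0]; ring))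
      all_goals simp [p.pow_mem_of_mem, h2]
  · by_cases h3 : X 3 ∈ p
    · have b3 := (hp.mem_or_mem a3).resolve_left (fun h => (hp.mem_or_mem h).elim h1 h2)
      refine dim2 1 2 ![-1, 1, 0, 0] ![-1, 0, 1, 0] fun j => ?_
      rcases four j with rfl | rfl | rfl | rfl
      · exact of_nat hp 3 (mem_comb (-1) (3 * X 3 ^ 5) 0 b3 h3 h3 (by simp [f0]; ring))
      all_goals simp [p.pow_mem_of_mem, h3]
    · exact (off_div hp h h1 h2 h3).trans (by exact_mod_cast one_le_two)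

theorem nk_dim (hp : p.IsPrime) (h : ∀ i, aa i ∈ p)
    (hd : ∀ i j, pderiv i (aa j) - pderiv j (aa i) ∈ p) :
    ringKrullDim (MvPolynomial (Fin 4) ℂ ⧸ p) ≤ ((1 : ℕ) : WithBot ℕ∞) := by
  have a1 : X 2 * X 3 * (6 * X 1 ^ 6 - f0) ∈ p := h 1
  have a2 : X 1 * X 3 * (6 * X 2 ^ 6 - 2 * f0) ∈ p := h 2
  have a3 : X 1 * X 2 * (6 * X 3 ^ 6 - 3 * f0) ∈ p := h 3
  have c12 := hd 1 2
  have c13 := hd 1 3
  have c23 := hd 2 3
  rw [daa_12, daa_21] at c12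
  rw [daa_13, daa_31] at c13
  rw [daa_23, daa_32] at c23
  by_cases h1 : X 1 ∈ p <;> by_cases h2 : X 2 ∈ p <;> by_cases h3 : X 3 ∈ p
  · refine dim1 0 ![1, 0, 0, 0] fun j => ?_
    rcases four j with rfl | rfl | rfl | rfl <;> simp [p.pow_mem_of_mem, h1, h2, h3]
  · have b : X 3 * (X 0 ^ 6 + X 3 ^ 6) ∈ p :=
      mem_comb (-1) (-19 * X 1 ^ 5 * X 3) (11 * X 2 ^ 5 * X 3) c12 h1 h2 (by ring)
    refine dim1 3 ![-1, 0, 0, 1] fun j => ?_
    rcases four j with rfl | rfl | rfl | rfl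
    · simpa using (hp.mem_or_mem b).resolve_left h3
    all_goals simp [p.pow_mem_of_mem, h1, h2]
  · have b : 2 * (X 2 * (X 0 ^ 6 + X 2 ^ 6)) ∈ p :=
      mem_comb (-1) (-26 * X 1 ^ 5 * X 2) (10 * X 3 ^ 5 * X 2) c13 h1 h3 (by ring)
    refine dim1 2 ![-1, 0, 1, 0] fun j => ?_
    rcases four j with rfl | rfl | rfl | rfl
    · simpa using (hp.mem_or_mem (of_nat hp 2 b)).resolve_left h2
    all_goals simp [p.pow_mem_of_mem, h1, h3]
  · have b1 := (hp.mem_or_mem a1).resolve_left (fun h => (hp.mem_or_mem h).elim h2 h3)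
    have b : 12 * (X 2 ^ 6 * X 3) ∈ p :=
      mem_comb 1 (-X 3) (24 * X 1 ^ 5 * X 3) c12 b1 h1 (by simp only [f0]; ring)
    exact absurd (hp.mem_or_mem (of_nat hp 12 b))
      (fun h => h.elim (fun h => h2 (hp.mem_of_pow_mem _ h)) h3)
  · have b : X 1 * (X 0 ^ 6 + X 1 ^ 6) ∈ p :=
      mem_comb (-1) (-25 * X 2 ^ 5 * X 1) (17 * X 3 ^ 5 * X 1) c23 h2 h3 (by ring)
    refine dim1 1 ![-1, 1, 0, 0] fun j => ?_
    rcases four j with rfl | rfl | rfl | rfl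
    · simpa using (hp.mem_or_mem b).resolve_left h1
    all_goals simp [p.pow_mem_of_mem, h2, h3]
  · have b2 := (hp.mem_or_mem a2).resolve_left (fun h => (hp.mem_or_mem h).elim h1 h3)
    have b : 36 * (X 1 ^ 6 * X 3) ∈ p :=
      mem_comb (-2) (X 3) (18 * X 2 ^ 5 * X 3) c12 b2 h2 (by simp only [f0]; ring)
    exact absurd (hp.mem_or_mem (of_nat hp 36 b))
      (fun h => h.elim (fun h => h1 (hp.mem_of_pow_mem _ h)) h3)
  · have b3 := (hp.mem_or_mem a3).resolve_left (fun h => (hp.mem_or_mem h).elim h1 h2)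
    have b : 72 * (X 1 ^ 6 * X 2) ∈ p :=
      mem_comb (-3) (2 * X 2) (24 * X 3 ^ 5 * X 2) c13 b3 h3 (by simp only [f0]; ring)
    exact absurd (hp.mem_or_mem (of_nat hp 72 b))
      (fun h => h.elim (fun h => h1 (hp.mem_of_pow_mem _ h)) h2)
  · exact off_div hp h h1 h2 h3

end dims

end Pool.Agent.H214Z.Fol
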