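import Mathlib

/-!
Winding number argument for Cayley graphs of abelian groups: a circular colouring with
circumference below four comes from a character.
-/

set_option autoImplicit false

namespace Pool.Agent.H214Z.Katz

section general

variable {G : Type*} [AddCommGroup G]

/-- integer part of the increment -/
noncomputable def nn (f : G → ℝ) (x s : G) : ℤ := ⌊f (x + s) - f x⌋

lemma bounds {f : G → ℝ} {ε : ℝ} {x s : G} (h : ∀ k : ℤ, ε ≤ |f (x + s) - f x - k|) :
    ε ≤ f (x + s) - f x - nn f x s ∧ f (x + s) - f x - nn f x s ≤ 1 - ε := by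
  have h0 := Int.floor_le (f (x + s) - f x)
  have h1 := Int.lt_floor_add_one (f (x + s) - f x)
  have a := h (nn f x s)
  have b := h (nn f x s + 1)
  unfold nn at *
  rw [abs_of_nonneg (by linarith)] at a
  rw [abs_of_nonpos (by push_cast; linarith)] at b
  push_cast at b
  constructor <;> linarith

lemma square {f : G → ℝ} {ε : ℝ} (hε : 1 / 4 < ε) {s t : G}
    (hs : ∀ x, ∀ k : ℤ, ε ≤ |f (x + s) - f x - k|)
    (ht : ∀ x, ∀ k : ℤ, ε ≤ |f (x + t) - f x - k|) (x : G) :
    nn f x t + nn f (x + t) s = nn f x s + nn f (x + s) t := by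
  have a := bounds (hs x)
  have b := bounds (hs (x + t))
  have c := bounds (ht x)
  have d := bounds (ht (x + s))
  have e : x + t + s = x + s + t := by abel
  rw [e] at b
  have h1 : ((nn f x t + nn f (x + t) s - (nn f x s + nn f (x + s) t) : ℤ) : ℝ) < 1 := by
    push_cast; linarith [a.1, a.2, b.1, b.2, c.1, c.2, d.1, d.2]
  have h2 : (-1 : ℝ) < ((nn f x t + nn f (x + t) s - (nn f x s + nn f (x + s) t) : ℤ) : ℝ) := by
    push_cast; linarith [a.1, a.2, b.1, b.2, c.1, c.2, d.1, d.2]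
  have h1' : nn f x t + nn f (x + t) s - (nn f x s + nn f (x + s) t) < 1 := by exact_mod_cast h1
  have h2' : -1 < nn f x t + nn f (x + t) s - (nn f x s + nn f (x + s) t) := by exact_mod_cast h2
  omega

lemma far_of_between {y ε : ℝ} {w : ℤ} (h1 : ε + w ≤ y) (h2 : y ≤ 1 - ε + w) (hε : 0 ≤ ε)
    (k : ℤ) : ε ≤ |y - k| := by
  rcases le_or_gt k w with hk | hk
  · have : (k : ℝ) ≤ w := by exact_mod_cast hk
    rw [abs_of_nonneg (by linarith)]; linarith
  · have : (w : ℝ) + 1 ≤ k := by exact_mod_cast hk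
    rw [abs_of_nonpos (by linarith)]; linarith

end general

/-- the subgroup of steps which can be lifted compatibly with all steps in `S` -/
def steps (f : ℤ → ℝ) (S : Set ℕ) : AddSubgroup ℤ where
  carrier := {p | ∃ ν : ℤ → ℤ, ∀ s ∈ S, ∀ x : ℤ,
    ν x + nn f (x + p) (s : ℤ) = nn f x (s : ℤ) + ν (x + s)}
  zero_mem' := ⟨fun _ => 0, fun s _ x => by simp⟩
  add_mem' := by
    rintro p q ⟨ν, hν⟩ ⟨μ, hμ⟩
    refine ⟨fun x => ν x + μ (x + p), fun s hs x => ?_⟩
    have a := hν s hs x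
    have b := hμ s hs (x + p)
    have e1 : x + p + q = x + (p + q) := by ring
    have e2 : x + p + s = x + s + p := by ring
    rw [e1, e2] at b
    simp only
    omega
  neg_mem' := by
    rintro p ⟨ν, hν⟩
    refine ⟨fun x => - ν (x - p), fun s hs x => ?_⟩
    have a := hν s hs (x - p)
    have e1 : x - p + p = x := by ring
    have e2 : x - p + s = x + s - p := by ring
    have e3 : x + -p = x - p := by ring
    rw [e1, e2] at a
    simp only [e3]
    omega

lemma iter_bound (u : ℕ → ℝ) (m : ℕ) (a b : ℝ) (h : ∀ j, a ≤ u (j + m) - u j ∧ u (j + m) - u j ≤ b)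
    (q : ℕ) : q * a ≤ u (q * m) - u 0 ∧ u (q * m) - u 0 ≤ q * b := by
  induction q with
  | zero => simp
  | succ q ih =>
    have := h (q * m)
    have e : (q + 1) * m = q * m + m := by ring
    rw [e]
    push_cast
    constructor <;> linarith [ih.1, ih.2, this.1, this.2]

theorem circ (S : Set ℕ) (f : ℤ → ℝ) (ε : ℝ) (hε : 1 / 4 < ε)
    (h : ∀ x : ℤ, ∀ s ∈ S, ∀ k : ℤ, ε ≤ |f (x + s) - f x - k|) :
    ∃ α : ℝ, ∀ s ∈ S, ∀ k : ℤ, ε ≤ |(s : ℝ) * α - k| := by
  rcases S.eq_empty_or_nonempty with rfl | hne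
  · exact ⟨0, fun s hs => hs.elim⟩
  have hpos : ∀ s ∈ S, 0 < s := by
    intro s hs
    rcases Nat.eq_zero_or_pos s with rfl | h0
    · have := h 0 0 hs 0
      simp at this
      linarith
    · exact h0
  have hS : ∀ s ∈ S, (s : ℤ) ∈ steps f S := fun s hs =>
    ⟨fun x => nn f x s, fun t ht x => square hε (fun x => h x t ht) (fun x => h x s hs) x⟩
  obtain ⟨g0, hg0⟩ := Int.subgroup_cyclic (steps f S)
  have hmem : ∀ p : ℤ, p ∈ steps f S ↔ g0 ∣ p := by
    intro p
    rw [hg0, AddSubgroup.mem_closure_singleton]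
    constructor
    · rintro ⟨n, rfl⟩
      exact ⟨n, by simp [mul_comm]⟩
    · rintro ⟨n, rfl⟩
      exact ⟨n, by simp [mul_comm]⟩
  set g : ℕ := g0.natAbs with hgdef
  have hg : (g : ℤ) ∈ steps f S := (hmem _).2 (Int.dvd_natAbs.2 dvd_rfl)
  have hdvd : ∀ s ∈ S, g ∣ s := fun s hs => by
    have := (hmem _).1 (hS s hs)
    exact Int.natAbs_dvd_natAbs.2 this
  obtain ⟨ν, hν⟩ := hg
  let U : ℕ → ℤ := fun j => ∑ i ∈ Finset.range j, ν (g * i)
  have hU : ∀ j, U (j + 1) = U j + ν (g * j) := fun j => Finset.sum_range_succ _ _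
  let u : ℕ → ℝ := fun j => f (g * j) - U j
  have key : ∀ s ∈ S, ∃ w : ℤ, ∀ m : ℕ, s = g * m → ∀ j : ℕ,
      ε + w ≤ u (j + m) - u j ∧ u (j + m) - u j ≤ 1 - ε + w := by
    intro s hs
    obtain ⟨m0, hm0⟩ := hdvd s hs
    have hgpos : 0 < g := by
      rcases Nat.eq_zero_or_pos g with h0 | h0
      · have := hpos s hs
        rw [h0] at hm0; omega
      · exact h0
    refine ⟨nn f 0 s - U m0, fun m hm j => ?_⟩
    have hmm : m = m0 := Nat.eq_of_mul_eq_mul_left hgpos (hm.symm.trans hm0)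
    subst hmm
    have hc : ∀ j : ℕ, nn f (g * j) s - (U (j + m) - U j) = nn f 0 s - U m := by
      intro j
      induction j with
      | zero => simp [U]
      | succ j ih =>
        have a := hν s hs (g * j)
        have e1 : (g : ℤ) * j + g = g * ((j + 1 : ℕ) : ℤ) := by push_cast; ring
        have e2 : (g : ℤ) * j + s = g * ((j + m : ℕ) : ℤ) := by rw [hm]; push_cast; ring
        have e3 : j + 1 + m = (j + m) + 1 := by ring
        rw [e1, e2] at a
        rw [e3, hU, hU]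
        omega
    have b := bounds (h (g * j) s hs)
    have e2 : (g : ℤ) * j + s = g * ((j + m : ℕ) : ℤ) := by rw [hm]; push_cast; ring
    rw [e2] at b
    have c : ((nn f (g * j) s - (U (j + m) - U j) : ℤ) : ℝ) = ((nn f 0 s - U m : ℤ) : ℝ) := by
      rw [hc j]
    simp only [u]
    push_cast at c b ⊢
    constructor <;> linarith [b.1, b.2]
  choose! w hw using key
  have pair : ∀ s ∈ S, ∀ t ∈ S, (ε + w s) / s ≤ (1 - ε + w t) / t := by
    intro s hs t ht
    obtain ⟨m, hm⟩ := hdvd s hs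
    obtain ⟨l, hl⟩ := hdvd t ht
    have a := (iter_bound u m _ _ (hw s hs m hm) l).1
    have b := (iter_bound u l _ _ (hw t ht l hl) m).2
    rw [mul_comm m l] at b
    have hs0 : (0 : ℝ) < s := by exact_mod_cast hpos s hs
    have ht0 : (0 : ℝ) < t := by exact_mod_cast hpos t ht
    rw [div_le_div_iff₀ hs0 ht0]
    have c : (l : ℝ) * (ε + w s) ≤ m * (1 - ε + w t) := a.trans b
    have es : (s : ℝ) = g * m := by exact_mod_cast hm
    have et : (t : ℝ) = g * l := by exact_mod_cast hl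
    have hg0 : (0 : ℝ) ≤ g := Nat.cast_nonneg g
    have := mul_le_mul_of_nonneg_left c hg0
    rw [es, et]
    linarith
  let A : Set ℝ := (fun s : ℕ => (ε + w s) / s) '' S
  obtain ⟨t0, ht0⟩ := hne
  have hbdd : BddAbove A := ⟨_, by rintro _ ⟨s, hs, rfl⟩; exact pair s hs t0 ht0⟩
  refine ⟨sSup A, fun s hs => ?_⟩
  have hs0 : (0 : ℝ) < s := by exact_mod_cast hpos s hs
  have l1 : (ε + w s) / s ≤ sSup A := le_csSup hbdd ⟨s, hs, rfl⟩
  have l2 : sSup A ≤ (1 - ε + w s) / s :=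
    csSup_le ⟨_, ⟨t0, ht0, rfl⟩⟩ (by rintro _ ⟨t, ht, rfl⟩; exact pair t ht s hs)
  rw [div_le_iff₀ hs0] at l1
  rw [le_div_iff₀ hs0] at l2
  exact far_of_between (w := w s) (by linarith) (by linarith) (by linarith)

/-- a proper colouring with at most three colours is a circular colouring -/
lemma third {a b : ℕ} (ha : a < 3) (hb : b < 3) (hab : a ≠ b) (k : ℤ) :
    (1 / 3 : ℝ) ≤ |(a : ℝ) / 3 - (b : ℝ) / 3 - k| := by
  have h : (a : ℤ) - b - 3 * k ≠ 0 := by omega
  have h1 : (1 : ℤ) ≤ |(a : ℤ) - b - 3 * k| := Int.one_le_abs h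
  have h2 : (1 : ℝ) ≤ |(a : ℝ) - b - 3 * k| := by exact_mod_cast h1
  have e : (a : ℝ) / 3 - (b : ℝ) / 3 - k = ((a : ℝ) - b - 3 * k) / 3 := by ring
  rw [e, abs_div, abs_of_pos (by norm_num : (0 : ℝ) < 3)]
  linarith

theorem three (S : Set ℕ) (r : ℕ) (hr : r ≤ 3) (c : ℤ → Fin r)
    (h : ∀ x : ℤ, ∀ s ∈ S, c (x + s) ≠ c x) :
    ∃ α : ℝ, ∀ s ∈ S, ∀ k : ℤ, (1 / 3 : ℝ) ≤ |(s : ℝ) * α - k| :=
  circ S (fun x => ((c x : ℕ) : ℝ) / 3) (1 / 3) (by norm_num) fun x s hs k =>
    third (lt_of_lt_of_le (c _).2 hr) (lt_of_lt_of_le (c _).2 hr)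
      (fun e => h x s hs (Fin.ext e)) k

end Pool.Agent.H214Z.Katz
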