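import Mathlib
import Pool.Agent.H150R2.Konig
import Pool.Agent.H162R2.Sparse.Kernel

set_option autoImplicit false

/-! Koenig's edge colouring theorem and Galvin's theorem for bipartite graphs given as finite sets
of ordered pairs. -/

namespace Pool.Agent.H214Z.LR

open Finset

theorem fill {V : Type} [Fintype V] [DecidableEq V] (D : ℕ) : ∀ (t : ℕ) (M : V → V → ℕ),
    (∀ v, ∑ w, M v w ≤ D) → (∀ w, ∑ v, M v w ≤ D) →
    (∑ v, ∑ w, M v w) + t = D * Fintype.card V →
    ∃ M' : V → V → ℕ, (∀ v w, M v w ≤ M' v w) ∧ (∀ v, ∑ w, M' v w = D) ∧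
      (∀ w, ∑ v, M' v w = D) := by
  intro t
  induction t with
  | zero =>
    intro M hr hc ht
    have hD : ∑ _v : V, D = D * Fintype.card V := by simp [mul_comm]
    refine ⟨M, fun _ _ => le_rfl, ?_, ?_⟩
    · have h1 : ∑ v, ∑ w, M v w = ∑ _v : V, D := by rw [hD]; simpa using ht
      exact fun v => (Finset.sum_eq_sum_iff_of_le (fun v _ => hr v)).1 h1 v (mem_univ v)
    · have h1 : ∑ w, ∑ v, M v w = ∑ _w : V, D := by
        rw [Finset.sum_comm, hD]; simpa using ht
      exact fun w => (Finset.sum_eq_sum_iff_of_le (fun w _ => hc w)).1 h1 w (mem_univ w)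
  | succ t ih =>
    intro M hr hc ht
    have hD : ∑ _v : V, D = D * Fintype.card V := by simp [mul_comm]
    obtain ⟨v, -, hv⟩ : ∃ v ∈ (univ : Finset V), ∑ w, M v w < D := by
      apply Finset.exists_lt_of_sum_lt
      rw [hD]; omega
    obtain ⟨w, -, hw⟩ : ∃ w ∈ (univ : Finset V), ∑ v, M v w < D := by
      apply Finset.exists_lt_of_sum_lt
      rw [hD, Finset.sum_comm]; omega
    set M1 : V → V → ℕ := fun a b => M a b + if a = v then (if b = w then 1 else 0) else 0
      with hM1
    have hrow : ∀ a, ∑ b, M1 a b = ∑ b, M a b + if a = v then 1 else 0 := by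
      intro a
      rw [hM1, Finset.sum_add_distrib]
      congr 1
      by_cases h : a = v <;> simp [h]
    have hcol : ∀ b, ∑ a, M1 a b = ∑ a, M a b + if b = w then 1 else 0 := by
      intro b
      rw [hM1, Finset.sum_add_distrib]
      congr 1
      simp
    obtain ⟨M', h1, h2, h3⟩ := ih M1
      (by
        intro a
        rw [hrow]
        by_cases h : a = v
        · subst h; rw [if_pos rfl]; omega
        · rw [if_neg h]; exact hr a)
      (by
        intro b
        rw [hcol]
        by_cases h : b = w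
        · subst h; rw [if_pos rfl]; omega
        · rw [if_neg h]; exact hc b)
      (by
        have : ∑ a, ∑ b, M1 a b = ∑ a, ∑ b, M a b + 1 := by
          simp_rw [hrow]
          rw [Finset.sum_add_distrib]
          simp
        rw [this]; omega)
    exact ⟨M', fun a b => le_trans (Nat.le_add_right _ _) (h1 a b), h2, h3⟩

theorem konig {V : Type} [Fintype V] [DecidableEq V] (E : Finset (V × V)) (D : ℕ)
    (hl : ∀ u, (E.filter (fun e => e.1 = u)).card ≤ D)
    (hr : ∀ u, (E.filter (fun e => e.2 = u)).card ≤ D) :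
    ∃ c : V × V → ℕ, (∀ e ∈ E, c e < D) ∧
      ∀ e ∈ E, ∀ e' ∈ E, e ≠ e' → (e.1 = e'.1 ∨ e.2 = e'.2) → c e ≠ c e' := by
  classical
  set M0 : V → V → ℕ := fun v w => if (v, w) ∈ E then 1 else 0 with hM0
  have hrow : ∀ v, ∑ w, M0 v w ≤ D := by
    intro v
    refine le_trans (le_of_eq ?_) (hl v)
    rw [hM0]
    simp only
    rw [← Finset.card_filter]
    refine Finset.card_bij (fun w _ => (v, w)) ?_ ?_ ?_
    · intro w hw
      simp only [mem_filter, mem_univ, true_and] at hw ⊢
      exact ⟨hw, trivial⟩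
    · intro a _ b _ h
      exact (Prod.mk.inj h).2
    · rintro ⟨a, b⟩ h
      simp only [mem_filter] at h
      obtain ⟨h1, h2⟩ := h
      subst h2
      exact ⟨b, by simpa using h1, rfl⟩
  have hcol : ∀ w, ∑ v, M0 v w ≤ D := by
    intro w
    refine le_trans (le_of_eq ?_) (hr w)
    rw [hM0]
    simp only
    rw [← Finset.card_filter]
    refine Finset.card_bij (fun v _ => (v, w)) ?_ ?_ ?_
    · intro v hv
      simp only [mem_filter, mem_univ, true_and] at hv ⊢
      exact ⟨hv, trivial⟩
    · intro a _ b _ h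
      exact (Prod.mk.inj h).1
    · rintro ⟨a, b⟩ h
      simp only [mem_filter] at h
      obtain ⟨h1, h2⟩ := h
      subst h2
      exact ⟨a, by simpa using h1, rfl⟩
  have htot : ∑ v, ∑ w, M0 v w ≤ D * Fintype.card V := by
    calc ∑ v, ∑ w, M0 v w ≤ ∑ _v : V, D := Finset.sum_le_sum fun v _ => hrow v
      _ = D * Fintype.card V := by simp [mul_comm]
  obtain ⟨M', h1, h2, h3⟩ := fill D (D * Fintype.card V - ∑ v, ∑ w, M0 v w) M0 hrow hcol
    (by omega)
  obtain ⟨σ, hσ⟩ := Pool.Agent.H150R2.ZSF.koenig D M' h2 h3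
  have hex : ∀ e ∈ E, ∃ i : Fin D, σ i e.1 = e.2 := by
    intro e he
    have h4 : 1 ≤ M' e.1 e.2 := by
      refine le_trans (le_of_eq ?_) (h1 e.1 e.2)
      rw [hM0]
      simp only
      rw [if_pos (by exact he)]
    rw [hσ] at h4
    by_contra hcon
    push Not at hcon
    simp [hcon] at h4
  refine ⟨fun e => if h : ∃ i : Fin D, σ i e.1 = e.2 then (Classical.choose h).val else 0,
    ?_, ?_⟩
  · intro e he
    simp only
    rw [dif_pos (hex e he)]
    exact (Classical.choose (hex e he)).isLt
  · intro e he e' he' hne hsh heq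
    simp only at heq
    rw [dif_pos (hex e he), dif_pos (hex e' he')] at heq
    have hi := Classical.choose_spec (hex e he)
    have hi' := Classical.choose_spec (hex e' he')
    have hij : Classical.choose (hex e he) = Classical.choose (hex e' he') := Fin.ext heq
    rw [← hij] at hi'
    clear hij heq
    generalize Classical.choose (hex e he) = i at hi hi'
    apply hne
    rcases hsh with h | h
    · exact Prod.ext h (by rw [← hi, ← hi', h])
    · refine Prod.ext ?_ h
      apply (σ i).injective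
      rw [hi, hi', h]

theorem key {V : Type} [Fintype V] (a : V × V → ℕ) :
    ∃ p : V × V → ℕ, Function.Injective p ∧ ∀ f e, p f < p e → a f ≤ a e := by
  classical
  set N := Fintype.card (V × V) with hN
  let eqv := Fintype.equivFin (V × V)
  have hi : ∀ e, (eqv e : ℕ) < N := fun e => (eqv e).2
  refine ⟨fun e => a e * N + (eqv e : ℕ), ?_, ?_⟩
  · intro e f hef
    have h1 : (a e * N + (eqv e : ℕ)) % N = (a f * N + (eqv f : ℕ)) % N :=
      congrArg (fun t => t % N) hef
    rw [Nat.mul_add_mod', Nat.mul_add_mod', Nat.mod_eq_of_lt (hi e), Nat.mod_eq_of_lt (hi f)] at h1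
    exact eqv.injective (Fin.ext h1)
  · intro f e h
    by_contra hcon
    push Not at hcon
    have h4 : (a e + 1) * N ≤ a f * N := Nat.mul_le_mul_right _ hcon
    have h5 := hi e
    have h6 : a f * N + (eqv f : ℕ) < a e * N + (eqv e : ℕ) := h
    rw [Nat.add_mul, Nat.one_mul] at h4
    omega

/-- Galvin's theorem. -/
theorem galvin {V : Type} [Fintype V] [DecidableEq V] (E : Finset (V × V)) (D : ℕ)
    (hl : ∀ u, (E.filter (fun e => e.1 = u)).card ≤ D)
    (hr : ∀ u, (E.filter (fun e => e.2 = u)).card ≤ D)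
    (L : V × V → Finset ℕ) (hL : ∀ e ∈ E, D ≤ (L e).card) :
    ∃ col : V × V → ℕ, (∀ e ∈ E, col e ∈ L e) ∧
      ∀ e ∈ E, ∀ f ∈ E, e ≠ f → (e.1 = f.1 ∨ e.2 = f.2) → col e ≠ col f := by
  classical
  obtain ⟨c, hcD, hc⟩ := konig E D hl hr
  obtain ⟨pu, hpi, hpu⟩ := key c
  obtain ⟨qw, hqi, hqw⟩ := key (fun e => D - c e)
  apply Pool.Agent.H162R2.Sparse.list_colour pu qw hpi hqi _ E L rfl
  intro e he
  have hce := hcD e he
  have hcard : (E.filter (fun f => Pool.Agent.H162R2.Sparse.Dom pu qw f e)).card ≤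
      ((range D).erase (c e)).card := by
    have hside : ∀ f ∈ E, Pool.Agent.H162R2.Sparse.Dom pu qw f e →
        (f.1 = e.1 ∧ c f < c e) ∨ (f.2 = e.2 ∧ c e < c f) := by
      intro f hf hd
      rcases hd with ⟨h1, h2⟩ | ⟨h1, h2⟩
      · have hfe : f ≠ e := fun h => by rw [h] at h2; exact lt_irrefl _ h2
        have h3 := hpu f e h2
        have h4 := hc f hf e he hfe (Or.inl h1)
        exact Or.inl ⟨h1, lt_of_le_of_ne h3 h4⟩
      · have hfe : f ≠ e := fun h => by rw [h] at h2; exact lt_irrefl _ h2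
        have h3 := hqw f e h2
        have h4 := hc f hf e he hfe (Or.inr h1)
        have h5 := hcD f hf
        exact Or.inr ⟨h1, by omega⟩
    apply Finset.card_le_card_of_injOn c
    · intro f hf
      have hf' := Finset.mem_filter.1 hf
      refine Finset.mem_coe.2 (Finset.mem_erase.2 ⟨?_, Finset.mem_range.2 (hcD f hf'.1)⟩)
      rcases hside f hf'.1 hf'.2 with h | h <;> omega
    · intro f hf f' hf' heq
      have h1 := Finset.mem_filter.1 (Finset.mem_coe.1 hf)
      have h2 := Finset.mem_filter.1 (Finset.mem_coe.1 hf')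
      by_contra hne
      rcases hside f h1.1 h1.2 with h | h <;> rcases hside f' h2.1 h2.2 with h' | h'
      · exact hc f h1.1 f' h2.1 hne (Or.inl (h.1.trans h'.1.symm)) heq
      · omega
      · omega
      · exact hc f h1.1 f' h2.1 hne (Or.inr (h.1.trans h'.1.symm)) heq
  rw [Finset.card_erase_of_mem (Finset.mem_range.2 hce), Finset.card_range] at hcard
  have := hL e he
  omega

end Pool.Agent.H214Z.LR
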