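import Mathlib

set_option autoImplicit false

/-! Tournaments with prescribed scores (Landau's theorem through Hall's theorem). -/

namespace Pool.Agent.H214Z.LR

open Finset

theorem card_lt_pairs {n : ℕ} (S : Finset (Fin n)) :
    2 * ((S ×ˢ S).filter (fun e : Fin n × Fin n => e.1 < e.2)).card = S.card * (S.card - 1) := by
  classical
  have h1 : ((S ×ˢ S).filter (fun e : Fin n × Fin n => e.1 < e.2)).card =
      ((S ×ˢ S).filter (fun e : Fin n × Fin n => e.2 < e.1)).card := by
    apply Finset.card_bij (fun e _ => e.swap)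
    · intro e he
      simp only [mem_filter, mem_product] at he ⊢
      exact ⟨⟨he.1.2, he.1.1⟩, he.2⟩
    · intro a _ b _ h
      exact Prod.swap_injective h
    · intro e he
      simp only [mem_filter, mem_product] at he
      exact ⟨e.swap, by simp only [mem_filter, mem_product]; exact ⟨⟨he.1.2, he.1.1⟩, he.2⟩, rfl⟩
  have h2 : S.offDiag = ((S ×ˢ S).filter (fun e : Fin n × Fin n => e.1 < e.2)) ∪
      ((S ×ˢ S).filter (fun e : Fin n × Fin n => e.2 < e.1)) := by
    ext e
    simp only [mem_offDiag, mem_union, mem_filter, mem_product]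
    constructor
    · rintro ⟨a, b, c⟩
      rcases lt_or_gt_of_ne c with h | h
      · exact Or.inl ⟨⟨a, b⟩, h⟩
      · exact Or.inr ⟨⟨a, b⟩, h⟩
    · rintro (⟨⟨a, b⟩, h⟩ | ⟨⟨a, b⟩, h⟩)
      · exact ⟨a, b, ne_of_lt h⟩
      · exact ⟨a, b, ne_of_gt h⟩
  have h3 : S.offDiag.card = S.card * S.card - S.card := Finset.offDiag_card S
  rw [h2, Finset.card_union_of_disjoint, ← h1] at h3
  · rw [Nat.mul_sub, Nat.mul_one]; omega
  · rw [Finset.disjoint_left]
    intro e he1 he2
    simp only [mem_filter] at he1 he2
    exact lt_asymm he1.2 he2.2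

/-- A tournament with out-degrees bounded by `f`. -/
theorem landau_le {n : ℕ} (f : Fin n → ℕ)
    (hS : ∀ S : Finset (Fin n), S.card * (S.card - 1) ≤ 2 * ∑ v ∈ S, f v) :
    ∃ T : Fin n → Fin n → Bool, (∀ u, T u u = false) ∧ (∀ u w, u ≠ w → T w u = !T u w) ∧
      ∀ v, (univ.filter (fun w => T v w = true)).card ≤ f v := by
  classical
  let ι := {e : Fin n × Fin n // e.1 < e.2}
  let slots : Fin n → Finset (Fin n × ℕ) := fun v => ({v} : Finset (Fin n)) ×ˢ range (f v)
  let t : ι → Finset (Fin n × ℕ) := fun e => slots e.1.1 ∪ slots e.1.2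
  have hall : ∀ s : Finset ι, s.card ≤ (s.biUnion t).card := by
    intro s
    let S : Finset (Fin n) := s.image (fun e => e.1.1) ∪ s.image (fun e => e.1.2)
    have h1 : S.biUnion slots ⊆ s.biUnion t := by
      intro x hx
      rw [Finset.mem_biUnion] at hx ⊢
      obtain ⟨v, hv, hx⟩ := hx
      rcases Finset.mem_union.1 hv with hv | hv
      · obtain ⟨e, he, rfl⟩ := Finset.mem_image.1 hv
        exact ⟨e, he, Finset.mem_union_left _ hx⟩
      · obtain ⟨e, he, rfl⟩ := Finset.mem_image.1 hv
        exact ⟨e, he, Finset.mem_union_right _ hx⟩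
    have h2 : (S.biUnion slots).card = ∑ v ∈ S, f v := by
      rw [Finset.card_biUnion]
      · apply Finset.sum_congr rfl
        intro v _
        simp [slots]
      · intro a _ b _ hab
        rw [Function.onFun, Finset.disjoint_left]
        intro x hx hx'
        simp only [slots, mem_product, mem_singleton] at hx hx'
        exact hab (hx.1.symm.trans hx'.1)
    have h3 : s.card ≤ ((S ×ˢ S).filter (fun e : Fin n × Fin n => e.1 < e.2)).card := by
      apply Finset.card_le_card_of_injOn (fun e : ι => e.1)
      · intro e he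
        have he' : e ∈ s := he
        refine Finset.mem_coe.2 (Finset.mem_filter.2 ⟨Finset.mem_product.2 ⟨?_, ?_⟩, e.2⟩)
        · exact Finset.mem_union_left _ (Finset.mem_image.2 ⟨e, he', rfl⟩)
        · exact Finset.mem_union_right _ (Finset.mem_image.2 ⟨e, he', rfl⟩)
      · intro a _ b _ h
        exact Subtype.ext h
    have h4 := card_lt_pairs S
    have h5 := hS S
    have h6 := Finset.card_le_card h1
    omega
  obtain ⟨g, hg, hgt⟩ := (Finset.all_card_le_biUnion_card_iff_exists_injective t).1 hall
  have hg1 : ∀ e : ι, ((g e).1 = e.1.1 ∨ (g e).1 = e.1.2) ∧ (g e).2 < f (g e).1 := by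
    intro e
    rcases Finset.mem_union.1 (hgt e) with h | h
    · simp only [slots, mem_product, mem_singleton, mem_range] at h
      exact ⟨Or.inl h.1, by rw [h.1]; exact h.2⟩
    · simp only [slots, mem_product, mem_singleton, mem_range] at h
      exact ⟨Or.inr h.1, by rw [h.1]; exact h.2⟩
  let G : Fin n → Fin n → Fin n × ℕ := fun u w =>
    if h : u < w then g ⟨(u, w), h⟩ else if h' : w < u then g ⟨(w, u), h'⟩ else (u, 0)
  have hGs : ∀ u w, u ≠ w → G u w = G w u := by
    intro u w huw
    rcases lt_or_gt_of_ne huw with h | h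
    · simp only [G, dif_pos h, dif_neg (lt_asymm h)]
    · simp only [G, dif_pos h, dif_neg (lt_asymm h)]
  have hG1 : ∀ u w, u ≠ w → ((G u w).1 = u ∨ (G u w).1 = w) ∧ (G u w).2 < f (G u w).1 := by
    intro u w huw
    rcases lt_or_gt_of_ne huw with h | h
    · simp only [G, dif_pos h]
      exact hg1 ⟨(u, w), h⟩
    · simp only [G, dif_pos h, dif_neg (lt_asymm h)]
      exact ⟨(hg1 ⟨(w, u), h⟩).1.symm, (hg1 ⟨(w, u), h⟩).2⟩
  have hGi : ∀ v w w', v ≠ w → v ≠ w' → G v w = G v w' → w = w' := by
    intro v w w' h1 h2 h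
    rcases lt_or_gt_of_ne h1 with a | a <;> rcases lt_or_gt_of_ne h2 with b | b
    · simp only [G, dif_pos a, dif_pos b] at h
      have := congrArg (fun e : ι => e.1.2) (hg h)
      exact this
    · simp only [G, dif_pos a, dif_pos b, dif_neg (lt_asymm b)] at h
      have := congrArg (fun e : ι => e.1.2) (hg h)
      exact absurd this.symm h1
    · simp only [G, dif_pos a, dif_pos b, dif_neg (lt_asymm a)] at h
      have := congrArg (fun e : ι => e.1.1) (hg h)
      exact absurd this.symm h1
    · simp only [G, dif_pos a, dif_pos b, dif_neg (lt_asymm a), dif_neg (lt_asymm b)] at h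
      have := congrArg (fun e : ι => e.1.1) (hg h)
      exact this
  refine ⟨fun u w => decide (u ≠ w ∧ (G u w).1 = u), ?_, ?_, ?_⟩
  · intro u; simp
  · intro u w huw
    have h1 := (hG1 u w huw).1
    show decide (w ≠ u ∧ (G w u).1 = w) = !decide (u ≠ w ∧ (G u w).1 = u)
    rw [← hGs u w huw]
    rcases h1 with h | h
    · simp [h, huw]
    · simp [h, huw.symm]
  · intro v
    rw [← Finset.card_range (f v)]
    apply Finset.card_le_card_of_injOn (fun w => (G v w).2)
    · intro w hw
      have hw' := (Finset.mem_filter.1 (Finset.mem_coe.1 hw)).2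
      simp only [decide_eq_true_eq] at hw'
      have := (hG1 v w hw'.1).2
      rw [hw'.2] at this
      exact Finset.mem_coe.2 (Finset.mem_range.2 this)
    · intro w hw w' hw' h
      have h1 := (Finset.mem_filter.1 (Finset.mem_coe.1 hw)).2
      have h2 := (Finset.mem_filter.1 (Finset.mem_coe.1 hw')).2
      simp only [decide_eq_true_eq] at h1 h2
      exact hGi v w w' h1.1 h2.1 (Prod.ext (h1.2.trans h2.2.symm) h)

/-- A tournament with scores `f`. -/
theorem landau {n : ℕ} (f : Fin n → ℕ)
    (hS : ∀ S : Finset (Fin n), S.card * (S.card - 1) ≤ 2 * ∑ v ∈ S, f v)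
    (htot : 2 * ∑ v, f v = n * (n - 1)) :
    ∃ T : Fin n → Fin n → Bool, (∀ u, T u u = false) ∧ (∀ u w, u ≠ w → T w u = !T u w) ∧
      ∀ v, (univ.filter (fun w => T v w = true)).card = f v ∧
        (univ.filter (fun w => T w v = true)).card + f v + 1 = n := by
  classical
  obtain ⟨T, h0, h1, h2⟩ := landau_le f hS
  have hsum : ∀ v, (univ.filter (fun w => T v w = true)).card +
      (univ.filter (fun w => T w v = true)).card + 1 = n := by
    intro v
    have h3 : (univ.filter (fun w => T v w = true)) ∪ (univ.filter (fun w => T w v = true)) =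
        univ.erase v := by
      ext w
      simp only [mem_union, mem_filter, mem_univ, true_and, mem_erase, and_true]
      constructor
      · rintro (h | h) rfl <;> simp [h0] at h
      · intro hwv
        rw [h1 v w (Ne.symm hwv)]
        cases T v w <;> simp
    have h4 : Disjoint (univ.filter (fun w => T v w = true))
        (univ.filter (fun w => T w v = true)) := by
      rw [Finset.disjoint_left]
      intro w hw hw'
      simp only [mem_filter, mem_univ, true_and] at hw hw'
      have hvw : v ≠ w := by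
        rintro rfl
        simp [h0] at hw
      rw [h1 v w hvw, hw] at hw'
      simp at hw'
    have h5 := Finset.card_union_of_disjoint h4
    rw [h3, Finset.card_erase_of_mem (mem_univ v), Finset.card_univ, Fintype.card_fin] at h5
    have := v.2
    omega
  have hswap : ∑ v, (univ.filter (fun w => T v w = true)).card =
      ∑ v, (univ.filter (fun w => T w v = true)).card := by
    simp only [Finset.card_filter]
    rw [Finset.sum_comm]
  have htotal : 2 * ∑ v, (univ.filter (fun w => T v w = true)).card = n * (n - 1) := by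
    have h3 : ∑ v : Fin n, ((univ.filter (fun w => T v w = true)).card +
        (univ.filter (fun w => T w v = true)).card) = ∑ _v : Fin n, (n - 1) := by
      apply Finset.sum_congr rfl
      intro v _
      have := hsum v
      omega
    rw [Finset.sum_add_distrib, ← hswap] at h3
    simp only [Finset.sum_const, Finset.card_univ, Fintype.card_fin, smul_eq_mul] at h3
    omega
  have heq : ∀ v, (univ.filter (fun w => T v w = true)).card = f v := by
    have h3 : ∑ v, (univ.filter (fun w => T v w = true)).card = ∑ v, f v := by omega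
    exact fun v => (Finset.sum_eq_sum_iff_of_le (fun v _ => h2 v)).1 h3 v (mem_univ v)
  refine ⟨T, h0, h1, fun v => ⟨heq v, ?_⟩⟩
  have := hsum v
  rw [heq v] at this
  omega

/-- The orientation of the complete graph used for the splitting. -/
def Good (n k s : ℕ) : Prop :=
  ∃ (T : Fin n → Fin n → Bool) (a b : Fin n → ℕ), (∀ u, T u u = false) ∧
    (∀ u w, u ≠ w → T w u = !T u w) ∧
    ∀ v, a v + b v ≤ s ∧ (univ.filter (fun w => T v w = true)).card ≤ k * a v ∧
      (univ.filter (fun w => T w v = true)).card ≤ k * b v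

theorem Good.mono {n m k s : ℕ} (h : Good m k s) (hnm : n ≤ m) : Good n k s := by
  classical
  obtain ⟨T, a, b, h0, h1, h2⟩ := h
  refine ⟨fun u w => T (Fin.castLE hnm u) (Fin.castLE hnm w), fun u => a (Fin.castLE hnm u),
    fun u => b (Fin.castLE hnm u), fun u => h0 _, fun u w huw => h1 _ _ ?_, fun v => ⟨(h2 _).1, ?_, ?_⟩⟩
  · exact fun h => huw (Fin.castLE_injective hnm h)
  · refine le_trans ?_ (h2 (Fin.castLE hnm v)).2.1
    apply Finset.card_le_card_of_injOn (Fin.castLE hnm)
    · intro w hw
      have hw' := (Finset.mem_filter.1 (Finset.mem_coe.1 hw)).2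
      exact Finset.mem_coe.2 (Finset.mem_filter.2 ⟨mem_univ _, hw'⟩)
    · exact (Fin.castLE_injective hnm).injOn
  · refine le_trans ?_ (h2 (Fin.castLE hnm v)).2.2
    apply Finset.card_le_card_of_injOn (Fin.castLE hnm)
    · intro w hw
      have hw' := (Finset.mem_filter.1 (Finset.mem_coe.1 hw)).2
      exact Finset.mem_coe.2 (Finset.mem_filter.2 ⟨mem_univ _, hw'⟩)
    · exact (Fin.castLE_injective hnm).injOn

theorem good_even (k c : ℕ) : Good (k * (2 * c) + 1) k (2 * c) := by
  obtain ⟨T, h0, h1, h2⟩ := landau (n := k * (2 * c) + 1) (fun _ => k * c)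
    (by
      intro S
      have h : S.card ≤ k * (2 * c) + 1 := by simpa using Finset.card_le_univ S
      simp only [Finset.sum_const, smul_eq_mul]
      have h' : S.card - 1 ≤ 2 * (k * c) := by
        have : k * (2 * c) = 2 * (k * c) := by ring
        omega
      calc S.card * (S.card - 1) ≤ S.card * (2 * (k * c)) := Nat.mul_le_mul_left _ h'
        _ = 2 * (S.card * (k * c)) := by ring)
    (by
      simp only [Finset.sum_const, Finset.card_univ, Fintype.card_fin, smul_eq_mul,
        Nat.add_sub_cancel]
      ring)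
  refine ⟨T, fun _ => c, fun _ => c, h0, h1, fun v => ⟨?_, (h2 v).1.le, ?_⟩⟩
  · show c + c ≤ 2 * c
    omega
  · have h3 := (h2 v).2
    have : k * (2 * c) = 2 * (k * c) := by ring
    show _ ≤ k * c
    omega

theorem two_valued (s t m A B : ℕ) (hs : s ≤ m) (ht : t ≤ m) (hAB : A + B + 1 = 2 * m)
    (hA : m ≤ 2 * A + 1) (hle : A ≤ B) : (s + t) * (s + t - 1) ≤ 2 * (s * A + t * B) := by
  rcases Nat.eq_zero_or_pos (s + t) with h0 | h0
  · rw [h0]; simp
  obtain ⟨u, hu⟩ : ∃ u, s + t = u + 1 := ⟨s + t - 1, by omega⟩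
  have hu' : s + t - 1 = u := by omega
  rw [hu']
  by_cases h : s + t ≤ m
  · have h1 : u ≤ 2 * A := by omega
    have h2 : u ≤ 2 * B := by omega
    nlinarith [Nat.mul_le_mul_left s h1, Nat.mul_le_mul_left t h2]
  · obtain ⟨s', rfl⟩ := Nat.exists_eq_add_of_le hs
    obtain ⟨t', ht'⟩ := Nat.exists_eq_add_of_le ht
    have h1 : s' + t' ≤ 2 * A + 1 := by omega
    zify at *
    have hB : (B : ℤ) = 2 * (s + s') - 1 - A := by linarith
    have htt : (t : ℤ) = s + s' - t' := by linarith
    have huu : (u : ℤ) = s + t - 1 := by linarith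
    have h2 : (0 : ℤ) ≤ s' := by positivity
    have h3 : (0 : ℤ) ≤ t' := by positivity
    have h4 : (0 : ℤ) ≤ (s' + t') * (2 * A + 1 - (s' + t')) :=
      mul_nonneg (by positivity) (by linarith)
    have h5 : (0 : ℤ) ≤ s' * (B - A) := mul_nonneg h2 (by linarith)
    rw [huu, htt]
    rw [hB] at h5 ⊢
    nlinarith

theorem good_odd (k c m : ℕ) (hk : 1 ≤ k) (hc : 1 ≤ c) (h1 : k * (2 * c + 1) ≤ 2 * m)
    (h2 : 2 * m ≤ k * (2 * c + 1) + 1) : Good (2 * m) k (2 * c + 1) := by
  classical
  have e1 : k * (2 * c + 1) = 2 * (k * c) + k := by ring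
  have e2 : k * (c + 1) = k * c + k := by ring
  have e3 : k ≤ k * c := Nat.le_mul_of_pos_right k hc
  set A := k * c with hA
  set B := 2 * m - 1 - A with hB
  have hAB : A + B + 1 = 2 * m := by omega
  have hlow : (univ.filter (fun v : Fin (2 * m) => v.1 < m)).card = m := by
    refine Eq.trans ?_ (Finset.card_range m)
    apply Finset.card_bij (fun v _ => v.1)
    · intro v hv
      exact Finset.mem_range.2 (Finset.mem_filter.1 hv).2
    · intro a _ b _ h
      exact Fin.ext h
    · intro j hj
      have hj' := Finset.mem_range.1 hj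
      exact ⟨⟨j, by omega⟩, Finset.mem_filter.2 ⟨mem_univ _, hj'⟩, rfl⟩
  have hhigh : (univ.filter (fun v : Fin (2 * m) => ¬ v.1 < m)).card = m := by
    have := Finset.card_filter_add_card_filter_not (s := (univ : Finset (Fin (2 * m))))
      (fun v : Fin (2 * m) => v.1 < m)
    rw [Finset.card_univ, Fintype.card_fin] at this
    omega
  have hsum : ∀ S : Finset (Fin (2 * m)), ∑ v ∈ S, (if v.1 < m then A else B) =
      (S.filter (fun v => v.1 < m)).card * A + (S.filter (fun v => ¬ v.1 < m)).card * B := by
    intro S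
    rw [Finset.sum_ite]
    simp only [Finset.sum_const, smul_eq_mul]
  obtain ⟨T, h0, h3, h4⟩ := landau (n := 2 * m) (fun v => if v.1 < m then A else B)
    (by
      intro S
      rw [hsum S]
      have h5 := Finset.card_filter_add_card_filter_not (s := S) (fun v : Fin (2 * m) => v.1 < m)
      rw [← h5]
      apply two_valued _ _ m A B _ _ hAB (by omega) (by omega)
      · exact le_of_le_of_eq (Finset.card_le_card
          (Finset.filter_subset_filter _ (Finset.subset_univ S))) hlow
      · exact le_of_le_of_eq (Finset.card_le_card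
          (Finset.filter_subset_filter _ (Finset.subset_univ S))) hhigh)
    (by
      rw [hsum, hlow, hhigh]
      have : 2 * m - 1 = A + B := by omega
      rw [this]; ring)
  refine ⟨T, fun v => if v.1 < m then c else c + 1, fun v => if v.1 < m then c + 1 else c,
    h0, h3, fun v => ?_⟩
  obtain ⟨h5, h6⟩ := h4 v
  by_cases hv : v.1 < m
  · simp only [if_pos hv] at h5 h6 ⊢
    omega
  · simp only [if_neg hv] at h5 h6 ⊢
    omega

end Pool.Agent.H214Z.LR
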