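import Mathlib
import Pool.Agent.H214Z.LRGalvin
import Pool.Agent.H214Z.LRLandau

set_option autoImplicit false

/-! List Ramsey numbers of stars with at least three edges. -/

namespace Pool.Agent.H214Z.LR

open Finset

theorem chunks {α : Type} [DecidableEq α] (S : Finset α) (k a r : ℕ) (hk : 1 ≤ k)
    (h : S.card ≤ k * a) (ha : a ≤ r) :
    ∃ p : α → Fin (r + 1), (∀ x ∈ S, (p x : ℕ) < a) ∧
      ∀ i, (S.filter (fun x => p x = i)).card ≤ k := by
  classical
  let e := S.equivFin
  have hlt : ∀ x (hx : x ∈ S), (e ⟨x, hx⟩ : ℕ) / k < a := by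
    intro x hx
    apply Nat.div_lt_of_lt_mul
    exact lt_of_lt_of_le (e ⟨x, hx⟩).2 h
  refine ⟨fun x => if hx : x ∈ S then ⟨(e ⟨x, hx⟩ : ℕ) / k, by have := hlt x hx; omega⟩ else 0,
    ?_, ?_⟩
  · intro x hx
    simp only [dif_pos hx]
    exact hlt x hx
  · intro i
    refine le_trans ?_ (Finset.card_range k).le
    apply Finset.card_le_card_of_injOn
      (fun x => if hx : x ∈ S then (e ⟨x, hx⟩ : ℕ) % k else 0)
    · intro x hx
      have hx' := (Finset.mem_filter.1 (Finset.mem_coe.1 hx)).1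
      simp only [dif_pos hx']
      exact Finset.mem_coe.2 (Finset.mem_range.2 (Nat.mod_lt _ hk))
    · intro x hx y hy hxy
      obtain ⟨hx1, hx2⟩ := Finset.mem_filter.1 (Finset.mem_coe.1 hx)
      obtain ⟨hy1, hy2⟩ := Finset.mem_filter.1 (Finset.mem_coe.1 hy)
      simp only [dif_pos hx1, dif_pos hy1] at hxy hx2 hy2
      have h1 : (e ⟨x, hx1⟩ : ℕ) / k = (e ⟨y, hy1⟩ : ℕ) / k := by
        have := congrArg Fin.val (hx2.trans hy2.symm)
        exact this
      have h2 : (e ⟨x, hx1⟩ : ℕ) = (e ⟨y, hy1⟩ : ℕ) := by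
        rw [← Nat.div_add_mod (e ⟨x, hx1⟩ : ℕ) k, ← Nat.div_add_mod (e ⟨y, hy1⟩ : ℕ) k, h1, hxy]
      have h3 := e.injective (Fin.ext h2)
      exact congrArg Subtype.val h3

/-- Splitting the vertices along an orientation and applying Galvin's theorem. -/
theorem split {n k s : ℕ} (hk : 1 ≤ k) (hG : Good n k s) (L : Fin n → Fin n → Finset ℕ)
    (hL : ∀ v w : Fin n, v ≠ w → L v w = L w v ∧ (L v w).card = k) :
    ∃ c : Fin n → Fin n → ℕ, (∀ v w : Fin n, v ≠ w → c v w = c w v ∧ c v w ∈ L v w) ∧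
      ∀ (v : Fin n) (x : ℕ) (S : Finset (Fin n)), v ∉ S → (∀ w ∈ S, c v w = x) → S.card ≤ s := by
  classical
  obtain ⟨T, a, b, h0, h1, h2⟩ := hG
  have hp := fun v => chunks (univ.filter (fun w => T v w = true)) k (a v) s hk (h2 v).2.1
    (by have := (h2 v).1; omega)
  have hq := fun v => chunks (univ.filter (fun w => T w v = true)) k (b v) s hk (h2 v).2.2
    (by have := (h2 v).1; omega)
  choose p hp1 hp2 using hp
  choose q hq1 hq2 using hq
  let φ : Fin n → Fin n → (Fin n × Fin (s + 1)) × (Fin n × Fin (s + 1)) :=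
    fun u w => ((u, p u w), (w, q w u))
  let E : Finset ((Fin n × Fin (s + 1)) × (Fin n × Fin (s + 1))) :=
    (univ.filter (fun e : Fin n × Fin n => T e.1 e.2 = true)).image (fun e => φ e.1 e.2)
  have hE : ∀ u w, T u w = true → φ u w ∈ E := fun u w h =>
    Finset.mem_image.2 ⟨(u, w), Finset.mem_filter.2 ⟨mem_univ _, h⟩, rfl⟩
  have hE' : ∀ e ∈ E, ∃ u w, T u w = true ∧ e = φ u w := by
    intro e he
    obtain ⟨x, hx, rfl⟩ := Finset.mem_image.1 he
    exact ⟨x.1, x.2, (Finset.mem_filter.1 hx).2, rfl⟩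
  have hne : ∀ u w, T u w = true → u ≠ w := by
    rintro u w h rfl
    simp [h0] at h
  obtain ⟨col, hc1, hc2⟩ := galvin E k
    (by
      rintro ⟨u, i⟩
      refine le_trans ?_ (hp2 u i)
      refine le_trans (Finset.card_le_card (?_ : _ ⊆
        ((univ.filter (fun w => T u w = true)).filter (fun w => p u w = i)).image (φ u)))
        Finset.card_image_le
      intro e he
      obtain ⟨he1, he2⟩ := Finset.mem_filter.1 he
      obtain ⟨u', w, h, rfl⟩ := hE' e he1
      obtain ⟨h3, h4⟩ := Prod.mk.inj he2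
      subst h3
      exact Finset.mem_image.2 ⟨w, Finset.mem_filter.2
        ⟨Finset.mem_filter.2 ⟨mem_univ _, h⟩, h4⟩, rfl⟩)
    (by
      rintro ⟨w, i⟩
      refine le_trans ?_ (hq2 w i)
      refine le_trans (Finset.card_le_card (?_ : _ ⊆
        ((univ.filter (fun u => T u w = true)).filter (fun u => q w u = i)).image
          (fun u => φ u w))) Finset.card_image_le
      intro e he
      obtain ⟨he1, he2⟩ := Finset.mem_filter.1 he
      obtain ⟨u, w', h, rfl⟩ := hE' e he1
      obtain ⟨h3, h4⟩ := Prod.mk.inj he2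
      subst h3
      exact Finset.mem_image.2 ⟨u, Finset.mem_filter.2
        ⟨Finset.mem_filter.2 ⟨mem_univ _, h⟩, h4⟩, rfl⟩)
    (fun e => L e.1.1 e.2.1)
    (by
      intro e he
      obtain ⟨u, w, h, rfl⟩ := hE' e he
      exact (hL u w (hne u w h)).2.ge)
  refine ⟨fun u w => if T u w = true then col (φ u w) else col (φ w u), ?_, ?_⟩
  · intro v w hvw
    have h3 := h1 v w hvw
    by_cases h : T v w = true
    · have h' : ¬ T w v = true := by rw [h3, h]; simp
      simp only [if_pos h, if_neg h']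
      exact ⟨trivial, hc1 _ (hE v w h)⟩
    · have h' : T w v = true := by
        rw [h3]; simpa using h
      simp only [if_neg h, if_pos h']
      refine ⟨trivial, ?_⟩
      rw [(hL v w hvw).1]
      exact hc1 _ (hE w v h')
  · intro v x S hv hS
    have hA : (S.filter (fun w => T v w = true)).card ≤ a v := by
      refine le_trans ?_ (Finset.card_range (a v)).le
      apply Finset.card_le_card_of_injOn (fun w => (p v w : ℕ))
      · intro w hw
        have hw' := (Finset.mem_filter.1 (Finset.mem_coe.1 hw)).2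
        exact Finset.mem_coe.2 (Finset.mem_range.2
          (hp1 v w (Finset.mem_filter.2 ⟨mem_univ _, hw'⟩)))
      · intro w hw w' hw' h
        obtain ⟨hw1, hw2⟩ := Finset.mem_filter.1 (Finset.mem_coe.1 hw)
        obtain ⟨hw1', hw2'⟩ := Finset.mem_filter.1 (Finset.mem_coe.1 hw')
        by_contra hww
        have h3 := hS w hw1
        have h4 := hS w' hw1'
        simp only [if_pos hw2, if_pos hw2'] at h3 h4
        refine hc2 _ (hE v w hw2) _ (hE v w' hw2') ?_ (Or.inl ?_) (h3.trans h4.symm)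
        · intro he
          exact hww (congrArg (fun e => e.2.1) he)
        · exact Prod.ext rfl (Fin.ext h)
    have hin : ∀ w ∈ S, ¬ T v w = true → T w v = true := by
      intro w hw h
      have hvw : v ≠ w := by
        rintro rfl
        exact hv hw
      rw [h1 v w hvw]; simpa using h
    have hB : (S.filter (fun w => ¬ T v w = true)).card ≤ b v := by
      refine le_trans ?_ (Finset.card_range (b v)).le
      apply Finset.card_le_card_of_injOn (fun w => (q v w : ℕ))
      · intro w hw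
        obtain ⟨hw1, hw2⟩ := Finset.mem_filter.1 (Finset.mem_coe.1 hw)
        exact Finset.mem_coe.2 (Finset.mem_range.2
          (hq1 v w (Finset.mem_filter.2 ⟨mem_univ _, hin w hw1 hw2⟩)))
      · intro w hw w' hw' h
        obtain ⟨hw1, hw2⟩ := Finset.mem_filter.1 (Finset.mem_coe.1 hw)
        obtain ⟨hw1', hw2'⟩ := Finset.mem_filter.1 (Finset.mem_coe.1 hw')
        by_contra hww
        have h3 := hS w hw1
        have h4 := hS w' hw1'
        simp only [if_neg hw2, if_neg hw2'] at h3 h4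
        refine hc2 _ (hE w v (hin w hw1 hw2)) _ (hE w' v (hin w' hw1' hw2')) ?_ (Or.inr ?_)
          (h3.trans h4.symm)
        · intro he
          exact hww (congrArg (fun e => e.1.1) he)
        · exact Prod.ext rfl (Fin.ext h)
    have h5 := Finset.card_filter_add_card_filter_not (s := S) (fun w => T v w = true)
    have h6 := (h2 v).1
    omega

/-- The colour classes at a vertex. -/
theorem colour_sum {n k : ℕ} (c : Fin n → Fin n → Fin k) (v : Fin n) :
    ∑ a : Fin k, ((univ.erase v).filter (fun w => c v w = a)).card + 1 = n := by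
  classical
  have h := Finset.card_eq_sum_card_fiberwise (s := univ.erase v) (t := (univ : Finset (Fin k)))
    (f := fun w => c v w) (fun _ _ => Finset.mem_coe.2 (mem_univ _))
  rw [← h, Finset.card_erase_of_mem (mem_univ v), Finset.card_univ, Fintype.card_fin]
  have := v.2
  omega

theorem star_of_large {n k r : ℕ} (c : Fin n → Fin n → Fin k) (v : Fin n) (a : Fin k)
    (h : r ≤ ((univ.erase v).filter (fun w => c v w = a)).card) :
    ∃ v : Fin n, ∃ a : Fin k, ∃ S : Finset (Fin n), S.card = r ∧ v ∉ S ∧ ∀ w ∈ S, c v w = a := by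
  classical
  obtain ⟨S, hS, hc⟩ := Finset.exists_subset_card_eq h
  refine ⟨v, a, S, hc, ?_, ?_⟩
  · intro hv
    have := (Finset.mem_filter.1 (hS hv)).1
    simp at this
  · intro w hw
    exact (Finset.mem_filter.1 (hS hw)).2

theorem upper (k s : ℕ) (c : Fin (k * s + 2) → Fin (k * s + 2) → Fin k) :
    ∃ v, ∃ a : Fin k, ∃ S : Finset (Fin (k * s + 2)),
      S.card = s + 1 ∧ v ∉ S ∧ ∀ w ∈ S, c v w = a := by
  classical
  by_contra hcon
  have h1 : ∀ a, ((univ.erase (0 : Fin (k * s + 2))).filter (fun w => c 0 w = a)).card ≤ s := by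
    intro a
    by_contra h
    exact hcon (star_of_large c 0 a (by omega))
  have h2 := colour_sum c 0
  have h3 : ∑ a : Fin k, ((univ.erase (0 : Fin (k * s + 2))).filter (fun w => c 0 w = a)).card ≤
      ∑ _a : Fin k, s := Finset.sum_le_sum fun a _ => h1 a
  simp only [Finset.sum_const, Finset.card_univ, Fintype.card_fin, smul_eq_mul] at h3
  omega

theorem upper_parity (k s : ℕ) (hk : 1 ≤ k) (hke : Even k) (hs : Odd s)
    (c : Fin (k * s + 1) → Fin (k * s + 1) → Fin k) (hc : ∀ v w, v ≠ w → c v w = c w v) :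
    ∃ v, ∃ a : Fin k, ∃ S : Finset (Fin (k * s + 1)),
      S.card = s + 1 ∧ v ∉ S ∧ ∀ w ∈ S, c v w = a := by
  classical
  by_contra hcon
  have h1 : ∀ v a, ((univ.erase v).filter (fun w => c v w = a)).card ≤ s := by
    intro v a
    by_contra h
    exact hcon (star_of_large c v a (by omega))
  have h2 : ∀ v a, ((univ.erase v).filter (fun w => c v w = a)).card = s := by
    intro v a
    have h3 := colour_sum c v
    have h4 : ∑ a : Fin k, ((univ.erase v).filter (fun w => c v w = a)).card =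
        ∑ _a : Fin k, s := by
      simp only [Finset.sum_const, Finset.card_univ, Fintype.card_fin, smul_eq_mul]
      omega
    exact (Finset.sum_eq_sum_iff_of_le (fun a _ => h1 v a)).1 h4 a (mem_univ a)
  let a0 : Fin k := ⟨0, hk⟩
  let G : SimpleGraph (Fin (k * s + 1)) :=
    { Adj := fun v w => v ≠ w ∧ c v w = a0
      symm := ⟨fun v w h => ⟨h.1.symm, (hc v w h.1).symm.trans h.2⟩⟩
      loopless := ⟨fun v h => h.1 rfl⟩ }
  have hdeg : ∀ v, G.degree v = s := by
    intro v
    refine Eq.trans ?_ (h2 v a0)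
    rw [← SimpleGraph.card_neighborFinset_eq_degree]
    congr 1
    ext w
    simp only [SimpleGraph.mem_neighborFinset, mem_filter, mem_erase, mem_univ, and_true]
    exact ⟨fun h => ⟨h.1.symm, h.2⟩, fun h => ⟨h.1.symm, h.2⟩⟩
  have h5 := G.sum_degrees_eq_twice_card_edges
  simp only [hdeg, Finset.sum_const, Finset.card_univ, Fintype.card_fin, smul_eq_mul] at h5
  have h6 : Odd ((k * s + 1) * s) := (Even.add_one (hke.mul_right s)).mul hs
  rw [h5] at h6
  exact (Nat.not_odd_iff_even.2 (even_two_mul _)) h6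

theorem sInf_eq_of {A B : Set ℕ} (N : ℕ) (hBA : B ⊆ A) (hN : N ∈ B) (hA : ∀ n < N, n ∉ A) :
    sInf A = N ∧ sInf B = N := by
  constructor
  · apply le_antisymm (Nat.sInf_le (hBA hN))
    by_contra h
    exact hA _ (not_le.1 h) (Nat.sInf_mem ⟨N, hBA hN⟩)
  · apply le_antisymm (Nat.sInf_le hN)
    by_contra h
    exact hA _ (not_le.1 h) (hBA (Nat.sInf_mem ⟨N, hN⟩))

theorem main (r k : ℕ) (hr : 1 ≤ r) (hr2 : r ≠ 2) (hk : 1 ≤ k) :
    sInf {n : ℕ | ∃ L : Fin n → Fin n → Finset ℕ,
        (∀ v w : Fin n, v ≠ w → L v w = L w v ∧ (L v w).card = k) ∧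
        ∀ c : Fin n → Fin n → ℕ,
          (∀ v w : Fin n, v ≠ w → c v w = c w v ∧ c v w ∈ L v w) →
          ∃ v : Fin n, ∃ a : ℕ, ∃ S : Finset (Fin n),
            S.card = r ∧ v ∉ S ∧ ∀ w ∈ S, c v w = a}
    = sInf {n : ℕ | ∀ c : Fin n → Fin n → Fin k,
          (∀ v w : Fin n, v ≠ w → c v w = c w v) →
          ∃ v : Fin n, ∃ a : Fin k, ∃ S : Finset (Fin n),
            S.card = r ∧ v ∉ S ∧ ∀ w ∈ S, c v w = a} := by
  classical
  obtain ⟨s, rfl⟩ : ∃ s, r = s + 1 := ⟨r - 1, by omega⟩
  have key : ∀ N : ℕ, Good N k s →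
      (∀ c : Fin (N + 1) → Fin (N + 1) → Fin k, (∀ v w, v ≠ w → c v w = c w v) →
        ∃ v, ∃ a : Fin k, ∃ S : Finset (Fin (N + 1)),
          S.card = s + 1 ∧ v ∉ S ∧ ∀ w ∈ S, c v w = a) →
      sInf {n : ℕ | ∃ L : Fin n → Fin n → Finset ℕ,
        (∀ v w : Fin n, v ≠ w → L v w = L w v ∧ (L v w).card = k) ∧
        ∀ c : Fin n → Fin n → ℕ,
          (∀ v w : Fin n, v ≠ w → c v w = c w v ∧ c v w ∈ L v w) →
          ∃ v : Fin n, ∃ a : ℕ, ∃ S : Finset (Fin n),
            S.card = s + 1 ∧ v ∉ S ∧ ∀ w ∈ S, c v w = a}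
      = sInf {n : ℕ | ∀ c : Fin n → Fin n → Fin k,
          (∀ v w : Fin n, v ≠ w → c v w = c w v) →
          ∃ v : Fin n, ∃ a : Fin k, ∃ S : Finset (Fin n),
            S.card = s + 1 ∧ v ∉ S ∧ ∀ w ∈ S, c v w = a} := by
    intro N hG hU
    have h := sInf_eq_of (A := {n : ℕ | ∃ L : Fin n → Fin n → Finset ℕ,
        (∀ v w : Fin n, v ≠ w → L v w = L w v ∧ (L v w).card = k) ∧
        ∀ c : Fin n → Fin n → ℕ,
          (∀ v w : Fin n, v ≠ w → c v w = c w v ∧ c v w ∈ L v w) →
          ∃ v : Fin n, ∃ a : ℕ, ∃ S : Finset (Fin n),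
            S.card = s + 1 ∧ v ∉ S ∧ ∀ w ∈ S, c v w = a})
      (B := {n : ℕ | ∀ c : Fin n → Fin n → Fin k,
          (∀ v w : Fin n, v ≠ w → c v w = c w v) →
          ∃ v : Fin n, ∃ a : Fin k, ∃ S : Finset (Fin n),
            S.card = s + 1 ∧ v ∉ S ∧ ∀ w ∈ S, c v w = a}) (N + 1)
      (by
        intro n hn
        refine ⟨fun _ _ => range k, fun _ _ _ => ⟨rfl, Finset.card_range k⟩, ?_⟩
        intro c hc
        obtain ⟨v, a, S, h1, h2, h3⟩ := hn
          (fun v w => if h : c v w < k then ⟨c v w, h⟩ else ⟨0, hk⟩)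
          (by
            intro v w hvw
            simp only [(hc v w hvw).1])
        refine ⟨v, a, S, h1, h2, ?_⟩
        intro w hw
        have hvw : v ≠ w := by
          rintro rfl
          exact h2 hw
        have h4 := h3 w hw
        have h5 : c v w < k := Finset.mem_range.1 (hc v w hvw).2
        simp only [dif_pos h5] at h4
        exact congrArg Fin.val h4)
      hU
      (by
        rintro n hn ⟨L, hL, hbad⟩
        obtain ⟨c, hc1, hc2⟩ := split hk (hG.mono (by omega : n ≤ N)) L hL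
        obtain ⟨v, a, S, h1, h2, h3⟩ := hbad c hc1
        have := hc2 v a S h2 h3
        omega)
    rw [h.1, h.2]
  rcases Nat.even_or_odd' s with ⟨c, rfl | rfl⟩
  · exact key _ (good_even k c) (fun col _ => upper k (2 * c) col)
  · have hc : 1 ≤ c := by omega
    rcases Nat.even_or_odd' k with ⟨j, hj | hj⟩
    · have e : 2 * (j * (2 * c + 1)) = k * (2 * c + 1) := by rw [hj]; ring
      have hG := good_odd k c (j * (2 * c + 1)) hk hc (by omega) (by omega)
      rw [e] at hG
      exact key _ hG (fun col hcol => upper_parity k (2 * c + 1) hk ⟨j, by omega⟩ ⟨c, rfl⟩ col hcol)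
    · have e : 2 * (j * (2 * c + 1) + c + 1) = k * (2 * c + 1) + 1 := by rw [hj]; ring
      have hG := good_odd k c (j * (2 * c + 1) + c + 1) hk hc (by omega) (by omega)
      rw [e] at hG
      exact key _ hG (fun col _ => upper k (2 * c + 1) col)

end Pool.Agent.H214Z.LR
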